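import Pool.Agent.LibPL63.V0
import Pool.Agent.LibLG5.NT
import Pool.Agent.LibRG87.R9

/-!
Row V1 (V facts with constant 2). `z` large, uniformly in the prime `p1` (`wf z → ∞`: `wf_tendsto`).
-/

open Finset Filter

namespace Pool.Agent.LibPL63

open Pool.Agent.LibRG87 Pool.Agent.LibLG5

private theorem V1_VV (K : ℕ) : ∀ᶠ z : ℕ in atTop, ∀ B : Finset ℕ, B.card ≤ K →
    (∀ a ∈ B, (a : ℝ) ≤ Real.log z ^ 2) →
      VV (wf z) z B ≤ 3 / 2 * V1 (wf z) z ^ B.card := by
  set δ : ℝ := 1 / (4 * ((K : ℝ) + 1)) with hδ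
  have hδ0 : 0 < δ := by positivity
  filter_upwards [VV_union (K + 1) hδ0] with z hz
  have key : ∀ B : Finset ℕ, B.card ≤ K → (∀ a ∈ B, (a : ℝ) ≤ Real.log z ^ 2) →
      VV (wf z) z B ≤ (1 + δ) ^ B.card * V1 (wf z) z ^ B.card := by
    intro B
    induction B using Finset.induction_on with
    | empty =>
      intro _ _
      rw [VV_empty]
      simp
    | insert a B ha ih =>
      intro hB hN
      rw [Finset.card_insert_of_notMem ha] at hB ⊢
      have ih' := ih (by omega) fun x hx => hN x (Finset.mem_insert_of_mem hx)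
      have h1 := hz {a} B (by simp) (by omega) (by
        rw [Finset.disjoint_singleton_left]
        exact ha) (by
        intro x hx
        rw [← Finset.insert_eq] at hx
        exact hN x hx)
      rw [← Finset.insert_eq, VV_singleton] at h1
      have hV := V1_pos (wf z) z
      calc VV (wf z) z (insert a B) ≤ (1 + δ) * V1 (wf z) z * VV (wf z) z B := h1
        _ ≤ (1 + δ) * V1 (wf z) z * ((1 + δ) ^ #B * V1 (wf z) z ^ #B) :=
            mul_le_mul_of_nonneg_left ih' (by positivity)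
        _ = (1 + δ) ^ (#B + 1) * V1 (wf z) z ^ (#B + 1) := by ring
  intro B hB hN
  refine (key B hB hN).trans ?_
  refine mul_le_mul_of_nonneg_right ?_ (pow_nonneg (V1_pos _ _).le _)
  calc (1 + δ) ^ #B ≤ (1 + δ) ^ K := pow_le_pow_right₀ (by linarith) hB
    _ ≤ Real.exp δ ^ K := by
        refine pow_le_pow_left₀ (by linarith) ?_ _
        rw [add_comm]
        exact Real.add_one_le_exp _
    _ = Real.exp (K * δ) := by rw [Real.exp_nat_mul]
    _ ≤ Real.exp (1 / 4) := by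
        refine Real.exp_le_exp.2 ?_
        rw [hδ, mul_one_div, div_le_div_iff₀ (by positivity) (by norm_num)]
        linarith
    _ ≤ 3 / 2 := by
        rw [← pow_le_pow_iff_left₀ (Real.exp_pos _).le (by norm_num) (n := 4) (by norm_num)]
        have h1 : Real.exp (1 / 4) ^ 4 = Real.exp 1 := by
          rw [← Real.exp_nat_mul]
          congr 1
          norm_num
        rw [h1]
        have h2 := Real.exp_one_lt_d9
        norm_num at h2 ⊢
        linarith

theorem VP_le_pow (K : ℕ) : ∀ᶠ z : ℕ in atTop, ∀ p1 : ℕ, p1.Prime → ∀ B : Finset ℕ, B.card ≤ K →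
    (∀ a ∈ B, (a : ℝ) ≤ Real.log z ^ 2) → VP (P0 z p1) B ≤ 2 * V1p (P0 z p1) ^ B.card := by
  filter_upwards [V1_VV K, wf_tendsto.eventually_ge_atTop (4 * K + 4)] with z hz hw
  intro p1 hp1 B hB hN
  have h := hz B hB hN
  have hV : 0 < V1p (P0 z p1) := V1p_pos _ fun p hp => (mem_P0.1 hp).2.1
  by_cases hmem : p1 ∈ PP (wf z) z
  · have hp1w : wf z < p1 := by
      unfold PP at hmem
      rw [Finset.mem_filter, Finset.mem_Ioc] at hmem
      exact hmem.1.1
    have e1 : VV (wf z) z B = (1 - (nuP B p1 : ℝ) / p1) * VP (P0 z p1) B :=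
      (Finset.mul_prod_erase (PP (wf z) z) (fun p : ℕ => 1 - (nuP B p : ℝ) / p) hmem).symm
    have e2 : V1 (wf z) z = (1 - 1 / (p1 : ℝ)) * V1p (P0 z p1) :=
      (Finset.mul_prod_erase (PP (wf z) z) (fun p : ℕ => 1 - 1 / (p : ℝ)) hmem).symm
    have hp0 : (0 : ℝ) < p1 := by exact_mod_cast hp1.pos
    have h2 : (nuP B p1 : ℝ) / p1 ≤ 1 / 4 := by
      rw [div_le_iff₀ hp0]
      have h3 : 4 * nuP B p1 ≤ p1 := by
        have := (nuP_le B hp1.pos).2
        omega
      have h4 : (4 : ℝ) * nuP B p1 ≤ p1 := by exact_mod_cast h3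
      linarith
    have h3 : V1 (wf z) z ≤ V1p (P0 z p1) := by
      rw [e2]
      have h4 : 1 - 1 / (p1 : ℝ) ≤ 1 := by
        have : 0 ≤ 1 / (p1 : ℝ) := by positivity
        linarith
      nlinarith
    have h5 : V1 (wf z) z ^ B.card ≤ V1p (P0 z p1) ^ B.card :=
      pow_le_pow_left₀ (V1_pos _ _).le h3 _
    have h6 : 0 ≤ VP (P0 z p1) B := VP_nonneg _ (fun p hp => (mem_P0.1 hp).2.1) B
    rw [e1] at h
    nlinarith
  · have e0 : P0 z p1 = PP (wf z) z := Finset.erase_eq_of_notMem hmem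
    have e1 : VP (P0 z p1) B = VV (wf z) z B := by
      rw [e0]
      rfl
    have e2 : V1p (P0 z p1) = V1 (wf z) z := by
      rw [e0]
      rfl
    rw [e1, e2]
    have := pow_pos (V1_pos (wf z) z) B.card
    linarith

private theorem V1_weier (s : Finset ℕ) (f : ℕ → ℝ) (hf : ∀ p ∈ s, 0 ≤ f p ∧ f p ≤ 1) :
    1 - ∑ p ∈ s, f p ≤ ∏ p ∈ s, (1 - f p) := by
  induction s using Finset.induction_on with
  | empty => simp
  | insert a s ha ih =>
    rw [Finset.sum_insert ha, Finset.prod_insert ha]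
    have ih' := ih fun p hp => hf p (Finset.mem_insert_of_mem hp)
    have h1 := hf a (Finset.mem_insert_self _ _)
    have h2 : 0 ≤ ∑ p ∈ s, f p :=
      Finset.sum_nonneg fun p hp => (hf p (Finset.mem_insert_of_mem hp)).1
    have h3 : (1 - f a) * (1 - ∑ p ∈ s, f p) ≤ (1 - f a) * ∏ p ∈ s, (1 - f p) :=
      mul_le_mul_of_nonneg_left ih' (by linarith)
    nlinarith [mul_nonneg h1.1 h2]

/-- one factor -/
private theorem V1_factor {K k : ℕ} (hk : k ≤ K) {p : ℝ} (hp : (K : ℝ) + 2 ≤ p) :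
    (1 - 1 / p) ^ k * (1 - (K : ℝ) ^ 2 * (1 / (p - 1) ^ 2)) ≤ 1 - (k : ℝ) / p := by
  have hK0 : (0 : ℝ) ≤ K := Nat.cast_nonneg K
  have hk0 : (0 : ℝ) ≤ k := Nat.cast_nonneg k
  have hkK : (k : ℝ) ≤ K := by exact_mod_cast hk
  have hp1 : 0 < p - 1 := by linarith
  have hp0 : 0 < p := by linarith
  have h1 : 1 - 1 / p = (1 + 1 / (p - 1))⁻¹ := by
    field_simp
    ring
  have h2 : 1 + (k : ℝ) * (1 / (p - 1)) ≤ (1 + 1 / (p - 1)) ^ k :=
    one_add_mul_le_pow (by
      have : 0 ≤ 1 / (p - 1) := by positivity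
      linarith) k
  have h3 : (1 - 1 / p) ^ k ≤ (p - 1) / (p - 1 + k) := by
    rw [h1, inv_pow]
    have h4 : (p - 1) / (p - 1 + k) = (1 + (k : ℝ) * (1 / (p - 1)))⁻¹ := by
      field_simp
    rw [h4]
    exact inv_anti₀ (by positivity) h2
  have hnn : 0 ≤ 1 - (K : ℝ) ^ 2 * (1 / (p - 1) ^ 2) := by
    rw [mul_one_div, sub_nonneg, div_le_one (by positivity)]
    exact pow_le_pow_left₀ hK0 (by linarith) 2
  refine (mul_le_mul_of_nonneg_right h3 hnn).trans ?_
  have h5 : (k : ℝ) * (k - 1) / (p * (p - 1)) ≤ (K : ℝ) ^ 2 * (1 / (p - 1) ^ 2) := by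
    rw [mul_one_div, div_le_div_iff₀ (by positivity) (by positivity)]
    have h6 : (k : ℝ) * (k - 1) ≤ (K : ℝ) ^ 2 := by nlinarith
    have h7 : (k : ℝ) * (k - 1) * (p - 1) ^ 2 ≤ (K : ℝ) ^ 2 * (p - 1) ^ 2 :=
      mul_le_mul_of_nonneg_right h6 (by positivity)
    have h8 : (K : ℝ) ^ 2 * (p - 1) ^ 2 ≤ (K : ℝ) ^ 2 * (p * (p - 1)) := by
      refine mul_le_mul_of_nonneg_left ?_ (by positivity)
      nlinarith
    linarith
  have h9 : 1 - (k : ℝ) / p = (p - 1) / (p - 1 + k) * (1 - (k : ℝ) * (k - 1) / (p * (p - 1))) := by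
    have h10 : p - 1 + k ≠ 0 := by positivity
    field_simp
    ring
  rw [h9]
  exact mul_le_mul_of_nonneg_left (by linarith) (by positivity)

theorem VP_ge_pow (K : ℕ) : ∀ᶠ z : ℕ in atTop, ∀ p1 : ℕ, p1.Prime → ∀ B : Finset ℕ, B.card ≤ K →
    V1p (P0 z p1) ^ B.card / 2 ≤ VP (P0 z p1) B := by
  filter_upwards [wf_tendsto.eventually_ge_atTop (2 * K ^ 2 + K + 3)] with z hw
  intro p1 _ B hB
  have hP : ∀ p ∈ P0 z p1, p.Prime := fun p hp => (mem_P0.1 hp).2.1
  have hPw : ∀ p ∈ P0 z p1, wf z < p := fun p hp => (mem_P0.1 hp).2.2.1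
  have hbig : ∀ p ∈ P0 z p1, (K : ℝ) + 2 ≤ p := by
    intro p hp
    have h1 := hPw p hp
    have h2 : K + 2 ≤ p := by nlinarith
    exact_mod_cast h2
  have hV : 0 < V1p (P0 z p1) := V1p_pos _ hP
  have h1 : V1p (P0 z p1) ^ B.card * ∏ p ∈ P0 z p1, (1 - (K : ℝ) ^ 2 * (1 / ((p : ℝ) - 1) ^ 2)) ≤
      VP (P0 z p1) B := by
    unfold V1p VP
    rw [← Finset.prod_pow, ← Finset.prod_mul_distrib]
    refine Finset.prod_le_prod (fun p hp => ?_) fun p hp => ?_
    · have h2 := hbig p hp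
      have hK0 : (0 : ℝ) ≤ K := Nat.cast_nonneg K
      refine mul_nonneg (pow_nonneg ?_ _) ?_
      · rw [sub_nonneg, div_le_one (by linarith)]
        linarith
      · rw [mul_one_div, sub_nonneg, div_le_one (pow_pos (by linarith) 2)]
        exact pow_le_pow_left₀ hK0 (by linarith) 2
    · refine (V1_factor hB (hbig p hp)).trans ?_
      have h3 : (nuP B p : ℝ) ≤ (B.card : ℝ) := by exact_mod_cast (nuP_le B (hP p hp).pos).2
      have hp0 : (0 : ℝ) < p := by exact_mod_cast (hP p hp).pos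
      have h4 : (nuP B p : ℝ) / p ≤ (B.card : ℝ) / p := div_le_div_of_nonneg_right h3 hp0.le
      linarith
  have h2 : (1 : ℝ) / 2 ≤ ∏ p ∈ P0 z p1, (1 - (K : ℝ) ^ 2 * (1 / ((p : ℝ) - 1) ^ 2)) := by
    refine le_trans ?_ (V1_weier _ _ fun p hp => ?_)
    · rw [← Finset.mul_sum]
      have h3 := sum_inv_sq (P0 z p1) (by omega : 2 ≤ wf z) hPw
      have h4 : (K : ℝ) ^ 2 * (1 / ((wf z : ℝ) - 1)) ≤ 1 / 2 := by
        have h5 : (2 : ℝ) * K ^ 2 + K + 3 ≤ wf z := by exact_mod_cast hw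
        have hK0 : (0 : ℝ) ≤ K := Nat.cast_nonneg K
        rw [mul_one_div, div_le_div_iff₀ (by nlinarith [sq_nonneg (K : ℝ)]) (by norm_num)]
        nlinarith
      have h6 := mul_le_mul_of_nonneg_left h3 (sq_nonneg (K : ℝ))
      linarith
    · have h2 := hbig p hp
      have hK0 : (0 : ℝ) ≤ K := Nat.cast_nonneg K
      refine ⟨by positivity, ?_⟩
      rw [mul_one_div, div_le_one (pow_pos (by linarith) 2)]
      exact pow_le_pow_left₀ hK0 (by linarith) 2
  have h3 := mul_le_mul_of_nonneg_left h2 (pow_pos hV B.card).le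
  linarith

end Pool.Agent.LibPL63
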