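import Pool.Agent.LibPL63.V0
import Pool.Agent.LibLG5.NT

/-!
Row V2 (Mertens bounds).
`mert_upper`: `(φ(Wp)/Wp) V1p = ∏_{p ≤ z, p ≠ p1} (1 - 1/p)` and `1 - 1/p1 ≥ 1/2`; `∏_{p ≤ z} (1-1/p) ≤ 1/log z` is `LibLG5.NT_V` with `w = z`
(or `w = 0`; `NT_primorial`). Unless `p1 ≤ z` nothing is removed.
`mert_lower`: `∏_{p ≤ z} (1 - 1/p) ≥ c/log z`: `LibLG5.nt_mertens_upper` (file LibLG5/NTa.lean); removing `p1` only increases the product.
`V1p_ge`: `φ(Wp) ≤ Wp`.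
-/

open Finset Filter

namespace Pool.Agent.LibPL63

open Pool.Agent.LibRG87 Pool.Agent.LibLG5

private theorem V2_fac {p : ℕ} (hp : p.Prime) :
    (1 : ℝ) / 2 ≤ 1 - 1 / (p : ℝ) ∧ 1 - 1 / (p : ℝ) ≤ 1 := by
  have hp1 : (2 : ℝ) ≤ p := by exact_mod_cast hp.two_le
  have h2 : 1 / (p : ℝ) ≤ 1 / 2 := one_div_le_one_div_of_le (by norm_num) hp1
  have h3 : 0 ≤ 1 / (p : ℝ) := by positivity
  constructor
  · linarith
  · linarith

private theorem V2_tot (z p1 : ℕ) : ((Wp z p1).totient : ℝ) / (Wp z p1 : ℝ) =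
    ∏ p ∈ (PP 0 (wf z)).erase p1, (1 - 1 / (p : ℝ)) := by
  have h1 := Nat.totient_eq_mul_prod_factors (Wp z p1)
  have h2 : (Wp z p1).primeFactors = (PP 0 (wf z)).erase p1 := by
    unfold Wp
    exact Nat.primeFactors_prod fun p hp => (nt_mem.1 (Finset.mem_of_mem_erase hp)).2.2
  rw [h2] at h1
  have h0 : (0 : ℝ) < Wp z p1 := by exact_mod_cast Wp_pos z p1
  have h3 : ((Wp z p1).totient : ℝ) =
      (Wp z p1 : ℝ) * ∏ p ∈ (PP 0 (wf z)).erase p1, (1 - 1 / (p : ℝ)) := by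
    have h4 := congrArg (fun x : ℚ => (x : ℝ)) h1
    push_cast at h4
    rw [h4]
    congr 1
    refine Finset.prod_congr rfl fun p _ => ?_
    rw [one_div]
  rw [h3]
  field_simp

private theorem V2_wf (z : ℕ) : wf z ≤ z :=
  (Nat.div_le_self _ _).trans ((Nat.log_le_self _ _).trans (Nat.log_le_self _ _))

private theorem V2_all (z p1 : ℕ) : ((Wp z p1).totient : ℝ) / (Wp z p1 : ℝ) * V1p (P0 z p1) =
    ∏ p ∈ (PP 0 z).erase p1, (1 - 1 / (p : ℝ)) := by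
  have hsplit : (PP 0 z).erase p1 = (PP 0 (wf z)).erase p1 ∪ (PP (wf z) z).erase p1 := by
    ext p
    have h1 := V2_wf z
    simp only [Finset.mem_union, Finset.mem_erase, nt_mem]
    constructor
    · rintro ⟨h2, h3, h4, h5⟩
      rcases le_or_gt p (wf z) with h6 | h6
      · exact Or.inl ⟨h2, h3, h6, h5⟩
      · exact Or.inr ⟨h2, h6, h4, h5⟩
    · rintro (⟨h2, h3, h4, h5⟩ | ⟨h2, h3, h4, h5⟩)
      · exact ⟨h2, h3, h4.trans h1, h5⟩
      · exact ⟨h2, by omega, h4, h5⟩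
  have hdisj : Disjoint ((PP 0 (wf z)).erase p1) ((PP (wf z) z).erase p1) := by
    rw [Finset.disjoint_left]
    intro p hp hp'
    rw [Finset.mem_erase, nt_mem] at hp hp'
    omega
  rw [V2_tot, V1p, P0, ← Finset.prod_union hdisj, ← hsplit]

private theorem V2_pos (z : ℕ) : 0 < ∏ p ∈ PP 0 z, (1 - 1 / (p : ℝ)) :=
  Finset.prod_pos fun p hp => by
    have := (V2_fac (nt_mem.1 hp).2.2).1
    linarith

private theorem V2_erase (z p1 : ℕ) (hp1 : p1.Prime) :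
    ∏ p ∈ PP 0 z, (1 - 1 / (p : ℝ)) ≤ ∏ p ∈ (PP 0 z).erase p1, (1 - 1 / (p : ℝ)) ∧
    ∏ p ∈ (PP 0 z).erase p1, (1 - 1 / (p : ℝ)) ≤ 2 * ∏ p ∈ PP 0 z, (1 - 1 / (p : ℝ)) := by
  have h0 := V2_pos z
  by_cases h : p1 ∈ PP 0 z
  · have h1 := Finset.prod_erase_mul (PP 0 z) (fun p : ℕ => 1 - 1 / (p : ℝ)) h
    have h2 := V2_fac hp1
    have h3 : 0 ≤ ∏ p ∈ (PP 0 z).erase p1, (1 - 1 / (p : ℝ)) :=
      Finset.prod_nonneg fun p hp => by
        have := (V2_fac (nt_mem.1 (Finset.mem_of_mem_erase hp)).2.2).1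
        linarith
    constructor
    · rw [← h1]
      exact mul_le_of_le_one_right h3 h2.2
    · rw [← h1]
      nlinarith [mul_le_mul_of_nonneg_left h2.1 h3]
  · rw [Finset.erase_eq_of_notMem h]
    constructor
    · exact le_rfl
    · linarith

private theorem V2_le {z : ℕ} (hz : 2 ≤ z) :
    ∏ p ∈ PP 0 z, (1 - 1 / (p : ℝ)) ≤ 1 / Real.log z := by
  have h1 := NT_V hz (Nat.zero_le z)
  have h2 : primorial 0 = 1 := by decide
  rw [h2, Nat.totient_one] at h1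
  simpa [V1] using h1

private theorem V2_range (z : ℕ) : PP 0 z = (Finset.range (z + 1)).filter Nat.Prime := by
  ext p
  rw [nt_mem, Finset.mem_filter, Finset.mem_range]
  constructor
  · rintro ⟨_, h2, h3⟩
    exact ⟨by omega, h3⟩
  · rintro ⟨h2, h3⟩
    exact ⟨h3.pos, by omega, h3⟩

theorem mert_upper : ∀ᶠ z : ℕ in atTop, ∀ p1 : ℕ, p1.Prime →
    ((Wp z p1).totient : ℝ) / (Wp z p1 : ℝ) * V1p (P0 z p1) ≤ 2 / Real.log z := by
  filter_upwards [eventually_ge_atTop 2] with z hz p1 hp1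
  rw [V2_all]
  have h1 := (V2_erase z p1 hp1).2
  have h2 := V2_le hz
  calc _ ≤ 2 * ∏ p ∈ PP 0 z, (1 - 1 / (p : ℝ)) := h1
    _ ≤ 2 * (1 / Real.log z) := by linarith
    _ = 2 / Real.log z := by ring

theorem mert_lower : ∃ c : ℝ, 0 < c ∧ ∀ᶠ z : ℕ in atTop, ∀ p1 : ℕ, p1.Prime →
    c / Real.log z ≤ ((Wp z p1).totient : ℝ) / (Wp z p1 : ℝ) * V1p (P0 z p1) := by
  obtain ⟨c, hc, h⟩ := Z_mertens
  refine ⟨c, hc, ?_⟩
  filter_upwards [eventually_ge_atTop 2] with z hz p1 hp1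
  rw [V2_all]
  refine le_trans ?_ (V2_erase z p1 hp1).1
  rw [V2_range]
  exact h z hz

theorem V1p_ge : ∃ c : ℝ, 0 < c ∧ ∀ᶠ z : ℕ in atTop, ∀ p1 : ℕ, p1.Prime →
    c / Real.log z ≤ V1p (P0 z p1) := by
  obtain ⟨c, hc, h⟩ := mert_lower
  refine ⟨c, hc, ?_⟩
  filter_upwards [h] with z hz p1 hp1
  refine (hz p1 hp1).trans ?_
  have h0 : (0 : ℝ) < Wp z p1 := by exact_mod_cast Wp_pos z p1
  have h1 : ((Wp z p1).totient : ℝ) / (Wp z p1 : ℝ) ≤ 1 := by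
    rw [div_le_one h0]
    exact_mod_cast Nat.totient_le _
  refine mul_le_of_le_one_left (V1p_pos _ fun p hp => ?_).le h1
  exact (mem_P0.1 hp).2.1

end Pool.Agent.LibPL63
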