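import Pool.Agent.LibPL63.Defs
import Pool.Agent.LibLG5.SS

/-!
Row V0 (basic facts on `Wp`, `P0`, `PL`, `rhoP`, `VP`, `V1p`).
-/

open Finset Filter

namespace Pool.Agent.LibPL63

open Pool.Agent.LibRG87 Pool.Agent.LibLG5

theorem mem_P0 {z p1 p : ℕ} : p ∈ P0 z p1 ↔ p ≠ p1 ∧ p.Prime ∧ wf z < p ∧ p ≤ z := by
  unfold P0 PP
  rw [Finset.mem_erase, Finset.mem_filter, Finset.mem_Ioc]
  tauto

theorem mem_PL {z k1 p1 p : ℕ} : p ∈ PL z k1 p1 ↔ p ≠ p1 ∧ p.Prime ∧ z < p ∧ p ≤ z ^ k1 := by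
  unfold PL PP
  rw [Finset.mem_erase, Finset.mem_filter, Finset.mem_Ioc]
  tauto

private theorem V0_mem {z p1 p : ℕ} :
    p ∈ (PP 0 (wf z)).erase p1 ↔ p ≠ p1 ∧ p.Prime ∧ p ≤ wf z := by
  unfold PP
  rw [Finset.mem_erase, Finset.mem_filter, Finset.mem_Ioc]
  constructor
  · rintro ⟨h1, ⟨_, h2⟩, h3⟩
    exact ⟨h1, h3, h2⟩
  · rintro ⟨h1, h3, h2⟩
    exact ⟨h1, ⟨h3.pos, h2⟩, h3⟩

theorem Wp_pos (z p1 : ℕ) : 0 < Wp z p1 := by
  unfold Wp
  exact Finset.prod_pos fun p hp => (V0_mem.1 hp).2.1.pos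

theorem dvd_Wp {z p1 p : ℕ} (hp : p.Prime) : p ∣ Wp z p1 ↔ p ≤ wf z ∧ p ≠ p1 := by
  unfold Wp
  rw [hp.prime.dvd_finsetProd_iff]
  constructor
  · rintro ⟨q, hq, hpq⟩
    have h := V0_mem.1 hq
    have h1 : p = q := (Nat.prime_dvd_prime_iff_eq hp h.2.1).1 hpq
    subst h1
    exact ⟨h.2.2, h.1⟩
  · rintro ⟨h1, h2⟩
    exact ⟨p, V0_mem.2 ⟨h2, hp, h1⟩, dvd_rfl⟩

theorem squarefree_Wp (z p1 : ℕ) : Squarefree (Wp z p1) := by
  unfold Wp
  refine Finset.squarefree_prod_of_pairwise_isCoprime (fun p hp q hq hpq => ?_) fun p hp => ?_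
  · have h1 := (V0_mem.1 (Finset.mem_coe.1 hp)).2.1
    have h2 := (V0_mem.1 (Finset.mem_coe.1 hq)).2.1
    exact Nat.coprime_iff_isRelPrime.1 ((Nat.coprime_primes h1 h2).2 hpq)
  · exact (V0_mem.1 hp).2.1.squarefree

private theorem V0_dvd_primorial (z p1 : ℕ) : Wp z p1 ∣ primorial (wf z) := by
  unfold Wp primorial
  refine Finset.prod_dvd_prod_of_subset _ _ _ fun p hp => ?_
  have h := V0_mem.1 hp
  rw [Finset.mem_filter, Finset.mem_range]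
  exact ⟨Nat.lt_succ_of_le h.2.2, h.2.1⟩

theorem Wp_le {z : ℕ} (hz : 4 ≤ z) (p1 : ℕ) : (Wp z p1 : ℝ) ^ 2 ≤ Real.log z / Real.log 2 := by
  refine le_trans ?_ (primorial_wf_le hz)
  have h1 : Wp z p1 ≤ primorial (wf z) := Nat.le_of_dvd (primorial_pos _) (V0_dvd_primorial z p1)
  exact pow_le_pow_left₀ (Nat.cast_nonneg _) (by exact_mod_cast h1) 2

theorem Wp_le_self {z : ℕ} (hz : 4 ≤ z) (p1 : ℕ) : Wp z p1 ≤ z := by
  have h1 := Wp_le hz p1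
  have h2 : (1 : ℝ) ≤ Wp z p1 := by exact_mod_cast Wp_pos z p1
  have hl2 : 0 < Real.log 2 := Real.log_pos (by norm_num)
  have h3 : Real.log z / Real.log 2 ≤ z := by
    rw [div_le_iff₀ hl2]
    have h4 : (z : ℝ) ≤ 2 ^ z := by exact_mod_cast (Nat.lt_two_pow_self (n := z)).le
    have h5 : Real.log z ≤ Real.log ((2 : ℝ) ^ z) :=
      Real.log_le_log (by positivity) h4
    rw [Real.log_pow] at h5
    exact h5
  have h6 : (Wp z p1 : ℝ) ≤ z := by nlinarith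
  exact_mod_cast h6

theorem nuP_le (B : Finset ℕ) {p : ℕ} (hp : 0 < p) : nuP B p ≤ p ∧ nuP B p ≤ B.card := by
  unfold nuP
  refine ⟨?_, Finset.card_image_le⟩
  have h : B.image (fun a => a % p) ⊆ Finset.range p := by
    intro x hx
    obtain ⟨a, _, rfl⟩ := Finset.mem_image.1 hx
    exact Finset.mem_range.2 (Nat.mod_lt _ hp)
  have h1 := Finset.card_le_card h
  rwa [Finset.card_range] at h1

theorem VP_nonneg (Pr : Finset ℕ) (hPr : ∀ p ∈ Pr, p.Prime) (B : Finset ℕ) : 0 ≤ VP Pr B := by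
  unfold VP
  refine Finset.prod_nonneg fun p hp => ?_
  have h1 := (nuP_le B (hPr p hp).pos).1
  have h2 : (nuP B p : ℝ) / p ≤ 1 := by
    rw [div_le_one (by exact_mod_cast (hPr p hp).pos)]
    exact_mod_cast h1
  linarith

theorem V1p_pos (Pr : Finset ℕ) (hPr : ∀ p ∈ Pr, p.Prime) : 0 < V1p Pr := by
  unfold V1p
  refine Finset.prod_pos fun p hp => ?_
  have h1 : (2 : ℝ) ≤ p := by exact_mod_cast (hPr p hp).two_le
  have h2 : 1 / (p : ℝ) < 1 := by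
    rw [div_lt_one (by linarith)]
    linarith
  linarith

theorem one_sub_xB (Pr B : Finset ℕ) (n : ℕ) : ∏ p ∈ Pr, (1 - xB B p n) = rhoP Pr B n := by
  unfold rhoP
  split_ifs with h
  · refine Finset.prod_eq_one fun p hp => ?_
    unfold xB
    rw [if_neg, sub_zero]
    rintro ⟨a, ha, hd⟩
    exact h a ha p hp hd
  · push Not at h
    obtain ⟨a, ha, p, hp, hd⟩ := h
    refine Finset.prod_eq_zero hp ?_
    unfold xB
    rw [if_pos ⟨a, ha, hd⟩, sub_self]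

theorem rhoP_nonneg (Pr B : Finset ℕ) (n : ℕ) : 0 ≤ rhoP Pr B n ∧ rhoP Pr B n ≤ 1 := by
  unfold rhoP
  split_ifs
  · exact ⟨zero_le_one, le_rfl⟩
  · exact ⟨le_rfl, zero_le_one⟩

theorem omU_nonneg (x : ℝ) (n : ℕ) : 0 ≤ omU x n := by
  unfold omU LibMaier.gw
  positivity

end Pool.Agent.LibPL63
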