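import Pool.Agent.LibPL63.Defs

/-!
Row M8 (parameters). `eps0 C k' b0 = C (C k')^(b0+1) e^{C k'}/(b0+1)!` with `k' = 2 a^I` fixed and `b0 = 2 D a^I (I+1) q0 → ∞` (at least `q0`) as `q0 → ∞`, and the other factor is a polynomial in `q0` of fixed degree:
`(b0+1)! ≥ ((b0+1)/e)^(b0+1)` (or: `x^n/n! → 0` faster than any power; e.g. `FloorSemiring.tendsto_pow_div_factorial_atTop` with `x = 2 C k'`, the factor `2^(-b0)` kills the polynomial).
-/

open Finset Filter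

namespace Pool.Agent.LibPL63

open Pool.Agent.LibRG87 Pool.Agent.LibLG5

private theorem M8_tend (K X : ℝ) :
    Tendsto (fun n : ℕ => K * (X ^ n / (n.factorial : ℝ))) atTop (nhds 0) := by
  have h := (FloorSemiring.tendsto_pow_div_factorial_atTop X).const_mul K
  rwa [mul_zero] at h

theorem params (a C D I : ℕ) (c e : ℝ) (ha : 2 ≤ a) (hC : 1 ≤ C) (hD : 1 ≤ D) (hI : 1 ≤ I)
    (hc : 0 < c) (he : 0 < e) (q1 : ℕ) : ∃ q0 : ℕ, q1 ≤ q0 ∧ 1 ≤ q0 ∧ 1 ≤ c * q0 ∧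
      eps0 C (2 * a ^ I) (2 * (D * a ^ I * (I + 1) * q0)) ≤ 1 ∧
      eps0 C (2 * a ^ I) (2 * (D * a ^ I * (I + 1) * q0)) *
        ((C * (q0 * a ^ I) : ℕ) : ℝ) ^ (C * (a ^ I + 1) ^ 2) ≤ e := by
  set X : ℝ := (C : ℝ) * ((2 * a ^ I : ℕ) : ℝ) with hX
  have hX0 : 0 ≤ X := by positivity
  set m := C * (a ^ I + 1) ^ 2 with hm
  set K1 : ℝ := (C : ℝ) * Real.exp X with hK1
  have hK10 : 0 ≤ K1 := by positivity
  set B : ℝ := ((C * a ^ I : ℕ) : ℝ) with hB
  have hB0 : 0 ≤ B := by positivity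
  have h1 := (M8_tend K1 X).eventually_lt_const (zero_lt_one)
  have h2 := (M8_tend (K1 * B ^ m * (m.factorial : ℝ)) (Real.exp 1 * X)).eventually_lt_const he
  obtain ⟨N1, hN1⟩ := eventually_atTop.1 h1
  obtain ⟨N2, hN2⟩ := eventually_atTop.1 h2
  obtain ⟨N3, hN3⟩ := exists_nat_ge (1 / c)
  set q0 := q1 + 1 + N1 + N2 + N3 with hq0
  set s := D * a ^ I * (I + 1) with hs
  have hs1 : 1 ≤ s := by
    have : 0 < s := by positivity
    exact this
  set N := 2 * (s * q0) + 1 with hN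
  have hNq : q0 ≤ N := by
    have : q0 ≤ s * q0 := Nat.le_mul_of_pos_left _ hs1
    omega
  have heps : eps0 C (2 * a ^ I) (2 * (s * q0)) = K1 * (X ^ N / (N.factorial : ℝ)) := by
    unfold eps0
    rw [hK1, hN, ← hX]
    ring
  have hfac : (0 : ℝ) < (N.factorial : ℝ) := by exact_mod_cast Nat.factorial_pos N
  refine ⟨q0, by omega, by omega, ?_, ?_, ?_⟩
  · have h3 : (N3 : ℝ) ≤ q0 := by exact_mod_cast (by omega : N3 ≤ q0)
    have h4 : 1 / c ≤ q0 := hN3.trans h3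
    rw [div_le_iff₀ hc] at h4
    linarith
  · rw [heps]
    exact (hN1 N (by omega)).le
  · rw [heps]
    have h5 : ((C * (q0 * a ^ I) : ℕ) : ℝ) = B * q0 := by
      rw [hB]
      push_cast
      ring
    have h6 : (q0 : ℝ) ^ m ≤ (m.factorial : ℝ) * Real.exp 1 ^ N := by
      have h7 : (q0 : ℝ) ^ m ≤ (N : ℝ) ^ m :=
        pow_le_pow_left₀ (Nat.cast_nonneg _) (by exact_mod_cast hNq) m
      have h8 := Real.pow_div_factorial_le_exp (N : ℝ) (Nat.cast_nonneg _) m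
      have hmf : (0 : ℝ) < (m.factorial : ℝ) := by exact_mod_cast Nat.factorial_pos m
      rw [div_le_iff₀ hmf] at h8
      rw [← Real.exp_nat_mul, mul_one]
      linarith
    calc K1 * (X ^ N / (N.factorial : ℝ)) * ((C * (q0 * a ^ I) : ℕ) : ℝ) ^ m
        = K1 * (X ^ N / (N.factorial : ℝ)) * (B ^ m * (q0 : ℝ) ^ m) := by rw [h5, mul_pow B]
      _ ≤ K1 * (X ^ N / (N.factorial : ℝ)) * (B ^ m * ((m.factorial : ℝ) * Real.exp 1 ^ N)) := by
          gcongr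
      _ = K1 * B ^ m * (m.factorial : ℝ) * ((Real.exp 1 * X) ^ N / (N.factorial : ℝ)) := by
          rw [mul_pow (Real.exp 1)]
          ring
      _ ≤ e := (hN2 N (by omega)).le

end Pool.Agent.LibPL63
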