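import Pool.Agent.LibPL63.M1
import Pool.Agent.LibRG87.R1

/-!
Row M3. `yM² / ph (sp β) ≤ ∏_i g1(fb β i)² / ph (fb β i)` (`ph_sp`), drop the condition (nonnegative), `LibRG87.sum_beta_le` and `sum_fam_prod`.
-/

open Finset Filter

namespace Pool.Agent.LibPL63

open Pool.Agent.LibRG87 Pool.Agent.LibLG5

theorem DD_yM_le {ι : Type} [Fintype ι] [DecidableEq ι] (P : Finset ℕ) (hP : ∀ p ∈ P, p.Prime)
    (z q0 a I L : ℕ) :
    DD P (yM P z q0 a I L : (P → Option ι) → ℝ) ≤ G2s P z q0 a I ^ Fintype.card ι := by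
  have hsplit : ∀ β : P → Option ι, yM P z q0 a I L β ^ 2 / ph (sp P β) ≤
      ∏ i, (g1 z q0 a I (fb P β i) ^ 2 / ph (fb P β i)) := by
    intro β
    have hph : 0 < ph (sp P β) := ph_pos P hP (sp_subset P β)
    rw [Finset.prod_div_distrib, ← ph_sp, Finset.prod_pow]
    unfold yM
    split_ifs
    · exact le_rfl
    · rw [zero_pow two_ne_zero, zero_div]
      positivity
  unfold DD
  refine (Finset.sum_le_sum fun β _ => hsplit β).trans ?_
  refine (sum_beta_le P (fun A => ∏ i, (g1 z q0 a I (A i) ^ 2 / ph (A i))) ?_).trans ?_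
  · intro A hA
    refine Finset.prod_nonneg fun i _ => ?_
    have hAi := Finset.mem_powerset.1 (Fintype.mem_piFinset.1 hA i)
    exact div_nonneg (sq_nonneg _) (ph_pos P hP hAi).le
  · rw [sum_fam_prod P (fun A => g1 z q0 a I A ^ 2 / ph A)]
    exact le_of_eq rfl

end Pool.Agent.LibPL63
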