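import Pool.Agent.LibPL63.M1
import Pool.Agent.LibRG87.R1
import Pool.Agent.LibRG87.R2
import Pool.Agent.LibRG87.R3
import Pool.Agent.LibRG87.R9

/-!
Row M5 (lower bound for the collapsed diagonal). Write `k = card ι`, `F A = g1 A²/ph A`, `∑ F = G2s`, `∑ F log rr = L2s`.
(1) Restrict to the `β` avoiding `i0` with `rr (sp β) ≤ z^L'`. Then every `A ⊆ P \ sp β` with `g1 A ≠ 0` has `rr A ≤ z^(q0 a^I) ≤ z^L'`, so the inner sum of `yC` (level `z^(2L')`) is
`∑_{A ⊆ P \ sp β} g1 A/ph A ≥ G1s / ∏_{p ∈ sp β} (1 + 1/(p-1)) ≥ G1s/2`: `G1s = ∑_{B ⊆ S} ∑_{A ⊆ P \ S} g1 (A ∪ B)/(ph A ph B) ≤ ∏_{p∈S} (1 + 1/(p-1)) ∑_A g1 A/ph A` (`g1_anti`),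
`|sp β| ≤ L'` (primes `> z`) and `(1 + 1/z)^L' ≤ 2`.
(2) `∑ ∏_{i ≠ i0} F (fb β i)` over these `β` is at least `G2s^(k-1) (1 - 1/4 - 1/4)`: the `β` avoiding `i0` are the configurations with values in `ι' = {i // i ≠ i0}`
(`card ι' = k - 1`); `sum_beta_ge` for `ι'` (`∑_{A ∋ p} F A ≤ ∑ F/(p-1)` by `g1_anti`; `(k-1)² ∑ 1/(p-1)² ≤ k²/(z-1) ≤ 1/4` by `sum_inv_sq`), and the `β` with `rr (sp β) > z^L'` cost at most
`markov'` = `(k-1) G2s^(k-2) L2s / (L' log z) ≤ G2s^(k-1)/4` by the hypothesis `h2` (`8 k L2s ≤ G2s 2 L' log z`).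
(3) total `≥ (G1s/2)² G2s^(k-1)/2`.
`markov'` is `LibRG87.markov` (row R3) without the last step of its proof.
-/

open Finset Filter

namespace Pool.Agent.LibPL63

open Pool.Agent.LibRG87 Pool.Agent.LibLG5

variable {ι : Type} [Fintype ι] [DecidableEq ι] (P : Finset ℕ)

private theorem M5_inner (P : Finset ℕ) (F g : Finset ℕ → ℝ) (i : ι) :
    ∑ A ∈ Fintype.piFinset (fun _ : ι => P.powerset), g (A i) * ∏ j, F (A j) =
      (∑ A ∈ P.powerset, g A * F A) * (∑ A ∈ P.powerset, F A) ^ (Fintype.card ι - 1) := by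
  have h1 : ∀ A : ι → Finset ℕ, g (A i) * ∏ j, F (A j)
      = ∏ j, (if j = i then g (A j) * F (A j) else F (A j)) := by
    intro A
    rw [← Finset.mul_prod_erase Finset.univ _ (Finset.mem_univ i),
      ← Finset.mul_prod_erase Finset.univ (fun j => if j = i then g (A j) * F (A j) else F (A j))
        (Finset.mem_univ i)]
    rw [if_pos rfl, ← mul_assoc]
    congr 1
    apply Finset.prod_congr rfl
    intro j hj
    rw [if_neg (Finset.ne_of_mem_erase hj)]
  rw [Finset.sum_congr rfl (fun A _ => h1 A),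
    ← Finset.prod_univ_sum (fun _ : ι => P.powerset)
      (fun j A => if j = i then g A * F A else F A),
    ← Finset.mul_prod_erase Finset.univ _ (Finset.mem_univ i)]
  simp only [if_true]
  congr 1
  rw [Finset.prod_congr rfl (g := fun _ => ∑ A ∈ P.powerset, F A)]
  · rw [Finset.prod_const, Finset.card_erase_of_mem (Finset.mem_univ i), Finset.card_univ]
  · intro j hj
    simp only [if_neg (Finset.ne_of_mem_erase hj)]

open scoped Classical in
theorem markov' (hP : ∀ p ∈ P, Nat.Prime p) (F : Finset ℕ → ℝ) (hF : ∀ A ∈ P.powerset, 0 ≤ F A)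
    {T : ℝ} (hT : 1 < T) :
    ∑ A ∈ Fintype.piFinset (fun _ : ι => P.powerset) with T < ∏ i, rr (A i), ∏ i, F (A i) ≤
      Fintype.card ι * (∑ A ∈ P.powerset, F A) ^ (Fintype.card ι - 1) *
        (∑ A ∈ P.powerset, F A * Real.log (rr A)) / Real.log T := by
  have hlT : 0 < Real.log T := Real.log_pos hT
  have hl : ∀ A ∈ P.powerset, 0 ≤ Real.log (rr A) := fun A hA =>
    Real.log_nonneg (one_le_rr P hP (Finset.mem_powerset.1 hA))
  have hprod : ∀ A ∈ Fintype.piFinset (fun _ : ι => P.powerset), 0 ≤ ∏ i, F (A i) := by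
    intro A hA
    rw [Fintype.mem_piFinset] at hA
    exact Finset.prod_nonneg (fun i _ => hF _ (hA i))
  have hsl : ∀ A ∈ Fintype.piFinset (fun _ : ι => P.powerset), 0 ≤ ∑ i, Real.log (rr (A i)) := by
    intro A hA
    rw [Fintype.mem_piFinset] at hA
    exact Finset.sum_nonneg (fun i _ => hl _ (hA i))
  have step1 : ∑ A ∈ Fintype.piFinset (fun _ : ι => P.powerset) with T < ∏ i, rr (A i), ∏ i, F (A i) ≤
      ∑ A ∈ Fintype.piFinset (fun _ : ι => P.powerset),
        (∑ i, Real.log (rr (A i))) / Real.log T * ∏ j, F (A j) := by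
    rw [Finset.sum_filter]
    apply Finset.sum_le_sum
    intro A hA
    have hA' := hA
    rw [Fintype.mem_piFinset] at hA'
    split_ifs with h
    · have h2 : Real.log T ≤ ∑ i, Real.log (rr (A i)) := by
        rw [← Real.log_prod (fun i _ => (rr_pos P hP (Finset.mem_powerset.1 (hA' i))).ne')]
        exact Real.log_le_log (by linarith) h.le
      have h3 : 1 ≤ (∑ i, Real.log (rr (A i))) / Real.log T := (one_le_div hlT).2 h2
      calc ∏ i, F (A i) = 1 * ∏ i, F (A i) := (one_mul _).symm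
        _ ≤ _ := mul_le_mul_of_nonneg_right h3 (hprod A hA)
    · exact mul_nonneg (div_nonneg (hsl A hA) hlT.le) (hprod A hA)
  have step2 : ∑ A ∈ Fintype.piFinset (fun _ : ι => P.powerset),
        (∑ i, Real.log (rr (A i))) / Real.log T * ∏ j, F (A j)
      = (Fintype.card ι * ((∑ A ∈ P.powerset, Real.log (rr A) * F A)
        * (∑ A ∈ P.powerset, F A) ^ (Fintype.card ι - 1))) / Real.log T := by
    have h1 : ∀ A : ι → Finset ℕ, (∑ i, Real.log (rr (A i))) / Real.log T * ∏ j, F (A j)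
        = (∑ i, Real.log (rr (A i)) * ∏ j, F (A j)) / Real.log T := by
      intro A
      rw [← Finset.sum_mul]; ring
    rw [Finset.sum_congr rfl (fun A _ => h1 A), ← Finset.sum_div, Finset.sum_comm]
    congr 1
    rw [Finset.sum_congr rfl (fun i _ => M5_inner P F (fun A => Real.log (rr A)) i),
      Finset.sum_const, Finset.card_univ, nsmul_eq_mul]
  rw [step2] at step1
  refine step1.trans (le_of_eq ?_)
  have hcomm : ∑ A ∈ P.powerset, Real.log (rr A) * F A = ∑ A ∈ P.powerset, F A * Real.log (rr A) :=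
    Finset.sum_congr rfl (fun A _ => mul_comm _ _)
  rw [hcomm]
  congr 1
  ring

private theorem M5_rr_le (hP : ∀ p ∈ P, Nat.Prime p) {A B : Finset ℕ} (hB : B ⊆ P) (hAB : A ⊆ B) :
    rr A ≤ rr B := by
  unfold rr
  rw [← Finset.prod_sdiff hAB]
  have h1 : (1 : ℝ) ≤ ∏ p ∈ B \ A, (p : ℝ) :=
    one_le_rr P hP (A := B \ A) (Finset.sdiff_subset.trans hB)
  have h2 : (0 : ℝ) ≤ ∏ p ∈ A, (p : ℝ) := Finset.prod_nonneg fun p _ => Nat.cast_nonneg p
  nlinarith

/-- splitting a sum over subsets -/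
private theorem M5_split (S : Finset ℕ) (hS : S ⊆ P) (f : Finset ℕ → ℝ) :
    ∑ A ∈ P.powerset, f A = ∑ B ∈ S.powerset, ∑ A ∈ (P \ S).powerset, f (B ∪ A) := by
  rw [← Finset.sum_product']
  refine Finset.sum_nbij' (fun A => (A ∩ S, A \ S)) (fun x => x.1 ∪ x.2) ?_ ?_ ?_ ?_ ?_
  · intro A hA
    rw [Finset.mem_powerset] at hA
    rw [Finset.mem_product, Finset.mem_powerset, Finset.mem_powerset]
    exact ⟨Finset.inter_subset_right, Finset.sdiff_subset_sdiff hA le_rfl⟩
  · intro x hx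
    rw [Finset.mem_product, Finset.mem_powerset, Finset.mem_powerset] at hx
    rw [Finset.mem_powerset]
    exact Finset.union_subset (hx.1.trans hS) (hx.2.trans Finset.sdiff_subset)
  · intro A _
    show A ∩ S ∪ A \ S = A
    ext p
    simp only [Finset.mem_union, Finset.mem_inter, Finset.mem_sdiff]
    tauto
  · intro x hx
    rw [Finset.mem_product, Finset.mem_powerset, Finset.mem_powerset] at hx
    have h2 : ∀ p ∈ x.2, p ∉ S := fun p hp => (Finset.mem_sdiff.1 (hx.2 hp)).2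
    have h1 : ∀ p ∈ x.1, p ∈ S := fun p hp => hx.1 hp
    refine Prod.ext ?_ ?_
    · show (x.1 ∪ x.2) ∩ S = x.1
      ext p
      simp only [Finset.mem_union, Finset.mem_inter]
      constructor
      · rintro ⟨h | h, hs⟩
        · exact h
        · exact absurd hs (h2 p h)
      · intro h
        exact ⟨Or.inl h, h1 p h⟩
    · show (x.1 ∪ x.2) \ S = x.2
      ext p
      simp only [Finset.mem_union, Finset.mem_sdiff]
      constructor
      · rintro ⟨h | h, hs⟩
        · exact absurd (h1 p h) hs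
        · exact h
      · intro h
        exact ⟨Or.inr h, h2 p h⟩
  · intro A _
    congr 1
    ext p
    simp only [Finset.mem_union, Finset.mem_inter, Finset.mem_sdiff]
    tauto

private theorem M5_ph_union {A B : Finset ℕ} (h : Disjoint B A) : ph (B ∪ A) = ph B * ph A := by
  unfold ph
  exact Finset.prod_union h

private theorem M5_sum_inv_ph (S : Finset ℕ) :
    ∑ B ∈ S.powerset, 1 / ph B = ∏ p ∈ S, (1 + 1 / ((p : ℝ) - 1)) := by
  rw [Finset.prod_one_add]
  refine Finset.sum_congr rfl fun B _ => ?_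
  unfold ph
  rw [one_div, ← Finset.prod_inv_distrib]
  refine Finset.prod_congr rfl fun p _ => ?_
  rw [one_div]

/-- removing the primes of `S` from the sum -/
private theorem M5_G1s_le (z q0 a I : ℕ) (hP : ∀ p ∈ P, Nat.Prime p) (ha : 1 ≤ a) (S : Finset ℕ)
    (hS : S ⊆ P) :
    G1s P z q0 a I ≤ (∏ p ∈ S, (1 + 1 / ((p : ℝ) - 1))) *
      ∑ A ∈ (P \ S).powerset, g1 z q0 a I A / ph A := by
  unfold G1s
  rw [M5_split P S hS, ← M5_sum_inv_ph, Finset.sum_mul]
  refine Finset.sum_le_sum fun B hB => ?_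
  rw [Finset.mul_sum]
  refine Finset.sum_le_sum fun A hA => ?_
  rw [Finset.mem_powerset] at hA hB
  have hdis : Disjoint B A := by
    rw [Finset.disjoint_left]
    intro p h1 h2
    exact (Finset.mem_sdiff.1 (hA h2)).2 (hB h1)
  rw [M5_ph_union hdis]
  have hBP : B ⊆ P := hB.trans hS
  have hAP : A ⊆ P := hA.trans Finset.sdiff_subset
  have h1 := ph_pos P hP hBP
  have h2 := ph_pos P hP hAP
  have h3 : g1 z q0 a I (B ∪ A) ≤ g1 z q0 a I A :=
    g1_anti ha (M5_rr_le P hP (Finset.union_subset hBP hAP) Finset.subset_union_right)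
  have h4 : (1 : ℝ) / ph B * (g1 z q0 a I A / ph A) = g1 z q0 a I A / (ph B * ph A) := by
    rw [div_mul_div_comm, one_mul]
  rw [h4]
  exact div_le_div_of_nonneg_right h3 (mul_pos h1 h2).le

private theorem M5_card_le {z L' : ℕ} (hz : 2 ≤ z) (hP : ∀ p ∈ P, p.Prime ∧ z < p) (S : Finset ℕ)
    (hS : S ⊆ P) (h : rr S ≤ (z : ℝ) ^ L') : S.card ≤ L' := by
  have h1 : (z : ℝ) ^ S.card ≤ rr S := by
    unfold rr
    rw [← Finset.prod_const]
    refine Finset.prod_le_prod (fun p _ => Nat.cast_nonneg z) fun p hp => ?_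
    exact_mod_cast (hP p (hS hp)).2.le
  have h2 : (z : ℝ) ^ S.card ≤ (z : ℝ) ^ L' := h1.trans h
  have h3 : z ^ S.card ≤ z ^ L' := by exact_mod_cast h2
  exact (Nat.pow_le_pow_iff_right (by omega)).1 h3

private theorem M5_prod_le {z L' : ℕ} (hz : 2 * L' + 2 ≤ z) (hP : ∀ p ∈ P, p.Prime ∧ z < p)
    (S : Finset ℕ) (hS : S ⊆ P) (h : rr S ≤ (z : ℝ) ^ L') :
    ∏ p ∈ S, (1 + 1 / ((p : ℝ) - 1)) ≤ 2 := by
  have hc := M5_card_le P (by omega) hP S hS h
  have hz0 : (0 : ℝ) < (z : ℝ) := by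
    have : 0 < z := by omega
    exact_mod_cast this
  have h1 : ∏ p ∈ S, (1 + 1 / ((p : ℝ) - 1)) ≤ ∏ _p ∈ S, Real.exp (1 / (z : ℝ)) := by
    refine Finset.prod_le_prod (fun p hp => ?_) fun p hp => ?_
    · have h2 : (z : ℝ) + 1 ≤ (p : ℝ) := by exact_mod_cast (hP p (hS hp)).2
      have : (0 : ℝ) ≤ 1 / ((p : ℝ) - 1) := div_nonneg zero_le_one (by linarith)
      linarith
    · have h2 : (z : ℝ) + 1 ≤ (p : ℝ) := by exact_mod_cast (hP p (hS hp)).2
      have h3 : 1 / ((p : ℝ) - 1) ≤ 1 / (z : ℝ) := one_div_le_one_div_of_le hz0 (by linarith)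
      have h4 := Real.add_one_le_exp (1 / (z : ℝ))
      linarith
  rw [Finset.prod_const, ← Real.exp_nat_mul] at h1
  have h5 : (S.card : ℝ) * (1 / (z : ℝ)) ≤ 1 / 2 := by
    rw [mul_one_div, div_le_div_iff₀ hz0 two_pos, one_mul]
    have : S.card * 2 ≤ z := by omega
    exact_mod_cast this
  have h6 : Real.exp ((S.card : ℝ) * (1 / (z : ℝ))) ≤ Real.exp (1 / 2) := Real.exp_le_exp.2 h5
  have h7 : Real.exp (1 / 2) ≤ 2 := by
    have h8 : Real.exp (1 / 2) * Real.exp (1 / 2) = Real.exp 1 := by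
      rw [← Real.exp_add]
      norm_num
    have h9 := Real.exp_one_lt_d9
    have h10 := Real.exp_pos (1 / 2)
    by_contra h11
    push Not at h11
    nlinarith
  linarith

/-- the inner sum of `yC` -/
private theorem M5_inner_ge (z q0 a I L' : ℕ) (hP : ∀ p ∈ P, p.Prime ∧ z < p) (ha : 1 ≤ a)
    (hL : q0 * a ^ I ≤ L') (hz : 2 * L' + 2 ≤ z) (S : Finset ℕ) (hS : S ⊆ P)
    (h : rr S ≤ (z : ℝ) ^ L') (D : DecidablePred fun A : Finset ℕ => rr A * rr S ≤ (z : ℝ) ^ (2 * L')) :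
    G1s P z q0 a I / 2 ≤
      ∑ A ∈ (P \ S).powerset with rr A * rr S ≤ (z : ℝ) ^ (2 * L'), g1 z q0 a I A / ph A := by
  have hP' : ∀ p ∈ P, p.Prime := fun p hp => (hP p hp).1
  have hz1 : (1 : ℝ) ≤ (z : ℝ) := by
    have : 1 ≤ z := by omega
    exact_mod_cast this
  have hnn : ∀ A ∈ (P \ S).powerset, 0 ≤ g1 z q0 a I A / ph A := fun A hA =>
    div_nonneg (g1_nonneg _ _ _ _ _)
      (ph_pos P hP' ((Finset.mem_powerset.1 hA).trans Finset.sdiff_subset)).le
  have e : ∑ A ∈ (P \ S).powerset with rr A * rr S ≤ (z : ℝ) ^ (2 * L'), g1 z q0 a I A / ph A =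
      ∑ A ∈ (P \ S).powerset, g1 z q0 a I A / ph A := by
    refine Finset.sum_filter_of_ne fun A hA hne => ?_
    have hAP : A ⊆ P := (Finset.mem_powerset.1 hA).trans Finset.sdiff_subset
    have hg : g1 z q0 a I A ≠ 0 := by
      intro h0
      exact hne (by rw [h0, zero_div])
    have h1 : rr A ≤ (z : ℝ) ^ L' := (g1_ne hg).trans (pow_le_pow_right₀ hz1 hL)
    have h2 : (0 : ℝ) ≤ rr S := (rr_pos P hP' hS).le
    calc rr A * rr S ≤ (z : ℝ) ^ L' * (z : ℝ) ^ L' :=
          mul_le_mul h1 h h2 (pow_nonneg (by linarith) _)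
      _ = (z : ℝ) ^ (2 * L') := by rw [← pow_add, two_mul]
  rw [e]
  have h1 := M5_G1s_le P z q0 a I hP' ha S hS
  have h2 := M5_prod_le P hz hP S hS h
  have h3 : 0 ≤ ∑ A ∈ (P \ S).powerset, g1 z q0 a I A / ph A := Finset.sum_nonneg hnn
  have h4 := mul_le_mul_of_nonneg_right h2 h3
  linarith

/-- the sum over the sets which contain `p` -/
private theorem M5_sum_mem (z q0 a I : ℕ) (hP : ∀ p ∈ P, p.Prime) (ha : 1 ≤ a) (p : ℕ) (hp : p ∈ P)
    (D : DecidablePred fun A : Finset ℕ => p ∈ A) :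
    ∑ A ∈ P.powerset with p ∈ A, g1 z q0 a I A ^ 2 / ph A ≤
      (∑ A ∈ P.powerset, g1 z q0 a I A ^ 2 / ph A) / ((p : ℝ) - 1) := by
  have hp1 : (0 : ℝ) < (p : ℝ) - 1 := by
    have h2 : (1 : ℝ) < (p : ℝ) := by exact_mod_cast (hP p hp).one_lt
    linarith
  have hS : {p} ⊆ P := Finset.singleton_subset_iff.2 hp
  have hnn : ∀ A ∈ P.powerset, 0 ≤ g1 z q0 a I A ^ 2 / ph A := fun A hA =>
    div_nonneg (sq_nonneg _) (ph_pos P hP (Finset.mem_powerset.1 hA)).le
  have hpow : ({p} : Finset ℕ).powerset = {∅, {p}} := by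
    ext B
    rw [Finset.mem_powerset, Finset.subset_singleton_iff, Finset.mem_insert, Finset.mem_singleton]
  rw [Finset.sum_filter, M5_split P {p} hS, hpow, Finset.sum_pair (by
    intro h
    have : p ∈ (∅ : Finset ℕ) := by rw [h]; exact Finset.mem_singleton_self p
    exact absurd this (Finset.notMem_empty p))]
  have h1 : ∑ A ∈ (P \ {p}).powerset, (if p ∈ ∅ ∪ A then g1 z q0 a I (∅ ∪ A) ^ 2 / ph (∅ ∪ A) else 0) = 0 := by
    refine Finset.sum_eq_zero fun A hA => ?_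
    rw [if_neg]
    rw [Finset.empty_union]
    intro h
    exact (Finset.mem_sdiff.1 (Finset.mem_powerset.1 hA h)).2 (Finset.mem_singleton_self p)
  rw [h1, zero_add]
  have h2 : ∑ A ∈ (P \ {p}).powerset, (if p ∈ {p} ∪ A then g1 z q0 a I ({p} ∪ A) ^ 2 / ph ({p} ∪ A) else 0) ≤
      ∑ A ∈ (P \ {p}).powerset, (g1 z q0 a I A ^ 2 / ph A) / ((p : ℝ) - 1) := by
    refine Finset.sum_le_sum fun A hA => ?_
    rw [Finset.mem_powerset] at hA
    have hAP : A ⊆ P := hA.trans Finset.sdiff_subset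
    have hdis : Disjoint {p} A := by
      rw [Finset.disjoint_singleton_left]
      intro h
      exact (Finset.mem_sdiff.1 (hA h)).2 (Finset.mem_singleton_self p)
    rw [if_pos (Finset.mem_union_left _ (Finset.mem_singleton_self p)), M5_ph_union hdis]
    have h3 : g1 z q0 a I ({p} ∪ A) ≤ g1 z q0 a I A :=
      g1_anti ha (M5_rr_le P hP (Finset.union_subset hS hAP) Finset.subset_union_right)
    have h4 : g1 z q0 a I ({p} ∪ A) ^ 2 ≤ g1 z q0 a I A ^ 2 :=
      pow_le_pow_left₀ (g1_nonneg _ _ _ _ _) h3 2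
    have h5 : ph {p} = (p : ℝ) - 1 := by
      unfold ph
      rw [Finset.prod_singleton]
    have h6 := ph_pos P hP hAP
    rw [h5, div_div, mul_comm ((p : ℝ) - 1)]
    exact div_le_div_of_nonneg_right h4 (mul_pos h6 hp1).le
  refine h2.trans ?_
  rw [← Finset.sum_div]
  refine div_le_div_of_nonneg_right ?_ hp1.le
  refine Finset.sum_le_sum_of_subset_of_nonneg (Finset.powerset_mono.2 Finset.sdiff_subset) ?_
  intro A hA _
  exact hnn A hA

/-- extension of a configuration -/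
private def M5_ext (i0 : ι) (β : P → Option {i : ι // i ≠ i0}) : P → Option ι :=
  fun p => (β p).map Subtype.val

private theorem M5_ext_inj (i0 : ι) : Function.Injective (M5_ext P i0) := by
  intro β β' h
  funext p
  have h1 := congrFun h p
  exact Option.map_injective Subtype.val_injective h1

private theorem M5_ext_ne (i0 : ι) (β : P → Option {i : ι // i ≠ i0}) (p : P) :
    M5_ext P i0 β p ≠ some i0 := by
  intro h
  unfold M5_ext at h
  rw [Option.map_eq_some_iff] at h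
  obtain ⟨i, _, hi⟩ := h
  exact i.2 hi

private theorem M5_ext_fb (i0 : ι) (β : P → Option {i : ι // i ≠ i0}) (i : {i : ι // i ≠ i0}) :
    fb P (M5_ext P i0 β) (i : ι) = fb P β i := by
  ext p
  rw [mem_fb, mem_fb]
  refine exists_congr fun h => ?_
  unfold M5_ext
  rw [Option.map_eq_some_iff]
  constructor
  · rintro ⟨j, hj, hij⟩
    rw [hj, Subtype.ext hij]
  · intro hb
    exact ⟨i, hb, rfl⟩

private theorem M5_ext_fb0 (i0 : ι) (β : P → Option {i : ι // i ≠ i0}) :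
    fb P (M5_ext P i0 β) i0 = ∅ := by
  rw [Finset.eq_empty_iff_forall_notMem]
  intro p hp
  obtain ⟨h, hb⟩ := (mem_fb P).1 hp
  exact M5_ext_ne P i0 β _ hb

private theorem M5_ext_sp (i0 : ι) (β : P → Option {i : ι // i ≠ i0}) :
    sp P (M5_ext P i0 β) = sp P β := by
  ext p
  rw [mem_sp, mem_sp]
  refine exists_congr fun h => ?_
  unfold M5_ext
  rw [ne_eq, Option.map_eq_none_iff]

private theorem M5_ext_prod (i0 : ι) (β : P → Option {i : ι // i ≠ i0}) (f : Finset ℕ → ℝ)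
    (hf : f ∅ = 1) :
    ∏ i, f (fb P (M5_ext P i0 β) i) = ∏ i, f (fb P β i) := by
  rw [← Finset.mul_prod_erase Finset.univ _ (Finset.mem_univ i0), M5_ext_fb0, hf, one_mul]
  rw [Finset.prod_subtype (Finset.univ.erase i0) (p := fun i => i ≠ i0)
    (fun i => by rw [Finset.mem_erase]; exact ⟨fun h => h.1, fun h => ⟨h, Finset.mem_univ i⟩⟩)]
  refine Finset.prod_congr rfl fun i _ => ?_
  rw [M5_ext_fb]

private theorem M5_card (i0 : ι) : Fintype.card {i : ι // i ≠ i0} = Fintype.card ι - 1 := by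
  rw [Fintype.card_subtype_compl, Fintype.card_subtype_eq]

open scoped Classical in
/-- the main part of the sum over the configurations -/
private theorem M5_main (κ : Type) [Fintype κ] [DecidableEq κ] (z q0 a I L' : ℕ)
    (hP : ∀ p ∈ P, p.Prime ∧ z < p) (ha : 1 ≤ a) (hL' : 1 ≤ L')
    (hz : 4 * Fintype.card κ ^ 2 + 2 ≤ z)
    (h2 : 8 * Fintype.card κ * L2s P z q0 a I ≤ G2s P z q0 a I * (2 * L') * Real.log z) :
    G2s P z q0 a I ^ Fintype.card κ / 2 ≤
      ∑ β : P → Option κ, (if rr (sp P β) ≤ (z : ℝ) ^ L' then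
        ∏ i, (g1 z q0 a I (fb P β i) ^ 2 / ph (fb P β i)) else 0) := by
  have hP' : ∀ p ∈ P, p.Prime := fun p hp => (hP p hp).1
  have hz2 : 2 ≤ z := by omega
  have hz2' : (2 : ℝ) ≤ (z : ℝ) := by exact_mod_cast hz2
  have hlz : 0 < Real.log z := Real.log_pos (by linarith)
  set F : Finset ℕ → ℝ := fun A => g1 z q0 a I A ^ 2 / ph A with hFdef
  have hF : ∀ A ∈ P.powerset, 0 ≤ F A := fun A hA =>
    div_nonneg (sq_nonneg _) (ph_pos P hP' (Finset.mem_powerset.1 hA)).le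
  have hG2 : ∑ A ∈ P.powerset, F A = G2s P z q0 a I := rfl
  have hL2 : ∑ A ∈ P.powerset, F A * Real.log (rr A) = L2s P z q0 a I := rfl
  have hG1 : 1 ≤ G2s P z q0 a I := one_le_G2s P hP' (by omega)
  have hge := sum_beta_ge (ι := κ) P hP' F hF (fun p hp => M5_sum_mem P z q0 a I hP' ha p hp _)
  rw [hG2] at hge
  have hT : (1 : ℝ) < (z : ℝ) ^ L' := one_lt_pow₀ (by linarith) (by omega)
  have hmk := markov' (ι := κ) P hP' F hF hT
  rw [hG2, hL2, Real.log_pow] at hmk
  -- the second part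
  have hpart : ∑ β : P → Option κ, ∏ i, F (fb P β i) ≤
      ∑ β : P → Option κ, (if rr (sp P β) ≤ (z : ℝ) ^ L' then ∏ i, F (fb P β i) else 0) +
      ∑ A ∈ Fintype.piFinset (fun _ : κ => P.powerset) with (z : ℝ) ^ L' < ∏ i, rr (A i),
        ∏ i, F (A i) := by
    have h3 := sum_beta_le (ι := κ) P (fun A => if (z : ℝ) ^ L' < ∏ i, rr (A i) then ∏ i, F (A i) else 0)
      (fun A hA => by
        split_ifs
        · exact Finset.prod_nonneg fun i _ => hF _ (Fintype.mem_piFinset.1 hA i)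
        · exact le_rfl)
    rw [Finset.sum_filter]
    refine le_trans (le_of_eq ?_) (add_le_add_right h3 _)
    rw [← Finset.sum_add_distrib]
    refine Finset.sum_congr rfl fun β _ => ?_
    rw [rr_sp]
    by_cases h : ∏ i, rr (fb P β i) ≤ (z : ℝ) ^ L'
    · rw [if_pos h, if_neg (not_lt.2 h), add_zero]
    · rw [if_neg h, if_pos (not_le.1 h), zero_add]
  have hsq := sum_inv_sq P hz2 (fun p hp => (hP p hp).2)
  have hk : (Fintype.card κ : ℝ) ^ 2 * ∑ p ∈ P, 1 / ((p : ℝ) - 1) ^ 2 ≤ 1 / 4 := by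
    have h4 : 4 * (Fintype.card κ : ℝ) ^ 2 + 2 ≤ (z : ℝ) := by exact_mod_cast hz
    have h5 : (0 : ℝ) < (z : ℝ) - 1 := by linarith
    calc (Fintype.card κ : ℝ) ^ 2 * ∑ p ∈ P, 1 / ((p : ℝ) - 1) ^ 2
        ≤ (Fintype.card κ : ℝ) ^ 2 * (1 / ((z : ℝ) - 1)) :=
          mul_le_mul_of_nonneg_left hsq (sq_nonneg _)
      _ ≤ 1 / 4 := by
          rw [mul_one_div, div_le_div_iff₀ h5 (by norm_num)]
          linarith
  have hpow : 0 ≤ G2s P z q0 a I ^ Fintype.card κ := pow_nonneg (by linarith) _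
  have hm2 : (Fintype.card κ : ℝ) * G2s P z q0 a I ^ (Fintype.card κ - 1) * L2s P z q0 a I /
      ((L' : ℝ) * Real.log z) ≤ G2s P z q0 a I ^ Fintype.card κ / 4 := by
    have hLz : 0 < (L' : ℝ) * Real.log z := by
      have : (0 : ℝ) < (L' : ℝ) := by exact_mod_cast hL'
      exact mul_pos this hlz
    rw [div_le_iff₀ hLz]
    rcases Nat.eq_zero_or_pos (Fintype.card κ) with h0 | h0
    · rw [h0]
      simp only [Nat.cast_zero, zero_mul, pow_zero]
      positivity
    · obtain ⟨m, hm⟩ : ∃ m, Fintype.card κ = m + 1 := ⟨Fintype.card κ - 1, by omega⟩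
      rw [hm] at h2 ⊢
      have hp0 : 0 ≤ G2s P z q0 a I ^ m := pow_nonneg (by linarith) _
      have h6 := mul_le_mul_of_nonneg_left h2 hp0
      rw [Nat.add_sub_cancel, pow_succ]
      nlinarith [h6]
  have h7 : G2s P z q0 a I ^ Fintype.card κ * (1 / 4) ≥ G2s P z q0 a I ^ Fintype.card κ *
      ((Fintype.card κ : ℝ) ^ 2 * ∑ p ∈ P, 1 / ((p : ℝ) - 1) ^ 2) :=
    mul_le_mul_of_nonneg_left hk hpow
  have h8 := hge.trans hpart
  rw [mul_sub, mul_one] at h8
  have h9 := hmk.trans hm2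
  linarith

theorem DD_yC_ge (z q0 a I L' : ℕ) (hP : ∀ p ∈ P, p.Prime ∧ z < p) (ha : 1 ≤ a) (i0 : ι)
    (hL : q0 * a ^ I ≤ L') (hL' : 1 ≤ L') (hz : 4 * Fintype.card ι ^ 2 + 2 * L' + 2 ≤ z)
    (h2 : 8 * Fintype.card ι * L2s P z q0 a I ≤ G2s P z q0 a I * (2 * L') * Real.log z) :
    G1s P z q0 a I ^ 2 * G2s P z q0 a I ^ (Fintype.card ι - 1) / 8 ≤
      DD P (yC P z q0 a I (2 * L') i0) := by
  classical
  have hP' : ∀ p ∈ P, p.Prime := fun p hp => (hP p hp).1
  have hz1 : 1 ≤ z := by omega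
  have hcard := M5_card i0
  have hkk : Fintype.card {i : ι // i ≠ i0} ≤ Fintype.card ι := by omega
  have hL2 : 0 ≤ L2s P z q0 a I := by
    unfold L2s
    refine Finset.sum_nonneg fun A hA => ?_
    rw [Finset.mem_powerset] at hA
    exact mul_nonneg (div_nonneg (sq_nonneg _) (ph_pos P hP' hA).le)
      (Real.log_nonneg (one_le_rr P hP' hA))
  have hmain := M5_main P {i : ι // i ≠ i0} z q0 a I L' hP ha hL'
    (by
      have h3 : Fintype.card {i : ι // i ≠ i0} ^ 2 ≤ Fintype.card ι ^ 2 := Nat.pow_le_pow_left hkk 2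
      omega)
    (by
      refine le_trans ?_ h2
      have h3 : (Fintype.card {i : ι // i ≠ i0} : ℝ) ≤ (Fintype.card ι : ℝ) := by exact_mod_cast hkk
      exact mul_le_mul_of_nonneg_right (mul_le_mul_of_nonneg_left h3 (by norm_num)) hL2)
  rw [hcard] at hmain
  have hG1 : 1 ≤ G1s P z q0 a I := one_le_G1s P hP' hz1
  -- lower bound of the diagonal form
  have hDD : ∑ β : P → Option {i : ι // i ≠ i0},
      yC P z q0 a I (2 * L') i0 (M5_ext P i0 β) ^ 2 / ph (sp P (M5_ext P i0 β)) ≤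
      DD P (yC P z q0 a I (2 * L') i0) := by
    unfold DD
    rw [← Finset.sum_image (f := fun β : P → Option ι => yC P z q0 a I (2 * L') i0 β ^ 2 / ph (sp P β))
      (fun β _ β' _ h => M5_ext_inj P i0 h)]
    refine Finset.sum_le_sum_of_subset_of_nonneg (Finset.subset_univ _) fun β _ _ => ?_
    exact div_nonneg (sq_nonneg _) (ph_pos P hP' (sp_subset P β)).le
  refine le_trans ?_ hDD
  have hterm : ∀ β : P → Option {i : ι // i ≠ i0},
      (G1s P z q0 a I / 2) ^ 2 * (if rr (sp P β) ≤ (z : ℝ) ^ L' then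
        ∏ i, (g1 z q0 a I (fb P β i) ^ 2 / ph (fb P β i)) else 0) ≤
      yC P z q0 a I (2 * L') i0 (M5_ext P i0 β) ^ 2 / ph (sp P (M5_ext P i0 β)) := by
    intro β
    split_ifs with h
    · rw [M5_ext_sp]
      unfold yC
      rw [if_pos (fun p => M5_ext_ne P i0 β p), M5_ext_sp,
        M5_ext_prod P i0 β (fun A => g1 z q0 a I A) (g1_empty hz1)]
      have h3 := M5_inner_ge P z q0 a I L' hP ha hL (by omega) (sp P β) (sp_subset P β) h
        (fun A => Classical.propDecidable _)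
      have h4 : (G1s P z q0 a I / 2) ^ 2 ≤
          (∑ A ∈ (P \ sp P β).powerset with rr A * rr (sp P β) ≤ (z : ℝ) ^ (2 * L'),
            g1 z q0 a I A / ph A) ^ 2 :=
        pow_le_pow_left₀ (by linarith) h3 2
      rw [mul_pow, ph_sp, Finset.prod_div_distrib, Finset.prod_pow]
      have h5 : 0 ≤ (∏ i, g1 z q0 a I (fb P β i)) ^ 2 / ∏ i, ph (fb P β i) :=
        div_nonneg (sq_nonneg _) (Finset.prod_nonneg fun i _ => (ph_pos P hP' (fb_subset P β i)).le)
      have h6 := mul_le_mul_of_nonneg_right h4 h5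
      refine h6.trans (le_of_eq ?_)
      ring
    · rw [mul_zero]
      exact div_nonneg (sq_nonneg _) (ph_pos P hP' (sp_subset P _)).le
  refine le_trans ?_ (Finset.sum_le_sum fun β _ => hterm β)
  rw [← Finset.mul_sum]
  have h7 := mul_le_mul_of_nonneg_left hmain (sq_nonneg (G1s P z q0 a I / 2))
  refine le_trans (le_of_eq ?_) h7
  ring

end Pool.Agent.LibPL63
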