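import Pool.Agent.LibPL63.Defs
import Pool.Agent.LibRG87.R0

/-!
Row M1 (facts on `g1`, `yM`, `yC`). `lev` is monotone in `rr A`. `rr ∅ = 1 ≤ z^…`, so `g1 ∅ = 1`. If `rr (sp β) > z^L` the sum in `yC` is empty (`rr A ≥ 1`).
`|yC β| ≤ ∑_{A ⊆ P} g1 A/ph A = G1s`.
-/

open Finset Filter

namespace Pool.Agent.LibPL63

open Pool.Agent.LibRG87 Pool.Agent.LibLG5

theorem g1_nonneg (z q0 a I : ℕ) (A : Finset ℕ) : 0 ≤ g1 z q0 a I A := by
  unfold g1
  split_ifs
  · positivity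
  · exact le_rfl

theorem g1_le_one {z q0 a I : ℕ} (ha : 1 ≤ a) (A : Finset ℕ) : g1 z q0 a I A ≤ 1 := by
  unfold g1
  split_ifs
  · apply pow_le_one₀ (by positivity)
    apply inv_le_one_of_one_le₀
    exact_mod_cast ha
  · exact zero_le_one

theorem g1_empty {z q0 a I : ℕ} (hz : 1 ≤ z) : g1 z q0 a I ∅ = 1 := by
  have hr : rr ∅ = 1 := by simp [rr]
  have hz1 : ∀ n : ℕ, (1 : ℝ) ≤ (z : ℝ) ^ n := fun n => one_le_pow₀ (by exact_mod_cast hz)
  have hl : lev z q0 a I ∅ = 0 := by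
    unfold lev
    rw [Finset.card_eq_zero, Finset.filter_eq_empty_iff]
    intro i _
    rw [hr, not_lt]
    exact hz1 _
  unfold g1
  rw [if_pos (by rw [hr]; exact hz1 _), hl, pow_zero]

theorem g1_anti {z q0 a I : ℕ} (ha : 1 ≤ a) {A A' : Finset ℕ} (h : rr A ≤ rr A') :
    g1 z q0 a I A' ≤ g1 z q0 a I A := by
  by_cases h1 : rr A' ≤ (z : ℝ) ^ (q0 * a ^ I)
  · have hl : lev z q0 a I A ≤ lev z q0 a I A' := by
      unfold lev
      refine Finset.card_le_card ?_
      intro i hi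
      rw [Finset.mem_filter] at hi ⊢
      exact ⟨hi.1, lt_of_lt_of_le hi.2 h⟩
    unfold g1
    rw [if_pos h1, if_pos (h.trans h1)]
    apply pow_le_pow_of_le_one (by positivity) _ hl
    apply inv_le_one_of_one_le₀
    exact_mod_cast ha
  · have h2 : g1 z q0 a I A' = 0 := by
      unfold g1
      rw [if_neg h1]
    rw [h2]
    exact g1_nonneg z q0 a I A

theorem g1_ne {z q0 a I : ℕ} {A : Finset ℕ} (h : g1 z q0 a I A ≠ 0) :
    rr A ≤ (z : ℝ) ^ (q0 * a ^ I) := by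
  by_contra h1
  apply h
  unfold g1
  rw [if_neg h1]

variable {ι : Type} [Fintype ι] [DecidableEq ι] (P : Finset ℕ)

private theorem M1_ph (P : Finset ℕ) (hP : ∀ p ∈ P, p.Prime) {A : Finset ℕ} (hA : A ⊆ P) :
    0 < ph A := by
  unfold ph
  refine Finset.prod_pos fun p hp => ?_
  have h1 : (1 : ℝ) < p := by exact_mod_cast (hP p (hA hp)).one_lt
  linarith

theorem G1s_nonneg (hP : ∀ p ∈ P, p.Prime) (z q0 a I : ℕ) : 0 ≤ G1s P z q0 a I := by
  unfold G1s
  refine Finset.sum_nonneg fun A hA => ?_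
  exact div_nonneg (g1_nonneg _ _ _ _ _) (M1_ph P hP (Finset.mem_powerset.1 hA)).le

theorem one_le_G1s (hP : ∀ p ∈ P, p.Prime) {z q0 a I : ℕ} (hz : 1 ≤ z) : 1 ≤ G1s P z q0 a I := by
  have h1 := Finset.single_le_sum (f := fun A => g1 z q0 a I A / ph A)
    (fun A hA => div_nonneg (g1_nonneg z q0 a I A) (M1_ph P hP (Finset.mem_powerset.1 hA)).le)
    (Finset.empty_mem_powerset P)
  have h2 : ph ∅ = 1 := by simp [ph]
  simp only [g1_empty hz, h2, div_one] at h1
  exact h1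

theorem one_le_G2s (hP : ∀ p ∈ P, p.Prime) {z q0 a I : ℕ} (hz : 1 ≤ z) : 1 ≤ G2s P z q0 a I := by
  have h1 := Finset.single_le_sum (f := fun A => g1 z q0 a I A ^ 2 / ph A)
    (fun A hA => div_nonneg (sq_nonneg _) (M1_ph P hP (Finset.mem_powerset.1 hA)).le)
    (Finset.empty_mem_powerset P)
  have h2 : ph ∅ = 1 := by simp [ph]
  simp only [g1_empty hz, h2, div_one, one_pow] at h1
  exact h1

theorem yM_abs_le {z q0 a I : ℕ} (ha : 1 ≤ a) (L : ℕ) (β : P → Option ι) :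
    |yM P z q0 a I L β| ≤ 1 := by
  unfold yM
  split_ifs
  · rw [abs_of_nonneg (Finset.prod_nonneg fun i _ => g1_nonneg _ _ _ _ _)]
    exact Finset.prod_le_one (fun i _ => g1_nonneg _ _ _ _ _) (fun i _ => g1_le_one ha _)
  · rw [abs_zero]
    exact zero_le_one

theorem yM_supp {z q0 a I L : ℕ} {β : P → Option ι} (h : yM P z q0 a I L β ≠ 0) :
    rr (sp P β) ≤ (z : ℝ) ^ L ∧ alw P univ β := by
  constructor
  · by_contra h1
    apply h
    unfold yM
    rw [if_neg h1]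
  · intro p i _
    exact Finset.mem_univ i

theorem yC_abs_le (hP : ∀ p ∈ P, p.Prime) {z q0 a I : ℕ} (ha : 1 ≤ a) (L : ℕ) (i0 : ι)
    (β : P → Option ι) : |yC P z q0 a I L i0 β| ≤ G1s P z q0 a I := by
  classical
  have hG := G1s_nonneg P hP z q0 a I
  unfold yC
  split_ifs
  · have h1 : 0 ≤ ∏ i, g1 z q0 a I (fb P β i) :=
      Finset.prod_nonneg fun i _ => g1_nonneg _ _ _ _ _
    have h2 : ∏ i, g1 z q0 a I (fb P β i) ≤ 1 :=
      Finset.prod_le_one (fun i _ => g1_nonneg _ _ _ _ _) (fun i _ => g1_le_one ha _)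
    have hsub : ((P \ sp P β).powerset.filter
        fun A => rr A * rr (sp P β) ≤ (z : ℝ) ^ L) ⊆ P.powerset := by
      intro A hA
      rw [Finset.mem_filter, Finset.mem_powerset] at hA
      exact Finset.mem_powerset.2 (hA.1.trans Finset.sdiff_subset)
    have hterm : ∀ A ∈ P.powerset, 0 ≤ g1 z q0 a I A / ph A := fun A hA =>
      div_nonneg (g1_nonneg z q0 a I A) (M1_ph P hP (Finset.mem_powerset.1 hA)).le
    have h3 : 0 ≤ ∑ A ∈ (P \ sp P β).powerset with rr A * rr (sp P β) ≤ (z : ℝ) ^ L,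
        g1 z q0 a I A / ph A := Finset.sum_nonneg fun A hA => hterm A (hsub hA)
    have h4 : ∑ A ∈ (P \ sp P β).powerset with rr A * rr (sp P β) ≤ (z : ℝ) ^ L,
        g1 z q0 a I A / ph A ≤ G1s P z q0 a I := by
      unfold G1s
      exact Finset.sum_le_sum_of_subset_of_nonneg hsub fun A hA _ => hterm A hA
    rw [abs_of_nonneg (mul_nonneg h1 h3)]
    calc _ ≤ 1 * G1s P z q0 a I := mul_le_mul h2 h4 h3 zero_le_one
      _ = _ := one_mul _
  · rw [abs_zero]
    exact hG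

theorem yC_supp (hP : ∀ p ∈ P, p.Prime) {z q0 a I L : ℕ} {i0 : ι} {β : P → Option ι}
    (h : yC P z q0 a I L i0 β ≠ 0) :
    rr (sp P β) ≤ (z : ℝ) ^ L ∧ alw P (univ.erase i0) β := by
  classical
  unfold yC at h
  split_ifs at h with h1
  swap
  · exact absurd rfl h
  constructor
  · by_contra h2
    apply h
    rw [Finset.sum_eq_zero, mul_zero]
    intro A hA
    exfalso
    rw [Finset.mem_filter, Finset.mem_powerset] at hA
    have h3 : 1 ≤ rr A := one_le_rr P hP (hA.1.trans Finset.sdiff_subset)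
    have h4 : 1 ≤ rr (sp P β) := one_le_rr P hP (sp_subset P β)
    apply h2
    refine le_trans ?_ hA.2
    nlinarith
  · intro p i hpi
    rw [Finset.mem_erase]
    refine ⟨?_, Finset.mem_univ i⟩
    rintro rfl
    exact h1 p hpi

end Pool.Agent.LibPL63
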