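import Pool.Agent.LibPL63.Q5
import Pool.Agent.LibLG5.NT
import Pool.Agent.LibRG87.R9

/-!
Row Q6 (asymptotic form). `P = PL z k1 p1`, `S = ∏_{p ∈ PP z (z^k1)} (1 + 1/(p-1)) ≤ C0 k1` (`NT_S_upper`). `1 + K/(p-1) ≤ (1 + 1/(p-1))^K` (Bernoulli), so the second product
is `≤ S^(2(k+1)^2)`; for `p > z ≥ 8k^2 + 1`: `1 + k/(p-1) + 8k^2/(p-1)^2 ≤ 1 + (k+1)/(p-1)`, product `≤ S^(k+1)`; `∑_{p > z} 1/(p-1)^2 ≤ 1/(z-1)`
(`LibRG87.sum_inv_sq`, row R9). So the first term is `≤ 8k^2 (C0 k1)^(k+1)/(z-1) ≤ δ` for large `z`. The constant `C` is the maximum of `C0` and the constant of `pairA`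
(`pairA_mono`); `2(k+1)^2 ≤ C (k+1)^2` with `C ≥ 2`.
-/

open Finset Filter

namespace Pool.Agent.LibPL63

open Pool.Agent.LibRG87 Pool.Agent.LibLG5

/-- the quadratic form property -/
def QFp (C : ℕ) : Prop :=
  ∀ (k k1 b0 L : ℕ) (δ : ℝ), 1 ≤ k → 1 ≤ k1 → Even b0 → 0 < δ → eps0 C (2 * k) b0 ≤ 1 →
    ∀ᶠ z : ℕ in atTop, ∀ (p1 : ℕ) (A : Average), SmallOK A (P0 z p1) z k →
      ∀ (ι : Type) [Fintype ι] [DecidableEq ι] (b : ι → ℕ) (J : Finset ι) (B : Finset ℕ)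
        (y : (PL z k1 p1 → Option ι) → ℝ),
        LocOK (PL z k1 p1) A b J → Fintype.card ι ≤ k → B.card ≤ k → (∀ β, |y β| ≤ 1) →
        (∀ β, y β ≠ 0 → rr (sp (PL z k1 p1) β) ≤ (z : ℝ) ^ L ∧ alw (PL z k1 p1) J β) →
        |∑ n ∈ A.s, A.om n * (rhoP (P0 z p1) B n * PhiF (PL z k1 p1) b y n ^ 2) -
            A.X * VA A (P0 z p1) B * DD (PL z k1 p1) y| ≤
          A.X * VA A (P0 z p1) B *
              (δ + eps0 C (2 * k) b0 * ((C * k1 : ℕ) : ℝ) ^ (C * (k + 1) ^ 2)) +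
            RemA A.Er (P0 z p1 ∪ PL z k1 p1) (2 * (k + 1) ^ 2) (z ^ (2 * L + 2 * b0 + 6))

private theorem Q6_prod_le (P : Finset ℕ) (hP : ∀ p ∈ P, 2 ≤ p) (S : ℝ)
    (hS : ∏ p ∈ P, (1 + 1 / ((p : ℝ) - 1)) ≤ S) (f : ℕ → ℝ) (m : ℕ)
    (hf0 : ∀ p ∈ P, 0 ≤ f p) (hf : ∀ p ∈ P, f p ≤ 1 + (m : ℝ) * (1 / ((p : ℝ) - 1))) :
    ∏ p ∈ P, f p ≤ S ^ m := by
  have h1 : ∀ p ∈ P, (0 : ℝ) ≤ 1 / ((p : ℝ) - 1) := by
    intro p hp
    have h2 : (2 : ℝ) ≤ p := by exact_mod_cast hP p hp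
    exact div_nonneg zero_le_one (by linarith)
  calc ∏ p ∈ P, f p ≤ ∏ p ∈ P, (1 + 1 / ((p : ℝ) - 1)) ^ m :=
        Finset.prod_le_prod hf0 fun p hp => (hf p hp).trans
          (one_add_mul_le_pow (by linarith [h1 p hp]) m)
    _ = (∏ p ∈ P, (1 + 1 / ((p : ℝ) - 1))) ^ m := Finset.prod_pow _ _ _
    _ ≤ S ^ m := pow_le_pow_left₀ (Finset.prod_nonneg fun p hp => by linarith [h1 p hp]) hS m

theorem qfp : ∃ C : ℕ, 1 ≤ C ∧ ∀ C' : ℕ, C ≤ C' → QFp C' := by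
  classical
  obtain ⟨C0, hC0, hS0⟩ := NT_S_upper
  obtain ⟨C1, hC1, hpa⟩ := pairA
  refine ⟨max (max C0 C1) 2, le_trans (by norm_num) (le_max_right _ _), ?_⟩
  intro C hC k k1 b0 L δ hk hk1 hb0 hδ he
  have hCC0 : C0 ≤ C := ((le_max_left _ _).trans (le_max_left _ _)).trans hC
  have hCC1 : C1 ≤ C := ((le_max_right _ _).trans (le_max_left _ _)).trans hC
  have hC2 : 2 ≤ C := (le_max_right _ _).trans hC
  have hPA : PairA C := pairA_mono hCC1 hpa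
  set Λ : ℝ := (C0 : ℝ) * k1 with hΛ
  have hΛ1 : 1 ≤ Λ := by
    rw [hΛ]
    have : 1 ≤ C0 * k1 := Nat.mul_pos hC0 hk1
    exact_mod_cast this
  have hev1 : ∀ᶠ z : ℕ in atTop, 1 + 8 * (k : ℝ) ^ 2 * Λ ^ (k + 1) / δ ≤ (z : ℝ) :=
    tendsto_natCast_atTop_atTop.eventually_ge_atTop _
  filter_upwards [hS0 k1 hk1, hev1, eventually_ge_atTop (8 * k ^ 2 + 2)] with z hSz hz1 hz2
  intro p1 A hSm ι _ _ b J B y hL hcι hcB hy hy'
  have hcιR : (Fintype.card ι : ℝ) ≤ k := by exact_mod_cast hcι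
  have hcι0 : (0 : ℝ) ≤ Fintype.card ι := Nat.cast_nonneg _
  have hgt : ∀ p ∈ PL z k1 p1, z < p := by
    intro p hp
    unfold PL PP at hp
    rw [Finset.mem_erase, Finset.mem_filter, Finset.mem_Ioc] at hp
    exact hp.2.1.1
  have hge2 : ∀ p ∈ PL z k1 p1, 2 ≤ p := fun p hp => by
    have := hgt p hp
    omega
  have hS : ∏ p ∈ PL z k1 p1, (1 + 1 / ((p : ℝ) - 1)) ≤ Λ := by
    refine le_trans ?_ hSz
    unfold PL
    have h1 : ∀ p ∈ PP z (z ^ k1), (1 : ℝ) ≤ 1 + 1 / ((p : ℝ) - 1) := by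
      intro p hp
      have h2 : (2 : ℝ) ≤ p := by exact_mod_cast (Finset.mem_filter.1 hp).2.two_le
      have h3 : (0 : ℝ) ≤ 1 / ((p : ℝ) - 1) := div_nonneg zero_le_one (by linarith)
      linarith
    exact Finset.prod_le_prod_of_subset_of_one_le (Finset.erase_subset _ _)
      (fun p hp => zero_le_one.trans (h1 p (Finset.mem_of_mem_erase hp))) fun p hp _ => h1 p hp
  have hX : 0 ≤ A.X * VA A (P0 z p1) B := mul_nonneg A.X_nonneg (VA_nonneg A _ B hSm.good)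
  have hmain := QFA C hPA k b0 hb0 he A z L (P0 z p1) (PL z k1 p1) (by omega) hSm hgt ι b J hL hcι B
    hcB y hy hy'
  refine hmain.trans (add_le_add ?_ le_rfl)
  refine mul_le_mul_of_nonneg_left (add_le_add ?_ ?_) hX
  · -- the first term
    have hprod : ∏ p ∈ PL z k1 p1, (1 + (Fintype.card ι : ℝ) / ((p : ℝ) - 1) +
        8 * (Fintype.card ι : ℝ) ^ 2 / ((p : ℝ) - 1) ^ 2) ≤ Λ ^ (k + 1) := by
      refine Q6_prod_le _ hge2 Λ hS _ (k + 1) ?_ ?_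
      · intro p hp
        have h2 : (2 : ℝ) ≤ p := by exact_mod_cast hge2 p hp
        have h3 : (0 : ℝ) < (p : ℝ) - 1 := by linarith
        positivity
      · intro p hp
        have h1 : 8 * k ^ 2 + 2 < p := lt_of_le_of_lt hz2 (hgt p hp)
        have h2 : 8 * (k : ℝ) ^ 2 + 2 < p := by exact_mod_cast h1
        have h3 : (0 : ℝ) < (p : ℝ) - 1 := by nlinarith [sq_nonneg (k : ℝ)]
        have h4 : 8 * (Fintype.card ι : ℝ) ^ 2 / ((p : ℝ) - 1) ^ 2 ≤ 1 / ((p : ℝ) - 1) := by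
          rw [div_le_div_iff₀ (pow_pos h3 2) h3]
          have h5 : (Fintype.card ι : ℝ) ^ 2 ≤ (k : ℝ) ^ 2 := pow_le_pow_left₀ hcι0 hcιR 2
          have h6 : 8 * (Fintype.card ι : ℝ) ^ 2 ≤ (p : ℝ) - 1 := by linarith
          calc 8 * (Fintype.card ι : ℝ) ^ 2 * ((p : ℝ) - 1) ≤ ((p : ℝ) - 1) * ((p : ℝ) - 1) :=
                mul_le_mul_of_nonneg_right h6 h3.le
            _ = 1 * ((p : ℝ) - 1) ^ 2 := by ring
        have h7 : (Fintype.card ι : ℝ) / ((p : ℝ) - 1) ≤ (k : ℝ) / ((p : ℝ) - 1) :=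
          div_le_div_of_nonneg_right hcιR h3.le
        have h8 : ((k + 1 : ℕ) : ℝ) * (1 / ((p : ℝ) - 1)) =
            (k : ℝ) / ((p : ℝ) - 1) + 1 / ((p : ℝ) - 1) := by
          push_cast
          ring
        rw [h8]
        linarith
    have hsum : ∑ p ∈ PL z k1 p1, 1 / ((p : ℝ) - 1) ^ 2 ≤ 1 / ((z : ℝ) - 1) :=
      sum_inv_sq (PL z k1 p1) (by omega) hgt
    have hz0 : (0 : ℝ) < (z : ℝ) - 1 := by
      have : (2 : ℝ) ≤ z := by
        have : 2 ≤ z := by omega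
        exact_mod_cast this
      linarith
    have hsum0 : 0 ≤ ∑ p ∈ PL z k1 p1, 1 / ((p : ℝ) - 1) ^ 2 :=
      Finset.sum_nonneg fun p _ => div_nonneg zero_le_one (sq_nonneg _)
    have hprod0 : 0 ≤ ∏ p ∈ PL z k1 p1, (1 + (Fintype.card ι : ℝ) / ((p : ℝ) - 1) +
        8 * (Fintype.card ι : ℝ) ^ 2 / ((p : ℝ) - 1) ^ 2) := by
      refine Finset.prod_nonneg fun p hp => ?_
      have h2 : (2 : ℝ) ≤ p := by exact_mod_cast hge2 p hp
      have h3 : (0 : ℝ) < (p : ℝ) - 1 := by linarith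
      positivity
    calc 8 * (Fintype.card ι : ℝ) ^ 2 * (∑ p ∈ PL z k1 p1, 1 / ((p : ℝ) - 1) ^ 2) *
          (∏ p ∈ PL z k1 p1, (1 + (Fintype.card ι : ℝ) / ((p : ℝ) - 1) +
            8 * (Fintype.card ι : ℝ) ^ 2 / ((p : ℝ) - 1) ^ 2))
        ≤ 8 * (k : ℝ) ^ 2 * (1 / ((z : ℝ) - 1)) * Λ ^ (k + 1) := by
          refine mul_le_mul (mul_le_mul ?_ hsum hsum0 (by positivity)) hprod hprod0
            (by positivity)
          exact mul_le_mul_of_nonneg_left (pow_le_pow_left₀ hcι0 hcιR 2) (by norm_num)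
      _ = (8 * (k : ℝ) ^ 2 * Λ ^ (k + 1)) / ((z : ℝ) - 1) := by ring
      _ ≤ δ := by
          rw [div_le_iff₀ hz0]
          have h1 : 8 * (k : ℝ) ^ 2 * Λ ^ (k + 1) / δ ≤ (z : ℝ) - 1 := by linarith
          rw [div_le_iff₀ hδ] at h1
          linarith
  · -- the second term
    have he0 : 0 ≤ eps0 (C : ℝ) (2 * k) b0 := by
      unfold eps0
      positivity
    refine mul_le_mul_of_nonneg_left ?_ he0
    have hprod : ∏ p ∈ PL z k1 p1, (1 + 2 * ((Fintype.card ι : ℝ) + 1) ^ 2 / ((p : ℝ) - 1)) ≤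
        Λ ^ (2 * (k + 1) ^ 2) := by
      refine Q6_prod_le _ hge2 Λ hS _ (2 * (k + 1) ^ 2) ?_ ?_
      · intro p hp
        have h2 : (2 : ℝ) ≤ p := by exact_mod_cast hge2 p hp
        have h3 : (0 : ℝ) < (p : ℝ) - 1 := by linarith
        positivity
      · intro p hp
        have h2 : (2 : ℝ) ≤ p := by exact_mod_cast hge2 p hp
        have h3 : (0 : ℝ) < (p : ℝ) - 1 := by linarith
        have h4 : ((Fintype.card ι : ℝ) + 1) ^ 2 ≤ ((k : ℝ) + 1) ^ 2 :=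
          pow_le_pow_left₀ (by positivity) (by linarith) 2
        have h5 : 2 * ((Fintype.card ι : ℝ) + 1) ^ 2 / ((p : ℝ) - 1) ≤
            2 * ((k : ℝ) + 1) ^ 2 / ((p : ℝ) - 1) :=
          div_le_div_of_nonneg_right (by linarith) h3.le
        have h6 : ((2 * (k + 1) ^ 2 : ℕ) : ℝ) * (1 / ((p : ℝ) - 1)) =
            2 * ((k : ℝ) + 1) ^ 2 / ((p : ℝ) - 1) := by
          push_cast
          ring
        rw [h6]
        linarith
    refine hprod.trans ?_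
    have h1 : Λ ≤ ((C * k1 : ℕ) : ℝ) := by
      rw [hΛ]
      push_cast
      exact mul_le_mul_of_nonneg_right (by exact_mod_cast hCC0) (Nat.cast_nonneg _)
    calc Λ ^ (2 * (k + 1) ^ 2) ≤ Λ ^ (C * (k + 1) ^ 2) :=
          pow_le_pow_right₀ hΛ1 (Nat.mul_le_mul_right _ hC2)
      _ ≤ ((C * k1 : ℕ) : ℝ) ^ (C * (k + 1) ^ 2) :=
          pow_le_pow_left₀ (by linarith) h1 _

end Pool.Agent.LibPL63
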