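import Pool.Agent.LibPL63.SA8
import Pool.Agent.LibPL63.V2
import Pool.Agent.LibLG5.NT
import Pool.Agent.LibRG87.R8b

/-!
[PL63 SA9] The remainders of the two averages, and their local hypotheses.
-/

set_option autoImplicit false

namespace Pool.Agent.LibPL63

open Finset Filter Pool.Agent.LibLG5 Pool.Agent.LibMaier Pool.Agent.LibRG87

theorem RemA_add (E1 E2 : ℕ → ℝ) (S : Finset ℕ) (C T : ℕ) :
    RemA (fun q => E1 q + E2 q) S C T = RemA E1 S C T + RemA E2 S C T := by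
  unfold RemA
  rw [← Finset.sum_add_distrib]
  exact Finset.sum_congr rfl fun F _ => mul_add _ _ _

theorem RemA_const_le (S : Finset ℕ) (hS : ∀ p ∈ S, p.Prime) (C T : ℕ) {e : ℝ} (he : 0 ≤ e) :
    RemA (fun _ => e) S C T ≤ e * (T * ∏ p ∈ S, (1 + (C : ℝ) / p)) := by
  unfold RemA
  have h1 : ∀ F ∈ S.powerset.filter (fun F => ∏ p ∈ F, p ≤ T),
      (C : ℝ) ^ F.card * e ≤ e * T * ∏ p ∈ F, ((C : ℝ) / p) := by
    intro F hF
    rw [Finset.mem_filter, Finset.mem_powerset] at hF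
    have h2 : (0 : ℝ) < ∏ p ∈ F, (p : ℝ) :=
      Finset.prod_pos fun p hp => by exact_mod_cast (hS p (hF.1 hp)).pos
    have h3 : ∏ p ∈ F, (p : ℝ) ≤ T := by
      rw [← Nat.cast_prod]
      exact_mod_cast hF.2
    rw [Finset.prod_div_distrib, Finset.prod_const, mul_div_assoc', le_div_iff₀ h2]
    have h4 : 0 ≤ (C : ℝ) ^ F.card * e := mul_nonneg (pow_nonneg (Nat.cast_nonneg _) _) he
    calc (C : ℝ) ^ F.card * e * ∏ p ∈ F, (p : ℝ) ≤ (C : ℝ) ^ F.card * e * T :=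
          mul_le_mul_of_nonneg_left h3 h4
      _ = e * T * (C : ℝ) ^ F.card := by ring
  refine (Finset.sum_le_sum h1).trans ?_
  rw [Finset.prod_one_add, ← mul_assoc, Finset.mul_sum]
  refine Finset.sum_le_sum_of_subset_of_nonneg (Finset.filter_subset _ _) fun F _ _ => ?_
  exact mul_nonneg (mul_nonneg he (Nat.cast_nonneg _)) (Finset.prod_nonneg fun p _ =>
    div_nonneg (Nat.cast_nonneg _) (Nat.cast_nonneg _))

theorem prod_P0_PL_le (k1 C : ℕ) (hk1 : 1 ≤ k1) : ∀ᶠ z : ℕ in atTop, ∀ p1 : ℕ, p1.Prime →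
    ∏ p ∈ P0 z p1 ∪ PL z k1 p1, (1 + (C : ℝ) / p) ≤ z := by
  obtain ⟨c, hc, hV⟩ := V1p_ge
  obtain ⟨C0, hC0, hS⟩ := NT_S_upper
  filter_upwards [hV, hS k1 hk1, log_pow_le (C + 1) 1 (by omega) (C0 * k1 / c + 2),
    eventually_ge_atTop 3] with z hV hS hlog hz p1 hp1
  have hz3 : (3 : ℝ) ≤ z := by exact_mod_cast hz
  have hlz : 1 ≤ Real.log z := by
    rw [Real.le_log_iff_exp_le (by linarith)]
    have := Real.exp_one_lt_d9
    linarith
  have hP0 : ∀ p ∈ P0 z p1, p.Prime := fun p hp => (mem_P0.1 hp).2.1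
  have hPL : ∀ p ∈ PL z k1 p1, p.Prime := fun p hp => (mem_PL.1 hp).2.1
  have hdis : Disjoint (P0 z p1) (PL z k1 p1) := by
    rw [Finset.disjoint_left]
    intro p h1 h2
    have h3 := (mem_P0.1 h1).2.2.2
    have h4 := (mem_PL.1 h2).2.2.1
    omega
  have h1 : ∏ p ∈ P0 z p1 ∪ PL z k1 p1, (1 + (C : ℝ) / p) ≤
      (∏ p ∈ P0 z p1 ∪ PL z k1 p1, (1 + 1 / (p : ℝ))) ^ C := by
    rw [← Finset.prod_pow]
    refine Finset.prod_le_prod (fun p _ => by positivity) fun p _ => ?_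
    have := one_add_mul_le_pow (a := 1 / (p : ℝ))
      (by have : (0 : ℝ) ≤ 1 / (p : ℝ) := by positivity
          linarith) C
    calc 1 + (C : ℝ) / p = 1 + (C : ℝ) * (1 / (p : ℝ)) := by ring
      _ ≤ _ := this
  have h2 : ∏ p ∈ P0 z p1 ∪ PL z k1 p1, (1 + 1 / (p : ℝ)) ≤ (C0 * k1 / c) * Real.log z := by
    rw [Finset.prod_union hdis]
    have h3 : ∏ p ∈ P0 z p1, (1 + 1 / (p : ℝ)) ≤ Real.log z / c := by
      have h4 : (∏ p ∈ P0 z p1, (1 + 1 / (p : ℝ))) * V1p (P0 z p1) ≤ 1 := by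
        unfold V1p
        rw [← Finset.prod_mul_distrib]
        refine Finset.prod_le_one (fun p hp => ?_) fun p hp => ?_
        · have h5 : (1 : ℝ) ≤ p := by exact_mod_cast (hP0 p hp).one_le
          have h6 : 1 / (p : ℝ) ≤ 1 := by
            rw [div_le_one (by linarith)]
            exact h5
          have : (0 : ℝ) ≤ 1 / (p : ℝ) := by positivity
          exact mul_nonneg (by linarith) (by linarith)
        · have : (0 : ℝ) ≤ (1 / (p : ℝ)) ^ 2 := by positivity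
          nlinarith
      have h5 := hV p1 hp1
      have h6 : 0 < c / Real.log z := div_pos hc (by linarith)
      have h7 : 0 ≤ ∏ p ∈ P0 z p1, (1 + 1 / (p : ℝ)) := Finset.prod_nonneg fun p _ => by positivity
      have h8 : (∏ p ∈ P0 z p1, (1 + 1 / (p : ℝ))) * (c / Real.log z) ≤ 1 :=
        (mul_le_mul_of_nonneg_left h5 h7).trans h4
      rw [← le_div_iff₀ h6, one_div_div] at h8
      exact h8
    have h4 : ∏ p ∈ PL z k1 p1, (1 + 1 / (p : ℝ)) ≤ C0 * k1 := by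
      refine le_trans ?_ hS
      have h5 : ∏ p ∈ PL z k1 p1, (1 + 1 / (p : ℝ)) ≤ ∏ p ∈ PL z k1 p1, (1 + 1 / ((p : ℝ) - 1)) := by
        refine Finset.prod_le_prod (fun p _ => by positivity) fun p hp => ?_
        have h6 : (2 : ℝ) ≤ p := by exact_mod_cast (hPL p hp).two_le
        have : 1 / (p : ℝ) ≤ 1 / ((p : ℝ) - 1) :=
          one_div_le_one_div_of_le (by linarith) (by linarith)
        linarith
      refine h5.trans ?_
      unfold PL
      by_cases hm : p1 ∈ PP z (z ^ k1)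
      · rw [← Finset.mul_prod_erase _ _ hm]
        have h6 : (2 : ℝ) ≤ p1 := by exact_mod_cast hp1.two_le
        refine le_mul_of_one_le_left (Finset.prod_nonneg fun p hp => ?_) ?_
        · have h7 : (2 : ℝ) ≤ p := by
            exact_mod_cast (hPL p hp).two_le
          have : 0 ≤ 1 / ((p : ℝ) - 1) := div_nonneg zero_le_one (by linarith)
          linarith
        · have : 0 ≤ 1 / ((p1 : ℝ) - 1) := div_nonneg zero_le_one (by linarith)
          linarith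
      · rw [Finset.erase_eq_of_notMem hm]
    have h5 : 0 ≤ ∏ p ∈ PL z k1 p1, (1 + 1 / (p : ℝ)) := Finset.prod_nonneg fun p _ => by positivity
    calc (∏ p ∈ P0 z p1, (1 + 1 / (p : ℝ))) * ∏ p ∈ PL z k1 p1, (1 + 1 / (p : ℝ))
        ≤ Real.log z / c * (C0 * k1) := mul_le_mul h3 h4 h5 (div_nonneg (by linarith) hc.le)
      _ = _ := by ring
  have h3 : 0 ≤ ∏ p ∈ P0 z p1 ∪ PL z k1 p1, (1 + 1 / (p : ℝ)) :=
    Finset.prod_nonneg fun p _ => by positivity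
  have h4 : (C0 * k1 / c) * Real.log z ≤ (C0 * k1 / c + 2) * Real.log z ^ 1 := by
    rw [pow_one]
    nlinarith
  have h5 : 1 ≤ (C0 * k1 / c + 2) * Real.log z ^ 1 := by
    rw [pow_one]
    have : 0 ≤ (C0 * k1 / c : ℝ) := by positivity
    nlinarith
  calc ∏ p ∈ P0 z p1 ∪ PL z k1 p1, (1 + (C : ℝ) / p) ≤ _ := h1
    _ ≤ ((C0 * k1 / c + 2) * Real.log z ^ 1) ^ C := pow_le_pow_left₀ h3 (h2.trans h4) C
    _ ≤ ((C0 * k1 / c + 2) * Real.log z ^ 1) ^ (C + 1) := pow_le_pow_right₀ h5 (by omega)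
    _ ≤ z := hlog

theorem remA_avgU (k1 C : ℕ) (hk1 : 1 ≤ k1) : ∀ᶠ z : ℕ in atTop, ∀ p1 : ℕ, p1.Prime →
    ∀ (x : ℝ) (c T : ℕ),
      RemA (avgU x (Wp z p1) c (Wp_pos z p1)).Er (P0 z p1 ∪ PL z k1 p1) C T ≤
        6 * Real.exp (-x) * (T * z) := by
  filter_upwards [prod_P0_PL_le k1 C hk1] with z hz p1 hp1 x c T
  have hS : ∀ p ∈ P0 z p1 ∪ PL z k1 p1, p.Prime := by
    intro p hp
    rcases Finset.mem_union.1 hp with hp | hp
    · exact (mem_P0.1 hp).2.1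
    · exact (mem_PL.1 hp).2.1
  refine (RemA_const_le _ hS C T (e := 6 * Real.exp (-x)) (by positivity)).trans ?_
  exact mul_le_mul_of_nonneg_left (mul_le_mul_of_nonneg_left (hz p1 hp1) (Nat.cast_nonneg _))
    (by positivity)

theorem RemA_er_le {x : ℝ} {p1 : ℕ} (hp1 : p1.Prime) (D : BVdata x p1) {W : ℕ} (hW : Squarefree W)
    (hWp : ¬ p1 ∣ W) (S : Finset ℕ) (hS : ∀ p ∈ S, p.Prime ∧ ¬ p ∣ W ∧ p ≠ p1) (C T : ℕ)
    (hC : 1 ≤ C) (hT : ((W * T : ℕ) : ℝ) ≤ Real.exp (x / 24)) :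
    RemA (fun q => D.er (W * q)) S C T ≤
      ∑ q ∈ (Icc 1 ⌊Real.exp (x / 24)⌋₊).filter (fun q => Squarefree q ∧ ¬ p1 ∣ q),
        (C : ℝ) ^ q.primeFactors.card * D.er q := by
  classical
  unfold RemA
  have hW0 : W ≠ 0 := hW.ne_zero
  set FF := S.powerset.filter (fun F => ∏ p ∈ F, p ≤ T) with hFF
  have hprime : ∀ F ∈ FF, ∀ p ∈ F, p.Prime := by
    intro F hF p hp
    rw [hFF, Finset.mem_filter, Finset.mem_powerset] at hF
    exact (hS p (hF.1 hp)).1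
  have hpf : ∀ F ∈ FF, (W * ∏ p ∈ F, p).primeFactors = W.primeFactors ∪ F := by
    intro F hF
    rw [Nat.primeFactors_mul hW0 (Finset.prod_pos fun p hp => (hprime F hF p hp).pos).ne',
      Nat.primeFactors_prod (hprime F hF)]
  have hdisj : ∀ F ∈ FF, Disjoint W.primeFactors F := by
    intro F hF
    rw [hFF, Finset.mem_filter, Finset.mem_powerset] at hF
    rw [Finset.disjoint_left]
    intro p h1 h2
    exact (hS p (hF.1 h2)).2.1 (Nat.dvd_of_mem_primeFactors h1)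
  have hinj : Set.InjOn (fun F : Finset ℕ => W * ∏ p ∈ F, p) FF := by
    intro F hF G hG h
    simp only at h
    have h1 := hpf F hF
    rw [h, hpf G hG] at h1
    have h2 : (W.primeFactors ∪ G) \ W.primeFactors = (W.primeFactors ∪ F) \ W.primeFactors := by
      rw [h1]
    rw [Finset.union_sdiff_cancel_left (hdisj F hF), Finset.union_sdiff_cancel_left (hdisj G hG)] at h2
    exact h2.symm
  have h1 : ∀ F ∈ FF, (C : ℝ) ^ F.card * D.er (W * ∏ p ∈ F, p) ≤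
      (C : ℝ) ^ (W * ∏ p ∈ F, p).primeFactors.card * D.er (W * ∏ p ∈ F, p) := by
    intro F hF
    refine mul_le_mul_of_nonneg_right ?_ (D.er_nonneg _)
    refine pow_le_pow_right₀ (by exact_mod_cast hC) ?_
    rw [hpf F hF]
    exact Finset.card_le_card Finset.subset_union_right
  refine (Finset.sum_le_sum h1).trans ?_
  rw [← Finset.sum_image (f := fun q => (C : ℝ) ^ q.primeFactors.card * D.er q) hinj]
  refine Finset.sum_le_sum_of_subset_of_nonneg ?_ fun q _ _ =>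
    mul_nonneg (pow_nonneg (Nat.cast_nonneg _) _) (D.er_nonneg _)
  intro q hq
  rw [Finset.mem_image] at hq
  obtain ⟨F, hF, rfl⟩ := hq
  have hF' := hF
  rw [hFF, Finset.mem_filter, Finset.mem_powerset] at hF'
  have hpos : 0 < ∏ p ∈ F, p := Finset.prod_pos fun p hp => (hprime F hF p hp).pos
  rw [Finset.mem_filter, Finset.mem_Icc]
  refine ⟨⟨Nat.mul_pos (Nat.pos_of_ne_zero hW0) hpos, ?_⟩, ?_, ?_⟩
  · apply Nat.le_floor
    refine le_trans ?_ hT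
    exact_mod_cast Nat.mul_le_mul_left W hF'.2
  · rw [Nat.squarefree_mul]
    · refine ⟨hW, ?_⟩
      apply Finset.squarefree_prod_of_pairwise_isCoprime
      · intro p hp q hq hpq
        exact Nat.coprime_iff_isRelPrime.1
          ((Nat.coprime_primes (hprime F hF p hp) (hprime F hF q hq)).2 hpq)
      · exact fun p hp => (hprime F hF p hp).squarefree
    · apply Nat.Coprime.prod_right
      intro p hp
      exact ((Nat.Prime.coprime_iff_not_dvd (hprime F hF p hp)).2 (hS p (hF'.1 hp)).2.1).symm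
  · intro h
    rcases (Nat.Prime.dvd_mul hp1).1 h with h | h
    · exact hWp h
    · obtain ⟨p, hp, hd⟩ := (Prime.dvd_finsetProd_iff hp1.prime _).1 h
      exact (hS p (hF'.1 hp)).2.2 ((Nat.prime_dvd_prime_iff_eq hp1 (hprime F hF p hp)).1 hd).symm

theorem remA_avgQ (k1 C : ℕ) (hk1 : 1 ≤ k1) (hC : 1 ≤ C) : ∀ᶠ z : ℕ in atTop, ∀ p1 : ℕ, p1.Prime →
    ∀ (x B : ℝ), 40 ≤ x → ∀ D : BVdata x p1,
      ∑ q ∈ (Icc 1 ⌊Real.exp (x / 24)⌋₊).filter (fun q => Squarefree q ∧ ¬ p1 ∣ q),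
        (C : ℝ) ^ q.primeFactors.card * D.er q ≤ B →
      ∀ (c a0 lo T : ℕ) (hc : (c + a0).Coprime (Wp z p1)),
        ((Wp z p1 * T : ℕ) : ℝ) ≤ Real.exp (x / 24) → ((lo + a0 : ℕ) : ℝ) ≤ Real.exp (x / 2) →
        RemA (avgQ x p1 D (Wp z p1) c a0 lo (Wp_pos z p1) hc).Er (P0 z p1 ∪ PL z k1 p1) C T ≤
          B + Real.exp (-(x ^ 2 / 16)) * (T * z) := by
  filter_upwards [prod_P0_PL_le k1 C hk1] with z hz p1 hp1 x B hx D hD c a0 lo T hc hT hlo
  have hwz : wf z ≤ z := by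
    unfold wf
    exact ((Nat.div_le_self _ _).trans (Nat.log_le_self 2 _)).trans (Nat.log_le_self 2 _)
  have hS : ∀ p ∈ P0 z p1 ∪ PL z k1 p1, p.Prime ∧ ¬ p ∣ Wp z p1 ∧ p ≠ p1 := by
    intro p hp
    rcases Finset.mem_union.1 hp with hp | hp
    · obtain ⟨h1, h2, h3, h4⟩ := mem_P0.1 hp
      refine ⟨h2, fun h => ?_, h1⟩
      have := ((dvd_Wp h2).1 h).1
      omega
    · obtain ⟨h1, h2, h3, h4⟩ := mem_PL.1 hp
      refine ⟨h2, fun h => ?_, h1⟩
      have := ((dvd_Wp h2).1 h).1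
      omega
  have hWp : ¬ p1 ∣ Wp z p1 := fun h => ((dvd_Wp hp1).1 h).2 rfl
  have h1 := RemA_er_le hp1 D (squarefree_Wp z p1) hWp _ hS C T hC hT
  have h2 : RemA (avgQ x p1 D (Wp z p1) c a0 lo (Wp_pos z p1) hc).Er (P0 z p1 ∪ PL z k1 p1) C T =
      RemA (fun q => D.er (Wp z p1 * q)) (P0 z p1 ∪ PL z k1 p1) C T +
        RemA (fun _ => trw x (lo + a0)) (P0 z p1 ∪ PL z k1 p1) C T := by
    rw [← RemA_add]
    rfl
  rw [h2]
  have h3 := RemA_const_le (P0 z p1 ∪ PL z k1 p1) (fun p hp => (hS p hp).1) C T (trw_nonneg x (lo + a0))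
  have h4 : trw x (lo + a0) * (T * ∏ p ∈ P0 z p1 ∪ PL z k1 p1, (1 + (C : ℝ) / p)) ≤
      Real.exp (-(x ^ 2 / 16)) * (T * z) := by
    refine mul_le_mul (trw_le' hx _ hlo)
      (mul_le_mul_of_nonneg_left (hz p1 hp1) (Nat.cast_nonneg _)) ?_ (Real.exp_pos _).le
    exact mul_nonneg (Nat.cast_nonneg _) (Finset.prod_nonneg fun p _ => by positivity)
  linarith

theorem xB_eq_xp (B : Finset ℕ) (p n : ℕ) : xB B p n = xp B p n := rfl

theorem VA_avgU (x : ℝ) (W c : ℕ) (hW : 0 < W) (Pr : Finset ℕ) (hPr : ∀ p ∈ Pr, p.Prime)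
    (B : Finset ℕ) : VA (avgU x W c hW) Pr B = VP Pr B := by
  unfold VA VP
  refine Finset.prod_congr rfl fun p hp => ?_
  rw [avgU_Ep]
  unfold mean
  congr 2
  exact sum_xp B p (hPr p hp).pos

theorem avgQ_Ep_xB (x : ℝ) (p1 : ℕ) (D : BVdata x p1) (W c a0 lo : ℕ) (hW : 0 < W)
    (hc : (c + a0).Coprime W) {p : ℕ} (hp : p.Prime) (B : Finset ℕ) :
    (avgQ x p1 D W c a0 lo hW hc).Ep p (xB B p) = ((nuP (insert a0 B) p : ℝ) - 1) / ((p : ℝ) - 1) := by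
  have h1 : ∀ y, lpP a0 p y * xp B p y = (xp (insert a0 B) p y - xp {a0} p y) / ((p : ℝ) - 1) := by
    intro y
    unfold lpP xp
    by_cases h : p ∣ y + a0
    · rw [if_pos h, if_pos (⟨a0, Finset.mem_insert_self _ _, h⟩ : ∃ a ∈ insert a0 B, p ∣ y + a),
        if_pos (⟨a0, Finset.mem_singleton_self _, h⟩ : ∃ a ∈ ({a0} : Finset ℕ), p ∣ y + a)]
      simp
    · have h2 : ¬ ∃ a ∈ ({a0} : Finset ℕ), p ∣ y + a := by
        rintro ⟨a, ha, hd⟩
        rw [Finset.mem_singleton] at ha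
        rw [ha] at hd
        exact h hd
      have h3 : (∃ a ∈ insert a0 B, p ∣ y + a) ↔ ∃ a ∈ B, p ∣ y + a := by
        constructor
        · rintro ⟨a, ha, hd⟩
          rcases Finset.mem_insert.1 ha with rfl | ha
          · exact absurd hd h
          · exact ⟨a, ha, hd⟩
        · rintro ⟨a, ha, hd⟩
          exact ⟨a, Finset.mem_insert_of_mem ha, hd⟩
      rw [if_neg h, if_neg h2]
      simp only [h3]
      ring
  unfold Average.Ep
  change ∑ y ∈ range p, lpP a0 p y * xp B p y = _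
  rw [Finset.sum_congr rfl fun y _ => h1 y, ← Finset.sum_div, Finset.sum_sub_distrib,
    sum_xp _ p hp.pos, sum_xp _ p hp.pos]
  have : nuP {a0} p = 1 := by
    unfold nuP
    simp
  rw [this, Nat.cast_one]

theorem VA_avgQ (x : ℝ) (p1 : ℕ) (D : BVdata x p1) (W c a0 lo : ℕ) (hW : 0 < W)
    (hc : (c + a0).Coprime W) (Pr : Finset ℕ) (hPr : ∀ p ∈ Pr, p.Prime) (B : Finset ℕ) :
    VA (avgQ x p1 D W c a0 lo hW hc) Pr B = VP Pr (insert a0 B) / V1p Pr := by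
  unfold VA VP V1p
  rw [← Finset.prod_div_distrib]
  refine Finset.prod_congr rfl fun p hp => ?_
  rw [avgQ_Ep_xB x p1 D W c a0 lo hW hc (hPr p hp)]
  have h2 : (2 : ℝ) ≤ p := by exact_mod_cast (hPr p hp).two_le
  have h3 : (p : ℝ) - 1 ≠ 0 := by linarith
  have h4 : (p : ℝ) ≠ 0 := by linarith
  have h5 : 1 - 1 / (p : ℝ) ≠ 0 := by
    have : 1 - 1 / (p : ℝ) = ((p : ℝ) - 1) / p := by field_simp
    rw [this]
    exact div_ne_zero h3 h4
  field_simp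
  ring

theorem P0_good {z p1 p : ℕ} (hp : p ∈ P0 z p1) : p.Prime ∧ ¬ p ∣ Wp z p1 := by
  obtain ⟨h1, h2, h3, h4⟩ := mem_P0.1 hp
  refine ⟨h2, fun h => ?_⟩
  have := ((dvd_Wp h2).1 h).1
  omega

theorem wf_le_self (z : ℕ) : wf z ≤ z := by
  unfold wf
  exact ((Nat.div_le_self _ _).trans (Nat.log_le_self 2 _)).trans (Nat.log_le_self 2 _)

theorem PL_good {z k1 p1 p : ℕ} (hp : p ∈ PL z k1 p1) : p.Prime ∧ ¬ p ∣ Wp z p1 := by
  obtain ⟨h1, h2, h3, h4⟩ := mem_PL.1 hp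
  refine ⟨h2, fun h => ?_⟩
  have := ((dvd_Wp h2).1 h).1
  have := wf_le_self z
  omega

theorem smallOK_avgU (z p1 k : ℕ) (hk : 4 * k + 4 ≤ wf z) (x : ℝ) (c : ℕ) :
    SmallOK (avgU x (Wp z p1) c (Wp_pos z p1)) (P0 z p1) z k where
  good := fun p hp => P0_good hp
  le := fun p hp => (mem_P0.1 hp).2.2.2
  big := fun p hp => hk.trans (mem_P0.1 hp).2.2.1.le
  lp_le := fun p hp y _ => by
    change 1 / (p : ℝ) ≤ 1 / ((p : ℝ) - 1)
    have h2 : (2 : ℝ) ≤ p := by exact_mod_cast (mem_P0.1 hp).2.1.two_le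
    exact one_div_le_one_div_of_le (by linarith) (by linarith)

theorem lpP_le (a0 : ℕ) {p : ℕ} (hp : p.Prime) (y : ℕ) : lpP a0 p y ≤ 1 / ((p : ℝ) - 1) := by
  have h2 : (2 : ℝ) ≤ p := by exact_mod_cast hp.two_le
  unfold lpP
  split_ifs
  · exact div_nonneg zero_le_one (by linarith)
  · exact le_rfl

theorem smallOK_avgQ (z p1 k : ℕ) (hk : 4 * k + 4 ≤ wf z) (x : ℝ) (D : BVdata x p1) (c a0 lo : ℕ)
    (hc : (c + a0).Coprime (Wp z p1)) :
    SmallOK (avgQ x p1 D (Wp z p1) c a0 lo (Wp_pos z p1) hc) (P0 z p1) z k where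
  good := fun p hp => P0_good hp
  le := fun p hp => (mem_P0.1 hp).2.2.2
  big := fun p hp => hk.trans (mem_P0.1 hp).2.2.1.le
  lp_le := fun p hp y _ => lpP_le a0 (mem_P0.1 hp).2.1 y

/-! ### local sums -/

theorem II_zero {p s t : ℕ} (hst : ¬ s ≡ t [MOD p]) (c : ℕ) : R8b_I p s c * R8b_I p t c = 0 := by
  unfold R8b_I
  split_ifs with h1 h2
  · exfalso
    apply hst
    have h4 : c + s ≡ 0 [MOD p] := (Nat.modEq_zero_iff_dvd).2 h1
    have h5 : c + t ≡ 0 [MOD p] := (Nat.modEq_zero_iff_dvd).2 h2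
    exact Nat.ModEq.add_left_cancel' c (h4.trans h5.symm)
  · simp
  · simp
  · simp

theorem lpP_eq (a0 p y : ℕ) : lpP a0 p y = (1 - R8b_I p a0 y) * (1 / ((p : ℝ) - 1)) := by
  unfold lpP R8b_I
  split_ifs <;> simp

theorem sum_psi {p : ℕ} (hp3 : 3 ≤ p) (s : ℕ) : ∑ y ∈ range p, psi p (y + s) = 0 := by
  have h2 : (3 : ℝ) ≤ p := by exact_mod_cast hp3
  have h3 : (p : ℝ) - 1 ≠ 0 := by linarith
  simp only [R8b_psi_eq hp3]
  rw [sum_sub_distrib, ← mul_sum, R8b_sum_I (by omega)]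
  simp only [sum_const, card_range, nsmul_eq_mul]
  field_simp
  ring

theorem sum_psi_sq {p : ℕ} (hp3 : 3 ≤ p) (s : ℕ) :
    ∑ y ∈ range p, psi p (y + s) * psi p (y + s) = (p : ℝ) / ((p : ℝ) - 1) := by
  have h2 : (3 : ℝ) ≤ p := by exact_mod_cast hp3
  have h3 : (p : ℝ) - 1 ≠ 0 := by linarith
  have e : ∀ y : ℕ, psi p (y + s) * psi p (y + s) = (1 / ((p : ℝ) - 1)) ^ 2 +
      (((p : ℝ) / ((p : ℝ) - 1)) ^ 2 - 2 * (1 / ((p : ℝ) - 1)) * ((p : ℝ) / ((p : ℝ) - 1))) *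
        R8b_I p s y := by
    intro y
    rw [R8b_psi_eq hp3]
    linear_combination ((p : ℝ) / ((p : ℝ) - 1)) ^ 2 * R8b_II_self (p := p) s y
  simp only [e]
  rw [sum_add_distrib, ← mul_sum, R8b_sum_I (by omega)]
  simp only [sum_const, card_range, nsmul_eq_mul]
  field_simp
  ring

theorem sum_psi_psi {p : ℕ} (hp3 : 3 ≤ p) {s t : ℕ} (hst : ¬ s ≡ t [MOD p]) :
    ∑ y ∈ range p, psi p (y + s) * psi p (y + t) = -((p : ℝ) / ((p : ℝ) - 1) ^ 2) := by
  have h2 : (3 : ℝ) ≤ p := by exact_mod_cast hp3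
  have h3 : (p : ℝ) - 1 ≠ 0 := by linarith
  have e : ∀ y : ℕ, psi p (y + s) * psi p (y + t) = (1 / ((p : ℝ) - 1)) ^ 2
      - (1 / ((p : ℝ) - 1)) * ((p : ℝ) / ((p : ℝ) - 1)) * R8b_I p s y
      - (1 / ((p : ℝ) - 1)) * ((p : ℝ) / ((p : ℝ) - 1)) * R8b_I p t y := by
    intro y
    rw [R8b_psi_eq hp3, R8b_psi_eq hp3]
    linear_combination ((p : ℝ) / ((p : ℝ) - 1)) ^ 2 * II_zero hst y
  simp only [e]
  rw [sum_sub_distrib, sum_sub_distrib, ← mul_sum, ← mul_sum,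
    R8b_sum_I (by omega), R8b_sum_I (by omega)]
  simp only [sum_const, card_range, nsmul_eq_mul]
  field_simp
  ring

theorem Q_psi {p a : ℕ} (hp3 : 3 ≤ p) {s : ℕ} (hs : ¬ a ≡ s [MOD p]) :
    ∑ y ∈ range p, lpP a p y * psi p (y + s) = -(1 / ((p : ℝ) - 1) ^ 2) := by
  have h2 : (3 : ℝ) ≤ p := by exact_mod_cast hp3
  have h3 : (p : ℝ) - 1 ≠ 0 := by linarith
  have e : ∀ y : ℕ, lpP a p y * psi p (y + s) = (1 / ((p : ℝ) - 1)) ^ 2
      - (1 / ((p : ℝ) - 1)) ^ 2 * R8b_I p a y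
      - (1 / ((p : ℝ) - 1)) * ((p : ℝ) / ((p : ℝ) - 1)) * R8b_I p s y := by
    intro y
    rw [lpP_eq, R8b_psi_eq hp3]
    linear_combination (1 / ((p : ℝ) - 1)) * ((p : ℝ) / ((p : ℝ) - 1)) * II_zero hs y
  simp only [e]
  rw [sum_sub_distrib, sum_sub_distrib, ← mul_sum, ← mul_sum,
    R8b_sum_I (by omega), R8b_sum_I (by omega)]
  simp only [sum_const, card_range, nsmul_eq_mul]
  field_simp
  ring

theorem Q_psi_sq {p a : ℕ} (hp3 : 3 ≤ p) {s : ℕ} (hs : ¬ a ≡ s [MOD p]) :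
    ∑ y ∈ range p, lpP a p y * (psi p (y + s) * psi p (y + s)) =
      (((p : ℝ) / ((p : ℝ) - 1)) - 1 / ((p : ℝ) - 1) ^ 2) / ((p : ℝ) - 1) := by
  have h2 : (3 : ℝ) ≤ p := by exact_mod_cast hp3
  have h3 : (p : ℝ) - 1 ≠ 0 := by linarith
  have e : ∀ y : ℕ, lpP a p y * (psi p (y + s) * psi p (y + s)) =
      (psi p (y + s) * psi p (y + s)) * (1 / ((p : ℝ) - 1)) -
        (1 / ((p : ℝ) - 1)) ^ 3 * R8b_I p a y := by
    intro y
    rw [lpP_eq, R8b_psi_eq hp3]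
    linear_combination (2 * (1 / ((p : ℝ) - 1)) ^ 2 * ((p : ℝ) / ((p : ℝ) - 1)) -
      (1 / ((p : ℝ) - 1)) * ((p : ℝ) / ((p : ℝ) - 1)) ^ 2 * R8b_I p s y) * II_zero hs y
  simp only [e]
  rw [sum_sub_distrib, ← mul_sum, ← sum_mul, R8b_sum_I (by omega), sum_psi_sq hp3]
  field_simp

theorem Q_psi_psi {p a : ℕ} (hp3 : 3 ≤ p) {s t : ℕ} (hs : ¬ a ≡ s [MOD p]) (ht : ¬ a ≡ t [MOD p])
    (hst : ¬ s ≡ t [MOD p]) :
    ∑ y ∈ range p, lpP a p y * (psi p (y + s) * psi p (y + t)) =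
      -(((p : ℝ) + 1) / ((p : ℝ) - 1) ^ 3) := by
  have h2 : (3 : ℝ) ≤ p := by exact_mod_cast hp3
  have h3 : (p : ℝ) - 1 ≠ 0 := by linarith
  have e : ∀ y : ℕ, lpP a p y * (psi p (y + s) * psi p (y + t)) =
      (psi p (y + s) * psi p (y + t)) * (1 / ((p : ℝ) - 1)) -
        (1 / ((p : ℝ) - 1)) ^ 3 * R8b_I p a y := by
    intro y
    rw [lpP_eq, R8b_psi_eq hp3, R8b_psi_eq hp3]
    linear_combination (1 / ((p : ℝ) - 1)) ^ 2 * ((p : ℝ) / ((p : ℝ) - 1)) * II_zero hs y +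
      ((1 / ((p : ℝ) - 1)) ^ 2 * ((p : ℝ) / ((p : ℝ) - 1)) -
      (1 / ((p : ℝ) - 1)) * ((p : ℝ) / ((p : ℝ) - 1)) ^ 2 * R8b_I p s y) * II_zero ht y
  simp only [e]
  rw [sum_sub_distrib, ← mul_sum, ← sum_mul, R8b_sum_I (by omega), sum_psi_psi hp3 hst]
  field_simp
  ring

theorem not_modEq {p z a b : ℕ} (hp : z < p) (ha : a ≤ z) (hb : b ≤ z) (hne : a ≠ b) :
    ¬ a ≡ b [MOD p] := by
  intro h
  unfold Nat.ModEq at h
  rw [Nat.mod_eq_of_lt (by omega), Nat.mod_eq_of_lt (by omega)] at h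
  exact hne h

section

variable {ι : Type} [Fintype ι] [DecidableEq ι]

theorem locOK_avgU (z p1 k1 : ℕ) (hz : 3 ≤ z) (x : ℝ) (c : ℕ) (b : ι → ℕ) (J : Finset ι)
    (hb : ∀ i ∈ J, b i ≤ z) (hinj : ∀ i ∈ J, ∀ j ∈ J, i ≠ j → b i ≠ b j) :
    LocOK (PL z k1 p1) (avgU x (Wp z p1) c (Wp_pos z p1)) b J where
  good := fun p hp => PL_good hp
  three := fun p hp => by
    have := (mem_PL.1 hp).2.2.1
    omega
  lp_le := fun p hp y _ => by
    change 1 / (p : ℝ) ≤ 1 / ((p : ℝ) - 1)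
    have h2 : (2 : ℝ) ≤ p := by exact_mod_cast (mem_PL.1 hp).2.1.two_le
    exact one_div_le_one_div_of_le (by linarith) (by linarith)
  m1 := fun p hp i hi => by
    have h1 := (mem_PL.1 hp).2.2.1
    rw [avgU_Ep]
    unfold mean
    rw [sum_psi (by omega), zero_div, abs_zero]
    positivity
  m2 := fun p hp i hi => by
    have h1 := (mem_PL.1 hp).2.2.1
    have h2 : (3 : ℝ) ≤ p := by
      have : 3 ≤ p := by omega
      exact_mod_cast this
    have h3 : (p : ℝ) - 1 ≠ 0 := by linarith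
    have h4 : (p : ℝ) ≠ 0 := by linarith
    rw [avgU_Ep]
    unfold mean
    rw [sum_psi_sq (by omega)]
    have h5 : (p : ℝ) / ((p : ℝ) - 1) / p - 1 / ((p : ℝ) - 1) = 0 := by
      field_simp
      ring
    rw [h5, abs_zero]
    positivity
  m3 := fun p hp i hi j hj hij => by
    have h1 := (mem_PL.1 hp).2.2.1
    have h2 : (3 : ℝ) ≤ p := by
      have : 3 ≤ p := by omega
      exact_mod_cast this
    have h3 : (p : ℝ) - 1 ≠ 0 := by linarith
    have h4 : (p : ℝ) ≠ 0 := by linarith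
    rw [avgU_Ep]
    unfold mean
    rw [sum_psi_psi (by omega) (not_modEq h1 (hb i hi) (hb j hj) (hinj i hi j hj hij))]
    have h5 : -((p : ℝ) / ((p : ℝ) - 1) ^ 2) / p = -(1 / ((p : ℝ) - 1) ^ 2) := by
      field_simp
    rw [h5, abs_neg, abs_of_nonneg (by positivity)]
    exact div_le_div_of_nonneg_right (by norm_num) (by positivity)

theorem locOK_avgQ (z p1 k1 : ℕ) (hz : 3 ≤ z) (x : ℝ) (D : BVdata x p1) (c a0 lo : ℕ)
    (hc : (c + a0).Coprime (Wp z p1)) (b : ι → ℕ) (J : Finset ι)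
    (hb : ∀ i ∈ J, b i ≤ z) (ha0 : a0 ≤ z) (hinj : ∀ i ∈ J, ∀ j ∈ J, i ≠ j → b i ≠ b j)
    (hne : ∀ i ∈ J, b i ≠ a0) :
    LocOK (PL z k1 p1) (avgQ x p1 D (Wp z p1) c a0 lo (Wp_pos z p1) hc) b J where
  good := fun p hp => PL_good hp
  three := fun p hp => by
    have := (mem_PL.1 hp).2.2.1
    omega
  lp_le := fun p hp y _ => lpP_le a0 (mem_PL.1 hp).2.1 y
  m1 := fun p hp i hi => by
    have h1 := (mem_PL.1 hp).2.2.1
    unfold Average.Ep
    change |∑ y ∈ range p, lpP a0 p y * psi p (y + b i)| ≤ _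
    rw [Q_psi (by omega) (not_modEq h1 ha0 (hb i hi) (hne i hi).symm), abs_neg,
      abs_of_nonneg (by positivity)]
  m2 := fun p hp i hi => by
    have h1 := (mem_PL.1 hp).2.2.1
    have h2 : (3 : ℝ) ≤ p := by
      have : 3 ≤ p := by omega
      exact_mod_cast this
    have h3 : (0 : ℝ) < (p : ℝ) - 1 := by linarith
    unfold Average.Ep
    change |∑ y ∈ range p, lpP a0 p y * (psi p (y + b i) * psi p (y + b i)) - _| ≤ _
    rw [Q_psi_sq (by omega) (not_modEq h1 ha0 (hb i hi) (hne i hi).symm)]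
    have h5 : (((p : ℝ) / ((p : ℝ) - 1)) - 1 / ((p : ℝ) - 1) ^ 2) / ((p : ℝ) - 1) -
        1 / ((p : ℝ) - 1) = ((p : ℝ) - 2) / ((p : ℝ) - 1) ^ 3 := by
      field_simp
      ring
    rw [h5, abs_of_nonneg (div_nonneg (by linarith) (by positivity)),
      div_le_div_iff₀ (by positivity) (by positivity)]
    nlinarith [pow_pos h3 2]
  m3 := fun p hp i hi j hj hij => by
    have h1 := (mem_PL.1 hp).2.2.1
    have h2 : (3 : ℝ) ≤ p := by
      have : 3 ≤ p := by omega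
      exact_mod_cast this
    have h3 : (0 : ℝ) < (p : ℝ) - 1 := by linarith
    unfold Average.Ep
    change |∑ y ∈ range p, lpP a0 p y * (psi p (y + b i) * psi p (y + b j))| ≤ _
    rw [Q_psi_psi (by omega) (not_modEq h1 ha0 (hb i hi) (hne i hi).symm)
      (not_modEq h1 ha0 (hb j hj) (hne j hj).symm)
      (not_modEq h1 (hb i hi) (hb j hj) (hinj i hi j hj hij)), abs_neg,
      abs_of_nonneg (by positivity), div_le_div_iff₀ (by positivity) (by positivity)]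
    nlinarith [pow_pos h3 2, pow_pos h3 3]

end

end Pool.Agent.LibPL63
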