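import Pool.Agent.LibPL63.B0h

/-!
The sum over all primitive characters of conductor `≤ e^{x/24}`.
-/

open Finset Filter Topology Complex MeasureTheory
open scoped ComplexConjugate ArithmeticFunction.vonMangoldt ArithmeticFunction.Moebius

namespace Pool.Agent.LibPL63

open DirichletCharacter
open Pool.Agent.LibMaier (gw gw_nonneg SS)

theorem LSeries_twist_eq {q : ℕ} (χ : DirichletCharacter ℂ q) (a : ℕ → ℂ) (ha0 : a 0 = 0) (s : ℂ) :
    LSeries ((fun n : ℕ ↦ (χ n : ℂ)) * a) s = ∑' n : ℕ, a n * (n : ℂ) ^ (-s) * χ (n : ZMod q) := by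
  unfold LSeries
  apply tsum_congr
  intro n
  rcases eq_or_ne n 0 with rfl | hn
  · simp [ha0]
  · rw [LSeries.term_of_ne_zero hn, Pi.mul_apply, Complex.cpow_neg, div_eq_mul_inv]
    ring

theorem summable_norm_of_LSeries {a : ℕ → ℂ} (ha0 : a 0 = 0) {s : ℂ} (h : LSeriesSummable a s) :
    Summable fun n : ℕ => ‖a n * (n : ℂ) ^ (-s)‖ := by
  refine h.norm.congr fun n => ?_
  rcases eq_or_ne n 0 with rfl | hn
  · simp [ha0]
  · rw [LSeries.term_of_ne_zero hn, Complex.cpow_neg, div_eq_mul_inv]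

theorem high_twist {q : ℕ} (χ : DirichletCharacter ℂ q) (U : ℕ) (f : ℕ → ℂ) :
    high U ((fun n : ℕ ↦ (χ n : ℂ)) * f) = (fun n : ℕ ↦ (χ n : ℂ)) * high U f := by
  funext n
  simp only [high, Pi.mul_apply]
  split_ifs <;> simp

theorem summable_beta (V : ℕ) {σ : ℝ} (hσ : 0 < σ) : LSeriesSummable (beta V) ((1 : ℂ) + σ) := by
  have h1 : LSeriesSummable (1 : ℕ → ℂ) ((1 : ℂ) + σ) := LSeriesSummable_one_iff.2 (by simp; exact hσ)
  have hδ : LSeriesSummable LSeries.delta ((1 : ℂ) + σ) := by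
    refine summable_of_norm_le (g := (1 : ℕ → ℂ)) (fun n => ?_) h1
    rw [LSeries.delta, Pi.one_apply]
    split_ifs <;> simp
  have hμ : LSeriesSummable (low V (fun n : ℕ ↦ (μ n : ℂ))) ((1 : ℂ) + σ) := by
    refine summable_of_norm_le (g := (1 : ℕ → ℂ)) (fun n => ?_) h1
    refine (norm_low_le _ _ _).trans ?_
    rw [Pi.one_apply, norm_one, Complex.norm_intCast]
    exact_mod_cast ArithmeticFunction.abs_moebius_le_one
  exact hδ.sub (hμ.convolution h1)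

/-- **type II sums over a family** -/
theorem sum_typeII_le (F : Finset PC) (Q : ℕ)
    (hF : ∀ r ∈ F, r.1 ≠ 0 ∧ r.1 ≤ Q ∧ r.2.IsPrimitive) (hcard : F.card ≤ Q ^ 2) (i0 : ℕ)
    (hi0 : 2 * Q ^ 4 ≤ 2 ^ i0) {x : ℝ} (hx : 1 ≤ x) :
    ∑ r ∈ F, ‖GS (LSeries.convolution (high (2 ^ i0) ((fun n : ℕ ↦ (r.2 n : ℂ)) * (fun n : ℕ ↦ (Λ n : ℂ)))) ((fun n : ℕ ↦ (r.2 n : ℂ)) * beta (2 ^ i0))) x‖ ≤
      1620000 * x ^ 6 := by
  classical
  have hx0 : 0 < x := by linarith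
  set σ : ℝ := 1 / x with hσ
  have hσ0 : 0 < σ := by positivity
  have hσ1 : σ ≤ 1 := by rw [hσ, div_le_one hx0]; exact hx
  have hw : ∀ t : ℝ, ((σ : ℂ) + t * I).re = σ := fun t => by simp
  have hΛs : LSeriesSummable (high (2 ^ i0) (fun n : ℕ ↦ (Λ n : ℂ))) ((1 : ℂ) + σ) :=
    summable_of_norm_le (norm_high_le _ _)
      (ArithmeticFunction.LSeriesSummable_vonMangoldt (by simp; exact hσ0))
  have hβs := summable_beta (2 ^ i0) hσ0
  have h1le : 1 ≤ 2 ^ i0 := Nat.one_le_two_pow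
  have hA0 : high (2 ^ i0) (fun n => (Λ n : ℂ)) 0 = 0 := by rw [high, if_pos (Nat.zero_le _)]
  have hB0 : beta (2 ^ i0) 0 = 0 := beta_eq_zero (Nat.zero_le _)
  have hA : ∀ t : ℝ, N2 F (fun r => LSeries (high (2 ^ i0) ((fun n : ℕ ↦ (r.2 n : ℂ)) * (fun n : ℕ ↦ (Λ n : ℂ)))) (1 + ((σ : ℂ) + t * I))) ≤
      450 * x ^ 3 := by
    intro t
    have h := large_sieve_line F Q hF hcard i0 hi0 (high (2 ^ i0) (fun n => (Λ n : ℂ)))
      (fun n hn => by rw [high, if_pos hn.le]) (fun i => ?_) (w := (σ : ℂ) + t * I)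
      (by rw [hw]; exact hσ0) (by rw [hw]; exact hσ1)
      (summable_norm_of_LSeries hA0 (summable_line _ hΛs t))
    · rw [hw] at h
      have h2 : 450 / σ ^ 3 = 450 * x ^ 3 := by
        rw [hσ]
        field_simp
      rw [h2] at h
      refine le_trans (le_of_eq ?_) h
      congr 1
      funext r
      rw [high_twist, LSeries_twist_eq _ _ hA0]
      rfl
    · refine le_trans (Finset.sum_le_sum fun n _ => ?_) (blockA_le i)
      apply div_le_div_of_nonneg_right _ (Nat.cast_nonneg n)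
      apply pow_le_pow_left₀ (norm_nonneg _)
      refine (norm_high_le _ _ _).trans ?_
      rw [Complex.norm_real, Real.norm_eq_abs, abs_of_nonneg ArithmeticFunction.vonMangoldt_nonneg]
  have hB : ∀ t : ℝ, N2 F (fun r => LSeries ((fun n : ℕ ↦ (r.2 n : ℂ)) * beta (2 ^ i0)) (1 + ((σ : ℂ) + t * I))) ≤
      450 * x ^ 3 := by
    intro t
    have h := large_sieve_line F Q hF hcard i0 hi0 (beta (2 ^ i0))
      (fun n hn => beta_eq_zero hn.le) (fun i => ?_) (w := (σ : ℂ) + t * I)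
      (by rw [hw]; exact hσ0) (by rw [hw]; exact hσ1)
      (summable_norm_of_LSeries hB0 (summable_line _ hβs t))
    · rw [hw] at h
      have h2 : 450 / σ ^ 3 = 450 * x ^ 3 := by
        rw [hσ]
        field_simp
      rw [h2] at h
      refine le_trans (le_of_eq ?_) h
      congr 1
      funext r
      rw [LSeries_twist_eq _ _ hB0]
      rfl
    · refine le_trans (Finset.sum_le_sum fun n _ => ?_) (blockB_le i)
      apply div_le_div_of_nonneg_right _ (Nat.cast_nonneg n)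
      exact pow_le_pow_left₀ (norm_nonneg _) (norm_beta_le h1le n) 2
  have hsA : ∀ r ∈ F, LSeriesSummable (high (2 ^ i0) ((fun n : ℕ ↦ (r.2 n : ℂ)) * (fun n : ℕ ↦ (Λ n : ℂ)))) ((1 : ℂ) + σ) := fun r _ =>
    summable_of_norm_le (norm_high_le _ _) (summable_charL r.2 hσ0)
  have hsB : ∀ r ∈ F, LSeriesSummable ((fun n : ℕ ↦ (r.2 n : ℂ)) * beta (2 ^ i0)) ((1 : ℂ) + σ) := fun r _ =>
    summable_of_norm_le (fun n => by
      rw [Pi.mul_apply, norm_mul]
      exact mul_le_of_le_one_left (norm_nonneg _) (r.2.norm_le_one _)) hβs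
  have h := bilinear_family F (fun r => high (2 ^ i0) ((fun n : ℕ ↦ (r.2 n : ℂ)) * (fun n : ℕ ↦ (Λ n : ℂ)))) (fun r => (fun n : ℕ ↦ (r.2 n : ℂ)) * beta (2 ^ i0)) hσ0
    hsA hsB hA hB x
  refine h.trans ?_
  have h3 : Real.exp (σ ^ 2 / 2 + σ * x) ≤ 8 := by
    refine le_trans (Real.exp_le_exp.2 ?_) Pool.Agent.LibMaier.exp_two_le
    have h4 : σ * x = 1 := by
      rw [hσ]
      field_simp
    rw [h4]
    nlinarith
  calc Real.exp (σ ^ 2 / 2 + σ * x) * (450 * x ^ 3 * (450 * x ^ 3))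
      ≤ 8 * (450 * x ^ 3 * (450 * x ^ 3)) := mul_le_mul_of_nonneg_right h3 (by positivity)
    _ = 1620000 * x ^ 6 := by ring

/-- number of characters -/
theorem card_PC_le (F : Finset PC) (Q : ℕ) (hF : ∀ r ∈ F, r.1 ≠ 0 ∧ r.1 ≤ Q) : F.card ≤ Q ^ 2 := by
  classical
  have h1 : ∀ r ∈ F, r.1 ∈ Icc 1 Q := fun r hr =>
    Finset.mem_Icc.2 ⟨Nat.one_le_iff_ne_zero.2 (hF r hr).1, (hF r hr).2⟩
  rw [Finset.card_eq_sum_card_fiberwise h1]
  have h2 : ∀ d ∈ Icc 1 Q, (F.filter fun r => r.1 = d).card ≤ Q := by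
    intro d hd
    obtain ⟨hd1, hd2⟩ := Finset.mem_Icc.1 hd
    have : NeZero d := ⟨by omega⟩
    have h3 : (F.filter fun r => r.1 = d) ⊆
        (Finset.univ : Finset (DirichletCharacter ℂ d)).image (fun χ => (⟨d, χ⟩ : PC)) := by
      rintro ⟨e, χ⟩ hr
      obtain ⟨_, h5⟩ := Finset.mem_filter.1 hr
      simp only at h5
      subst h5
      exact Finset.mem_image.2 ⟨χ, Finset.mem_univ _, rfl⟩
    exact (Finset.card_le_card h3).trans (Finset.card_image_le.trans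
      ((Pool.Agent.LibMaier.card_chars_le d _).trans hd2))
  refine (Finset.sum_le_sum h2).trans ?_
  rw [Finset.sum_const, Nat.card_Icc, smul_eq_mul, Nat.add_sub_cancel, sq]

/-- **the mean value theorem for primitive characters of conductor `≤ e^{x/24}`** -/
theorem sum_SS_le {x : ℝ} (hx : 60 ≤ x) (F : Finset PC)
    (hF : ∀ r ∈ F, 1 < r.1 ∧ (r.1 : ℝ) ≤ Real.exp (x / 24) ∧ r.2.IsPrimitive) :
    ∑ r ∈ F, ‖SS r.2 x‖ ≤ 10 ^ 7 * x ^ 6 := by
  classical
  have hx0 : 0 < x := by linarith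
  set Q : ℕ := ⌊Real.exp (x / 24)⌋₊ with hQ
  have hQle : (Q : ℝ) ≤ Real.exp (x / 24) := Nat.floor_le (Real.exp_pos _).le
  set N : ℕ := ⌊Real.exp (x / 5)⌋₊ with hN
  have hNle : (N : ℝ) ≤ Real.exp (x / 5) := Nat.floor_le (Real.exp_pos _).le
  have hNlt : Real.exp (x / 5) < N + 1 := Nat.lt_floor_add_one _
  have hN0 : N ≠ 0 := by
    intro h
    rw [h] at hNlt
    have h2 : (1 : ℝ) < Real.exp (x / 5) := Real.one_lt_exp_iff.2 (by positivity)
    norm_num at hNlt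
    linarith
  set i0 : ℕ := Nat.log 2 N with hi0
  have h1 : 2 ^ i0 ≤ N := Nat.pow_log_le_self 2 hN0
  have h2 : N < 2 ^ (i0 + 1) := Nat.lt_pow_succ_log_self (by norm_num) N
  have hU : ((2 ^ i0 : ℕ) : ℝ) ≤ Real.exp (x / 5) := le_trans (by exact_mod_cast h1) hNle
  have hi : 2 * Q ^ 4 ≤ 2 ^ i0 := by
    by_contra hcon
    push Not at hcon
    have h3 : N + 1 ≤ 4 * Q ^ 4 := by
      have : 2 ^ (i0 + 1) = 2 * 2 ^ i0 := by rw [pow_succ]; ring
      omega
    have h4 : ((N : ℝ) + 1) ≤ 4 * (Q : ℝ) ^ 4 := by exact_mod_cast h3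
    have h5 : (Q : ℝ) ^ 4 ≤ Real.exp (x / 6) := by
      calc (Q : ℝ) ^ 4 ≤ (Real.exp (x / 24)) ^ 4 := pow_le_pow_left₀ (Nat.cast_nonneg _) hQle 4
        _ = Real.exp (x / 6) := by
            rw [← Real.exp_nat_mul]
            congr 1
            push_cast
            ring
    have h6 : Real.exp (x / 5) = Real.exp (x / 6) * Real.exp (x / 30) := by
      rw [← Real.exp_add]
      congr 1
      ring
    have h7 : 4 ≤ Real.exp (x / 30) := by
      have h8 := Real.quadratic_le_exp_of_nonneg (x := x / 30) (by positivity)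
      nlinarith
    have h9 : 0 < Real.exp (x / 6) := Real.exp_pos _
    nlinarith
  have hF' : ∀ r ∈ F, r.1 ≠ 0 ∧ r.1 ≤ Q ∧ r.2.IsPrimitive := by
    intro r hr
    obtain ⟨h3, h4, h5⟩ := hF r hr
    exact ⟨by omega, Nat.le_floor h4, h5⟩
  have hcard := card_PC_le F Q fun r hr => ⟨(hF' r hr).1, (hF' r hr).2.1⟩
  have hII := sum_typeII_le F Q hF' hcard i0 hi (x := x) (by linarith)
  have hI : ∀ r ∈ F, ‖SS r.2 x‖ ≤ 7 * Q * (x + 1) * Real.exp (-x) * ((2 ^ i0 : ℕ) : ℝ) ^ 2 +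
      ‖GS (LSeries.convolution (high (2 ^ i0) ((fun n : ℕ ↦ (r.2 n : ℂ)) * (fun n : ℕ ↦ (Λ n : ℂ)))) ((fun n : ℕ ↦ (r.2 n : ℂ)) * beta (2 ^ i0))) x‖ := by
    intro r hr
    obtain ⟨h3, h4, h5⟩ := hF r hr
    have : NeZero r.1 := ⟨by omega⟩
    have hne : r.2 ≠ 1 := by
      intro h
      have h6 := (isPrimitive_def r.2).1 h5
      rw [h, conductor_one] at h6
      omega
    refine (norm_SS_sub_typeII_le hne (U := 2 ^ i0) Nat.one_le_two_pow (by linarith) hU).trans ?_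
    apply add_le_add _ le_rfl
    have h7 : (r.1 : ℝ) ≤ Q := by exact_mod_cast (hF' r hr).2.1
    have h8 : 0 ≤ (x + 1) * Real.exp (-x) * ((2 ^ i0 : ℕ) : ℝ) ^ 2 := by positivity
    nlinarith [mul_le_mul_of_nonneg_right h7 h8]
  refine (Finset.sum_le_sum hI).trans ?_
  rw [Finset.sum_add_distrib, Finset.sum_const, nsmul_eq_mul]
  have hcR : (F.card : ℝ) ≤ (Q : ℝ) ^ 2 := by exact_mod_cast hcard
  have h3 : (F.card : ℝ) * (7 * Q * (x + 1) * Real.exp (-x) * ((2 ^ i0 : ℕ) : ℝ) ^ 2) ≤ 7 * (x + 1) := by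
    calc (F.card : ℝ) * (7 * Q * (x + 1) * Real.exp (-x) * ((2 ^ i0 : ℕ) : ℝ) ^ 2)
        ≤ (Q : ℝ) ^ 2 * (7 * Q * (x + 1) * Real.exp (-x) * ((2 ^ i0 : ℕ) : ℝ) ^ 2) :=
          mul_le_mul_of_nonneg_right hcR (by positivity)
      _ = 7 * (x + 1) * ((Q : ℝ) ^ 3 * Real.exp (-x) * ((2 ^ i0 : ℕ) : ℝ) ^ 2) := by ring
      _ ≤ 7 * (x + 1) * (Real.exp (x / 24) ^ 3 * Real.exp (-x) * Real.exp (x / 5) ^ 2) := by
          apply mul_le_mul_of_nonneg_left _ (by positivity)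
          apply mul_le_mul _ (pow_le_pow_left₀ (Nat.cast_nonneg _) hU 2) (by positivity) (by positivity)
          exact mul_le_mul_of_nonneg_right (pow_le_pow_left₀ (Nat.cast_nonneg _) hQle 3) (Real.exp_pos _).le
      _ = 7 * (x + 1) * Real.exp (-(19 * x / 40)) := by
          rw [← Real.exp_nat_mul, ← Real.exp_nat_mul, ← Real.exp_add, ← Real.exp_add]
          congr 2
          push_cast
          ring
      _ ≤ 7 * (x + 1) * 1 := by
          apply mul_le_mul_of_nonneg_left _ (by positivity)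
          exact Real.exp_le_one_iff.2 (by linarith)
      _ = 7 * (x + 1) := by ring
  have h4 : x + 1 ≤ 2 * x ^ 6 := by
    have h5 : x ≤ x ^ 6 := by
      calc x = x ^ 1 := (pow_one x).symm
        _ ≤ x ^ 6 := pow_le_pow_right₀ (by linarith) (by norm_num)
    linarith
  have h5 : 0 ≤ x ^ 6 := by positivity
  linarith

end Pool.Agent.LibPL63
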