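import Pool.Agent.LibLG5.Defs
import Pool.Agent.LibMaier.Explicit
import Pool.Agent.LibPL63.Avg

/-!
LibPL63 (MP_ff81b6_nt, the complete qualitative Poisson law): definitions.

`z → ∞` natural, `x = q log z` real, `p1` a prime (the exceptional one) which is removed everywhere.
Small primes `P0 z p1`, large primes `PL z k1 p1`, modulus `Wp z p1`; `n ≡ c` modulo `Wp z p1`.
-/

open Finset

namespace Pool.Agent.LibPL63

open Pool.Agent.LibRG87 Pool.Agent.LibLG5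

/-- the modulus: product of the primes `≤ wf z` except `p1` -/
def Wp (z p1 : ℕ) : ℕ := ∏ p ∈ (PP 0 (wf z)).erase p1, p

/-- the sieving primes -/
def P0 (z p1 : ℕ) : Finset ℕ := (PP (wf z) z).erase p1

/-- the large primes -/
def PL (z k1 p1 : ℕ) : Finset ℕ := (PP z (z ^ k1)).erase p1

open scoped Classical in
/-- indicator of: all `n + a`, `a ∈ B`, are free of the primes in `Pr` -/
noncomputable def rhoP (Pr B : Finset ℕ) (n : ℕ) : ℝ := if ∀ a ∈ B, ∀ p ∈ Pr, ¬ p ∣ n + a then 1 else 0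

/-- its density -/
noncomputable def VP (Pr B : Finset ℕ) : ℝ := ∏ p ∈ Pr, (1 - (nuP B p : ℝ) / p)

/-- one position -/
noncomputable def V1p (Pr : Finset ℕ) : ℝ := ∏ p ∈ Pr, (1 - 1 / (p : ℝ))

open scoped Classical in
/-- indicator of `p ∣ n + a` for some `a ∈ B` -/
noncomputable def xB (B : Finset ℕ) (p n : ℕ) : ℝ := if ∃ a ∈ B, p ∣ n + a then 1 else 0

/-- the density for an average -/
noncomputable def VA (A : Average) (Pr B : Finset ℕ) : ℝ := ∏ p ∈ Pr, (1 - A.Ep p (xB B p))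

/-! ### the two weights -/

/-- the Gaussian weight of all numbers -/
noncomputable def omU (x : ℝ) (n : ℕ) : ℝ := LibMaier.gw (Real.log n - x) / n

/-- the range of summation -/
noncomputable def clsU (x : ℝ) (W c : ℕ) : Finset ℕ :=
  (Icc 1 ⌊Real.exp (2 * x)⌋₊).filter fun n => n ≡ c [MOD W]

open scoped Classical in
/-- the Gaussian weight of the primes -/
noncomputable def wp (x : ℝ) (n : ℕ) : ℝ :=
  if n.Prime then Real.log n * LibMaier.gw (Real.log n - x) / n else 0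

/-- the output of the Bombieri-Vinogradov part: `M` = mass, `er q` = error for the modulus `q` -/
structure BVdata (x : ℝ) (p1 : ℕ) where
  M : ℝ
  er : ℕ → ℝ
  er_nonneg : ∀ q, 0 ≤ er q
  M_ge : 9 / 10 ≤ M
  unit : ∀ q a : ℕ, 1 ≤ q → a.Coprime q →
    |(∑' n : ℕ, if n ≡ a [MOD q] then wp x n else 0) - M / (q.totient : ℝ)| ≤ er q
  nonunit : ∀ q a : ℕ, 1 ≤ q → ¬ a.Coprime q →
    (∑' n : ℕ, if n ≡ a [MOD q] then wp x n else 0) ≤ er q

/-- Bombieri-Vinogradov -/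
def BVprop : Prop := ∀ C : ℕ, ∃ x0 : ℝ, ∀ x : ℝ, x0 ≤ x → ∃ p1 : ℕ, p1.Prime ∧ ∃ D : BVdata x p1,
  ∑ q ∈ (Icc 1 ⌊Real.exp (x / 24)⌋₊).filter (fun q => Squarefree q ∧ ¬ p1 ∣ q),
    (C : ℝ) ^ q.primeFactors.card * D.er q ≤ Real.exp (-x ^ ((1 : ℝ) / 4))

/-- the mass of the weights outside `(lo, e^{2x}]` -/
noncomputable def trw (x : ℝ) (lo : ℕ) : ℝ :=
  ∑' n : ℕ, if n ≤ lo ∨ Real.exp (2 * x) < n then wp x n else 0

/-- local weights of the prime average -/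
noncomputable def lpP (a0 p y : ℕ) : ℝ := if p ∣ y + a0 then 0 else 1 / ((p : ℝ) - 1)

/-! ### configurations -/

section

variable {ι : Type} [Fintype ι] [DecidableEq ι] (P : Finset ℕ)

/-- all positions used are in `J` -/
def alw (J : Finset ι) (β : P → Option ι) : Prop := ∀ p i, β p = some i → i ∈ J

/-- product of the local means -/
noncomputable def EPA (A : Average) (b : ι → ℕ) (β β' : P → Option ι) : ℝ :=
  ∏ p : P, A.Ep (p : ℕ) (fun n => loc b p (β p) n * loc b p (β' p) n)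

/-- product of the local absolute means -/
noncomputable def AMA (A : Average) (b : ι → ℕ) (β β' : P → Option ι) : ℝ :=
  ∏ p : P, A.Ep (p : ℕ) (fun n => |loc b p (β p) n * loc b p (β' p) n|)

/-- the diagonal matrix -/
noncomputable def Dd (β β' : P → Option ι) : ℝ := if β = β' then 1 / ph (sp P β) else 0

/-- the local hypotheses at the large primes -/
structure LocOK (A : Average) (b : ι → ℕ) (J : Finset ι) : Prop where
  good : ∀ p ∈ P, p ∈ A.good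
  three : ∀ p ∈ P, 3 ≤ p
  lp_le : ∀ p ∈ P, ∀ y < p, A.lp p y ≤ 1 / ((p : ℝ) - 1)
  m1 : ∀ p ∈ P, ∀ i ∈ J, |A.Ep p (fun n => psi p (n + b i))| ≤ 1 / ((p : ℝ) - 1) ^ 2
  m2 : ∀ p ∈ P, ∀ i ∈ J,
    |A.Ep p (fun n => psi p (n + b i) * psi p (n + b i)) - 1 / ((p : ℝ) - 1)| ≤ 1 / ((p : ℝ) - 1) ^ 2
  m3 : ∀ p ∈ P, ∀ i ∈ J, ∀ j ∈ J, i ≠ j →
    |A.Ep p (fun n => psi p (n + b i) * psi p (n + b j))| ≤ 2 / ((p : ℝ) - 1) ^ 2

/-- the local hypotheses at the sieving primes -/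
structure SmallOK (A : Average) (Pr : Finset ℕ) (z k : ℕ) : Prop where
  good : ∀ p ∈ Pr, p ∈ A.good
  le : ∀ p ∈ Pr, p ≤ z
  big : ∀ p ∈ Pr, 4 * k + 4 ≤ p
  lp_le : ∀ p ∈ Pr, ∀ y < p, A.lp p y ≤ 1 / ((p : ℝ) - 1)

end

/-- the remainder -/
noncomputable def RemA (Er : ℕ → ℝ) (S : Finset ℕ) (C T : ℕ) : ℝ :=
  ∑ F ∈ S.powerset with ∏ p ∈ F, p ≤ T, (C : ℝ) ^ F.card * Er (∏ p ∈ F, p)

/-! ### the weights of Maynard type -/

open scoped Classical in
/-- the level of `rr A` among `z^(q0 a^i)`, `i < I` -/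
noncomputable def lev (z q0 a I : ℕ) (A : Finset ℕ) : ℕ :=
  ((range I).filter fun i => (z : ℝ) ^ (q0 * a ^ i) < rr A).card

open scoped Classical in
/-- `g1 = a^(-i)` for `z^(q0 a^(i-1)) < rr A ≤ z^(q0 a^i)`, `0` above `z^(q0 a^I)` -/
noncomputable def g1 (z q0 a I : ℕ) (A : Finset ℕ) : ℝ :=
  if rr A ≤ (z : ℝ) ^ (q0 * a ^ I) then ((a : ℝ)⁻¹) ^ lev z q0 a I A else 0

noncomputable def G1s (P : Finset ℕ) (z q0 a I : ℕ) : ℝ := ∑ A ∈ P.powerset, g1 z q0 a I A / ph A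

noncomputable def G2s (P : Finset ℕ) (z q0 a I : ℕ) : ℝ := ∑ A ∈ P.powerset, g1 z q0 a I A ^ 2 / ph A

noncomputable def L2s (P : Finset ℕ) (z q0 a I : ℕ) : ℝ :=
  ∑ A ∈ P.powerset, g1 z q0 a I A ^ 2 / ph A * Real.log (rr A)

section

variable {ι : Type} [Fintype ι] [DecidableEq ι] (P : Finset ℕ)

open scoped Classical in
/-- the coefficients -/
noncomputable def yM (z q0 a I L : ℕ) (β : P → Option ι) : ℝ :=
  if rr (sp P β) ≤ (z : ℝ) ^ L then ∏ i, g1 z q0 a I (fb P β i) else 0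

open scoped Classical in
/-- the coefficients collapsed at `i0` -/
noncomputable def yC (z q0 a I L : ℕ) (i0 : ι) (β : P → Option ι) : ℝ :=
  if ∀ p, β p ≠ some i0 then (∏ i, g1 z q0 a I (fb P β i)) *
    ∑ A ∈ (P \ sp P β).powerset with rr A * rr (sp P β) ≤ (z : ℝ) ^ L, g1 z q0 a I A / ph A
  else 0

end

/-- the main proposition: `m` primes among the `k` positions of `h`, in the Gaussian average -/
def MTg (m : ℕ) : Prop := ∃ k : ℕ, 1 ≤ k ∧ ∀ q1 : ℕ, ∃ (q : ℕ) (κ : ℝ), q1 ≤ q ∧ 1 ≤ q ∧ 0 < κ ∧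
  ∃ z0 : ℕ, ∀ z : ℕ, z0 ≤ z → ∃ p1 : ℕ, p1.Prime ∧ ∀ c : ℕ, ∀ h : Finset ℕ, h.card = k →
    (∀ a ∈ h, (a : ℝ) ≤ Real.log z ^ 2 ∧ (c + a).Coprime (Wp z p1)) →
    κ * (VP (P0 z p1) h / Wp z p1) ≤
      ∑ n ∈ clsU (q * Real.log z) (Wp z p1) c, omU (q * Real.log z) n *
        (rhoP (P0 z p1) h n * if m ≤ (h.filter fun a => (n + a).Prime).card then 1 else 0)

end Pool.Agent.LibPL63
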