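import Pool.Agent.LibMaier.Matrix

/-!
[PL63 SA4] **The Gaussian weight is equidistributed in residue classes.**
-/

set_option autoImplicit false

namespace Pool.Agent.LibPL63

open MeasureTheory Filter Topology Pool.Agent.LibMaier

/-- the weight as a function of a real variable -/
noncomputable def fw (x t : ℝ) : ℝ := gw (Real.log t - x) / t

/-- its derivative -/
noncomputable def fd (x t : ℝ) : ℝ := -(gw (Real.log t - x) / t ^ 2) * (Real.log t - x + 1)

theorem gw_mul_exp (v : ℝ) : gw v * Real.exp v ≤ 1 := by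
  unfold gw
  have hpi := Real.pi_gt_three
  have h2 : (2 : ℝ) ≤ Real.sqrt (2 * Real.pi) := by
    apply Real.le_sqrt_of_sq_le
    linarith
  have h1 : Real.exp (-v ^ 2 / 2) * Real.exp v ≤ 2 := by
    rw [← Real.exp_add]
    have h3 : -v ^ 2 / 2 + v ≤ 1 / 2 := by nlinarith [sq_nonneg (v - 1)]
    have h4 : Real.exp (1 / 2) ≤ 2 := by
      have h5 : Real.exp (1 / 2) ^ 2 = Real.exp 1 := by
        rw [← Real.exp_nat_mul]
        congr 1
        norm_num
      have h6 := Real.exp_one_lt_d9
      have h7 := Real.exp_pos (1 / 2)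
      nlinarith
    exact (Real.exp_le_exp.2 h3).trans h4
  rw [div_mul_eq_mul_div, div_le_one (by linarith)]
  linarith

theorem gw_neg (v : ℝ) : gw (-v) = gw v := by
  unfold gw
  rw [neg_sq]

theorem gw_le_exp (v : ℝ) : gw v ≤ Real.exp v := by
  have h := gw_mul_exp (-v)
  rw [gw_neg, Real.exp_neg, mul_inv_le_iff₀ (Real.exp_pos _), one_mul] at h
  exact h

theorem gw_le_exp_neg (v : ℝ) : gw v ≤ Real.exp (-v) := by
  have h := gw_le_exp (-v)
  rwa [gw_neg] at h

theorem fw_nonneg (x : ℝ) {t : ℝ} (ht : 0 ≤ t) : 0 ≤ fw x t := div_nonneg (gw_nonneg _) ht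

theorem fw_le (x : ℝ) {t : ℝ} (ht : 0 < t) : fw x t ≤ Real.exp (-x) := by
  unfold fw
  rw [div_le_iff₀ ht]
  have h := gw_le_exp (Real.log t - x)
  have h2 : Real.exp (Real.log t - x) = Real.exp (-x) * t := by
    rw [sub_eq_neg_add, Real.exp_add, Real.exp_log ht]
  rwa [h2] at h

theorem hasDerivAt_gw (v : ℝ) : HasDerivAt gw (-v * gw v) v := by
  unfold gw
  have h1 : HasDerivAt (fun v : ℝ => -v ^ 2 / 2) (-v) v := by
    have h := ((hasDerivAt_pow 2 v).neg).div_const 2
    refine h.congr_deriv ?_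
    norm_num
    ring
  have h2 := (h1.exp).div_const (Real.sqrt (2 * Real.pi))
  refine h2.congr_deriv ?_
  ring

theorem hasDerivAt_fw (x : ℝ) {t : ℝ} (ht : 0 < t) : HasDerivAt (fw x) (fd x t) t := by
  unfold fw fd
  have h1 : HasDerivAt (fun t => Real.log t - x) t⁻¹ t := (Real.hasDerivAt_log ht.ne').sub_const x
  have h2 : HasDerivAt (fun t => gw (Real.log t - x))
      (-(Real.log t - x) * gw (Real.log t - x) * t⁻¹) t :=
    HasDerivAt.comp (h₂ := gw) t (hasDerivAt_gw (Real.log t - x)) h1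
  have h3 := h2.div (hasDerivAt_id t) ht.ne'
  refine h3.congr_deriv ?_
  simp only [id]
  field_simp
  ring

theorem continuousOn_fd (x : ℝ) : ContinuousOn (fd x) (Set.Ioi 0) := by
  unfold fd
  have h1 : ContinuousOn (fun t : ℝ => Real.log t) (Set.Ioi 0) :=
    Real.continuousOn_log.mono fun t ht => (ne_of_gt ht : t ≠ 0)
  have h2 : ContinuousOn (fun t : ℝ => gw (Real.log t - x)) (Set.Ioi 0) :=
    continuous_gw.comp_continuousOn (h1.sub continuousOn_const)
  refine ((h2.div (continuousOn_id.pow 2) fun t ht => ?_).neg).mul ((h1.sub continuousOn_const).add continuousOn_const)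
  exact pow_ne_zero 2 (ne_of_gt ht)

theorem continuousOn_fw (x : ℝ) : ContinuousOn (fw x) (Set.Ioi 0) := fun _ ht =>
  (hasDerivAt_fw x ht).continuousAt.continuousWithinAt

theorem uIcc_pos {a b : ℝ} (ha : 0 < a) (hab : a ≤ b) : Set.uIcc a b ⊆ Set.Ioi 0 := by
  rw [Set.uIcc_of_le hab]
  intro t ht
  exact lt_of_lt_of_le ha ht.1

theorem int_fd (x : ℝ) {a b : ℝ} (ha : 0 < a) (hab : a ≤ b) :
    IntervalIntegrable (fd x) volume a b :=
  ((continuousOn_fd x).mono (uIcc_pos ha hab)).intervalIntegrable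

theorem int_fw (x : ℝ) {a b : ℝ} (ha : 0 < a) (hab : a ≤ b) :
    IntervalIntegrable (fw x) volume a b :=
  ((continuousOn_fw x).mono (uIcc_pos ha hab)).intervalIntegrable

theorem ftc_fw (x : ℝ) {a b : ℝ} (ha : 0 < a) (hab : a ≤ b) :
    ∫ t in a..b, fd x t = fw x b - fw x a :=
  intervalIntegral.integral_eq_sub_of_hasDerivAt
    (fun _ ht => hasDerivAt_fw x (uIcc_pos ha hab ht)) (int_fd x ha hab)

/-- the total variation is at most `2 e^{-x}` -/
theorem tv_fw (x : ℝ) {a b : ℝ} (ha : 0 < a) (hab : a ≤ b) :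
    ∫ t in a..b, |fd x t| ≤ 2 * Real.exp (-x) := by
  set t0 := Real.exp (x - 1) with ht0
  have ht0pos : 0 < t0 := Real.exp_pos _
  have hup : ∀ a b : ℝ, 0 < a → a ≤ b → b ≤ t0 → (∫ t in a..b, |fd x t|) = fw x b - fw x a := by
    intro a b ha hab hb
    rw [← ftc_fw x ha hab]
    refine intervalIntegral.integral_congr fun t ht => ?_
    rw [Set.uIcc_of_le hab] at ht
    have htp : 0 < t := lt_of_lt_of_le ha ht.1
    have h1 : Real.log t ≤ x - 1 := by
      rw [← Real.log_exp (x - 1)]
      exact Real.log_le_log htp (ht.2.trans hb)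
    show |fd x t| = fd x t
    apply abs_of_nonneg
    unfold fd
    rw [neg_mul, neg_nonneg]
    exact mul_nonpos_of_nonneg_of_nonpos (div_nonneg (gw_nonneg _) (by positivity)) (by linarith)
  have hdn : ∀ a b : ℝ, 0 < a → a ≤ b → t0 ≤ a → (∫ t in a..b, |fd x t|) = fw x a - fw x b := by
    intro a b ha hab hb
    have h0 : fw x a - fw x b = -(fw x b - fw x a) := by ring
    rw [h0, ← ftc_fw x ha hab, ← intervalIntegral.integral_neg]
    refine intervalIntegral.integral_congr fun t ht => ?_
    rw [Set.uIcc_of_le hab] at ht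
    have htp : 0 < t := lt_of_lt_of_le ha ht.1
    have h1 : x - 1 ≤ Real.log t := by
      rw [← Real.log_exp (x - 1)]
      exact Real.log_le_log ht0pos (hb.trans ht.1)
    show |fd x t| = -fd x t
    apply abs_of_nonpos
    unfold fd
    rw [neg_mul, neg_nonpos]
    exact mul_nonneg (div_nonneg (gw_nonneg _) (by positivity)) (by linarith)
  have hE : 0 < Real.exp (-x) := Real.exp_pos _
  rcases le_total b t0 with h | h
  · rw [hup a b ha hab h]
    have h1 := fw_le x (ha.trans_le hab)
    have h2 := fw_nonneg x ha.le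
    linarith
  · rcases le_total t0 a with h' | h'
    · rw [hdn a b ha hab h']
      have h1 := fw_le x ha
      have h2 := fw_nonneg x (ha.le.trans hab)
      linarith
    · rw [← intervalIntegral.integral_add_adjacent_intervals (b := t0)
        (int_fd x ha h').abs (int_fd x ht0pos h).abs, hup a t0 ha h' le_rfl,
        hdn t0 b ht0pos h le_rfl]
      have h1 := fw_le x ht0pos
      have h2 := fw_nonneg x (ha.le.trans hab)
      have h3 := fw_nonneg x ha.le
      linarith

theorem step_fw (x : ℝ) {a Q : ℝ} (ha : 0 < a) (hQ : 0 ≤ Q) :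
    |Q * fw x a - ∫ t in a..(a + Q), fw x t| ≤ Q * ∫ t in a..(a + Q), |fd x t| := by
  have hab : a ≤ a + Q := by linarith
  have h1 : Q * fw x a - ∫ t in a..(a + Q), fw x t = ∫ t in a..(a + Q), (fw x a - fw x t) := by
    rw [intervalIntegral.integral_sub (intervalIntegrable_const) (int_fw x ha hab),
      intervalIntegral.integral_const]
    simp
  rw [h1]
  have h2 : ∀ t ∈ Set.uIoc a (a + Q), ‖fw x a - fw x t‖ ≤ ∫ t in a..(a + Q), |fd x t| := by
    intro t ht
    rw [Set.uIoc_of_le hab] at ht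
    rw [Real.norm_eq_abs, abs_sub_comm, ← ftc_fw x ha ht.1.le]
    refine (intervalIntegral.abs_integral_le_integral_abs ht.1.le).trans ?_
    rw [← intervalIntegral.integral_add_adjacent_intervals (b := t)
        (int_fd x ha ht.1.le).abs (int_fd x (ha.trans ht.1) ht.2).abs]
    have h3 : 0 ≤ ∫ t in t..(a + Q), |fd x t| :=
      intervalIntegral.integral_nonneg ht.2 fun _ _ => abs_nonneg _
    linarith
  have h3 := intervalIntegral.norm_integral_le_of_norm_le_const h2
  rw [Real.norm_eq_abs, add_sub_cancel_left, abs_of_nonneg hQ] at h3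
  linarith

theorem sum_fw (x : ℝ) {a Q : ℝ} (ha : 0 < a) (hQ : 0 ≤ Q) (K : ℕ) :
    |Q * ∑ j ∈ Finset.range K, fw x (a + Q * j) - ∫ t in a..(a + Q * K), fw x t| ≤
      Q * ∫ t in a..(a + Q * K), |fd x t| := by
  induction K with
  | zero => simp
  | succ K ih =>
    have hK : 0 ≤ Q * (K : ℝ) := by positivity
    have h1 : 0 < a + Q * K := by linarith
    have h2 : a ≤ a + Q * K := by linarith
    have h3 : a + Q * K ≤ a + Q * ((K + 1 : ℕ) : ℝ) := by
      push_cast
      nlinarith
    have h4 : a + Q * ((K + 1 : ℕ) : ℝ) = (a + Q * K) + Q := by push_cast; ring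
    rw [Finset.sum_range_succ,
      ← intervalIntegral.integral_add_adjacent_intervals (int_fw x ha h2) (int_fw x h1 h3),
      ← intervalIntegral.integral_add_adjacent_intervals (int_fd x ha h2).abs (int_fd x h1 h3).abs]
    have h5 := step_fw x h1 hQ
    rw [← h4] at h5
    have e : Q * (∑ j ∈ Finset.range K, fw x (a + Q * j) + fw x (a + Q * K)) -
        ((∫ t in a..(a + Q * K), fw x t) + ∫ t in (a + Q * K)..(a + Q * ((K + 1 : ℕ) : ℝ)), fw x t) =
        (Q * ∑ j ∈ Finset.range K, fw x (a + Q * j) - ∫ t in a..(a + Q * K), fw x t) +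
        (Q * fw x (a + Q * K) - ∫ t in (a + Q * K)..(a + Q * ((K + 1 : ℕ) : ℝ)), fw x t) := by
      ring
    rw [e]
    refine (abs_add_le _ _).trans ?_
    rw [mul_add]
    linarith

theorem subst_fw (x : ℝ) {a b : ℝ} (ha : 0 < a) (hab : a ≤ b) :
    ∫ t in a..b, fw x t = ∫ v in (Real.log a - x)..(Real.log b - x), gw v := by
  have h := intervalIntegral.integral_comp_mul_deriv'' (f := fun t => Real.log t - x)
    (f' := fun t => t⁻¹) (g := gw) (a := a) (b := b) ?_ ?_ ?_ ?_
  · rw [← h]
    refine intervalIntegral.integral_congr fun t _ => ?_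
    show gw (Real.log t - x) / t = gw (Real.log t - x) * t⁻¹
    rw [div_eq_mul_inv]
  · exact (Real.continuousOn_log.mono fun t ht => (ne_of_gt (uIcc_pos ha hab ht))).sub continuousOn_const
  · intro t ht
    rw [min_eq_left hab, max_eq_right hab] at ht
    exact ((Real.hasDerivAt_log (ha.trans ht.1).ne').sub_const x).hasDerivWithinAt
  · exact continuousOn_inv₀.mono fun t ht => (ne_of_gt (uIcc_pos ha hab ht))
  · exact continuous_gw.continuousOn

theorem tail_low (L : ℝ) : ∫ v in Set.Iic L, gw v ≤ Real.exp L := by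
  rw [← integral_exp_Iic L]
  exact setIntegral_mono_on integrable_gw.integrableOn (integrableOn_exp_Iic L) measurableSet_Iic
    fun v _ => gw_le_exp v

theorem tail_high (L : ℝ) : ∫ v in Set.Ioi L, gw v ≤ Real.exp (-L) := by
  rw [← integral_exp_neg_Ioi L]
  exact setIntegral_mono_on integrable_gw.integrableOn (integrableOn_exp_neg_Ioi L) measurableSet_Ioi
    fun v _ => gw_le_exp_neg v

theorem mass_gw {L1 L2 : ℝ} :
    |(∫ v in L1..L2, gw v) - 1| ≤ Real.exp L1 + Real.exp (-L2) := by
  have h1a := intervalIntegral.integral_Iic_add_Ioi (b := L2) (μ := volume)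
    (integrable_gw.integrableOn (s := Set.Iic L2)) (integrable_gw.integrableOn (s := Set.Ioi L2))
  have h1b := intervalIntegral.integral_Iic_sub_Iic (a := L1) (b := L2) (μ := volume)
    (integrable_gw.integrableOn (s := Set.Iic L1)) (integrable_gw.integrableOn (s := Set.Iic L2))
  have h1 : ∫ v, gw v = ((∫ v in Set.Iic L1, gw v) + ∫ v in L1..L2, gw v) + ∫ v in Set.Ioi L2, gw v := by
    rw [← h1a, ← h1b]
    ring
  rw [integral_gw] at h1
  have h2 := tail_low L1
  have h3 := tail_high L2
  have h4 : 0 ≤ ∫ v in Set.Iic L1, gw v := setIntegral_nonneg measurableSet_Iic fun v _ => gw_nonneg v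
  have h5 : 0 ≤ ∫ v in Set.Ioi L2, gw v := setIntegral_nonneg measurableSet_Ioi fun v _ => gw_nonneg v
  rw [abs_le]
  constructor <;> linarith

/-- the sum over a residue class, in terms of the first term -/
theorem class_sum (x : ℝ) (N Q b K : ℕ) (hQ : 0 < Q) (hb1 : 1 ≤ b) (hbQ : b ≤ Q)
    (hN : Real.exp (2 * x) ≤ N) (hK : N ≤ b + Q * K) :
    |∑ j ∈ Finset.range K, fw x ((b : ℝ) + Q * j) - 1 / Q| ≤ 4 * Real.exp (-x) := by
  have hQR : (1 : ℝ) ≤ Q := by exact_mod_cast hQ
  have hbR : (1 : ℝ) ≤ b := by exact_mod_cast hb1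
  have hbQR : (b : ℝ) ≤ Q := by exact_mod_cast hbQ
  have hKR : (N : ℝ) ≤ b + Q * K := by exact_mod_cast hK
  have hb0 : (0 : ℝ) < b := by linarith
  have hQK : 0 ≤ (Q : ℝ) * K := by positivity
  have hle : (b : ℝ) ≤ b + Q * K := by linarith
  have h1 := sum_fw x hb0 (by linarith : (0 : ℝ) ≤ Q) K
  have h2 := tv_fw x hb0 hle
  rw [subst_fw x hb0 hle] at h1
  have hlog : Real.log b ≤ Real.log (b + Q * K) := Real.log_le_log hb0 hle
  have h3 := mass_gw (L1 := Real.log b - x) (L2 := Real.log (b + Q * K) - x)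
  have h4 : Real.exp (Real.log b - x) ≤ Q * Real.exp (-x) := by
    rw [sub_eq_add_neg, Real.exp_add, Real.exp_log hb0]
    exact mul_le_mul_of_nonneg_right hbQR (Real.exp_pos _).le
  have h5 : Real.exp (-(Real.log (b + Q * K) - x)) ≤ Q * Real.exp (-x) := by
    have h6 : 2 * x ≤ Real.log (b + Q * K) := by
      rw [← Real.log_exp (2 * x)]
      exact Real.log_le_log (Real.exp_pos _) (hN.trans hKR)
    calc Real.exp (-(Real.log (b + Q * K) - x)) ≤ Real.exp (-x) := Real.exp_le_exp.2 (by linarith)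
      _ ≤ Q * Real.exp (-x) := le_mul_of_one_le_left (Real.exp_pos _).le hQR
  have h7 : |(Q : ℝ) * ∑ j ∈ Finset.range K, fw x ((b : ℝ) + Q * j) - 1| ≤ 4 * (Q * Real.exp (-x)) := by
    set I := ∫ v in (Real.log (b : ℝ) - x)..(Real.log (b + Q * K) - x), gw v with hI
    have h8 : (Q : ℝ) * ∑ j ∈ Finset.range K, fw x ((b : ℝ) + Q * j) - 1 =
        ((Q : ℝ) * ∑ j ∈ Finset.range K, fw x ((b : ℝ) + Q * j) - I) + (I - 1) := by ring
    rw [h8]
    refine (abs_add_le _ _).trans ?_
    have h9 : (Q : ℝ) * ∫ t in (b : ℝ)..(b + Q * K), |fd x t| ≤ Q * (2 * Real.exp (-x)) :=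
      mul_le_mul_of_nonneg_left h2 (by linarith)
    linarith
  have h10 : ∑ j ∈ Finset.range K, fw x ((b : ℝ) + Q * j) - 1 / Q =
      ((Q : ℝ) * ∑ j ∈ Finset.range K, fw x ((b : ℝ) + Q * j) - 1) / Q := by
    field_simp
  rw [h10, abs_div, Nat.abs_cast, div_le_iff₀ (by linarith)]
  linarith

/-- **The Gaussian weight in residue classes.** -/
theorem gauss_class (x : ℝ) (N : ℕ) (hN : Real.exp (2 * x) ≤ N) (Q : ℕ) (hQ : 0 < Q) (r : ℕ)
    (hr : r < Q) :
    |∑ n ∈ Finset.range N with n % Q = r, gw (Real.log n - x) / n - 1 / Q| ≤ 4 * Real.exp (-x) := by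
  obtain ⟨b, hb⟩ : ∃ b : ℕ, b = if r = 0 then Q else r := ⟨_, rfl⟩
  have hb1 : 1 ≤ b := by
    rw [hb]
    split_ifs <;> omega
  have hbQ : b ≤ Q := by
    rw [hb]
    split_ifs <;> omega
  set K : ℕ := (N - b + Q - 1) / Q with hK
  have hK1 : N ≤ b + Q * K := by
    have h1 : N - b + Q - 1 < Q * (K + 1) := Nat.lt_mul_div_succ _ hQ
    rw [Nat.mul_succ] at h1
    omega
  have hK2 : ∀ j < K, b + Q * j < N := by
    intro j hj
    have h1 : Q * K ≤ N - b + Q - 1 := Nat.mul_div_le _ _
    have h2 : Q * (j + 1) ≤ Q * K := Nat.mul_le_mul_left _ hj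
    rw [Nat.mul_succ] at h2
    omega
  have h := class_sum x N Q b K hQ hb1 hbQ hN hK1
  have hsum : ∑ n ∈ Finset.range N with n % Q = r, gw (Real.log n - x) / (n : ℝ) =
      ∑ j ∈ Finset.range K, fw x ((b : ℝ) + Q * j) := by
    have himg : ((Finset.range N).filter fun n => n % Q = r).erase 0 =
        (Finset.range K).image fun j => b + Q * j := by
      ext n
      rw [Finset.mem_erase, Finset.mem_filter, Finset.mem_range, Finset.mem_image]
      constructor
      · rintro ⟨hn0, hnN, hnr⟩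
        have hdm := Nat.div_add_mod n Q
        rw [hnr] at hdm
        by_cases hr0 : r = 0
        · have hbQ' : b = Q := by rw [hb, if_pos hr0]
          have hdiv : 1 ≤ n / Q := by
            by_contra hcon
            have : n / Q = 0 := Nat.lt_one_iff.1 (not_le.1 hcon)
            rw [this, hr0] at hdm
            omega
          obtain ⟨j, hj⟩ : ∃ j, n / Q = j + 1 :=
            Nat.exists_eq_succ_of_ne_zero (Nat.one_le_iff_ne_zero.1 hdiv)
          refine ⟨j, ?_, ?_⟩
          · rw [Finset.mem_range]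
            by_contra hcon
            have h2 : Q * K ≤ Q * j := Nat.mul_le_mul_left _ (by omega)
            rw [hj, hr0, Nat.mul_succ] at hdm
            omega
          · rw [hj, hr0, Nat.mul_succ] at hdm
            omega
        · have hbr : b = r := by rw [hb, if_neg hr0]
          have h3 : b + Q * (n / Q) = n := by
            rw [hbr]
            linarith
          refine ⟨n / Q, ?_, h3⟩
          rw [Finset.mem_range]
          by_contra hcon
          have h2 : Q * K ≤ Q * (n / Q) := Nat.mul_le_mul_left _ (not_lt.1 hcon)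
          linarith
      · rintro ⟨j, hj, rfl⟩
        rw [Finset.mem_range] at hj
        refine ⟨by omega, hK2 j hj, ?_⟩
        rw [Nat.add_mul_mod_self_left]
        by_cases hr0 : r = 0
        · rw [hb, if_pos hr0, Nat.mod_self, hr0]
        · rw [hb, if_neg hr0, Nat.mod_eq_of_lt hr]
    have h0 : ∑ n ∈ Finset.range N with n % Q = r, gw (Real.log n - x) / (n : ℝ) =
        ∑ n ∈ ((Finset.range N).filter fun n => n % Q = r).erase 0, gw (Real.log n - x) / (n : ℝ) := by
      symm
      apply Finset.sum_erase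
      simp
    rw [h0, himg, Finset.sum_image]
    · refine Finset.sum_congr rfl fun j _ => ?_
      unfold fw
      push_cast
      rfl
    · intro i _ j _ hij
      simp only at hij
      have : Q * i = Q * j := by omega
      exact Nat.eq_of_mul_eq_mul_left hQ this
  rw [hsum]
  exact h

end Pool.Agent.LibPL63
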