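import Pool.Agent.LibPL63.SA3
import Pool.Agent.LibPL63.SA4
import Pool.Agent.LibPL63.Defs

/-!
[PL63 SA5] **Instance (U)**: the Gaussian average over `n ≡ c (mod W)`.
-/

set_option autoImplicit false

namespace Pool.Agent.LibPL63

open Finset Pool.Agent.LibLG5 Pool.Agent.LibMaier

theorem crt_mod (W q c a n : ℕ) (hW : 0 < W) (hq : 0 < q) (hcop : W.Coprime q) (hc : c < W) (ha : a < q) :
    (n % W = c ∧ n % q = a) ↔ n % (W * q) = (Nat.chineseRemainder hcop c a : ℕ) := by
  set r := Nat.chineseRemainder hcop c a with hr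
  have h1 := r.2
  have hlt : (r : ℕ) < W * q := Nat.chineseRemainder_lt_mul hcop c a hW.ne' hq.ne'
  constructor
  · rintro ⟨h2, h3⟩
    have h4 : n ≡ r [MOD W] := by
      have : n ≡ c [MOD W] := by
        unfold Nat.ModEq
        rw [h2, Nat.mod_eq_of_lt hc]
      exact this.trans h1.1.symm
    have h5 : n ≡ r [MOD q] := by
      have : n ≡ a [MOD q] := by
        unfold Nat.ModEq
        rw [h3, Nat.mod_eq_of_lt ha]
      exact this.trans h1.2.symm
    have h6 : n ≡ r [MOD (W * q)] := (Nat.modEq_and_modEq_iff_modEq_mul hcop).1 ⟨h4, h5⟩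
    have h7 : n % (W * q) = (r : ℕ) % (W * q) := h6
    rw [h7, Nat.mod_eq_of_lt hlt]
  · intro h2
    have h3 : n ≡ r [MOD (W * q)] := by
      unfold Nat.ModEq
      rw [h2, Nat.mod_eq_of_lt hlt]
    have h4 := (Nat.modEq_and_modEq_iff_modEq_mul hcop).2 h3
    have h5 : n % W = c % W := h4.1.trans h1.1
    have h6 : n % q = a % q := h4.2.trans h1.2
    rw [h5, h6, Nat.mod_eq_of_lt hc, Nat.mod_eq_of_lt ha]
    exact ⟨rfl, rfl⟩

/-- **instance (U)**: the Gaussian average over `n ≡ c (mod W)` -/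
noncomputable def avgU (x : ℝ) (W c : ℕ) (hW : 0 < W) : Average where
  s := clsU x W c
  om := omU x
  good := {p | p.Prime ∧ ¬ p ∣ W}
  lp := fun p _ => 1 / (p : ℝ)
  X := 1 / (W : ℝ)
  Er := fun _ => 6 * Real.exp (-x)
  om_nonneg := fun n _ => div_nonneg (gw_nonneg _) (Nat.cast_nonneg _)
  X_nonneg := by positivity
  Er_nonneg := fun _ => by positivity
  good_prime := fun p hp => hp.1
  lp_nonneg := fun p _ _ => by positivity
  lp_sum := fun p hp => by
    rw [Finset.sum_const, Finset.card_range, nsmul_eq_mul, mul_one_div,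
      div_self (by exact_mod_cast (hp.1).ne_zero)]
  hp := by
    refine hp_of_classes (clsU x W c) (omU x) {p | p.Prime ∧ ¬ p ∣ W}
      (fun (p : ℕ) (hp : p ∈ {p : ℕ | p.Prime ∧ ¬ p ∣ W}) => hp.1)
      (fun p _ => 1 / (p : ℝ)) (1 / (W : ℝ)) (fun _ => 6 * Real.exp (-x)) ?_
    intro T hT a ha
    set q := ∏ p ∈ T, p with hq
    have hq0 : 0 < q := Finset.prod_pos fun p hp => (hT p hp).1.pos
    have hcop : W.Coprime q := by
      apply Nat.Coprime.prod_right
      intro p hp
      exact ((Nat.Prime.coprime_iff_not_dvd (hT p hp).1).2 (hT p hp).2).symm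
    have hcW : c % W < W := Nat.mod_lt _ hW
    set r : ℕ := (Nat.chineseRemainder hcop (c % W) a : ℕ) with hr
    have h := gauss_class x (⌊Real.exp (2 * x)⌋₊ + 1) (by
      push_cast
      exact (Nat.lt_floor_add_one _).le) (W * q) (Nat.mul_pos hW hq0) r
      (Nat.chineseRemainder_lt_mul hcop (c % W) a hW.ne' hq0.ne')
    have h1 : ∑ n ∈ (clsU x W c).filter (fun n => n % q = a), omU x n =
        ∑ n ∈ (range (⌊Real.exp (2 * x)⌋₊ + 1)).filter (fun n => n % (W * q) = r),
          gw (Real.log n - x) / (n : ℝ) := by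
      refine Finset.sum_subset ?_ ?_
      · intro n hn
        unfold clsU at hn
        rw [Finset.mem_filter, Finset.mem_filter, Finset.mem_Icc] at hn
        obtain ⟨⟨⟨h1, h2⟩, h3⟩, h4⟩ := hn
        rw [Finset.mem_filter, Finset.mem_range]
        refine ⟨by omega, ?_⟩
        exact (crt_mod W q (c % W) a n hW hq0 hcop hcW ha).1 ⟨h3, h4⟩
      · intro n hn hn'
        rw [Finset.mem_filter, Finset.mem_range] at hn
        have h2 := (crt_mod W q (c % W) a n hW hq0 hcop hcW ha).2 hn.2
        have h3 : n = 0 := by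
          by_contra h0
          apply hn'
          unfold clsU
          rw [Finset.mem_filter, Finset.mem_filter, Finset.mem_Icc]
          exact ⟨⟨⟨by omega, by omega⟩, h2.1⟩, h2.2⟩
        rw [h3]
        unfold omU
        rw [Nat.cast_zero, div_zero]
    have h2 : 1 / (W : ℝ) * ∏ p ∈ T, 1 / (p : ℝ) = 1 / ((W * q : ℕ) : ℝ) := by
      rw [Finset.prod_div_distrib, Finset.prod_const_one, hq]
      push_cast
      rw [one_div_mul_one_div]
    rw [h1, h2]
    refine h.trans ?_
    have := Real.exp_pos (-x)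
    linarith

theorem avgU_Ep (x : ℝ) (W c : ℕ) (hW : 0 < W) (p : ℕ) (g : ℕ → ℝ) :
    (avgU x W c hW).Ep p g = mean p g := by
  unfold Average.Ep mean avgU
  simp only
  rw [← Finset.mul_sum, one_div_mul_eq_div]

end Pool.Agent.LibPL63
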