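import Pool.Agent.LibMaier.LSum

/-!
Tools for the theorem of Bombieri and Vinogradov: duality (Halasz-Selberg) and the large sieve for a family of
primitive characters with the trivial bound for character sums.
-/

open Finset
open scoped ComplexConjugate

namespace Pool.Agent.LibPL63

open DirichletCharacter Pool.Agent.LibMaier

/-- duality -/
theorem halasz_selberg {R I : Type*} (F : Finset R) (S : Finset I) (v : R → I → ℂ) (c : I → ℂ)
    (B : ℝ) (hB0 : 0 ≤ B) (hB : ∀ r ∈ F, ∑ s ∈ F, ‖∑ n ∈ S, v r n * conj (v s n)‖ ≤ B) :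
    ∑ r ∈ F, ‖∑ n ∈ S, c n * v r n‖ ^ 2 ≤ B * ∑ n ∈ S, ‖c n‖ ^ 2 := by
  classical
  set a : R → ℂ := fun r => ∑ n ∈ S, c n * v r n with ha
  set G : R → R → ℂ := fun r s => ∑ n ∈ S, v r n * conj (v s n) with hG
  set T : ℝ := ∑ r ∈ F, ‖a r‖ ^ 2 with hT
  have hT0 : 0 ≤ T := Finset.sum_nonneg fun r _ => by positivity
  set u : I → ℂ := fun n => ∑ r ∈ F, conj (a r) * v r n with hu
  have h1 : (T : ℂ) = ∑ n ∈ S, c n * u n := by
    rw [hT, Complex.ofReal_sum]
    simp_rw [hu, Finset.mul_sum]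
    rw [Finset.sum_comm]
    refine Finset.sum_congr rfl fun r _ => ?_
    have h2 : ((‖a r‖ ^ 2 : ℝ) : ℂ) = conj (a r) * a r := by
      rw [← Complex.normSq_eq_norm_sq, mul_comm, Complex.mul_conj]
    rw [h2, ha, Finset.mul_sum]
    refine Finset.sum_congr rfl fun n _ => ?_
    ring
  -- the square mean of `u`
  have h2 : ∑ n ∈ S, ‖u n‖ ^ 2 ≤ B * T := by
    have h3 : ((∑ n ∈ S, ‖u n‖ ^ 2 : ℝ) : ℂ) = ∑ r ∈ F, ∑ s ∈ F, conj (a r) * a s * G r s := by
      rw [Complex.ofReal_sum]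
      have h4 : ∀ n ∈ S, ((‖u n‖ ^ 2 : ℝ) : ℂ) =
          ∑ r ∈ F, ∑ s ∈ F, conj (a r) * a s * (v r n * conj (v s n)) := by
        intro n _
        rw [← Complex.normSq_eq_norm_sq, ← Complex.mul_conj, hu, map_sum, Finset.sum_mul_sum]
        refine Finset.sum_congr rfl fun r _ => Finset.sum_congr rfl fun s _ => ?_
        rw [map_mul, Complex.conj_conj]
        ring
      rw [Finset.sum_congr rfl h4, Finset.sum_comm]
      refine Finset.sum_congr rfl fun r _ => ?_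
      rw [Finset.sum_comm]
      refine Finset.sum_congr rfl fun s _ => ?_
      exact (Finset.mul_sum S (fun n => v r n * conj (v s n)) (conj (a r) * a s)).symm
    have h4 : ∑ n ∈ S, ‖u n‖ ^ 2 ≤ ∑ r ∈ F, ∑ s ∈ F, ‖a r‖ * ‖a s‖ * ‖G r s‖ := by
      have h5 : ∑ n ∈ S, ‖u n‖ ^ 2 = ‖((∑ n ∈ S, ‖u n‖ ^ 2 : ℝ) : ℂ)‖ := by
        rw [Complex.norm_real, Real.norm_eq_abs, abs_of_nonneg]
        exact Finset.sum_nonneg fun n _ => by positivity
      rw [h5, h3]
      refine (norm_sum_le _ _).trans (Finset.sum_le_sum fun r _ => ?_)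
      refine (norm_sum_le _ _).trans (Finset.sum_le_sum fun s _ => ?_)
      rw [norm_mul, norm_mul, RCLike.norm_conj]
    have hsymm : ∀ r s, ‖G s r‖ = ‖G r s‖ := by
      intro r s
      rw [← RCLike.norm_conj (G r s), hG]
      simp only [map_sum, map_mul, Complex.conj_conj]
      congr 1
      refine Finset.sum_congr rfl fun n _ => ?_
      ring
    have h5 : ∑ r ∈ F, ∑ s ∈ F, ‖a r‖ * ‖a s‖ * ‖G r s‖ ≤
        ∑ r ∈ F, ∑ s ∈ F, (‖a r‖ ^ 2 * ‖G r s‖ / 2 + ‖a s‖ ^ 2 * ‖G s r‖ / 2) := by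
      refine Finset.sum_le_sum fun r _ => Finset.sum_le_sum fun s _ => ?_
      rw [hsymm r s]
      have h6 := norm_nonneg (G r s)
      nlinarith [sq_nonneg (‖a r‖ - ‖a s‖), mul_nonneg h6 (sq_nonneg (‖a r‖ - ‖a s‖))]
    have h6 : ∑ r ∈ F, ∑ s ∈ F, (‖a r‖ ^ 2 * ‖G r s‖ / 2 + ‖a s‖ ^ 2 * ‖G s r‖ / 2) =
        ∑ r ∈ F, ‖a r‖ ^ 2 * ∑ s ∈ F, ‖G r s‖ := by
      simp_rw [Finset.sum_add_distrib]
      have h7 : ∑ r ∈ F, ∑ s ∈ F, ‖a s‖ ^ 2 * ‖G s r‖ / 2 = ∑ r ∈ F, ∑ s ∈ F, ‖a r‖ ^ 2 * ‖G r s‖ / 2 := by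
        rw [Finset.sum_comm]
      rw [h7, ← Finset.sum_add_distrib]
      refine Finset.sum_congr rfl fun r _ => ?_
      rw [← Finset.sum_add_distrib, Finset.mul_sum]
      refine Finset.sum_congr rfl fun s _ => ?_
      ring
    calc _ ≤ _ := h4
      _ ≤ _ := h5
      _ = _ := h6
      _ ≤ ∑ r ∈ F, ‖a r‖ ^ 2 * B := Finset.sum_le_sum fun r hr =>
          mul_le_mul_of_nonneg_left (hB r hr) (by positivity)
      _ = B * T := by rw [← Finset.sum_mul, mul_comm]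
  have h3 : T ≤ ∑ n ∈ S, ‖c n‖ * ‖u n‖ := by
    calc T = ‖(T : ℂ)‖ := by rw [Complex.norm_real, Real.norm_eq_abs, abs_of_nonneg hT0]
      _ = ‖∑ n ∈ S, c n * u n‖ := by rw [h1]
      _ ≤ ∑ n ∈ S, ‖c n * u n‖ := norm_sum_le _ _
      _ = _ := by simp_rw [norm_mul]
  have h4 : (∑ n ∈ S, ‖c n‖ * ‖u n‖) ^ 2 ≤ (∑ n ∈ S, ‖c n‖ ^ 2) * ∑ n ∈ S, ‖u n‖ ^ 2 :=
    Finset.sum_mul_sq_le_sq_mul_sq _ _ _
  have hc0 : 0 ≤ ∑ n ∈ S, ‖c n‖ ^ 2 := Finset.sum_nonneg fun n _ => by positivity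
  have h5 : T ^ 2 ≤ (∑ n ∈ S, ‖c n‖ ^ 2) * (B * T) := by
    calc T ^ 2 ≤ (∑ n ∈ S, ‖c n‖ * ‖u n‖) ^ 2 := by gcongr
      _ ≤ _ := h4
      _ ≤ _ := mul_le_mul_of_nonneg_left h2 hc0
  rcases hT0.eq_or_lt with h0 | h0
  · rw [← h0]
    exact mul_nonneg hB0 hc0
  · have : T * T ≤ T * (B * ∑ n ∈ S, ‖c n‖ ^ 2) := by nlinarith
    exact le_of_mul_le_mul_left this h0

/-- a pair (modulus, character) -/
abbrev PC := Σ d : ℕ, DirichletCharacter ℂ d

/-- the values of the character -/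
noncomputable def cf (r : PC) (n : ℕ) : ℂ := r.2 (n : ZMod r.1)

theorem norm_cf_le (r : PC) (n : ℕ) : ‖cf r n‖ ≤ 1 := r.2.norm_le_one _

/-- character sums over intervals, trivial bound -/
theorem norm_sum_Ico_le {q : ℕ} [NeZero q] {χ : DirichletCharacter ℂ q} (hχ : χ ≠ 1) (M H : ℕ) :
    ‖∑ n ∈ Ico M (M + H), χ (n : ZMod q)‖ ≤ 2 * q := by
  have key : ∀ N : ℕ, ‖∑ k ∈ range N, χ (k : ZMod q)‖ ≤ q := by
    intro N
    rcases N with _ | N
    · simp
    · have h := norm_charsum_le hχ N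
      have h2 : Icc 0 N = range (N + 1) := by
        ext k
        simp only [mem_Icc, mem_range]
        omega
      rwa [h2] at h
  rw [Finset.sum_Ico_eq_sub _ (by omega)]
  have h1 := key (M + H)
  have h2 := key M
  calc _ ≤ ‖∑ k ∈ range (M + H), χ (k : ZMod q)‖ + ‖∑ k ∈ range M, χ (k : ZMod q)‖ := norm_sub_le _ _
    _ ≤ _ := by linarith

/-- the product of two characters of different moduli -/
theorem cf_mul_conj {d e : ℕ} [NeZero d] [NeZero e] (χ : DirichletCharacter ℂ d)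
    (ψ : DirichletCharacter ℂ e) (n : ℕ) :
    χ (n : ZMod d) * conj (ψ (n : ZMod e)) =
      (changeLevel (Nat.dvd_mul_right d e) χ * changeLevel (Nat.dvd_mul_left e d) ψ⁻¹)
        (n : ZMod (d * e)) := by
  rw [MulChar.mul_apply]
  by_cases hn : IsUnit (n : ZMod (d * e))
  · have hc : n.Coprime (d * e) := (ZMod.isUnit_iff_coprime _ _).1 hn
    have h1 := changeLevel_eq_cast_of_dvd χ (Nat.dvd_mul_right d e) hn.unit
    have h2 := changeLevel_eq_cast_of_dvd ψ⁻¹ (Nat.dvd_mul_left e d) hn.unit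
    rw [IsUnit.unit_spec] at h1 h2
    rw [h1, h2, ZMod.cast_natCast (Nat.dvd_mul_right d e), ZMod.cast_natCast (Nat.dvd_mul_left e d)]
    congr 1
    rw [← MulChar.star_apply']
    rfl
  · rw [MulChar.map_nonunit _ hn, zero_mul]
    have h3 : ¬ n.Coprime (d * e) := fun h => hn ((ZMod.isUnit_iff_coprime _ _).2 h)
    rw [Nat.coprime_mul_iff_right, not_and_or] at h3
    rcases h3 with h3 | h3
    · rw [MulChar.map_nonunit χ (fun h => h3 ((ZMod.isUnit_iff_coprime _ _).1 h)), zero_mul]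
    · rw [MulChar.map_nonunit ψ (fun h => h3 ((ZMod.isUnit_iff_coprime _ _).1 h)), map_zero, mul_zero]

/-- two different primitive characters are different as functions -/
theorem primitive_ne {d e : ℕ} [NeZero d] [NeZero e] {χ : DirichletCharacter ℂ d}
    {ψ : DirichletCharacter ℂ e} (hχ : χ.IsPrimitive) (hψ : ψ.IsPrimitive)
    (h : changeLevel (Nat.dvd_mul_right d e) χ * changeLevel (Nat.dvd_mul_left e d) ψ⁻¹ = 1) :
    (⟨d, χ⟩ : PC) = ⟨e, ψ⟩ := by
  have h1 : changeLevel (Nat.dvd_mul_right d e) χ = changeLevel (Nat.dvd_mul_left e d) ψ := by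
    rw [map_inv, mul_inv_eq_one] at h
    exact h
  have h2 := congrArg DirichletCharacter.conductor h1
  rw [conductor_changeLevel, conductor_changeLevel, (isPrimitive_def χ).1 hχ,
    (isPrimitive_def ψ).1 hψ] at h2
  have h6 : d = e := h2
  subst h6
  have h7 := changeLevel_injective (Nat.dvd_mul_right d d) h1
  rw [h7]

open scoped Classical in
/-- the large sieve for primitive characters (trivial bound for the character sums) -/
theorem large_sieve_primitive (F : Finset PC) (Q : ℕ) (hF : ∀ r ∈ F, r.1 ≠ 0 ∧ r.1 ≤ Q ∧ r.2.IsPrimitive)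
    (M H : ℕ) (c : ℕ → ℂ) :
    ∑ r ∈ F, ‖∑ n ∈ Ico M (M + H), c n * cf r n‖ ^ 2 ≤
      (H + 2 * Q ^ 2 * F.card) * ∑ n ∈ Ico M (M + H), ‖c n‖ ^ 2 := by
  refine halasz_selberg F (Ico M (M + H)) cf c _ (by positivity) ?_
  intro r hr
  obtain ⟨h1, h2, h3⟩ := hF r hr
  have : NeZero r.1 := ⟨h1⟩
  rw [← Finset.add_sum_erase _ _ hr]
  apply add_le_add
  · calc ‖∑ n ∈ Ico M (M + H), cf r n * conj (cf r n)‖
        ≤ ∑ n ∈ Ico M (M + H), ‖cf r n * conj (cf r n)‖ := norm_sum_le _ _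
      _ ≤ ∑ n ∈ Ico M (M + H), 1 := by
          refine Finset.sum_le_sum fun n _ => ?_
          rw [norm_mul, RCLike.norm_conj]
          have := norm_cf_le r n
          nlinarith [norm_nonneg (cf r n)]
      _ = H := by simp
  · calc ∑ s ∈ F.erase r, ‖∑ n ∈ Ico M (M + H), cf r n * conj (cf s n)‖
        ≤ ∑ s ∈ F.erase r, (2 * (Q : ℝ) ^ 2) := by
          refine Finset.sum_le_sum fun s hs => ?_
          obtain ⟨h4, h5, h6⟩ := hF s (Finset.mem_of_mem_erase hs)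
          have : NeZero s.1 := ⟨h4⟩
          have h7 : changeLevel (Nat.dvd_mul_right r.1 s.1) r.2 *
              changeLevel (Nat.dvd_mul_left s.1 r.1) s.2⁻¹ ≠ 1 := fun h =>
            (Finset.ne_of_mem_erase hs) (primitive_ne h3 h6 h).symm
          have h8 : ∑ n ∈ Ico M (M + H), cf r n * conj (cf s n) = ∑ n ∈ Ico M (M + H),
              (changeLevel (Nat.dvd_mul_right r.1 s.1) r.2 *
                changeLevel (Nat.dvd_mul_left s.1 r.1) s.2⁻¹) (n : ZMod (r.1 * s.1)) :=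
            Finset.sum_congr rfl fun n _ => cf_mul_conj r.2 s.2 n
          rw [h8]
          refine (norm_sum_Ico_le h7 M H).trans ?_
          have h9 : (r.1 : ℝ) ≤ Q := by exact_mod_cast h2
          have h10 : (s.1 : ℝ) ≤ Q := by exact_mod_cast h5
          push_cast
          have : (r.1 : ℝ) * s.1 ≤ Q * Q := mul_le_mul h9 h10 (Nat.cast_nonneg _) (Nat.cast_nonneg _)
          nlinarith
      _ = 2 * (Q : ℝ) ^ 2 * (F.erase r).card := by rw [Finset.sum_const, nsmul_eq_mul]; ring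
      _ ≤ 2 * (Q : ℝ) ^ 2 * F.card := by
          apply mul_le_mul_of_nonneg_left _ (by positivity)
          exact_mod_cast Finset.card_le_card (Finset.erase_subset r F)

end Pool.Agent.LibPL63
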