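import Pool.Agent.LibMaier.APSum

/-!
Thin sets have small Gaussian weight; reduction to primitive characters; orthogonality, two-sided.
-/

namespace Pool.Agent.LibPL63

open Filter Topology Complex DirichletCharacter
open scoped ComplexConjugate ArithmeticFunction.vonMangoldt
open Pool.Agent.LibMaier

theorem gw_div_le {x : ℝ} {n : ℕ} (hn : 1 ≤ n) :
    gw (Real.log n - x) / n ≤ (n : ℝ) ^ (-(3 / 4 : ℝ)) * Real.exp (-x / 4) := by
  have hn0 : (0 : ℝ) < n := by exact_mod_cast hn
  have h2pi : (2 : ℝ) ≤ Real.sqrt (2 * Real.pi) := by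
    apply Real.le_sqrt_of_sq_le
    have := Real.pi_gt_three
    linarith
  have hexp : Real.exp (1 / 32) ≤ 2 := by
    have h1 := Real.exp_bound_div_one_sub_of_interval (x := 1 / 32) (by norm_num) (by norm_num)
    refine h1.trans ?_
    norm_num
  have h1 : gw (Real.log n - x) ≤ Real.exp (-(Real.log n - x) ^ 2 / 2 - 1 / 32) := by
    unfold gw
    rw [div_le_iff₀ (by linarith), Real.exp_sub]
    rw [div_mul_eq_mul_div, le_div_iff₀ (Real.exp_pos _)]
    apply mul_le_mul_of_nonneg_left _ (Real.exp_pos _).le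
    linarith
  have h2 : (n : ℝ) ^ (-(3 / 4 : ℝ)) * Real.exp (-x / 4) =
      Real.exp (-(3 / 4) * Real.log n - x / 4) := by
    rw [Real.rpow_def_of_pos hn0, ← Real.exp_add]
    congr 1
    ring
  have h3 : (n : ℝ)⁻¹ = Real.exp (-Real.log n) := by
    rw [Real.exp_neg, Real.exp_log hn0]
  rw [h2, div_eq_mul_inv, h3]
  calc gw (Real.log n - x) * Real.exp (-Real.log n)
      ≤ Real.exp (-(Real.log n - x) ^ 2 / 2 - 1 / 32) * Real.exp (-Real.log n) :=
        mul_le_mul_of_nonneg_right h1 (Real.exp_pos _).le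
    _ = Real.exp (-(Real.log n - x) ^ 2 / 2 - 1 / 32 - Real.log n) := by rw [← Real.exp_add]; ring_nf
    _ ≤ _ := by
        apply Real.exp_le_exp.2
        nlinarith [sq_nonneg (Real.log n - x + 1 / 4)]

theorem wn_le {x : ℝ} (n : ℕ) : wn x n ≤ Real.exp (-x / 4) * (Λ n * (n : ℝ) ^ (-(3 / 4 : ℝ))) := by
  rcases Nat.eq_zero_or_pos n with hn | hn
  · subst hn
    simp [wn]
  · unfold wn
    calc Λ n * (gw (Real.log n - x) / n) ≤ Λ n * ((n : ℝ) ^ (-(3 / 4 : ℝ)) * Real.exp (-x / 4)) :=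
          mul_le_mul_of_nonneg_left (gw_div_le hn) ArithmeticFunction.vonMangoldt_nonneg
      _ = _ := by ring

/-- `log p ∑_{k ≥ 1} p^{-3k/4} ≤ 4` -/
theorem log_geom_le {p : ℕ} (hp : p.Prime) :
    Summable (fun k : ℕ => Real.log p * ((p : ℝ) ^ (k + 1)) ^ (-(3 / 4 : ℝ))) ∧
    ∑' k : ℕ, Real.log p * ((p : ℝ) ^ (k + 1)) ^ (-(3 / 4 : ℝ)) ≤ 4 := by
  have hp2 : (2 : ℝ) ≤ p := by exact_mod_cast hp.two_le
  have hp0 : (0 : ℝ) < p := by linarith
  set r : ℝ := (p : ℝ) ^ (-(3 / 4 : ℝ)) with hr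
  have hr0 : 0 < r := Real.rpow_pos_of_pos hp0 _
  have hr2 : r ≤ 3 / 5 := by
    have h1 : r ≤ (2 : ℝ) ^ (-(3 / 4 : ℝ)) := by
      rw [hr]
      exact Real.rpow_le_rpow_of_nonpos (by norm_num) hp2 (by norm_num)
    refine h1.trans ?_
    have h2 : ((2 : ℝ) ^ (-(3 / 4 : ℝ))) ^ (4 : ℕ) = 1 / 8 := by
      rw [← Real.rpow_natCast, ← Real.rpow_mul (by norm_num)]
      norm_num
    by_contra hcon
    push Not at hcon
    have h3 : (3 / 5 : ℝ) ^ (4 : ℕ) < ((2 : ℝ) ^ (-(3 / 4 : ℝ))) ^ (4 : ℕ) :=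
      pow_lt_pow_left₀ hcon (by norm_num) (by norm_num)
    rw [h2] at h3
    norm_num at h3
  have hterm : ∀ k : ℕ, Real.log p * ((p : ℝ) ^ (k + 1)) ^ (-(3 / 4 : ℝ)) = Real.log p * r * r ^ k := by
    intro k
    rw [← Real.rpow_natCast (p : ℝ) (k + 1), ← Real.rpow_mul hp0.le, mul_comm ((k + 1 : ℕ) : ℝ),
      Real.rpow_mul hp0.le, Real.rpow_natCast, ← hr, pow_succ]
    ring
  have hr1 : r < 1 := by linarith
  have hlog : Real.log p * r ≤ 4 / 3 := by
    have h1 : Real.log ((p : ℝ) ^ (3 / 4 : ℝ)) ≤ (p : ℝ) ^ (3 / 4 : ℝ) := by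
      have h2 := Real.log_le_sub_one_of_pos (Real.rpow_pos_of_pos hp0 (3 / 4))
      linarith
    rw [Real.log_rpow hp0] at h1
    have h3 : (p : ℝ) ^ (3 / 4 : ℝ) * r = 1 := by
      rw [hr, ← Real.rpow_add hp0]
      norm_num
    have h4 : 3 / 4 * Real.log p * r ≤ (p : ℝ) ^ (3 / 4 : ℝ) * r := mul_le_mul_of_nonneg_right h1 hr0.le
    rw [h3] at h4
    linarith
  have hlog0 : 0 ≤ Real.log p * r := mul_nonneg (Real.log_nonneg (by linarith)) hr0.le
  have hs : Summable (fun k : ℕ => Real.log p * r * r ^ k) :=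
    (summable_geometric_of_lt_one hr0.le hr1).mul_left _
  constructor
  · exact hs.congr fun k => (hterm k).symm
  · rw [tsum_congr hterm, tsum_mul_left, tsum_geometric_of_lt_one hr0.le hr1]
    have h5 : (1 - r)⁻¹ ≤ 5 / 2 := by
      rw [inv_le_comm₀ (by linarith) (by norm_num)]
      linarith
    calc Real.log p * r * (1 - r)⁻¹ ≤ 4 / 3 * (5 / 2) :=
          mul_le_mul hlog h5 (inv_nonneg.2 (by linarith)) (by norm_num)
      _ ≤ 4 := by norm_num

open scoped Classical in
/-- the weight of the numbers which are not prime to `q` -/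
theorem tsum_not_coprime_le {q : ℕ} (hq : q ≠ 0) (x : ℝ) :
    ∑' n : ℕ, (if n.Coprime q then 0 else wn x n) ≤ 4 * q.primeFactors.card * Real.exp (-x / 4) := by
  have hs : Summable (wn x) := summable_wn x
  set hp : ℕ → ℕ → ℝ := fun p n => if n ∈ Set.range (fun k : ℕ => p ^ (k + 1)) then wn x n else 0
    with hhp
  have hps : ∀ p, Summable (hp p) := fun p => by
    refine Summable.of_nonneg_of_le (fun n => ?_) (fun n => ?_) hs
    · simp only [hhp]
      split_ifs
      · exact wn_nonneg x n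
      · exact le_rfl
    · simp only [hhp]
      split_ifs
      · exact le_rfl
      · exact wn_nonneg x n
  have h1 : ∀ n : ℕ, (if n.Coprime q then 0 else wn x n) ≤ ∑ p ∈ q.primeFactors, hp p n := by
    intro n
    have hnn : ∀ p ∈ q.primeFactors, 0 ≤ hp p n := fun p _ => by
      simp only [hhp]
      split_ifs
      · exact wn_nonneg x n
      · exact le_rfl
    split_ifs with hc
    · exact Finset.sum_nonneg hnn
    · by_cases hΛ : Λ n = 0
      · have : wn x n = 0 := by unfold wn; rw [hΛ, zero_mul]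
        rw [this]
        exact Finset.sum_nonneg hnn
      · obtain ⟨p, k, hpp, hk, hpk⟩ := (ArithmeticFunction.vonMangoldt_ne_zero_iff.1 hΛ)
        have hpp' : p.Prime := hpp.nat_prime
        have hpq : p ∈ q.primeFactors := by
          rw [Nat.mem_primeFactors]
          refine ⟨hpp', ?_, hq⟩
          by_contra hnd
          apply hc
          rw [← hpk]
          exact Nat.Coprime.pow_left k ((Nat.Prime.coprime_iff_not_dvd hpp').2 hnd)
        refine le_trans (le_of_eq ?_) (Finset.single_le_sum hnn hpq)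
        simp only [hhp]
        rw [if_pos]
        refine ⟨k - 1, ?_⟩
        show p ^ (k - 1 + 1) = n
        rw [Nat.sub_add_cancel hk, hpk]
  have h2 : ∀ p ∈ q.primeFactors, ∑' n, hp p n ≤ 4 * Real.exp (-x / 4) := by
    intro p hpq
    have hpp : p.Prime := (Nat.mem_primeFactors.1 hpq).1
    have hinj : Function.Injective (fun k : ℕ => p ^ (k + 1)) := fun a b hab =>
      Nat.succ_injective (Nat.pow_right_injective hpp.two_le hab)
    have hsupp : Function.support (hp p) ⊆ Set.range (fun k : ℕ => p ^ (k + 1)) := by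
      intro n hn
      by_contra hcon
      apply hn
      simp only [hhp]
      rw [if_neg hcon]
    rw [← hinj.tsum_eq hsupp]
    obtain ⟨hg1, hg2⟩ := log_geom_le hpp
    have h3 : ∀ k : ℕ, hp p (p ^ (k + 1)) ≤
        Real.exp (-x / 4) * (Real.log p * ((p : ℝ) ^ (k + 1)) ^ (-(3 / 4 : ℝ))) := by
      intro k
      simp only [hhp]
      rw [if_pos ⟨k, rfl⟩]
      refine (wn_le _).trans (le_of_eq ?_)
      rw [ArithmeticFunction.vonMangoldt_apply_pow (by omega),
        ArithmeticFunction.vonMangoldt_apply_prime hpp]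
      push_cast
      rfl
    have h4 : Summable fun k : ℕ => hp p (p ^ (k + 1)) := (hps p).comp_injective hinj
    calc ∑' k : ℕ, hp p (p ^ (k + 1))
        ≤ ∑' k : ℕ, Real.exp (-x / 4) * (Real.log p * ((p : ℝ) ^ (k + 1)) ^ (-(3 / 4 : ℝ))) :=
          h4.tsum_le_tsum h3 (hg1.mul_left _)
      _ = Real.exp (-x / 4) * ∑' k : ℕ, (Real.log p * ((p : ℝ) ^ (k + 1)) ^ (-(3 / 4 : ℝ))) := tsum_mul_left
      _ ≤ Real.exp (-x / 4) * 4 := mul_le_mul_of_nonneg_left hg2 (Real.exp_pos _).le
      _ = _ := by ring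
  have h3 : Summable fun n : ℕ => (if n.Coprime q then 0 else wn x n) := by
    refine Summable.of_nonneg_of_le (fun n => ?_) (fun n => ?_) hs
    · split_ifs
      · exact le_rfl
      · exact wn_nonneg x n
    · split_ifs
      · exact wn_nonneg x n
      · exact le_rfl
  calc ∑' n : ℕ, (if n.Coprime q then 0 else wn x n)
      ≤ ∑' n : ℕ, ∑ p ∈ q.primeFactors, hp p n :=
        h3.tsum_le_tsum h1 (summable_sum fun p _ => hps p)
    _ = ∑ p ∈ q.primeFactors, ∑' n, hp p n := Summable.tsum_finsetSum fun p _ => hps p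
    _ ≤ ∑ p ∈ q.primeFactors, 4 * Real.exp (-x / 4) := Finset.sum_le_sum h2
    _ = _ := by rw [Finset.sum_const, nsmul_eq_mul]; ring

theorem summable_SS {q : ℕ} (χ : DirichletCharacter ℂ q) (x : ℝ) : Summable fun n : ℕ =>
    (Λ n : ℂ) * χ (n : ZMod q) * ((gw (Real.log n - x) / n : ℝ) : ℂ) := by
  refine Summable.of_norm_bounded (summable_wn x) fun n => ?_
  have hw : 0 ≤ gw (Real.log n - x) / n := div_nonneg (gw_nonneg _) (Nat.cast_nonneg _)
  rw [norm_mul, norm_mul, Complex.norm_real, Complex.norm_real, Real.norm_eq_abs,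
    Real.norm_eq_abs, abs_of_nonneg ArithmeticFunction.vonMangoldt_nonneg, abs_of_nonneg hw]
  unfold wn
  apply mul_le_mul_of_nonneg_right _ hw
  exact mul_le_of_le_one_right ArithmeticFunction.vonMangoldt_nonneg (χ.norm_le_one _)

/-- **reduction to a smaller modulus** -/
theorem norm_SS_sub_changeLevel {d q : ℕ} [NeZero q] (h : d ∣ q) (χ : DirichletCharacter ℂ d) (x : ℝ) :
    ‖SS (changeLevel h χ) x - SS χ x‖ ≤ 4 * q.primeFactors.card * Real.exp (-x / 4) := by
  classical
  refine le_trans ?_ (tsum_not_coprime_le (NeZero.ne q) x)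
  have hs3 : Summable fun n : ℕ => (if n.Coprime q then 0 else wn x n) := by
    refine Summable.of_nonneg_of_le (fun n => ?_) (fun n => ?_) (summable_wn x)
    · split_ifs
      · exact le_rfl
      · exact wn_nonneg x n
    · split_ifs
      · exact wn_nonneg x n
      · exact le_rfl
  unfold SS
  rw [← (summable_SS (changeLevel h χ) x).tsum_sub (summable_SS χ x)]
  refine tsum_of_norm_bounded hs3.hasSum fun n => ?_
  have hw : 0 ≤ gw (Real.log n - x) / n := div_nonneg (gw_nonneg _) (Nat.cast_nonneg _)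
  by_cases hc : n.Coprime q
  · rw [if_pos hc]
    have hu : IsUnit (n : ZMod q) := (ZMod.isUnit_iff_coprime _ _).2 hc
    have h1 := changeLevel_eq_cast_of_dvd χ h hu.unit
    rw [IsUnit.unit_spec] at h1
    rw [h1, ZMod.cast_natCast h, sub_self, norm_zero]
  · rw [if_neg hc]
    have hu : ¬ IsUnit (n : ZMod q) := fun hu => hc ((ZMod.isUnit_iff_coprime _ _).1 hu)
    rw [MulChar.map_nonunit _ hu, mul_zero, zero_mul, zero_sub, norm_neg]
    rw [norm_mul, norm_mul, Complex.norm_real, Complex.norm_real, Real.norm_eq_abs,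
      Real.norm_eq_abs, abs_of_nonneg ArithmeticFunction.vonMangoldt_nonneg, abs_of_nonneg hw]
    unfold wn
    apply mul_le_mul_of_nonneg_right _ hw
    exact mul_le_of_le_one_right ArithmeticFunction.vonMangoldt_nonneg (χ.norm_le_one _)

/-- the primitive character -/
theorem norm_SS_sub_primitive {q : ℕ} [NeZero q] (χ : DirichletCharacter ℂ q) (x : ℝ) :
    ‖SS χ x - SS χ.primitiveCharacter x‖ ≤ 4 * q.primeFactors.card * Real.exp (-x / 4) := by
  have h := norm_SS_sub_changeLevel χ.conductor_dvd_level χ.primitiveCharacter x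
  rwa [changeLevel_primitiveCharacter] at h

/-- the principal character -/
theorem norm_SS_one_sub {q : ℕ} [NeZero q] (x : ℝ) :
    ‖SS (1 : DirichletCharacter ℂ q) x - (S0 x : ℂ)‖ ≤ 4 * q.primeFactors.card * Real.exp (-x / 4) := by
  have h := norm_SS_sub_changeLevel (one_dvd q) (1 : DirichletCharacter ℂ 1) x
  rw [changeLevel_one] at h
  have h1 : SS (1 : DirichletCharacter ℂ 1) x = (S0 x : ℂ) := by
    unfold SS S0
    rw [Complex.ofReal_tsum]
    apply tsum_congr
    intro n
    have : (1 : DirichletCharacter ℂ 1) (n : ZMod 1) = 1 := MulChar.one_apply (by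
      rw [Subsingleton.elim (n : ZMod 1) 1]
      exact isUnit_one)
    rw [this, mul_one]
    unfold wn
    push_cast
    rfl
  rwa [h1] at h

/-- **orthogonality, two-sided** -/
theorem ap_sum_abs_le {q : ℕ} [NeZero q] {a : ZMod q} (ha : IsUnit a) (x : ℝ) :
    |∑' n : ℕ, (if (n : ZMod q) = a then wn x n else 0) - S0 x / q.totient| ≤
      (1 / (q.totient : ℝ)) * (4 * q.primeFactors.card * Real.exp (-x / 4) +
      ∑ χ ∈ (Finset.univ : Finset (DirichletCharacter ℂ q)).erase 1, ‖SS χ x‖) := by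
  classical
  have hφ : 0 < q.totient := Nat.totient_pos.2 (Nat.pos_of_ne_zero (NeZero.ne q))
  have hφR : (0 : ℝ) < q.totient := by exact_mod_cast hφ
  have hid : (((q.totient : ℝ) * ∑' n : ℕ, (if (n : ZMod q) = a then wn x n else 0) : ℝ) : ℂ) =
      ∑ χ : DirichletCharacter ℂ q, χ a⁻¹ * SS χ x := by
    unfold SS
    simp_rw [← tsum_mul_left]
    rw [← Summable.tsum_finsetSum (fun χ _ => (summable_SS χ x).mul_left _), Complex.ofReal_tsum]
    apply tsum_congr
    intro n
    have h1 := DirichletCharacter.sum_char_inv_mul_char_eq ℂ ha (n : ZMod q)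
    have h2 : ∑ χ : DirichletCharacter ℂ q, χ a⁻¹ *
        ((Λ n : ℂ) * χ (n : ZMod q) * ((gw (Real.log n - x) / n : ℝ) : ℂ)) =
        (∑ χ : DirichletCharacter ℂ q, χ a⁻¹ * χ (n : ZMod q)) *
          ((Λ n : ℂ) * ((gw (Real.log n - x) / n : ℝ) : ℂ)) := by
      rw [Finset.sum_mul]
      apply Finset.sum_congr rfl
      intro χ _
      ring
    rw [h2, h1]
    by_cases h : a = (n : ZMod q)
    · rw [if_pos h, if_pos h.symm]
      unfold wn
      push_cast
      ring
    · rw [if_neg h, if_neg (fun h' => h h'.symm)]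
      simp
  set T : ℝ := ∑' n : ℕ, (if (n : ZMod q) = a then wn x n else 0) with hT
  have h1 : |(q.totient : ℝ) * T - S0 x| ≤ 4 * q.primeFactors.card * Real.exp (-x / 4) +
      ∑ χ ∈ (Finset.univ : Finset (DirichletCharacter ℂ q)).erase 1, ‖SS χ x‖ := by
    have h2 : (((q.totient : ℝ) * T - S0 x : ℝ) : ℂ) =
        (SS (1 : DirichletCharacter ℂ q) x - (S0 x : ℂ)) +
          ∑ χ ∈ (Finset.univ : Finset (DirichletCharacter ℂ q)).erase 1, χ a⁻¹ * SS χ x := by
      push_cast
      have h3 := hid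
      push_cast at h3
      rw [h3, ← Finset.add_sum_erase _ _ (Finset.mem_univ (1 : DirichletCharacter ℂ q))]
      have h4 : (1 : DirichletCharacter ℂ q) a⁻¹ = 1 := MulChar.one_apply
        (IsUnit.of_mul_eq_one a (ZMod.inv_mul_of_unit a ha))
      rw [h4, one_mul]
      ring
    calc |(q.totient : ℝ) * T - S0 x| = ‖(((q.totient : ℝ) * T - S0 x : ℝ) : ℂ)‖ := by
          rw [Complex.norm_real, Real.norm_eq_abs]
      _ ≤ ‖SS (1 : DirichletCharacter ℂ q) x - (S0 x : ℂ)‖ +
          ‖∑ χ ∈ (Finset.univ : Finset (DirichletCharacter ℂ q)).erase 1, χ a⁻¹ * SS χ x‖ := by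
          rw [h2]; exact norm_add_le _ _
      _ ≤ _ := by
          refine add_le_add (norm_SS_one_sub x) ((norm_sum_le _ _).trans (Finset.sum_le_sum fun χ _ => ?_))
          rw [norm_mul]
          exact mul_le_of_le_one_left (norm_nonneg _) (χ.norm_le_one _)
  have h2 : T - S0 x / q.totient = (1 / (q.totient : ℝ)) * ((q.totient : ℝ) * T - S0 x) := by
    field_simp
  rw [h2, abs_mul, abs_of_nonneg (by positivity)]
  exact mul_le_mul_of_nonneg_left h1 (by positivity)

end Pool.Agent.LibPL63
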