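import Pool.Agent.LibRG87.Z

/-!
Sums of `C^ω(q) / φ(q)` over squarefree `q`.
-/

open Finset

namespace Pool.Agent.LibPL63

open Pool.Agent.LibRG87 (Z_mertens)

theorem totient_squarefree {q : ℕ} (hq : Squarefree q) :
    (q.totient : ℝ) = ∏ p ∈ q.primeFactors, ((p : ℝ) - 1) := by
  have h1 := Nat.totient_mul_prod_primeFactors q
  rw [Nat.prod_primeFactors_of_squarefree hq, mul_comm] at h1
  have hq0 : 0 < q := Nat.pos_of_ne_zero hq.ne_zero
  have h2 := Nat.eq_of_mul_eq_mul_left hq0 h1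
  rw [h2, Nat.cast_prod]
  refine Finset.prod_congr rfl fun p hp => ?_
  have hp1 : 1 ≤ p := (Nat.mem_primeFactors.1 hp).1.one_lt.le
  push_cast [Nat.cast_sub hp1]
  rfl

/-- the summand as a product -/
theorem wt_eq {q : ℕ} (hq : Squarefree q) (C : ℝ) :
    C ^ q.primeFactors.card / (q.totient : ℝ) = ∏ p ∈ q.primeFactors, (C / ((p : ℝ) - 1)) := by
  rw [totient_squarefree hq, Finset.prod_div_distrib, Finset.prod_const]

open scoped Classical in
/-- `∑_{q ≤ Q squarefree} C^ω(q)/φ(q) ≤ (K log Q)^C` -/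
theorem sum_wt_le : ∃ K : ℝ, 0 < K ∧ ∀ C Q : ℕ, 1 ≤ C → 2 ≤ Q →
    ∑ q ∈ (Icc 1 Q).filter Squarefree, (C : ℝ) ^ q.primeFactors.card / (q.totient : ℝ) ≤
      (K * Real.log Q) ^ C := by
  obtain ⟨c, hc, h⟩ := Z_mertens
  refine ⟨1 / c, by positivity, fun C Q hC hQ => ?_⟩
  have hQ2 : (2 : ℝ) ≤ Q := by exact_mod_cast hQ
  have hlQ : 0 < Real.log Q := Real.log_pos (by linarith)
  set S := (Finset.range (Q + 1)).filter Nat.Prime with hS
  have hSp : ∀ p ∈ S, p.Prime := fun p hp => (Finset.mem_filter.1 hp).2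
  have h1 : ∑ q ∈ (Icc 1 Q).filter Squarefree, (C : ℝ) ^ q.primeFactors.card / (q.totient : ℝ) ≤
      ∑ A ∈ S.powerset, ∏ p ∈ A, ((C : ℝ) / ((p : ℝ) - 1)) := by
    have hinj : Set.InjOn (fun q : ℕ => q.primeFactors) ((Icc 1 Q).filter Squarefree) := by
      intro a ha b hb hab
      rw [Finset.mem_coe, Finset.mem_filter] at ha hb
      simp only at hab
      rw [← Nat.prod_primeFactors_of_squarefree ha.2, ← Nat.prod_primeFactors_of_squarefree hb.2, hab]
    have h2 : ∑ q ∈ (Icc 1 Q).filter Squarefree, (C : ℝ) ^ q.primeFactors.card / (q.totient : ℝ) =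
        ∑ A ∈ ((Icc 1 Q).filter Squarefree).image (fun q : ℕ => q.primeFactors),
          ∏ p ∈ A, ((C : ℝ) / ((p : ℝ) - 1)) := by
      rw [Finset.sum_image hinj]
      exact Finset.sum_congr rfl fun q hq => wt_eq (Finset.mem_filter.1 hq).2 C
    rw [h2]
    refine Finset.sum_le_sum_of_subset_of_nonneg ?_ ?_
    · intro A hA
      rw [Finset.mem_image] at hA
      obtain ⟨q, hq, rfl⟩ := hA
      rw [Finset.mem_filter, Finset.mem_Icc] at hq
      rw [Finset.mem_powerset]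
      intro p hp
      have hp' := Nat.mem_primeFactors.1 hp
      rw [hS, Finset.mem_filter, Finset.mem_range]
      exact ⟨Nat.lt_succ_of_le ((Nat.le_of_dvd (by omega) hp'.2.1).trans hq.1.2), hp'.1⟩
    · intro A hA _
      refine Finset.prod_nonneg fun p hp => ?_
      have : (1 : ℝ) < p := by exact_mod_cast (hSp p (Finset.mem_powerset.1 hA hp)).one_lt
      exact div_nonneg (Nat.cast_nonneg C) (by linarith)
  refine h1.trans ?_
  rw [← Finset.prod_one_add]
  have h3 : ∏ p ∈ S, (1 + (C : ℝ) / ((p : ℝ) - 1)) ≤ ∏ p ∈ S, ((1 - 1 / (p : ℝ))⁻¹) ^ C := by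
    refine Finset.prod_le_prod ?_ ?_
    · intro p hp
      have hp1 : (1 : ℝ) < p := by exact_mod_cast (hSp p hp).one_lt
      have : 0 ≤ (C : ℝ) / ((p : ℝ) - 1) := div_nonneg (Nat.cast_nonneg C) (by linarith)
      linarith
    · intro p hp
      have hp1 : (1 : ℝ) < p := by exact_mod_cast (hSp p hp).one_lt
      have h4 : (1 - 1 / (p : ℝ))⁻¹ = 1 + 1 / ((p : ℝ) - 1) := by
        have h1 : (p : ℝ) - 1 ≠ 0 := by linarith
        have h2 : (p : ℝ) ≠ 0 := by linarith
        field_simp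
        ring
      rw [h4]
      have h5 := one_add_mul_le_pow (a := 1 / ((p : ℝ) - 1))
        (by have : 0 < 1 / ((p : ℝ) - 1) := one_div_pos.2 (by linarith)
            linarith) C
      calc 1 + (C : ℝ) / ((p : ℝ) - 1) = 1 + (C : ℝ) * (1 / ((p : ℝ) - 1)) := by ring
        _ ≤ _ := h5
  refine h3.trans ?_
  rw [Finset.prod_pow]
  apply pow_le_pow_left₀
  · exact Finset.prod_nonneg fun p hp => by
      have hp1 : (1 : ℝ) < p := by exact_mod_cast (hSp p hp).one_lt
      have h2 : 1 / (p : ℝ) < 1 := by rw [div_lt_one (by linarith)]; exact hp1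
      exact inv_nonneg.2 (by linarith)
  · rw [Finset.prod_inv_distrib]
    have h4 := h Q hQ
    have hpos : 0 < ∏ p ∈ S, (1 - 1 / (p : ℝ)) := lt_of_lt_of_le (div_pos hc hlQ) h4
    rw [inv_le_comm₀ hpos (by positivity)]
    refine le_trans (le_of_eq ?_) h4
    field_simp

open scoped Classical in
/-- the part divisible by `d` -/
theorem sum_wt_dvd_le : ∃ K : ℝ, 0 < K ∧ ∀ C Q d : ℕ, 1 ≤ C → 2 ≤ Q → 1 ≤ d →
    ∑ q ∈ (Icc 1 Q).filter (fun q => Squarefree q ∧ d ∣ q),
      (C : ℝ) ^ q.primeFactors.card / (q.totient : ℝ) ≤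
      (C : ℝ) ^ d.primeFactors.card / (d.totient : ℝ) * (K * Real.log Q) ^ C := by
  obtain ⟨K, hK, h⟩ := sum_wt_le
  refine ⟨K, hK, fun C Q d hC hQ hd => ?_⟩
  have h1 : ∀ q ∈ (Icc 1 Q).filter (fun q => Squarefree q ∧ d ∣ q),
      (C : ℝ) ^ q.primeFactors.card / (q.totient : ℝ) =
        (fun m : ℕ => (C : ℝ) ^ d.primeFactors.card / (d.totient : ℝ) *
          ((C : ℝ) ^ m.primeFactors.card / (m.totient : ℝ))) (q / d) := by
    intro q hq
    rw [Finset.mem_filter, Finset.mem_Icc] at hq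
    obtain ⟨m, rfl⟩ := hq.2.2
    have hm : d * m / d = m := Nat.mul_div_cancel_left m (by omega)
    have hcop : d.Coprime m := Nat.coprime_of_squarefree_mul hq.2.1
    have hsd : Squarefree d := hq.2.1.of_mul_left
    have hsm : Squarefree m := hq.2.1.of_mul_right
    simp only [hm]
    rw [hcop.primeFactors_mul, Finset.card_union_of_disjoint hcop.disjoint_primeFactors,
      Nat.totient_mul hcop, pow_add]
    push_cast
    rw [mul_div_mul_comm]
  rw [Finset.sum_congr rfl h1]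
  have hinj : Set.InjOn (fun q : ℕ => q / d) ((Icc 1 Q).filter (fun q => Squarefree q ∧ d ∣ q)) := by
    intro a ha b hb hab
    rw [Finset.mem_coe, Finset.mem_filter] at ha hb
    simp only at hab
    rw [← Nat.div_mul_cancel ha.2.2, ← Nat.div_mul_cancel hb.2.2, hab]
  rw [← Finset.sum_image (f := fun m : ℕ => (C : ℝ) ^ d.primeFactors.card / (d.totient : ℝ) *
          ((C : ℝ) ^ m.primeFactors.card / (m.totient : ℝ))) hinj, ← Finset.mul_sum]
  apply mul_le_mul_of_nonneg_left _ (by positivity)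
  refine le_trans (Finset.sum_le_sum_of_subset_of_nonneg ?_ ?_) (h C Q hC hQ)
  · intro m hm
    rw [Finset.mem_image] at hm
    obtain ⟨q, hq, rfl⟩ := hm
    rw [Finset.mem_filter, Finset.mem_Icc] at hq
    obtain ⟨m, rfl⟩ := hq.2.2
    rw [Nat.mul_div_cancel_left m (by omega), Finset.mem_filter, Finset.mem_Icc]
    have hm1 : 1 ≤ m := Nat.pos_of_ne_zero fun h => by
      rw [h, mul_zero] at hq
      omega
    refine ⟨⟨hm1, ?_⟩, hq.2.1.of_mul_right⟩
    calc m ≤ d * m := Nat.le_mul_of_pos_left m (by omega)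
      _ ≤ Q := hq.1.2
  · intro m _ _
    positivity

/-- `C^ω(d)/φ(d) ≤ K d^(-1/2)` -/
theorem wt_le_rpow (C : ℕ) (hC : 1 ≤ C) : ∃ K : ℝ, 0 < K ∧ ∀ d : ℕ, Squarefree d →
    (C : ℝ) ^ d.primeFactors.card / (d.totient : ℝ) ≤ K * (d : ℝ) ^ (-(1 / 2 : ℝ)) := by
  set p0 : ℕ := (C + 2) ^ 2 with hp0
  have hCR : (1 : ℝ) ≤ C := by exact_mod_cast hC
  refine ⟨(2 * C : ℝ) ^ p0, by positivity, fun d hd => ?_⟩
  have hd0 : (0 : ℝ) < d := by exact_mod_cast Nat.pos_of_ne_zero hd.ne_zero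
  rw [wt_eq hd]
  have h1 : (d : ℝ) ^ (-(1 / 2 : ℝ)) = ∏ p ∈ d.primeFactors, (p : ℝ) ^ (-(1 / 2 : ℝ)) := by
    rw [Real.finset_prod_rpow _ _ (fun p _ => Nat.cast_nonneg p), ← Nat.cast_prod,
      Nat.prod_primeFactors_of_squarefree hd]
  rw [h1]
  have h2 : ∀ p ∈ d.primeFactors, (C : ℝ) / ((p : ℝ) - 1) ≤
      (if p < p0 then 2 * (C : ℝ) else 1) * (p : ℝ) ^ (-(1 / 2 : ℝ)) := by
    intro p hp
    have hpp := (Nat.mem_primeFactors.1 hp).1
    have hp2 : (2 : ℝ) ≤ p := by exact_mod_cast hpp.two_le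
    have hp0' : (0 : ℝ) < p := by linarith
    have hs : (p : ℝ) ^ (-(1 / 2 : ℝ)) = 1 / Real.sqrt p := by
      rw [Real.rpow_neg hp0'.le, ← Real.sqrt_eq_rpow, one_div]
    have hsq := Real.mul_self_sqrt hp0'.le
    have hs0 : 0 < Real.sqrt p := Real.sqrt_pos.2 hp0'
    rw [hs, mul_one_div, div_le_div_iff₀ (by linarith) hs0]
    split_ifs with hlt
    · -- `√p ≤ 2 (p - 1)`
      have h3 : Real.sqrt p ≤ 2 * (p - 1) := by
        rw [Real.sqrt_le_left (by linarith)]
        nlinarith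
      nlinarith
    · push Not at hlt
      have h3 : ((C : ℝ) + 2) ^ 2 ≤ p := by
        have : ((p0 : ℕ) : ℝ) ≤ p := by exact_mod_cast hlt
        rw [hp0] at this
        push_cast at this
        exact this
      have h4 : (C : ℝ) + 2 ≤ Real.sqrt p := Real.le_sqrt_of_sq_le h3
      nlinarith
  have h3 : ∏ p ∈ d.primeFactors, (C : ℝ) / ((p : ℝ) - 1) ≤
      ∏ p ∈ d.primeFactors, ((if p < p0 then 2 * (C : ℝ) else 1) * (p : ℝ) ^ (-(1 / 2 : ℝ))) := by
    refine Finset.prod_le_prod (fun p hp => ?_) h2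
    have hpp := (Nat.mem_primeFactors.1 hp).1
    have hp2 : (2 : ℝ) ≤ p := by exact_mod_cast hpp.two_le
    exact div_nonneg (Nat.cast_nonneg C) (by linarith)
  refine h3.trans ?_
  rw [Finset.prod_mul_distrib]
  apply mul_le_mul_of_nonneg_right
  · rw [Finset.prod_ite, Finset.prod_const, Finset.prod_const, one_pow, mul_one]
    apply pow_le_pow_right₀ (by linarith)
    calc (d.primeFactors.filter (fun p => p < p0)).card ≤ (Finset.range p0).card := by
          apply Finset.card_le_card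
          intro p hp
          rw [Finset.mem_range]
          exact (Finset.mem_filter.1 hp).2
      _ = p0 := Finset.card_range p0
  · exact Finset.prod_nonneg fun p _ => Real.rpow_nonneg (Nat.cast_nonneg p) _

end Pool.Agent.LibPL63
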