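import Pool.Agent.LibPL63.B0a

/-!
Dyadic large sieve for infinite sums.
-/

open Finset Filter Topology
open scoped ComplexConjugate

namespace Pool.Agent.LibPL63

open DirichletCharacter

/-- the `ℓ²` norm over a finite family -/
noncomputable def N2 {R : Type*} (F : Finset R) (a : R → ℂ) : ℝ := Real.sqrt (∑ r ∈ F, ‖a r‖ ^ 2)

theorem N2_nonneg {R : Type*} (F : Finset R) (a : R → ℂ) : 0 ≤ N2 F a := Real.sqrt_nonneg _

theorem N2_add_le {R : Type*} (F : Finset R) (a b : R → ℂ) :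
    N2 F (fun r => a r + b r) ≤ N2 F a + N2 F b := by
  classical
  have h : ∀ f : R → ℂ, N2 F f = ‖(WithLp.toLp 2 (fun r : F => f r) : EuclideanSpace ℂ F)‖ := by
    intro f
    rw [EuclideanSpace.norm_eq, N2]
    congr 1
    rw [← Finset.sum_coe_sort F (fun r => ‖f r‖ ^ 2)]
  rw [h, h, h]
  exact norm_add_le (WithLp.toLp 2 (fun r : F => a r) : EuclideanSpace ℂ F)
    (WithLp.toLp 2 (fun r : F => b r))

theorem N2_sum_le {R I : Type*} (F : Finset R) (S : Finset I) (a : I → R → ℂ) :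
    N2 F (fun r => ∑ i ∈ S, a i r) ≤ ∑ i ∈ S, N2 F (a i) := by
  classical
  induction S using Finset.induction_on with
  | empty => simp [N2]
  | insert i S hi ih =>
    rw [Finset.sum_insert hi]
    have h1 : (fun r => ∑ j ∈ insert i S, a j r) = fun r => a i r + ∑ j ∈ S, a j r := by
      funext r
      rw [Finset.sum_insert hi]
    rw [h1]
    exact (N2_add_le F (a i) (fun r => ∑ j ∈ S, a j r)).trans (by linarith)

/-- Cauchy-Schwarz -/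
theorem sum_mul_le_N2 {R : Type*} (F : Finset R) (a b : R → ℂ) :
    ∑ r ∈ F, ‖a r‖ * ‖b r‖ ≤ N2 F a * N2 F b := by
  unfold N2
  rw [← Real.sqrt_mul (Finset.sum_nonneg fun r _ => by positivity)]
  exact Real.le_sqrt_of_sq_le (Finset.sum_mul_sq_le_sq_mul_sq _ _ _)

theorem sum_Ico_dyadic (f : ℕ → ℂ) (i0 N : ℕ) (h : i0 ≤ N) :
    ∑ n ∈ Ico (2 ^ i0) (2 ^ N), f n = ∑ i ∈ Ico i0 N, ∑ n ∈ Ico (2 ^ i) (2 ^ (i + 1)), f n := by
  induction N, h using Nat.le_induction with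
  | base => simp
  | succ N hN ih =>
    rw [Finset.sum_Ico_succ_top hN, ← ih, Finset.sum_Ico_consecutive]
    · exact Nat.pow_le_pow_right (by norm_num) hN
    · exact Nat.pow_le_pow_right (by norm_num) (Nat.le_succ N)

open scoped Classical in
/-- **dyadic large sieve** -/
theorem dyadic_large_sieve (F : Finset PC) (Q : ℕ)
    (hF : ∀ r ∈ F, r.1 ≠ 0 ∧ r.1 ≤ Q ∧ r.2.IsPrimitive) (hcard : F.card ≤ Q ^ 2) (i0 : ℕ)
    (hi0 : 2 * Q ^ 4 ≤ 2 ^ i0) (c : ℕ → ℂ) (hc0 : ∀ n < 2 ^ i0, c n = 0)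
    (hcs : Summable fun n => ‖c n‖) (Θ : ℝ)
    (hΘ : ∀ N, i0 ≤ N → ∑ i ∈ Ico i0 N,
      Real.sqrt (2 * 2 ^ i * ∑ n ∈ Ico (2 ^ i) (2 ^ (i + 1)), ‖c n‖ ^ 2) ≤ Θ) :
    N2 F (fun r => ∑' n, c n * cf r n) ≤ Θ := by
  -- one block
  have hblock : ∀ i, i0 ≤ i → N2 F (fun r => ∑ n ∈ Ico (2 ^ i) (2 ^ (i + 1)), c n * cf r n) ≤
      Real.sqrt (2 * 2 ^ i * ∑ n ∈ Ico (2 ^ i) (2 ^ (i + 1)), ‖c n‖ ^ 2) := by
    intro i hi
    unfold N2
    apply Real.sqrt_le_sqrt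
    have h1 := large_sieve_primitive F Q hF (2 ^ i) (2 ^ i) c
    have h2 : 2 ^ i + 2 ^ i = 2 ^ (i + 1) := by rw [pow_succ]; ring
    rw [h2] at h1
    refine h1.trans (mul_le_mul_of_nonneg_right ?_ (Finset.sum_nonneg fun n _ => by positivity))
    have h3 : 2 * Q ^ 2 * F.card ≤ 2 ^ i := by
      calc 2 * Q ^ 2 * F.card ≤ 2 * Q ^ 2 * Q ^ 2 := Nat.mul_le_mul_left _ hcard
        _ = 2 * Q ^ 4 := by ring
        _ ≤ 2 ^ i0 := hi0
        _ ≤ 2 ^ i := Nat.pow_le_pow_right (by norm_num) hi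
    have h4 : ((2 * Q ^ 2 * F.card : ℕ) : ℝ) ≤ ((2 ^ i : ℕ) : ℝ) := by exact_mod_cast h3
    push_cast at h4 ⊢
    linarith
  -- partial sums
  have hpart : ∀ N, i0 ≤ N → N2 F (fun r => ∑ n ∈ range (2 ^ N), c n * cf r n) ≤ Θ := by
    intro N hN
    have h1 : ∀ r : PC, ∑ n ∈ range (2 ^ N), c n * cf r n =
        ∑ i ∈ Ico i0 N, ∑ n ∈ Ico (2 ^ i) (2 ^ (i + 1)), c n * cf r n := by
      intro r
      rw [← sum_Ico_dyadic _ i0 N hN, Finset.range_eq_Ico,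
        ← Finset.sum_Ico_consecutive (fun n => c n * cf r n) (Nat.zero_le (2 ^ i0))
          (Nat.pow_le_pow_right (by norm_num) hN)]
      have h2 : ∑ n ∈ Ico 0 (2 ^ i0), c n * cf r n = 0 := by
        refine Finset.sum_eq_zero fun n hn => ?_
        rw [hc0 n (Finset.mem_Ico.1 hn).2, zero_mul]
      rw [h2, zero_add]
    simp_rw [h1]
    refine (N2_sum_le F (Ico i0 N) fun i r => ∑ n ∈ Ico (2 ^ i) (2 ^ (i + 1)), c n * cf r n).trans ?_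
    refine le_trans (Finset.sum_le_sum fun i hi => hblock i (Finset.mem_Ico.1 hi).1) (hΘ N hN)
  -- the limit
  have hlim : Tendsto (fun N : ℕ => N2 F (fun r => ∑ n ∈ range (2 ^ N), c n * cf r n)) atTop
      (𝓝 (N2 F (fun r => ∑' n, c n * cf r n))) := by
    unfold N2
    apply (Real.continuous_sqrt.tendsto _).comp
    apply tendsto_finsetSum
    intro r _
    have hs : Summable fun n => c n * cf r n := by
      refine Summable.of_norm_bounded hcs fun n => ?_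
      rw [norm_mul]
      exact mul_le_of_le_one_right (norm_nonneg _) (norm_cf_le r n)
    have h1 : Tendsto (fun N : ℕ => ∑ n ∈ range (2 ^ N), c n * cf r n) atTop
        (𝓝 (∑' n, c n * cf r n)) :=
      hs.hasSum.tendsto_sum_nat.comp (tendsto_pow_atTop_atTop_of_one_lt (by norm_num))
    exact (h1.norm).pow 2
  exact le_of_tendsto hlim ((eventually_ge_atTop i0).mono hpart)

/-- `∑ (i+2)^2 2^(-σ i) ≤ 300 / σ^3` -/
theorem sum_sq_geom_le {σ : ℝ} (hσ : 0 < σ) (hσ1 : σ ≤ 1) (S : Finset ℕ) :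
    ∑ i ∈ S, ((i : ℝ) + 2) ^ 2 * (2 : ℝ) ^ (-(σ * i)) ≤ 300 / σ ^ 3 := by
  have hlog2 : (0.69 : ℝ) ≤ Real.log 2 := by have := Real.log_two_gt_d9; linarith
  have hlog2' : Real.log 2 ≤ 0.7 := by have := Real.log_two_lt_d9; linarith
  set ρ : ℝ := (2 : ℝ) ^ (-(σ / 2)) with hρ
  have hρ0 : 0 < ρ := Real.rpow_pos_of_pos (by norm_num) _
  have hρ1 : ρ < 1 := Real.rpow_lt_one_of_one_lt_of_neg (by norm_num) (by linarith)
  have hterm : ∀ i : ℕ, ((i : ℝ) + 2) ^ 2 * (2 : ℝ) ^ (-(σ * i)) ≤ 50 / σ ^ 2 * ρ ^ i := by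
    intro i
    have h1 : (2 : ℝ) ^ (-(σ * i)) = ρ ^ i * (2 : ℝ) ^ (-(σ * i / 2)) := by
      rw [hρ, ← Real.rpow_natCast, ← Real.rpow_mul (by norm_num), ← Real.rpow_add (by norm_num)]
      congr 1
      ring
    have h2 : ((i : ℝ) + 2) ^ 2 * (2 : ℝ) ^ (-(σ * i / 2)) ≤ 50 / σ ^ 2 := by
      have h3 : (2 : ℝ) ^ (-(σ * i / 2)) = (Real.exp (σ * i / 2 * Real.log 2))⁻¹ := by
        rw [Real.rpow_neg (by norm_num), Real.rpow_def_of_pos (by norm_num)]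
        congr 2
        ring
      rw [h3, ← div_eq_mul_inv, div_le_div_iff₀ (Real.exp_pos _) (by positivity)]
      have hi0 : (0 : ℝ) ≤ i := Nat.cast_nonneg i
      have h4 : 0 ≤ σ * i / 2 * Real.log 2 := by positivity
      have h5 := Real.quadratic_le_exp_of_nonneg h4
      have h6 : 0.345 * (σ * i) ≤ σ * i / 2 * Real.log 2 := by nlinarith [mul_nonneg hσ.le hi0]
      have h7 : (0.345 * (σ * i)) ^ 2 ≤ (σ * i / 2 * Real.log 2) ^ 2 :=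
        pow_le_pow_left₀ (by positivity) h6 2
      have h8 : ((i : ℝ) + 2) ^ 2 * σ ^ 2 ≤ 2 * (σ * i) ^ 2 + 8 := by
        have : σ ^ 2 ≤ 1 := by nlinarith
        nlinarith [sq_nonneg ((i : ℝ) - 2), mul_nonneg (sq_nonneg σ) (sq_nonneg ((i : ℝ) - 2))]
      nlinarith [sq_nonneg (σ * i)]
    rw [h1]
    calc ((i : ℝ) + 2) ^ 2 * (ρ ^ i * (2 : ℝ) ^ (-(σ * i / 2)))
        = (((i : ℝ) + 2) ^ 2 * (2 : ℝ) ^ (-(σ * i / 2))) * ρ ^ i := by ring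
      _ ≤ _ := mul_le_mul_of_nonneg_right h2 (by positivity)
  have hgeom : ∑ i ∈ S, ρ ^ i ≤ (1 - ρ)⁻¹ := by
    rw [← tsum_geometric_of_lt_one hρ0.le hρ1]
    exact (summable_geometric_of_lt_one hρ0.le hρ1).sum_le_tsum S (fun i _ => by positivity)
  have hρ2 : (1 - ρ)⁻¹ ≤ 6 / σ := by
    have h1 : ρ ≤ 1 - σ / 6 := by
      rw [hρ, Real.rpow_neg (by norm_num), Real.rpow_def_of_pos (by norm_num)]
      rw [inv_le_comm₀ (Real.exp_pos _) (by linarith)]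
      have h2 := Real.add_one_le_exp (Real.log 2 * (σ / 2))
      refine le_trans ?_ h2
      rw [inv_le_comm₀ (by linarith) (by positivity)]
      rw [inv_eq_one_div, div_le_iff₀ (by positivity)]
      have h3 : 0 ≤ Real.log 2 / 2 - 1 / 6 - Real.log 2 * σ / 12 := by
        have : Real.log 2 * σ ≤ Real.log 2 := mul_le_of_le_one_right (by linarith) hσ1
        linarith
      have h4 := mul_nonneg hσ.le h3
      have h5 : (1 - σ / 6) * (Real.log 2 * (σ / 2) + 1) =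
          1 + σ * (Real.log 2 / 2 - 1 / 6 - Real.log 2 * σ / 12) := by ring
      rw [h5]
      linarith
    rw [inv_le_comm₀ (by linarith) (by positivity), inv_div]
    linarith
  calc ∑ i ∈ S, ((i : ℝ) + 2) ^ 2 * (2 : ℝ) ^ (-(σ * i)) ≤ ∑ i ∈ S, 50 / σ ^ 2 * ρ ^ i :=
        Finset.sum_le_sum fun i _ => hterm i
    _ = 50 / σ ^ 2 * ∑ i ∈ S, ρ ^ i := by rw [← Finset.mul_sum]
    _ ≤ 50 / σ ^ 2 * (6 / σ) := mul_le_mul_of_nonneg_left (hgeom.trans hρ2) (by positivity)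
    _ = 300 / σ ^ 3 := by field_simp; ring

open scoped Classical in
/-- **the dyadic large sieve on the line `Re = 1 + σ`** -/
theorem large_sieve_line (F : Finset PC) (Q : ℕ)
    (hF : ∀ r ∈ F, r.1 ≠ 0 ∧ r.1 ≤ Q ∧ r.2.IsPrimitive) (hcard : F.card ≤ Q ^ 2) (i0 : ℕ)
    (hi0 : 2 * Q ^ 4 ≤ 2 ^ i0) (a : ℕ → ℂ) (ha0 : ∀ n < 2 ^ i0, a n = 0)
    (ha : ∀ i : ℕ, ∑ n ∈ Ico (2 ^ i) (2 ^ (i + 1)), ‖a n‖ ^ 2 / (n : ℝ) ≤ ((i : ℝ) + 2) ^ 4)
    {w : ℂ} (hσ : 0 < w.re) (hσ1 : w.re ≤ 1)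
    (has : Summable fun n => ‖a n * (n : ℂ) ^ (-(1 + w))‖) :
    N2 F (fun r => ∑' n, a n * (n : ℂ) ^ (-(1 + w)) * cf r n) ≤ 450 / w.re ^ 3 := by
  refine dyadic_large_sieve F Q hF hcard i0 hi0 _ (fun n hn => by rw [ha0 n hn, zero_mul]) has _ ?_
  intro N _
  have h1 : ∀ i ∈ Ico i0 N, Real.sqrt (2 * 2 ^ i * ∑ n ∈ Ico (2 ^ i) (2 ^ (i + 1)),
      ‖a n * (n : ℂ) ^ (-(1 + w))‖ ^ 2) ≤
      3 / 2 * (((i : ℝ) + 2) ^ 2 * (2 : ℝ) ^ (-(w.re * i))) := by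
    intro i _
    apply Real.sqrt_le_iff.2
    constructor
    · positivity
    have h2 : ∀ n ∈ Ico (2 ^ i) (2 ^ (i + 1)), ‖a n * (n : ℂ) ^ (-(1 + w))‖ ^ 2 ≤
        ‖a n‖ ^ 2 / (n : ℝ) * (((2 : ℝ) ^ i)⁻¹ * ((2 : ℝ) ^ (-(w.re * i))) ^ 2) := by
      intro n hn
      have hn1 : 2 ^ i ≤ n := (Finset.mem_Ico.1 hn).1
      have hn0 : 0 < n := lt_of_lt_of_le (Nat.pow_pos (by norm_num)) hn1
      have hnR : (0 : ℝ) < n := by exact_mod_cast hn0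
      have hnR1 : (2 : ℝ) ^ i ≤ n := by exact_mod_cast hn1
      rw [norm_mul, mul_pow, Complex.norm_natCast_cpow_of_pos hn0]
      have h3 : (-(1 + w)).re = -(1 + w.re) := by simp
      rw [h3, div_mul_eq_mul_div, mul_div_assoc]
      apply mul_le_mul_of_nonneg_left _ (by positivity)
      have h4 : ((n : ℝ) ^ (-(1 + w.re))) ^ 2 = (n : ℝ)⁻¹ * ((n : ℝ)⁻¹ * ((n : ℝ) ^ (-w.re)) ^ 2) := by
        rw [show -(1 + w.re) = -1 + -w.re by ring, Real.rpow_add hnR, Real.rpow_neg_one]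
        ring
      rw [h4, div_eq_mul_inv, mul_comm]
      apply mul_le_mul_of_nonneg_right _ (by positivity)
      apply mul_le_mul
      · exact inv_anti₀ (by positivity) hnR1
      · apply pow_le_pow_left₀ (Real.rpow_nonneg hnR.le _)
        have h5 : (2 : ℝ) ^ (-(w.re * i)) = ((2 : ℝ) ^ i) ^ (-w.re) := by
          rw [← Real.rpow_natCast (2 : ℝ) i, ← Real.rpow_mul (by norm_num)]
          congr 1
          ring
        rw [h5]
        exact Real.rpow_le_rpow_of_nonpos (by positivity) hnR1 (by linarith)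
      · positivity
      · positivity
    have h5 : ∑ n ∈ Ico (2 ^ i) (2 ^ (i + 1)), ‖a n * (n : ℂ) ^ (-(1 + w))‖ ^ 2 ≤
        ((i : ℝ) + 2) ^ 4 * (((2 : ℝ) ^ i)⁻¹ * ((2 : ℝ) ^ (-(w.re * i))) ^ 2) := by
      refine (Finset.sum_le_sum h2).trans ?_
      rw [← Finset.sum_mul]
      exact mul_le_mul_of_nonneg_right (ha i) (by positivity)
    calc 2 * 2 ^ i * ∑ n ∈ Ico (2 ^ i) (2 ^ (i + 1)), ‖a n * (n : ℂ) ^ (-(1 + w))‖ ^ 2
        ≤ 2 * 2 ^ i * (((i : ℝ) + 2) ^ 4 * (((2 : ℝ) ^ i)⁻¹ * ((2 : ℝ) ^ (-(w.re * i))) ^ 2)) :=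
          mul_le_mul_of_nonneg_left h5 (by positivity)
      _ = 2 * (((i : ℝ) + 2) ^ 2 * (2 : ℝ) ^ (-(w.re * i))) ^ 2 := by
          have : (2 : ℝ) ^ i ≠ 0 := by positivity
          field_simp
      _ ≤ (3 / 2 * (((i : ℝ) + 2) ^ 2 * (2 : ℝ) ^ (-(w.re * i)))) ^ 2 := by
          have := sq_nonneg (((i : ℝ) + 2) ^ 2 * (2 : ℝ) ^ (-(w.re * i)))
          nlinarith
  refine (Finset.sum_le_sum h1).trans ?_
  rw [← Finset.mul_sum]
  calc 3 / 2 * ∑ i ∈ Ico i0 N, ((i : ℝ) + 2) ^ 2 * (2 : ℝ) ^ (-(w.re * i))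
      ≤ 3 / 2 * (300 / w.re ^ 3) := mul_le_mul_of_nonneg_left (sum_sq_geom_le hσ hσ1 _) (by norm_num)
    _ = 450 / w.re ^ 3 := by ring

end Pool.Agent.LibPL63
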