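import Pool.Agent.LibPL63.B0d
import Pool.Agent.LibMaier.Contour

/-!
Gaussian sums of general coefficients as integrals of L-series; bilinear sums over a family of characters.
-/

open Finset Filter Topology Complex MeasureTheory
open scoped ComplexConjugate

namespace Pool.Agent.LibPL63

open DirichletCharacter
open Pool.Agent.LibMaier (gw gauss_int norm_kernel integrable_gaussian_half integrable_kernel)

/-- the Gaussian sum with the coefficients `c` -/
noncomputable def GS (c : ℕ → ℂ) (x : ℝ) : ℂ := ∑' n : ℕ, c n * ((gw (Real.log n - x) / n : ℝ) : ℂ)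

/-- the kernel -/
noncomputable def ker (x : ℝ) (w : ℂ) : ℂ := cexp (w ^ 2 / 2 + w * x)

theorem norm_term_one_add (c : ℕ → ℂ) {w : ℂ} (n : ℕ) :
    ‖LSeries.term c (1 + w) n‖ = if n = 0 then 0 else ‖c n‖ * (n : ℝ) ^ (-(1 + w.re)) := by
  rcases eq_or_ne n 0 with rfl | hn
  · simp
  · rw [LSeries.term_of_ne_zero hn, norm_div,
      Complex.norm_natCast_cpow_of_pos (Nat.pos_of_ne_zero hn), if_neg hn]
    rw [Real.rpow_neg (Nat.cast_nonneg n)]
    simp only [Complex.add_re, Complex.one_re]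
    rw [div_eq_mul_inv]

/-- **Mellin inversion for the Gaussian weight** -/
theorem mellin (c : ℕ → ℂ) {σ : ℝ} (hc : LSeriesSummable c ((1 : ℂ) + σ)) (x : ℝ) :
    ∫ t : ℝ, ker x ((σ : ℂ) + t * I) * LSeries c (1 + ((σ : ℂ) + t * I)) = (2 * Real.pi : ℝ) * GS c x := by
  set F : ℕ → ℝ → ℂ := fun n t => ker x ((σ : ℂ) + t * I) *
    LSeries.term c (1 + ((σ : ℂ) + t * I)) n with hF
  have hre : ∀ t : ℝ, ((σ : ℂ) + t * I).re = σ := fun t => by simp
  have hFe : ∀ n : ℕ, ∀ t : ℝ, F n t = (c n * ((1 / n : ℝ) : ℂ)) *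
      cexp (((σ : ℂ) + t * I) ^ 2 / 2 - ((σ : ℂ) + t * I) * ((Real.log n - x : ℝ) : ℂ)) := by
    intro n t
    rcases eq_or_ne n 0 with rfl | hn
    · simp [hF]
    · have hn0 : (n : ℂ) ≠ 0 := by exact_mod_cast hn
      simp only [hF, ker]
      rw [LSeries.term_of_ne_zero hn, Complex.cpow_add _ _ hn0, Complex.cpow_one]
      have h1 : (n : ℂ) ^ ((σ : ℂ) + t * I) = cexp (((σ : ℂ) + t * I) * (Real.log n : ℂ)) := by
        rw [Complex.cpow_def_of_ne_zero hn0, mul_comm, ← Complex.natCast_log]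
      rw [h1]
      have h2 : cexp (((σ : ℂ) + t * I) ^ 2 / 2 - ((σ : ℂ) + t * I) * ((Real.log n - x : ℝ) : ℂ)) =
          cexp (((σ : ℂ) + t * I) ^ 2 / 2 + ((σ : ℂ) + t * I) * x) *
            (cexp (((σ : ℂ) + t * I) * (Real.log n : ℂ)))⁻¹ := by
        rw [← Complex.exp_neg, ← Complex.exp_add]
        congr 1
        push_cast
        ring
      rw [h2]
      have h3 : cexp (((σ : ℂ) + t * I) * (Real.log n : ℂ)) ≠ 0 := Complex.exp_ne_zero _
      push_cast
      field_simp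
  set B : ℕ → ℝ := fun n => ‖LSeries.term c ((1 : ℂ) + σ) n‖ with hB
  have hBs : Summable B := hc.norm
  have hFnorm : ∀ n : ℕ, ∀ t : ℝ, ‖F n t‖ ≤
      (B n * Real.exp (σ ^ 2 / 2 + σ * x)) * Real.exp (-t ^ 2 / 2) := by
    intro n t
    simp only [hF, ker]
    rw [norm_mul, norm_kernel]
    have h1 : ‖LSeries.term c (1 + ((σ : ℂ) + t * I)) n‖ = B n := by
      simp only [hB]
      rw [norm_term_one_add, norm_term_one_add, hre, Complex.ofReal_re]
    rw [h1]
    apply le_of_eq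
    have h2 : Real.exp ((σ ^ 2 - t ^ 2) / 2 + σ * x) =
        Real.exp (σ ^ 2 / 2 + σ * x) * Real.exp (-t ^ 2 / 2) := by
      rw [← Real.exp_add]
      congr 1
      ring
    rw [h2]
    ring
  have hFm : ∀ n : ℕ, AEStronglyMeasurable (F n) volume := by
    intro n
    have : F n = fun t : ℝ => (c n * ((1 / n : ℝ) : ℂ)) *
      cexp (((σ : ℂ) + t * I) ^ 2 / 2 - ((σ : ℂ) + t * I) * ((Real.log n - x : ℝ) : ℂ)) := by
      ext t
      exact hFe n t
    rw [this]
    apply Continuous.aestronglyMeasurable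
    fun_prop
  have hFint : ∀ n : ℕ, Integrable (F n) := fun n =>
    Integrable.mono' (integrable_gaussian_half.const_mul _) (hFm n)
      (Eventually.of_forall fun t => hFnorm n t)
  have hFsum : Summable fun n : ℕ => ∫ t, ‖F n t‖ := by
    have h1 : ∀ n : ℕ, ∫ t, ‖F n t‖ ≤ B n *
        (Real.exp (σ ^ 2 / 2 + σ * x) * ∫ t : ℝ, Real.exp (-t ^ 2 / 2)) := by
      intro n
      calc ∫ t, ‖F n t‖ ≤ ∫ t, (B n * Real.exp (σ ^ 2 / 2 + σ * x)) * Real.exp (-t ^ 2 / 2) :=
            integral_mono (hFint n).norm (integrable_gaussian_half.const_mul _) (hFnorm n)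
        _ = _ := by
            rw [integral_const_mul]
            ring
    exact Summable.of_nonneg_of_le (fun n => integral_nonneg fun t => norm_nonneg _) h1
      (hBs.mul_right _)
  have h := hasSum_integral_of_summable_integral_norm hFint hFsum
  have hlhs : ∀ t : ℝ, ∑' n, F n t = ker x ((σ : ℂ) + t * I) * LSeries c (1 + ((σ : ℂ) + t * I)) := by
    intro t
    simp only [hF]
    rw [tsum_mul_left, LSeries]
  simp_rw [hlhs] at h
  have hrhs : ∀ n : ℕ, ∫ t, F n t = ((2 * Real.pi : ℝ) : ℂ) * (c n *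
      ((gw (Real.log n - x) / n : ℝ) : ℂ)) := by
    intro n
    simp_rw [hFe n]
    rw [integral_const_mul, gauss_int]
    push_cast
    ring
  rw [← h.tsum_eq]
  simp_rw [hrhs]
  rw [tsum_mul_left]
  rfl

/-- the L-series is continuous and bounded on the line -/
theorem continuous_line (c : ℕ → ℂ) {σ : ℝ} (hc : LSeriesSummable c ((1 : ℂ) + σ)) :
    Continuous fun t : ℝ => LSeries c (1 + ((σ : ℂ) + t * I)) := by
  have hre : ∀ t : ℝ, ((σ : ℂ) + t * I).re = σ := fun t => by simp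
  unfold LSeries
  refine continuous_tsum (u := fun n => ‖LSeries.term c ((1 : ℂ) + σ) n‖) (fun n => ?_) hc.norm ?_
  · rcases eq_or_ne n 0 with rfl | hn
    · simp only [LSeries.term_zero]
      exact continuous_const
    · simp only [LSeries.term_of_ne_zero hn]
      have hn0 : (n : ℂ) ≠ 0 := by exact_mod_cast hn
      apply Continuous.div
      · fun_prop
      · apply Continuous.const_cpow
        · fun_prop
        · exact Or.inl hn0
      · intro t
        rw [Complex.cpow_def_of_ne_zero hn0]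
        exact Complex.exp_ne_zero _
  · intro n t
    rw [norm_term_one_add, norm_term_one_add, hre, Complex.ofReal_re]

theorem norm_line_le (c : ℕ → ℂ) {σ : ℝ} (hc : LSeriesSummable c ((1 : ℂ) + σ)) (t : ℝ) :
    ‖LSeries c (1 + ((σ : ℂ) + t * I))‖ ≤ ∑' n, ‖LSeries.term c ((1 : ℂ) + σ) n‖ := by
  have hre : ∀ t : ℝ, ((σ : ℂ) + t * I).re = σ := fun t => by simp
  unfold LSeries
  refine tsum_of_norm_bounded hc.norm.hasSum fun n => ?_
  rw [norm_term_one_add, norm_term_one_add, hre, Complex.ofReal_re]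

theorem summable_line (c : ℕ → ℂ) {σ : ℝ} (hc : LSeriesSummable c ((1 : ℂ) + σ)) (t : ℝ) :
    LSeriesSummable c (1 + ((σ : ℂ) + t * I)) :=
  (LSeriesSummable_iff_of_re_eq_re (by simp)).1 hc

/-- **bilinear sums over a family** -/
theorem bilinear_family {R : Type*} (F : Finset R) (a b : R → ℕ → ℂ) {σ : ℝ} (hσ0 : 0 < σ)
    (ha : ∀ r ∈ F, LSeriesSummable (a r) ((1 : ℂ) + σ)) (hb : ∀ r ∈ F, LSeriesSummable (b r) ((1 : ℂ) + σ))
    {A B : ℝ} (hA : ∀ t : ℝ, N2 F (fun r => LSeries (a r) (1 + ((σ : ℂ) + t * I))) ≤ A)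
    (hB : ∀ t : ℝ, N2 F (fun r => LSeries (b r) (1 + ((σ : ℂ) + t * I))) ≤ B) (x : ℝ) :
    ∑ r ∈ F, ‖GS (LSeries.convolution (a r) (b r)) x‖ ≤ Real.exp (σ ^ 2 / 2 + σ * x) * (A * B) := by
  have hA0 : 0 ≤ A := (N2_nonneg F _).trans (hA 0)
  have hB0 : 0 ≤ B := (N2_nonneg F _).trans (hB 0)
  have hpi := Real.pi_gt_three
  set f : R → ℝ → ℝ := fun r t => ‖ker x ((σ : ℂ) + t * I)‖ *
    (‖LSeries (a r) (1 + ((σ : ℂ) + t * I))‖ * ‖LSeries (b r) (1 + ((σ : ℂ) + t * I))‖) with hf
  have hker : ∀ t : ℝ, ‖ker x ((σ : ℂ) + t * I)‖ = Real.exp (σ ^ 2 / 2 + σ * x) * Real.exp (-t ^ 2 / 2) := by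
    intro t
    rw [ker, norm_kernel, ← Real.exp_add]
    congr 1
    ring
  have hint : ∀ r ∈ F, Integrable (f r) := by
    intro r hr
    refine Integrable.mono' (g := fun t => (Real.exp (σ ^ 2 / 2 + σ * x) * Real.exp (-t ^ 2 / 2)) *
      ((∑' n, ‖LSeries.term (a r) ((1 : ℂ) + σ) n‖) * ∑' n, ‖LSeries.term (b r) ((1 : ℂ) + σ) n‖))
      ((integrable_gaussian_half.const_mul _).mul_const _) ?_ ?_
    · apply Continuous.aestronglyMeasurable
      apply Continuous.mul
      · apply Continuous.norm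
        unfold ker
        fun_prop
      · exact (continuous_line _ (ha r hr)).norm.mul (continuous_line _ (hb r hr)).norm
    · filter_upwards with t
      rw [Real.norm_eq_abs, abs_of_nonneg (by positivity), hf]
      simp only
      rw [hker t]
      apply mul_le_mul_of_nonneg_left _ (by positivity)
      exact mul_le_mul (norm_line_le _ (ha r hr) t) (norm_line_le _ (hb r hr) t) (norm_nonneg _)
        (tsum_nonneg fun n => norm_nonneg _)
  have h1 : ∀ r ∈ F, 2 * Real.pi * ‖GS (LSeries.convolution (a r) (b r)) x‖ ≤ ∫ t, f r t := by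
    intro r hr
    have h2 := mellin (LSeries.convolution (a r) (b r)) ((ha r hr).convolution (hb r hr)) x
    have h3 : ‖((2 * Real.pi : ℝ) : ℂ) * GS (LSeries.convolution (a r) (b r)) x‖ = 2 * Real.pi * ‖GS (LSeries.convolution (a r) (b r)) x‖ := by
      rw [norm_mul, Complex.norm_real, Real.norm_eq_abs, abs_of_nonneg (by positivity)]
    rw [← h3, ← h2]
    refine (norm_integral_le_integral_norm _).trans (le_of_eq ?_)
    apply integral_congr_ae
    filter_upwards with t
    rw [norm_mul, LSeries_convolution' (summable_line _ (ha r hr) t) (summable_line _ (hb r hr) t), norm_mul]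
  have h2 : 2 * Real.pi * ∑ r ∈ F, ‖GS (LSeries.convolution (a r) (b r)) x‖ ≤ ∫ t, ∑ r ∈ F, f r t := by
    rw [Finset.mul_sum, integral_finsetSum _ hint]
    exact Finset.sum_le_sum h1
  have h3 : ∫ t, ∑ r ∈ F, f r t ≤ ∫ t : ℝ, (Real.exp (σ ^ 2 / 2 + σ * x) * (A * B)) * Real.exp (-t ^ 2 / 2) := by
    apply integral_mono (integrable_finsetSum _ hint) (integrable_gaussian_half.const_mul _)
    intro t
    simp only [hf]
    rw [← Finset.mul_sum, hker t]
    have h4 := sum_mul_le_N2 F (fun r => LSeries (a r) (1 + ((σ : ℂ) + t * I)))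
      (fun r => LSeries (b r) (1 + ((σ : ℂ) + t * I)))
    have h5 := h4.trans (mul_le_mul (hA t) (hB t) (N2_nonneg F _) hA0)
    calc Real.exp (σ ^ 2 / 2 + σ * x) * Real.exp (-t ^ 2 / 2) *
        ∑ r ∈ F, ‖LSeries (a r) (1 + ((σ : ℂ) + t * I))‖ * ‖LSeries (b r) (1 + ((σ : ℂ) + t * I))‖
        ≤ Real.exp (σ ^ 2 / 2 + σ * x) * Real.exp (-t ^ 2 / 2) * (A * B) :=
          mul_le_mul_of_nonneg_left h5 (by positivity)
      _ = _ := by ring
  have h4 : ∫ t : ℝ, Real.exp (-t ^ 2 / 2) ≤ 2 * Real.pi := by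
    have h5 : ∫ t : ℝ, Real.exp (-t ^ 2 / 2) = Real.sqrt (Real.pi / (1 / 2)) := by
      rw [← integral_gaussian (1 / 2)]
      congr 1
      ext t
      congr 1
      ring
    rw [h5]
    rw [Real.sqrt_le_left (by positivity)]
    nlinarith
  have h5 : ∫ t : ℝ, (Real.exp (σ ^ 2 / 2 + σ * x) * (A * B)) * Real.exp (-t ^ 2 / 2) ≤
      (Real.exp (σ ^ 2 / 2 + σ * x) * (A * B)) * (2 * Real.pi) := by
    rw [integral_const_mul]
    exact mul_le_mul_of_nonneg_left h4 (by positivity)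
  have h6 := (h2.trans h3).trans h5
  have h7 : 0 < 2 * Real.pi := by positivity
  nlinarith

end Pool.Agent.LibPL63
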