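import Pool.Agent.LibPL63.B0e
import Pool.Agent.LibPL63.B0b

/-!
Character sums with unimodal weights (type I sums).
-/

open Finset Filter Topology Complex MeasureTheory
open scoped ComplexConjugate ArithmeticFunction.vonMangoldt ArithmeticFunction.Moebius

namespace Pool.Agent.LibPL63

open DirichletCharacter
open Pool.Agent.LibMaier (gw gw_nonneg gauss_int norm_kernel integrable_gaussian_half integrable_kernel
  norm_charsum_le)

/-- summation by parts -/
theorem abel_id (c : ℕ → ℂ) (g : ℕ → ℝ) (n : ℕ) :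
    ∑ m ∈ range n, c m * (g m : ℂ) = (g n : ℂ) * ∑ m ∈ range n, c m +
      ∑ m ∈ range n, ((g m - g (m + 1) : ℝ) : ℂ) * ∑ k ∈ range (m + 1), c k := by
  induction n with
  | zero => simp
  | succ n ih =>
    rw [Finset.sum_range_succ, ih, Finset.sum_range_succ (fun m => ((g m - g (m + 1) : ℝ) : ℂ) *
      ∑ k ∈ range (m + 1), c k), Finset.sum_range_succ c n]
    push_cast
    ring

/-- total variation of a unimodal sequence -/
theorem tv_le (g : ℕ → ℝ) (P : ℕ → Prop) [DecidablePred P] {M : ℝ} (h0 : ∀ n, 0 ≤ g n) (hM : ∀ n, g n ≤ M)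
    (hP : ∀ n, P (n + 1) → P n) (hup : ∀ n, P (n + 1) → g n ≤ g (n + 1))
    (hdown : ∀ n, ¬ P n → g (n + 1) ≤ g n) (n : ℕ) :
    ∑ m ∈ range n, |g m - g (m + 1)| ≤ 2 * M := by
  have key : ∀ n, ∑ m ∈ range n, |g m - g (m + 1)| ≤ if P n then g n else 2 * M - g n := by
    intro n
    induction n with
    | zero =>
      rw [Finset.sum_range_zero]
      split_ifs
      · exact h0 0
      · have := hM 0
        have := h0 0
        linarith
    | succ n ih =>
      rw [Finset.sum_range_succ]
      by_cases h1 : P (n + 1)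
      · rw [if_pos (hP n h1)] at ih
        rw [if_pos h1, abs_of_nonpos (by linarith [hup n h1])]
        linarith
      · rw [if_neg h1]
        by_cases h2 : P n
        · rw [if_pos h2] at ih
          have h3 := hM n
          have h4 := hM (n + 1)
          rcases abs_cases (g n - g (n + 1)) with h | h
          · rw [h.1]
            linarith
          · rw [h.1]
            linarith
        · rw [if_neg h2] at ih
          rw [abs_of_nonneg (by linarith [hdown n h2])]
          linarith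
  refine (key n).trans ?_
  split_ifs
  · linarith [hM n, h0 n]
  · linarith [h0 n]

/-- character sums with a unimodal weight -/
theorem norm_tsum_unimodal_le {q : ℕ} [NeZero q] {χ : DirichletCharacter ℂ q} (hχ : χ ≠ 1)
    (g : ℕ → ℝ) (P : ℕ → Prop) {M : ℝ} (h0 : ∀ n, 0 ≤ g n) (hM : ∀ n, g n ≤ M)
    (hP : ∀ n, P (n + 1) → P n) (hup : ∀ n, P (n + 1) → g n ≤ g (n + 1))
    (hdown : ∀ n, ¬ P n → g (n + 1) ≤ g n) (hs : Summable fun n : ℕ => χ (n : ZMod q) * (g n : ℂ)) :
    ‖∑' n : ℕ, χ (n : ZMod q) * (g n : ℂ)‖ ≤ 3 * q * M := by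
  classical
  have key : ∀ N : ℕ, ‖∑ k ∈ range N, χ (k : ZMod q)‖ ≤ q := by
    intro N
    rcases N with _ | N
    · simp
    · have h := norm_charsum_le hχ N
      have h2 : Icc 0 N = range (N + 1) := by
        ext k
        simp only [mem_Icc, mem_range]
        omega
      rwa [h2] at h
  have hq : (0 : ℝ) ≤ q := Nat.cast_nonneg q
  have hpart : ∀ n : ℕ, ‖∑ m ∈ range n, χ (m : ZMod q) * (g m : ℂ)‖ ≤ 3 * q * M := by
    intro n
    rw [abel_id (fun m : ℕ => χ (m : ZMod q)) g n]
    refine (norm_add_le _ _).trans ?_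
    have h1 : ‖(g n : ℂ) * ∑ m ∈ range n, χ (m : ZMod q)‖ ≤ M * q := by
      rw [norm_mul, Complex.norm_real, Real.norm_eq_abs, abs_of_nonneg (h0 n)]
      exact mul_le_mul (hM n) (key n) (norm_nonneg _) ((h0 n).trans (hM n))
    have h2 : ‖∑ m ∈ range n, ((g m - g (m + 1) : ℝ) : ℂ) * ∑ k ∈ range (m + 1), χ (k : ZMod q)‖ ≤
        2 * M * q := by
      refine (norm_sum_le _ _).trans ?_
      calc ∑ m ∈ range n, ‖((g m - g (m + 1) : ℝ) : ℂ) * ∑ k ∈ range (m + 1), χ (k : ZMod q)‖
          ≤ ∑ m ∈ range n, |g m - g (m + 1)| * q := by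
            refine Finset.sum_le_sum fun m _ => ?_
            rw [norm_mul, Complex.norm_real, Real.norm_eq_abs]
            exact mul_le_mul_of_nonneg_left (key (m + 1)) (abs_nonneg _)
        _ = (∑ m ∈ range n, |g m - g (m + 1)|) * q := by rw [Finset.sum_mul]
        _ ≤ 2 * M * q := mul_le_mul_of_nonneg_right (tv_le g P h0 hM hP hup hdown n) hq
    linarith
  exact le_of_tendsto (hs.hasSum.tendsto_sum_nat.norm) (Eventually.of_forall hpart)

/-- the maximum of the weight -/
theorem gw_shift_le (y : ℝ) {n : ℕ} (hn : n ≠ 0) : gw (Real.log n - y) / n ≤ Real.exp (-y) := by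
  have hnR : (0 : ℝ) < n := by exact_mod_cast Nat.pos_of_ne_zero hn
  set v : ℝ := Real.log n - y with hv
  have h1 : (n : ℝ) = Real.exp (v + y) := by
    rw [hv, sub_add_cancel, Real.exp_log hnR]
  have h2 : gw v / n = Real.exp (-v ^ 2 / 2 - v) * Real.exp (-y) / Real.sqrt (2 * Real.pi) := by
    rw [gw, div_div, mul_comm (Real.sqrt _), ← div_div, h1, ← Real.exp_sub, ← Real.exp_add]
    congr 2
    ring
  have h3 : Real.exp (-v ^ 2 / 2 - v) ≤ Real.exp (1 / 2) :=
    Real.exp_le_exp.2 (by nlinarith [sq_nonneg (v + 1)])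
  have h4 : Real.exp (1 / 2) ≤ Real.sqrt (2 * Real.pi) := by
    apply Real.le_sqrt_of_sq_le
    rw [← Real.exp_nat_mul]
    have := Real.exp_one_lt_d9
    have := Real.pi_gt_three
    norm_num
    linarith
  rw [h2, div_le_iff₀ (Real.sqrt_pos.2 (by positivity)), mul_comm]
  exact mul_le_mul_of_nonneg_left (h3.trans h4) (Real.exp_pos _).le

theorem log_gw_shift_le {y : ℝ} (hy : 0 ≤ y) {n : ℕ} (hn : n ≠ 0) :
    Real.log n * (gw (Real.log n - y) / n) ≤ (y + 1) * Real.exp (-y) := by
  have hnR : (0 : ℝ) < n := by exact_mod_cast Nat.pos_of_ne_zero hn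
  set v : ℝ := Real.log n - y with hv
  have hlog : Real.log n = y + v := by rw [hv]; ring
  have hw0 : 0 ≤ gw v / n := div_nonneg (gw_nonneg _) hnR.le
  rw [hlog, add_mul, add_mul, one_mul]
  have h5 := gw_shift_le y hn
  rw [← hv] at h5
  refine add_le_add (mul_le_mul_of_nonneg_left h5 hy) ?_
  rcases le_or_gt v 0 with h | h
  · exact (mul_nonpos_of_nonpos_of_nonneg h hw0).trans (Real.exp_pos _).le
  · have h1 : (n : ℝ) = Real.exp (v + y) := by
      rw [hv, sub_add_cancel, Real.exp_log hnR]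
    have h2 : gw v / n = Real.exp (-v ^ 2 / 2 - v) * Real.exp (-y) / Real.sqrt (2 * Real.pi) := by
      rw [gw, div_div, mul_comm (Real.sqrt _), ← div_div, h1, ← Real.exp_sub, ← Real.exp_add]
      congr 2
      ring
    have h6 : 1 ≤ Real.sqrt (2 * Real.pi) := by
      apply Real.le_sqrt_of_sq_le
      have := Real.pi_gt_three
      linarith
    have h3 : v * Real.exp (-v ^ 2 / 2 - v) ≤ 1 := by
      have h7 : v ≤ Real.exp v := by linarith [Real.add_one_le_exp v]
      calc v * Real.exp (-v ^ 2 / 2 - v) ≤ Real.exp v * Real.exp (-v ^ 2 / 2 - v) :=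
            mul_le_mul_of_nonneg_right h7 (Real.exp_pos _).le
        _ = Real.exp (-v ^ 2 / 2) := by rw [← Real.exp_add]; congr 1; ring
        _ ≤ 1 := Real.exp_le_one_iff.2 (by nlinarith [sq_nonneg v])
    rw [h2, mul_div_assoc', div_le_iff₀ (by positivity)]
    calc v * (Real.exp (-v ^ 2 / 2 - v) * Real.exp (-y))
        = (v * Real.exp (-v ^ 2 / 2 - v)) * Real.exp (-y) := by ring
      _ ≤ 1 * Real.exp (-y) := mul_le_mul_of_nonneg_right h3 (Real.exp_pos _).le
      _ ≤ Real.exp (-y) * Real.sqrt (2 * Real.pi) := by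
          rw [one_mul]
          exact le_mul_of_one_le_right (Real.exp_pos _).le h6

/-- comparison of two values of the weight -/
theorem gw_ratio {y : ℝ} {m n : ℕ} (hm : m ≠ 0) (hn : n ≠ 0) :
    gw (Real.log n - y) / n = gw (Real.log m - y) / m *
      Real.exp (-(Real.log n - Real.log m) * ((Real.log n + Real.log m) / 2 - y + 1)) := by
  have hmR : (0 : ℝ) < m := by exact_mod_cast Nat.pos_of_ne_zero hm
  have hnR : (0 : ℝ) < n := by exact_mod_cast Nat.pos_of_ne_zero hn
  have h1 : ∀ k : ℕ, (0 : ℝ) < k → gw (Real.log k - y) / k =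
      Real.exp (-(Real.log k - y) ^ 2 / 2 - Real.log k) / Real.sqrt (2 * Real.pi) := by
    intro k hk
    rw [gw, Real.exp_sub, Real.exp_log hk, div_div, div_div, mul_comm]
  rw [h1 n hnR, h1 m hmR, div_mul_eq_mul_div, ← Real.exp_add]
  congr 2
  ring

/-- type I sums without logarithm -/
theorem norm_GS_char_le {q : ℕ} [NeZero q] {χ : DirichletCharacter ℂ q} (hχ : χ ≠ 1) {y : ℝ}
    (hs : Summable fun n : ℕ => χ (n : ZMod q) * ((gw (Real.log n - y) / n : ℝ) : ℂ)) :
    ‖GS (fun n => χ (n : ZMod q)) y‖ ≤ 3 * q * Real.exp (-y) := by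
  refine norm_tsum_unimodal_le hχ (fun n : ℕ => gw (Real.log n - y) / n)
    (fun n => n = 0 ∨ Real.log n ≤ y - 1) (fun n => div_nonneg (gw_nonneg _) (Nat.cast_nonneg _))
    (fun n => ?_) (fun n h => ?_) (fun n h => ?_) (fun n h => ?_) hs
  · rcases eq_or_ne n 0 with rfl | hn
    · simp only [Nat.cast_zero, div_zero]
      exact (Real.exp_pos _).le
    · exact gw_shift_le y hn
  · rcases eq_or_ne n 0 with rfl | hn
    · exact Or.inl rfl
    · right
      rcases h with h | h
      · omega
      · refine le_trans (Real.log_le_log (by exact_mod_cast Nat.pos_of_ne_zero hn) ?_) h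
        push_cast
        linarith
  · rcases eq_or_ne n 0 with rfl | hn
    · simp only [Nat.cast_zero, div_zero]
      exact div_nonneg (gw_nonneg _) (Nat.cast_nonneg _)
    · have h1 : Real.log ((n + 1 : ℕ) : ℝ) ≤ y - 1 := by
        rcases h with h | h
        · omega
        · exact h
      have h2 : Real.log n ≤ Real.log ((n + 1 : ℕ) : ℝ) :=
        Real.log_le_log (by exact_mod_cast Nat.pos_of_ne_zero hn) (by push_cast; linarith)
      rw [gw_ratio hn (Nat.succ_ne_zero n) (y := y)]
      refine le_mul_of_one_le_right (div_nonneg (gw_nonneg _) (Nat.cast_nonneg _)) ?_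
      rw [Real.one_le_exp_iff]
      nlinarith
  · push Not at h
    obtain ⟨hn, h1⟩ := h
    have h2 : Real.log n ≤ Real.log ((n + 1 : ℕ) : ℝ) :=
      Real.log_le_log (by exact_mod_cast Nat.pos_of_ne_zero hn) (by push_cast; linarith)
    rw [gw_ratio hn (Nat.succ_ne_zero n) (y := y)]
    refine mul_le_of_le_one_right (div_nonneg (gw_nonneg _) (Nat.cast_nonneg _)) ?_
    rw [Real.exp_le_one_iff]
    nlinarith

/-- type I sums with logarithm -/
theorem norm_GS_char_log_le {q : ℕ} [NeZero q] {χ : DirichletCharacter ℂ q} (hχ : χ ≠ 1) {y : ℝ}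
    (hy : 0 ≤ y)
    (hs : Summable fun n : ℕ => χ (n : ZMod q) * ((Real.log n * (gw (Real.log n - y) / n) : ℝ) : ℂ)) :
    ‖∑' n : ℕ, χ (n : ZMod q) * ((Real.log n * (gw (Real.log n - y) / n) : ℝ) : ℂ)‖ ≤
      3 * q * ((y + 1) * Real.exp (-y)) := by
  have hlog0 : ∀ n : ℕ, 0 ≤ Real.log n := fun n => Real.log_natCast_nonneg n
  have hmono : ∀ n : ℕ, n ≠ 0 → Real.log n ≤ Real.log ((n + 1 : ℕ) : ℝ) := fun n hn =>
    Real.log_le_log (by exact_mod_cast Nat.pos_of_ne_zero hn) (by push_cast; linarith)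
  have hW0 : ∀ n : ℕ, 0 ≤ gw (Real.log n - y) / n := fun n => div_nonneg (gw_nonneg _) (Nat.cast_nonneg _)
  refine norm_tsum_unimodal_le hχ (fun n : ℕ => Real.log n * (gw (Real.log n - y) / n))
    (fun n => n = 0 ∨ Real.log n * (Real.log n - y + 1) ≤ 1)
    (fun n => mul_nonneg (hlog0 n) (hW0 n))
    (fun n => ?_) (fun n h => ?_) (fun n h => ?_) (fun n h => ?_) hs
  · rcases eq_or_ne n 0 with rfl | hn
    · simp only [Nat.cast_zero, Real.log_zero, zero_mul]
      positivity
    · exact log_gw_shift_le hy hn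
  · rcases eq_or_ne n 0 with rfl | hn
    · exact Or.inl rfl
    · right
      rcases h with h | h
      · omega
      · have h1 := hmono n hn
        have h2 := hlog0 n
        rcases le_or_gt (Real.log n - y + 1) 0 with h3 | h3
        · nlinarith
        · refine le_trans (mul_le_mul h1 (by linarith) h3.le (hlog0 _)) h
  · rcases eq_or_ne n 0 with rfl | hn
    · simp only [Nat.cast_zero, Real.log_zero, zero_mul]
      exact mul_nonneg (hlog0 _) (hW0 _)
    · have h1 : Real.log ((n + 1 : ℕ) : ℝ) * (Real.log ((n + 1 : ℕ) : ℝ) - y + 1) ≤ 1 := by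
        rcases h with h | h
        · omega
        · exact h
      rw [gw_ratio hn (Nat.succ_ne_zero n) (y := y)]
      set u := Real.log n with hu
      set u' := Real.log ((n + 1 : ℕ) : ℝ) with hu'
      have h2 : u ≤ u' := hmono n hn
      have h0 : 0 ≤ u := hlog0 n
      have h3 : u ≤ u' * Real.exp (-(u' - u) * ((u' + u) / 2 - y + 1)) := by
        have h4 := Real.add_one_le_exp (-(u' - u) * ((u' + u) / 2 - y + 1))
        have h5 : 0 ≤ u' := h0.trans h2
        have h6 := mul_le_mul_of_nonneg_left h4 h5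
        have h7 : u' * ((u' + u) / 2 - y + 1) ≤ 1 := by
          have : u' * ((u' + u) / 2 - y + 1) ≤ u' * (u' - y + 1) :=
            mul_le_mul_of_nonneg_left (by linarith) h5
          linarith
        have h8 := mul_le_mul_of_nonneg_left h7 (sub_nonneg.2 h2)
        nlinarith
      calc u * (gw (u - y) / n) ≤ (u' * Real.exp (-(u' - u) * ((u' + u) / 2 - y + 1))) *
            (gw (u - y) / n) := mul_le_mul_of_nonneg_right h3 (hW0 n)
        _ = _ := by ring
  · push Not at h
    obtain ⟨hn, h1⟩ := h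
    rw [gw_ratio hn (Nat.succ_ne_zero n) (y := y)]
    set u := Real.log n with hu
    set u' := Real.log ((n + 1 : ℕ) : ℝ) with hu'
    have h2 : u ≤ u' := hmono n hn
    have h0 : 0 ≤ u := hlog0 n
    have hu0 : 0 < u := by
      rcases h0.eq_or_lt with h | h
      · rw [← h] at h1
        linarith
      · exact h
    -- `u' exp(-(u'-u)(..)) ≤ u`
    have h3 : u' * Real.exp (-(u' - u) * ((u' + u) / 2 - y + 1)) ≤ u := by
      have h4 : u' / u ≤ Real.exp ((u' - u) * ((u' + u) / 2 - y + 1)) := by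
        have h5 := Real.add_one_le_exp ((u' - u) * ((u' + u) / 2 - y + 1))
        refine le_trans ?_ h5
        rw [div_le_iff₀ hu0]
        have h7 : 1 ≤ u * ((u' + u) / 2 - y + 1) := by
          have : u * (u - y + 1) ≤ u * ((u' + u) / 2 - y + 1) :=
            mul_le_mul_of_nonneg_left (by linarith) h0
          linarith
        have h8 := mul_le_mul_of_nonneg_left h7 (sub_nonneg.2 h2)
        nlinarith
      rw [neg_mul, Real.exp_neg, ← div_eq_mul_inv, div_le_iff₀ (Real.exp_pos _)]
      rw [div_le_iff₀ hu0] at h4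
      linarith
    calc u' * (gw (u - y) / n * Real.exp (-(u' - u) * ((u' + u) / 2 - y + 1)))
        = (u' * Real.exp (-(u' - u) * ((u' + u) / 2 - y + 1))) * (gw (u - y) / n) := by ring
      _ ≤ u * (gw (u - y) / n) := mul_le_mul_of_nonneg_right h3 (hW0 n)

end Pool.Agent.LibPL63
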