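import Pool.Agent.LibPL63.B0f

/-!
Vaughan's identity for the Gaussian character sums over the prime powers.
-/

open Finset Filter Topology Complex MeasureTheory
open scoped ComplexConjugate ArithmeticFunction.vonMangoldt ArithmeticFunction.Moebius

namespace Pool.Agent.LibPL63

open DirichletCharacter
open Pool.Agent.LibMaier (gw gw_nonneg gauss_int norm_kernel integrable_gaussian_half integrable_kernel
  norm_charsum_le SS)

theorem summable_of_norm_le {f g : ℕ → ℂ} {s : ℂ} (h : ∀ n, ‖f n‖ ≤ ‖g n‖) (hg : LSeriesSummable g s) :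
    LSeriesSummable f s :=
  Summable.of_norm_bounded hg.norm fun n => LSeries.norm_term_le s (h n)

theorem integrable_ker_LSeries (c : ℕ → ℂ) {σ : ℝ} (hc : LSeriesSummable c ((1 : ℂ) + σ)) (x : ℝ) :
    Integrable fun t : ℝ => ker x ((σ : ℂ) + t * I) * LSeries c (1 + ((σ : ℂ) + t * I)) := by
  refine Integrable.mono' (g := fun t => (Real.exp (σ ^ 2 / 2 + σ * x) * Real.exp (-t ^ 2 / 2)) *
    ∑' n, ‖LSeries.term c ((1 : ℂ) + σ) n‖) ((integrable_gaussian_half.const_mul _).mul_const _) ?_ ?_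
  · apply Continuous.aestronglyMeasurable
    apply Continuous.mul
    · unfold ker
      fun_prop
    · exact continuous_line c hc
  · filter_upwards with t
    have hker : ‖ker x ((σ : ℂ) + t * I)‖ = Real.exp (σ ^ 2 / 2 + σ * x) * Real.exp (-t ^ 2 / 2) := by
      rw [ker, norm_kernel, ← Real.exp_add]
      congr 1
      ring
    rw [norm_mul, hker]
    exact mul_le_mul_of_nonneg_left (norm_line_le c hc t) (by positivity)

/-- convolution with a finitely supported factor -/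
theorem GS_conv_fin (a b : ℕ → ℂ) (U : ℕ) (ha : ∀ n, U < n → a n = 0) {σ : ℝ}
    (hb : LSeriesSummable b ((1 : ℂ) + σ)) (x : ℝ) :
    GS (LSeries.convolution a b) x = ∑ n ∈ Icc 1 U, a n / n * GS b (x - Real.log n) := by
  have hta : ∀ s : ℂ, ∀ n ∉ Icc 1 U, LSeries.term a s n = 0 := by
    intro s n hn
    rcases eq_or_ne n 0 with rfl | h0
    · simp
    · rw [LSeries.term_of_ne_zero h0, ha n, zero_div]
      rw [Finset.mem_Icc] at hn
      omega
  have hsa : ∀ s : ℂ, LSeriesSummable a s := fun s => summable_of_ne_finset_zero (hta s)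
  have hLa : ∀ s : ℂ, LSeries a s = ∑ n ∈ Icc 1 U, LSeries.term a s n := fun s => tsum_eq_sum (hta s)
  have h1 := mellin (LSeries.convolution a b) ((hsa _).convolution hb) x
  have h2 : ∀ t : ℝ, ker x ((σ : ℂ) + t * I) * LSeries (LSeries.convolution a b) (1 + ((σ : ℂ) + t * I)) =
      ∑ n ∈ Icc 1 U, a n / n * (ker (x - Real.log n) ((σ : ℂ) + t * I) *
        LSeries b (1 + ((σ : ℂ) + t * I))) := by
    intro t
    rw [LSeries_convolution' (hsa _) (summable_line _ hb t), hLa, ← mul_assoc, Finset.mul_sum,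
      Finset.sum_mul]
    refine Finset.sum_congr rfl fun n hn => ?_
    have hn0 : n ≠ 0 := by
      rw [Finset.mem_Icc] at hn
      omega
    have hnC : (n : ℂ) ≠ 0 := by exact_mod_cast hn0
    rw [← mul_assoc]
    congr 1
    rw [LSeries.term_of_ne_zero hn0, Complex.cpow_add _ _ hnC, Complex.cpow_one]
    have h3 : (n : ℂ) ^ ((σ : ℂ) + t * I) = cexp (((σ : ℂ) + t * I) * (Real.log n : ℂ)) := by
      rw [Complex.cpow_def_of_ne_zero hnC, mul_comm, ← Complex.natCast_log]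
    rw [h3]
    have h4 : ker (x - Real.log n) ((σ : ℂ) + t * I) = ker x ((σ : ℂ) + t * I) *
        (cexp (((σ : ℂ) + t * I) * (Real.log n : ℂ)))⁻¹ := by
      unfold ker
      rw [← Complex.exp_neg, ← Complex.exp_add]
      congr 1
      push_cast
      ring
    rw [h4]
    have h5 : cexp (((σ : ℂ) + t * I) * (Real.log n : ℂ)) ≠ 0 := Complex.exp_ne_zero _
    field_simp
  simp_rw [h2] at h1
  rw [integral_finsetSum _ (fun n _ => (integrable_ker_LSeries b hb _).const_mul _)] at h1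
  simp_rw [integral_const_mul] at h1
  have h3 : ∀ n ∈ Icc 1 U, a n / n * ∫ t : ℝ, ker (x - Real.log n) ((σ : ℂ) + t * I) *
      LSeries b (1 + ((σ : ℂ) + t * I)) = ((2 * Real.pi : ℝ) : ℂ) * (a n / n * GS b (x - Real.log n)) := by
    intro n _
    rw [mellin b hb]
    ring
  rw [Finset.sum_congr rfl h3, ← Finset.mul_sum] at h1
  have hpi : ((2 * Real.pi : ℝ) : ℂ) ≠ 0 := by
    rw [Complex.ofReal_ne_zero]
    positivity
  exact (mul_left_cancel₀ hpi h1).symm

/-! ### coefficients -/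

/-- truncation -/
noncomputable def low (U : ℕ) (f : ℕ → ℂ) (n : ℕ) : ℂ := if n ≤ U then f n else 0

/-- the complementary truncation -/
noncomputable def high (U : ℕ) (f : ℕ → ℂ) (n : ℕ) : ℂ := if n ≤ U then 0 else f n

theorem norm_low_le (U : ℕ) (f : ℕ → ℂ) (n : ℕ) : ‖low U f n‖ ≤ ‖f n‖ := by
  unfold low
  split_ifs
  · exact le_rfl
  · simp

theorem norm_high_le (U : ℕ) (f : ℕ → ℂ) (n : ℕ) : ‖high U f n‖ ≤ ‖f n‖ := by
  unfold high
  split_ifs
  · simp
  · exact le_rfl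

theorem low_add_high (U : ℕ) (f : ℕ → ℂ) : low U f + high U f = f := by
  funext n
  simp only [Pi.add_apply, low, high]
  split_ifs <;> simp

/-- the coefficients `LSeries.delta - μ_{≤V} * 1` -/
noncomputable def beta (V : ℕ) : ℕ → ℂ := LSeries.delta - LSeries.convolution (low V (fun n : ℕ ↦ (μ n : ℂ))) (1 : ℕ → ℂ)

theorem beta_eq_zero {V n : ℕ} (hn : n ≤ V) : beta V n = 0 := by
  rcases eq_or_ne n 0 with rfl | h0
  · simp [beta, LSeries.delta, LSeries.convolution_map_zero]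
  · have h1 : (LSeries.convolution (low V (fun n : ℕ ↦ (μ n : ℂ))) (1 : ℕ → ℂ)) n = (LSeries.convolution (fun n => (μ n : ℂ)) (1 : ℕ → ℂ)) n := by
      rw [LSeries.convolution_def, LSeries.convolution_def]
      simp only
      refine Finset.sum_congr rfl fun p hp => ?_
      have hp1 := Nat.mem_divisorsAntidiagonal.1 hp
      have hle : p.1 ≤ V := by
        have : p.1 ∣ n := ⟨p.2, hp1.1.symm⟩
        exact (Nat.le_of_dvd (Nat.pos_of_ne_zero h0) this).trans hn
      rw [low, if_pos hle]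
    have h2 : (LSeries.convolution (1 : ℕ → ℂ) (fun n => (μ n : ℂ))) = LSeries.delta := by
      have h := DirichletCharacter.convolution_mul_moebius (1 : DirichletCharacter ℂ 1)
      have h3 : (fun n : ℕ => (1 : DirichletCharacter ℂ 1) (n : ZMod 1)) = (1 : ℕ → ℂ) := by
        funext n
        exact MulChar.one_apply (by
          rw [Subsingleton.elim (n : ZMod 1) 1]
          exact isUnit_one)
      rw [h3, one_mul] at h
      exact h
    have h4 : (LSeries.convolution (fun n => (μ n : ℂ)) (1 : ℕ → ℂ)) n = (LSeries.convolution (1 : ℕ → ℂ) (fun n => (μ n : ℂ))) n := by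
      rw [LSeries.convolution_def, LSeries.convolution_def]
      simp only
      refine Finset.sum_nbij' Prod.swap Prod.swap (fun p hp => ?_) (fun p hp => ?_) (fun p _ => ?_)
        (fun p _ => ?_) (fun p _ => ?_)
      · exact Nat.swap_mem_divisorsAntidiagonal.2 hp
      · exact Nat.swap_mem_divisorsAntidiagonal.2 hp
      · exact Prod.swap_swap p
      · exact Prod.swap_swap p
      · simp
    rw [beta, Pi.sub_apply, h1, h4, h2, sub_self]

theorem norm_beta_le {V : ℕ} (hV : 1 ≤ V) (n : ℕ) : ‖beta V n‖ ≤ n.divisors.card := by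
  rcases le_or_gt n V with h | h
  · rw [beta_eq_zero h, norm_zero]
    positivity
  · have h1 : LSeries.delta n = 0 := by
      rw [LSeries.delta, if_neg (by omega)]
    rw [beta, Pi.sub_apply, h1, zero_sub, norm_neg, LSeries.convolution_def]
    simp only
    refine (norm_sum_le _ _).trans ?_
    rw [Pool.Agent.LibMaier.card_divisors_eq]
    refine Finset.sum_le_sum fun p _ => ?_
    rw [Pi.one_apply, mul_one]
    refine (norm_low_le _ _ _).trans ?_
    rw [Complex.norm_intCast]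
    exact_mod_cast ArithmeticFunction.abs_moebius_le_one

/-! ### the identity -/

section

variable {q : ℕ} (χ : DirichletCharacter ℂ q)

theorem summable_char [NeZero q] {σ : ℝ} (hσ : 0 < σ) : LSeriesSummable (fun n : ℕ ↦ (χ n : ℂ)) ((1 : ℂ) + σ) :=
  DirichletCharacter.LSeriesSummable_of_one_lt_re χ (by simp; exact hσ)

theorem summable_charL {σ : ℝ} (hσ : 0 < σ) : LSeriesSummable ((fun n : ℕ ↦ (χ n : ℂ)) * (fun n : ℕ ↦ (Λ n : ℂ))) ((1 : ℂ) + σ) :=
  DirichletCharacter.LSeriesSummable_twist_vonMangoldt χ (by simp; exact hσ)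

theorem summable_charLog [NeZero q] {σ : ℝ} (hσ : 0 < σ) : LSeriesSummable ((fun n : ℕ ↦ (χ n : ℂ)) * (fun n : ℕ ↦ (Complex.log n : ℂ))) ((1 : ℂ) + σ) := by
  rw [← DirichletCharacter.convolution_twist_vonMangoldt]
  exact (summable_charL χ hσ).convolution (summable_char χ hσ)

theorem summable_charMu {σ : ℝ} (hσ : 0 < σ) : LSeriesSummable ((fun n : ℕ ↦ (χ n : ℂ)) * (fun n : ℕ ↦ (μ n : ℂ))) ((1 : ℂ) + σ) := by
  refine summable_of_norm_le (g := (1 : ℕ → ℂ)) (fun n => ?_)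
    (LSeriesSummable_one_iff.2 (by simp; exact hσ))
  rw [Pi.mul_apply, norm_mul, Pi.one_apply, norm_one]
  refine mul_le_one₀ (χ.norm_le_one _) (norm_nonneg _) ?_
  rw [Complex.norm_intCast]
  exact_mod_cast ArithmeticFunction.abs_moebius_le_one

theorem twist_beta (V : ℕ) : (fun n : ℕ ↦ (χ n : ℂ)) * beta V = LSeries.delta - LSeries.convolution (low V ((fun n : ℕ ↦ (χ n : ℂ)) * (fun n : ℕ ↦ (μ n : ℂ)))) (fun n : ℕ ↦ (χ n : ℂ)) := by
  have h1 : low V ((fun n : ℕ ↦ (χ n : ℂ)) * (fun n : ℕ ↦ (μ n : ℂ))) = (fun n : ℕ ↦ (χ n : ℂ)) * low V (fun n : ℕ ↦ (μ n : ℂ)) := by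
    funext n
    simp only [low, Pi.mul_apply]
    split_ifs <;> simp
  have h2 := DirichletCharacter.mul_convolution_distrib χ (low V (fun n : ℕ ↦ (μ n : ℂ))) (1 : ℕ → ℂ)
  rw [mul_one] at h2
  rw [beta, mul_sub, DirichletCharacter.mul_delta, h1, h2]

/-- **Vaughan's identity** -/
theorem vaughan [NeZero q] (U V : ℕ) {σ : ℝ} (hσ : 0 < σ) (x : ℝ) :
    SS χ x = GS (low U ((fun n : ℕ ↦ (χ n : ℂ)) * (fun n : ℕ ↦ (Λ n : ℂ)))) x + GS (LSeries.convolution (low V ((fun n : ℕ ↦ (χ n : ℂ)) * (fun n : ℕ ↦ (μ n : ℂ)))) ((fun n : ℕ ↦ (χ n : ℂ)) * (fun n : ℕ ↦ (Complex.log n : ℂ)))) x -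
      GS (LSeries.convolution (low U ((fun n : ℕ ↦ (χ n : ℂ)) * (fun n : ℕ ↦ (Λ n : ℂ)))) (LSeries.convolution (low V ((fun n : ℕ ↦ (χ n : ℂ)) * (fun n : ℕ ↦ (μ n : ℂ)))) (fun n : ℕ ↦ (χ n : ℂ)))) x +
      GS (LSeries.convolution (high U ((fun n : ℕ ↦ (χ n : ℂ)) * (fun n : ℕ ↦ (Λ n : ℂ)))) ((fun n : ℕ ↦ (χ n : ℂ)) * beta V)) x := by
  have hΛ := summable_charL χ hσ
  have hχ := summable_char χ hσ
  have hlog := summable_charLog χ hσ
  have hA : LSeriesSummable (low U ((fun n : ℕ ↦ (χ n : ℂ)) * (fun n : ℕ ↦ (Λ n : ℂ)))) ((1 : ℂ) + σ) :=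
    summable_of_norm_le (norm_low_le U _) hΛ
  have hA' : LSeriesSummable (high U ((fun n : ℕ ↦ (χ n : ℂ)) * (fun n : ℕ ↦ (Λ n : ℂ)))) ((1 : ℂ) + σ) :=
    summable_of_norm_le (norm_high_le U _) hΛ
  have hG : LSeriesSummable (low V ((fun n : ℕ ↦ (χ n : ℂ)) * (fun n : ℕ ↦ (μ n : ℂ)))) ((1 : ℂ) + σ) :=
    summable_of_norm_le (norm_low_le V _) (summable_charMu χ hσ)
  have hGχ : LSeriesSummable (LSeries.convolution (low V ((fun n : ℕ ↦ (χ n : ℂ)) * (fun n : ℕ ↦ (μ n : ℂ)))) (fun n : ℕ ↦ (χ n : ℂ))) ((1 : ℂ) + σ) := hG.convolution hχ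
  have hδ : LSeriesSummable LSeries.delta ((1 : ℂ) + σ) := by
    rw [← DirichletCharacter.mul_delta χ]
    exact summable_of_norm_le (g := (fun n : ℕ ↦ (χ n : ℂ))) (fun n => by
      rw [Pi.mul_apply, norm_mul]
      refine mul_le_of_le_one_right (norm_nonneg _) ?_
      rw [LSeries.delta]
      split_ifs <;> simp) hχ
  have hB : LSeriesSummable ((fun n : ℕ ↦ (χ n : ℂ)) * beta V) ((1 : ℂ) + σ) := by
    rw [twist_beta]
    exact hδ.sub hGχ
  have h2 := hG.convolution hlog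
  have h3 := hA.convolution hGχ
  have h4 := hA'.convolution hB
  have hSS : SS χ x = GS ((fun n : ℕ ↦ (χ n : ℂ)) * (fun n : ℕ ↦ (Λ n : ℂ))) x := by
    unfold SS GS
    apply tsum_congr
    intro n
    rw [Pi.mul_apply]
    ring
  have hpi : ((2 * Real.pi : ℝ) : ℂ) ≠ 0 := by
    rw [Complex.ofReal_ne_zero]
    positivity
  have i1 := integrable_ker_LSeries _ hA x
  have i2 := integrable_ker_LSeries _ h2 x
  have i3 := integrable_ker_LSeries _ h3 x
  have i4 := integrable_ker_LSeries _ h4 x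
  have key : ∀ f1 f2 f3 f4 : ℝ → ℂ, Integrable f1 → Integrable f2 → Integrable f3 → Integrable f4 →
      ∫ t, (f1 t + f2 t - f3 t + f4 t) = (∫ t, f1 t) + (∫ t, f2 t) - (∫ t, f3 t) + ∫ t, f4 t := by
    intro f1 f2 f3 f4 j1 j2 j3 j4
    have k1 : ∫ t, (f1 t + f2 t - f3 t + f4 t) = (∫ t, (f1 t + f2 t - f3 t)) + ∫ t, f4 t :=
      integral_add ((j1.add j2).sub j3) j4
    have k2 : ∫ t, (f1 t + f2 t - f3 t) = (∫ t, (f1 t + f2 t)) - ∫ t, f3 t :=
      integral_sub (j1.add j2) j3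
    rw [k1, k2, integral_add j1 j2]
  apply mul_left_cancel₀ hpi
  rw [hSS, mul_add, mul_sub, mul_add, ← mellin _ hΛ, ← mellin _ hA, ← mellin _ h2, ← mellin _ h3,
    ← mellin _ h4, ← key _ _ _ _ i1 i2 i3 i4]
  congr 1
  funext t
  set s : ℂ := 1 + ((σ : ℂ) + t * I) with hs
  have sΛ := summable_line _ hΛ t
  have sχ := summable_line _ hχ t
  have slog := summable_line _ hlog t
  have sA := summable_line _ hA t
  have sA' := summable_line _ hA' t
  have sG := summable_line _ hG t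
  have sGχ := summable_line _ hGχ t
  have sδ := summable_line _ hδ t
  have sB := summable_line _ hB t
  rw [← hs] at sΛ sχ slog sA sA' sG sGχ sδ sB
  have e1 : LSeries ((fun n : ℕ ↦ (χ n : ℂ)) * (fun n : ℕ ↦ (Complex.log n : ℂ))) s = LSeries ((fun n : ℕ ↦ (χ n : ℂ)) * (fun n : ℕ ↦ (Λ n : ℂ))) s * LSeries (fun n : ℕ ↦ (χ n : ℂ)) s := by
    rw [← LSeries_convolution' sΛ sχ, DirichletCharacter.convolution_twist_vonMangoldt]
  have e2 : LSeries (high U ((fun n : ℕ ↦ (χ n : ℂ)) * (fun n : ℕ ↦ (Λ n : ℂ)))) s = LSeries ((fun n : ℕ ↦ (χ n : ℂ)) * (fun n : ℕ ↦ (Λ n : ℂ))) s - LSeries (low U ((fun n : ℕ ↦ (χ n : ℂ)) * (fun n : ℕ ↦ (Λ n : ℂ)))) s := by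
    have h : LSeries ((fun n : ℕ ↦ (χ n : ℂ)) * (fun n : ℕ ↦ (Λ n : ℂ))) s = LSeries (low U ((fun n : ℕ ↦ (χ n : ℂ)) * (fun n : ℕ ↦ (Λ n : ℂ))) + high U ((fun n : ℕ ↦ (χ n : ℂ)) * (fun n : ℕ ↦ (Λ n : ℂ)))) s := by
      rw [low_add_high]
    rw [h, LSeries_add sA sA']
    ring
  have e3 : LSeries ((fun n : ℕ ↦ (χ n : ℂ)) * beta V) s = 1 - LSeries (low V ((fun n : ℕ ↦ (χ n : ℂ)) * (fun n : ℕ ↦ (μ n : ℂ)))) s * LSeries (fun n : ℕ ↦ (χ n : ℂ)) s := by
    rw [twist_beta, LSeries_sub sδ sGχ, LSeries_delta, LSeries_convolution' sG sχ]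
    rfl
  rw [LSeries_convolution' sG slog, LSeries_convolution' sA sGχ, LSeries_convolution' sG sχ,
    LSeries_convolution' sA' sB, e1, e2, e3]
  ring

end

end Pool.Agent.LibPL63
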