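import Pool.Agent.LibPL63.B0g

/-!
Type I and type II bounds; the sum over all primitive characters of conductor `≤ e^{x/24}`.
-/

open Finset Filter Topology Complex MeasureTheory
open scoped ComplexConjugate ArithmeticFunction.vonMangoldt ArithmeticFunction.Moebius

namespace Pool.Agent.LibPL63

open DirichletCharacter
open Pool.Agent.LibMaier (gw gw_nonneg SS)

/-! ### blocks -/

theorem sum_inv_block_le (i : ℕ) : ∑ n ∈ (Ico (2 ^ i) (2 ^ (i + 1)) : Finset ℕ), (1 : ℝ) / n ≤ 1 := by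
  calc ∑ n ∈ (Ico (2 ^ i) (2 ^ (i + 1)) : Finset ℕ), (1 : ℝ) / n ≤ ∑ n ∈ (Ico (2 ^ i) (2 ^ (i + 1)) : Finset ℕ), (1 : ℝ) / 2 ^ i := by
        refine Finset.sum_le_sum fun n hn => ?_
        have h1 : 2 ^ i ≤ n := (Finset.mem_Ico.1 hn).1
        have h2 : (2 : ℝ) ^ i ≤ n := by exact_mod_cast h1
        exact one_div_le_one_div_of_le (by positivity) h2
    _ = 1 := by
        rw [Finset.sum_const, Nat.card_Ico, nsmul_eq_mul]
        have h1 : 2 ^ (i + 1) - 2 ^ i = 2 ^ i := by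
          rw [pow_succ]
          omega
        rw [h1]
        push_cast
        field_simp

theorem blockA_le (i : ℕ) : ∑ n ∈ (Ico (2 ^ i) (2 ^ (i + 1)) : Finset ℕ), (Λ n) ^ 2 / (n : ℝ) ≤ ((i : ℝ) + 2) ^ 4 := by
  have hi : (0 : ℝ) ≤ i := Nat.cast_nonneg i
  calc ∑ n ∈ (Ico (2 ^ i) (2 ^ (i + 1)) : Finset ℕ), (Λ n) ^ 2 / (n : ℝ)
      ≤ ∑ n ∈ (Ico (2 ^ i) (2 ^ (i + 1)) : Finset ℕ), ((i : ℝ) + 1) ^ 2 * (1 / (n : ℝ)) := by
        refine Finset.sum_le_sum fun n hn => ?_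
        obtain ⟨h1, h2⟩ := Finset.mem_Ico.1 hn
        have hn0 : 0 < n := lt_of_lt_of_le (Nat.pow_pos (by norm_num)) h1
        have hnR : (0 : ℝ) < n := by exact_mod_cast hn0
        have h3 : Λ n ≤ (i : ℝ) + 1 := by
          refine ArithmeticFunction.vonMangoldt_le_log.trans ?_
          have h4 : Real.log n ≤ Real.log ((2 : ℝ) ^ (i + 1)) :=
            Real.log_le_log hnR (by exact_mod_cast h2.le)
          rw [Real.log_pow] at h4
          have h5 : Real.log 2 ≤ 1 := by have := Real.log_two_lt_d9; linarith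
          push_cast at h4
          nlinarith
        rw [mul_one_div]
        apply div_le_div_of_nonneg_right _ hnR.le
        exact pow_le_pow_left₀ ArithmeticFunction.vonMangoldt_nonneg h3 2
    _ = ((i : ℝ) + 1) ^ 2 * ∑ n ∈ (Ico (2 ^ i) (2 ^ (i + 1)) : Finset ℕ), (1 : ℝ) / n := by rw [Finset.mul_sum]
    _ ≤ ((i : ℝ) + 1) ^ 2 * 1 := mul_le_mul_of_nonneg_left (sum_inv_block_le i) (by positivity)
    _ ≤ ((i : ℝ) + 2) ^ 2 * ((i : ℝ) + 2) ^ 2 := by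
        apply mul_le_mul _ _ (by norm_num) (by positivity)
        · exact pow_le_pow_left₀ (by positivity) (by linarith) 2
        · nlinarith
    _ = ((i : ℝ) + 2) ^ 4 := by ring

theorem blockB_le (i : ℕ) : ∑ n ∈ (Ico (2 ^ i) (2 ^ (i + 1)) : Finset ℕ), (n.divisors.card : ℝ) ^ 2 / (n : ℝ) ≤
    ((i : ℝ) + 2) ^ 4 := by
  have hi : (0 : ℝ) ≤ i := Nat.cast_nonneg i
  have h1 : ∑ n ∈ (Ico (2 ^ i) (2 ^ (i + 1)) : Finset ℕ), (n.divisors.card : ℝ) ^ 2 / (n : ℝ) ≤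
      ∑ n ∈ (Icc 1 (2 ^ (i + 1)) : Finset ℕ), (n.divisors.card : ℝ) ^ 2 / (n : ℝ) := by
    apply Finset.sum_le_sum_of_subset_of_nonneg
    · intro n hn
      obtain ⟨h1, h2⟩ := Finset.mem_Ico.1 hn
      have hn0 : 0 < n := lt_of_lt_of_le (Nat.pow_pos (by norm_num)) h1
      exact Finset.mem_Icc.2 ⟨hn0, h2.le⟩
    · intro n _ _
      positivity
  refine h1.trans ((Pool.Agent.LibMaier.sum_div_card_sq_le _).trans ?_)
  apply pow_le_pow_left₀ (Pool.Agent.LibMaier.Hs_nonneg _)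
  refine (Pool.Agent.LibMaier.Hs_le).trans ?_
  push_cast
  rw [Real.log_pow]
  have h5 : Real.log 2 ≤ 1 := by have := Real.log_two_lt_d9; linarith
  have h6 : (0 : ℝ) ≤ Real.log 2 := Real.log_nonneg (by norm_num)
  push_cast
  nlinarith

/-! ### type I -/

theorem GS_low_le {q : ℕ} (χ : DirichletCharacter ℂ q) {U : ℕ} {x : ℝ} (hx : 4 ≤ x)
    (hU : (U : ℝ) ≤ Real.exp (x / 5)) :
    ‖GS (low U ((fun n : ℕ ↦ (χ n : ℂ)) * (fun n : ℕ ↦ (Λ n : ℂ)))) x‖ ≤ Real.exp (-x) := by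
  have h1 : GS (low U ((fun n : ℕ ↦ (χ n : ℂ)) * (fun n : ℕ ↦ (Λ n : ℂ)))) x = ∑ n ∈ Icc 1 U, low U ((fun n : ℕ ↦ (χ n : ℂ)) * (fun n : ℕ ↦ (Λ n : ℂ))) n *
      ((gw (Real.log n - x) / n : ℝ) : ℂ) := by
    refine tsum_eq_sum fun n hn => ?_
    rcases eq_or_ne n 0 with rfl | h0
    · simp
    · rw [low, if_neg, zero_mul]
      rw [Finset.mem_Icc] at hn
      omega
  rw [h1]
  refine (norm_sum_le _ _).trans ?_
  have h2 : ∀ n ∈ Icc 1 U, ‖low U ((fun n : ℕ ↦ (χ n : ℂ)) * (fun n : ℕ ↦ (Λ n : ℂ))) n * ((gw (Real.log n - x) / n : ℝ) : ℂ)‖ ≤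
      Real.exp (-(8 * x ^ 2 / 25)) := by
    intro n hn
    obtain ⟨hn1, hn2⟩ := Finset.mem_Icc.1 hn
    have hnR : (1 : ℝ) ≤ n := by exact_mod_cast hn1
    have hn0 : (0 : ℝ) < n := by linarith
    have hlogn : Real.log n ≤ x / 5 := by
      rw [Real.log_le_iff_le_exp hn0]
      exact le_trans (by exact_mod_cast hn2) hU
    have hlog0 : 0 ≤ Real.log n := Real.log_nonneg hnR
    have h3 : ‖low U ((fun n : ℕ ↦ (χ n : ℂ)) * (fun n : ℕ ↦ (Λ n : ℂ))) n‖ ≤ n := by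
      refine (norm_low_le _ _ _).trans ?_
      rw [Pi.mul_apply, norm_mul, Complex.norm_real, Real.norm_eq_abs,
        abs_of_nonneg ArithmeticFunction.vonMangoldt_nonneg]
      calc ‖χ (n : ZMod q)‖ * Λ n ≤ 1 * Λ n :=
            mul_le_mul_of_nonneg_right (χ.norm_le_one _) ArithmeticFunction.vonMangoldt_nonneg
        _ ≤ Real.log n := by rw [one_mul]; exact ArithmeticFunction.vonMangoldt_le_log
        _ ≤ n := by linarith [Real.log_le_sub_one_of_pos hn0]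
    rw [norm_mul, Complex.norm_real, Real.norm_eq_abs,
      abs_of_nonneg (div_nonneg (gw_nonneg _) hn0.le)]
    calc ‖low U ((fun n : ℕ ↦ (χ n : ℂ)) * (fun n : ℕ ↦ (Λ n : ℂ))) n‖ * (gw (Real.log n - x) / n) ≤ n * (gw (Real.log n - x) / n) :=
          mul_le_mul_of_nonneg_right h3 (div_nonneg (gw_nonneg _) hn0.le)
      _ = gw (Real.log n - x) := by field_simp
      _ ≤ Real.exp (-(Real.log n - x) ^ 2 / 2) := by
          unfold gw
          apply div_le_self (Real.exp_pos _).le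
          apply Real.le_sqrt_of_sq_le
          have := Real.pi_gt_three
          linarith
      _ ≤ Real.exp (-(8 * x ^ 2 / 25)) := by
          apply Real.exp_le_exp.2
          nlinarith
  refine (Finset.sum_le_sum h2).trans ?_
  rw [Finset.sum_const, Nat.card_Icc, nsmul_eq_mul]
  calc ((U + 1 - 1 : ℕ) : ℝ) * Real.exp (-(8 * x ^ 2 / 25))
      ≤ Real.exp (x / 5) * Real.exp (-(8 * x ^ 2 / 25)) := by
        apply mul_le_mul_of_nonneg_right _ (Real.exp_pos _).le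
        simpa using hU
    _ = Real.exp (x / 5 + -(8 * x ^ 2 / 25)) := by rw [Real.exp_add]
    _ ≤ Real.exp (-x) := Real.exp_le_exp.2 (by nlinarith)

theorem summable_GS {c : ℕ → ℂ} {σ : ℝ} (hc : LSeriesSummable c ((1 : ℂ) + σ)) (x : ℝ) :
    Summable fun n : ℕ => c n * ((gw (Real.log n - x) / n : ℝ) : ℂ) := by
  refine Summable.of_norm_bounded (hc.norm.mul_left (Real.exp (σ ^ 2 / 2 + σ * x))) fun n => ?_
  rw [norm_term_one_add]
  rcases eq_or_ne n 0 with rfl | h0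
  · simp
  · have hn0 : (0 : ℝ) < n := by exact_mod_cast Nat.pos_of_ne_zero h0
    rw [if_neg h0, norm_mul, Complex.norm_real, Real.norm_eq_abs,
      abs_of_nonneg (div_nonneg (gw_nonneg _) hn0.le), Complex.ofReal_re]
    have h1 : gw (Real.log n - x) / n ≤ Real.exp (σ ^ 2 / 2 + σ * x) * (n : ℝ) ^ (-(1 + σ)) := by
      have h2 : (n : ℝ) ^ (-(1 + σ)) = Real.exp (-(σ * Real.log n)) / n := by
        rw [show -(1 + σ) = -σ + -1 by ring, Real.rpow_add hn0, Real.rpow_neg_one,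
          Real.rpow_def_of_pos hn0, div_eq_mul_inv]
        congr 2
        ring
      rw [h2, ← mul_div_assoc, ← Real.exp_add]
      apply div_le_div_of_nonneg_right _ hn0.le
      unfold gw
      refine (div_le_self (Real.exp_pos _).le ?_).trans (Real.exp_le_exp.2 ?_)
      · apply Real.le_sqrt_of_sq_le
        have := Real.pi_gt_three
        linarith
      · nlinarith [sq_nonneg (Real.log n - x - σ)]
    calc ‖c n‖ * (gw (Real.log n - x) / n) ≤ ‖c n‖ * (Real.exp (σ ^ 2 / 2 + σ * x) * (n : ℝ) ^ (-(1 + σ))) :=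
          mul_le_mul_of_nonneg_left h1 (norm_nonneg _)
      _ = _ := by ring

/-- the sum with a logarithm -/
theorem norm_GS_charLog_le {q : ℕ} [NeZero q] {χ : DirichletCharacter ℂ q} (hχ : χ ≠ 1) {y : ℝ}
    (hy : 0 ≤ y) : ‖GS ((fun n : ℕ ↦ (χ n : ℂ)) * (fun n : ℕ ↦ (Complex.log n : ℂ))) y‖ ≤ 3 * q * ((y + 1) * Real.exp (-y)) := by
  have h1 : ∀ n : ℕ, ((fun n : ℕ ↦ (χ n : ℂ)) * (fun n : ℕ ↦ (Complex.log n : ℂ))) n * ((gw (Real.log n - y) / n : ℝ) : ℂ) =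
      χ (n : ZMod q) * ((Real.log n * (gw (Real.log n - y) / n) : ℝ) : ℂ) := by
    intro n
    rw [Pi.mul_apply, ← Complex.natCast_log]
    push_cast
    ring
  have h2 : GS ((fun n : ℕ ↦ (χ n : ℂ)) * (fun n : ℕ ↦ (Complex.log n : ℂ))) y =
      ∑' n : ℕ, χ (n : ZMod q) * ((Real.log n * (gw (Real.log n - y) / n) : ℝ) : ℂ) := tsum_congr h1
  rw [h2]
  refine norm_GS_char_log_le hχ hy ?_
  exact (summable_GS (summable_charLog χ one_pos) y).congr h1

/-- the sum without logarithm -/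
theorem norm_GS_char_le' {q : ℕ} [NeZero q] {χ : DirichletCharacter ℂ q} (hχ : χ ≠ 1) (y : ℝ) :
    ‖GS (fun n : ℕ ↦ (χ n : ℂ)) y‖ ≤ 3 * q * Real.exp (-y) :=
  norm_GS_char_le hχ (summable_GS (summable_char χ one_pos) y)

/-- the type I parts -/
theorem norm_SS_sub_typeII_le {q : ℕ} [NeZero q] {χ : DirichletCharacter ℂ q} (hχ : χ ≠ 1) {U : ℕ}
    (hU1 : 1 ≤ U) {x : ℝ} (hx : 4 ≤ x) (hU : (U : ℝ) ≤ Real.exp (x / 5)) :
    ‖SS χ x‖ ≤ 7 * q * (x + 1) * Real.exp (-x) * (U : ℝ) ^ 2 +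
      ‖GS (LSeries.convolution (high U ((fun n : ℕ ↦ (χ n : ℂ)) * (fun n : ℕ ↦ (Λ n : ℂ)))) ((fun n : ℕ ↦ (χ n : ℂ)) * beta U)) x‖ := by
  have hq : (1 : ℝ) ≤ q := by exact_mod_cast Nat.one_le_iff_ne_zero.2 (NeZero.ne q)
  have hUR : (1 : ℝ) ≤ U := by exact_mod_cast hU1
  have hx0 : 0 < x := by linarith
  have hlogn : ∀ n ∈ Icc 1 U, 0 ≤ Real.log n ∧ Real.log n ≤ x / 5 := by
    intro n hn
    obtain ⟨hn1, hn2⟩ := Finset.mem_Icc.1 hn
    have hnR : (1 : ℝ) ≤ n := by exact_mod_cast hn1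
    refine ⟨Real.log_nonneg hnR, ?_⟩
    rw [Real.log_le_iff_le_exp (by linarith)]
    exact le_trans (by exact_mod_cast hn2) hU
  have hexp : ∀ n ∈ Icc 1 U, ∀ y : ℝ, 1 / (n : ℝ) * Real.exp (-(y - Real.log n)) = Real.exp (-y) := by
    intro n hn y
    obtain ⟨hn1, hn2⟩ := Finset.mem_Icc.1 hn
    have hnR : (0 : ℝ) < n := by exact_mod_cast hn1
    rw [show -(y - Real.log n) = -y + Real.log n by ring, Real.exp_add, Real.exp_log hnR]
    field_simp
  have hμ : ∀ n, ‖low U ((fun n : ℕ ↦ (χ n : ℂ)) * (fun n : ℕ ↦ (μ n : ℂ))) n‖ ≤ 1 := by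
    intro n
    refine (norm_low_le _ _ _).trans ?_
    rw [Pi.mul_apply, norm_mul]
    refine mul_le_one₀ (χ.norm_le_one _) (norm_nonneg _) ?_
    rw [Complex.norm_intCast]
    exact_mod_cast ArithmeticFunction.abs_moebius_le_one
  have hlow : ∀ f : ℕ → ℂ, ∀ n, U < n → low U f n = 0 := by
    intro f n hn
    rw [low, if_neg (by omega)]
  -- the four parts
  have b1 := GS_low_le χ hx hU
  have b2 : ‖GS (LSeries.convolution (low U ((fun n : ℕ ↦ (χ n : ℂ)) * (fun n : ℕ ↦ (μ n : ℂ)))) ((fun n : ℕ ↦ (χ n : ℂ)) * (fun n : ℕ ↦ (Complex.log n : ℂ)))) x‖ ≤ U * (3 * q * ((x + 1) * Real.exp (-x))) := by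
    rw [GS_conv_fin _ _ U (hlow _) (summable_charLog χ one_pos)]
    refine (norm_sum_le _ _).trans ?_
    have h1 : ∀ n ∈ Icc 1 U, ‖low U ((fun n : ℕ ↦ (χ n : ℂ)) * (fun n : ℕ ↦ (μ n : ℂ))) n / n * GS ((fun n : ℕ ↦ (χ n : ℂ)) * (fun n : ℕ ↦ (Complex.log n : ℂ))) (x - Real.log n)‖ ≤
        3 * q * ((x + 1) * Real.exp (-x)) := by
      intro n hn
      obtain ⟨h2, h3⟩ := hlogn n hn
      have hn1 : (0 : ℝ) < n := by exact_mod_cast (Finset.mem_Icc.1 hn).1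
      rw [norm_mul, norm_div, Complex.norm_natCast]
      calc ‖low U ((fun n : ℕ ↦ (χ n : ℂ)) * (fun n : ℕ ↦ (μ n : ℂ))) n‖ / n * ‖GS ((fun n : ℕ ↦ (χ n : ℂ)) * (fun n : ℕ ↦ (Complex.log n : ℂ))) (x - Real.log n)‖
          ≤ 1 / n * (3 * q * ((x - Real.log n + 1) * Real.exp (-(x - Real.log n)))) := by
            apply mul_le_mul (div_le_div_of_nonneg_right (hμ n) hn1.le)
              (norm_GS_charLog_le hχ (by linarith)) (norm_nonneg _) (by positivity)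
        _ = 3 * q * ((x - Real.log n + 1) * (1 / (n : ℝ) * Real.exp (-(x - Real.log n)))) := by ring
        _ = 3 * q * ((x - Real.log n + 1) * Real.exp (-x)) := by rw [hexp n hn x]
        _ ≤ 3 * q * ((x + 1) * Real.exp (-x)) := by
            apply mul_le_mul_of_nonneg_left _ (by positivity)
            exact mul_le_mul_of_nonneg_right (by linarith) (Real.exp_pos _).le
    refine (Finset.sum_le_sum h1).trans ?_
    rw [Finset.sum_const, Nat.card_Icc, nsmul_eq_mul]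
    simp
  have b3' : ∀ y : ℝ, ‖GS (LSeries.convolution (low U ((fun n : ℕ ↦ (χ n : ℂ)) * (fun n : ℕ ↦ (μ n : ℂ)))) (fun n : ℕ ↦ (χ n : ℂ))) y‖ ≤ U * (3 * q * Real.exp (-y)) := by
    intro y
    rw [GS_conv_fin _ _ U (hlow _) (summable_char χ one_pos)]
    refine (norm_sum_le _ _).trans ?_
    have h1 : ∀ n ∈ Icc 1 U, ‖low U ((fun n : ℕ ↦ (χ n : ℂ)) * (fun n : ℕ ↦ (μ n : ℂ))) n / n * GS (fun n : ℕ ↦ (χ n : ℂ)) (y - Real.log n)‖ ≤
        3 * q * Real.exp (-y) := by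
      intro n hn
      have hn1 : (0 : ℝ) < n := by exact_mod_cast (Finset.mem_Icc.1 hn).1
      rw [norm_mul, norm_div, Complex.norm_natCast]
      calc ‖low U ((fun n : ℕ ↦ (χ n : ℂ)) * (fun n : ℕ ↦ (μ n : ℂ))) n‖ / n * ‖GS (fun n : ℕ ↦ (χ n : ℂ)) (y - Real.log n)‖
          ≤ 1 / n * (3 * q * Real.exp (-(y - Real.log n))) := by
            apply mul_le_mul (div_le_div_of_nonneg_right (hμ n) hn1.le)
              (norm_GS_char_le' hχ _) (norm_nonneg _) (by positivity)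
        _ = 3 * q * (1 / (n : ℝ) * Real.exp (-(y - Real.log n))) := by ring
        _ = 3 * q * Real.exp (-y) := by rw [hexp n hn y]
    refine (Finset.sum_le_sum h1).trans ?_
    rw [Finset.sum_const, Nat.card_Icc, nsmul_eq_mul]
    simp
  have b3 : ‖GS (LSeries.convolution (low U ((fun n : ℕ ↦ (χ n : ℂ)) * (fun n : ℕ ↦ (Λ n : ℂ)))) (LSeries.convolution (low U ((fun n : ℕ ↦ (χ n : ℂ)) * (fun n : ℕ ↦ (μ n : ℂ)))) (fun n : ℕ ↦ (χ n : ℂ)))) x‖ ≤
      U * (x / 5 * (U * (3 * q * Real.exp (-x)))) := by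
    have hG : LSeriesSummable (low U ((fun n : ℕ ↦ (χ n : ℂ)) * (fun n : ℕ ↦ (μ n : ℂ)))) ((1 : ℂ) + (1 : ℝ)) :=
      summable_of_norm_le (norm_low_le U _) (summable_charMu χ one_pos)
    rw [GS_conv_fin _ _ U (hlow _) (hG.convolution (summable_char χ one_pos))]
    refine (norm_sum_le _ _).trans ?_
    have h1 : ∀ n ∈ Icc 1 U, ‖low U ((fun n : ℕ ↦ (χ n : ℂ)) * (fun n : ℕ ↦ (Λ n : ℂ))) n / n *
        GS (LSeries.convolution (low U ((fun n : ℕ ↦ (χ n : ℂ)) * (fun n : ℕ ↦ (μ n : ℂ)))) (fun n : ℕ ↦ (χ n : ℂ))) (x - Real.log n)‖ ≤ x / 5 * (U * (3 * q * Real.exp (-x))) := by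
      intro n hn
      obtain ⟨h2, h3⟩ := hlogn n hn
      have hn1 : (0 : ℝ) < n := by exact_mod_cast (Finset.mem_Icc.1 hn).1
      have hΛ : ‖low U ((fun n : ℕ ↦ (χ n : ℂ)) * (fun n : ℕ ↦ (Λ n : ℂ))) n‖ ≤ x / 5 := by
        refine (norm_low_le _ _ _).trans ?_
        rw [Pi.mul_apply, norm_mul, Complex.norm_real, Real.norm_eq_abs,
          abs_of_nonneg ArithmeticFunction.vonMangoldt_nonneg]
        calc ‖χ (n : ZMod q)‖ * Λ n ≤ 1 * Λ n :=
              mul_le_mul_of_nonneg_right (χ.norm_le_one _) ArithmeticFunction.vonMangoldt_nonneg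
          _ ≤ Real.log n := by rw [one_mul]; exact ArithmeticFunction.vonMangoldt_le_log
          _ ≤ x / 5 := h3
      rw [norm_mul, norm_div, Complex.norm_natCast]
      calc ‖low U ((fun n : ℕ ↦ (χ n : ℂ)) * (fun n : ℕ ↦ (Λ n : ℂ))) n‖ / n * ‖GS (LSeries.convolution (low U ((fun n : ℕ ↦ (χ n : ℂ)) * (fun n : ℕ ↦ (μ n : ℂ)))) (fun n : ℕ ↦ (χ n : ℂ))) (x - Real.log n)‖
          ≤ (x / 5) / n * (U * (3 * q * Real.exp (-(x - Real.log n)))) := by
            apply mul_le_mul (div_le_div_of_nonneg_right hΛ hn1.le) (b3' _) (norm_nonneg _) (by positivity)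
        _ = x / 5 * (U * (3 * q * (1 / (n : ℝ) * Real.exp (-(x - Real.log n))))) := by ring
        _ = x / 5 * (U * (3 * q * Real.exp (-x))) := by rw [hexp n hn x]
    refine (Finset.sum_le_sum h1).trans ?_
    rw [Finset.sum_const, Nat.card_Icc, nsmul_eq_mul]
    simp
  rw [vaughan χ U U one_pos x]
  have hE : 0 < Real.exp (-x) := Real.exp_pos _
  have hU2 : (U : ℝ) ≤ (U : ℝ) ^ 2 := by nlinarith
  have hU3 : (1 : ℝ) ≤ (U : ℝ) ^ 2 := by nlinarith
  have c1 : Real.exp (-x) ≤ q * (x + 1) * Real.exp (-x) * (U : ℝ) ^ 2 := by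
    have h1 : 1 ≤ q * (x + 1) * (U : ℝ) ^ 2 := by
      have : 1 ≤ q * (x + 1) := by nlinarith
      nlinarith
    nlinarith
  have c2 : U * (3 * q * ((x + 1) * Real.exp (-x))) ≤ 3 * (q * (x + 1) * Real.exp (-x) * (U : ℝ) ^ 2) := by
    have h1 : 0 ≤ q * (x + 1) * Real.exp (-x) := by positivity
    nlinarith [mul_le_mul_of_nonneg_left hU2 h1]
  have c3 : U * (x / 5 * (U * (3 * q * Real.exp (-x)))) ≤ q * (x + 1) * Real.exp (-x) * (U : ℝ) ^ 2 := by
    have h1 : 0 ≤ q * Real.exp (-x) * (U : ℝ) ^ 2 := by positivity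
    nlinarith [mul_nonneg h1 hx0.le]
  refine (norm_add_le _ _).trans ?_
  refine add_le_add ?_ le_rfl
  refine (norm_sub_le _ _).trans ?_
  refine (add_le_add (norm_add_le _ _) le_rfl).trans ?_
  have h0 : 0 ≤ q * (x + 1) * Real.exp (-x) * (U : ℝ) ^ 2 := by positivity
  calc _ ≤ Real.exp (-x) + U * (3 * q * ((x + 1) * Real.exp (-x))) +
        U * (x / 5 * (U * (3 * q * Real.exp (-x)))) := add_le_add (add_le_add b1 b2) b3
    _ ≤ _ := by linarith

end Pool.Agent.LibPL63
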