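import Pool.Agent.LibMaier.SmallSum
import Pool.Agent.LibPL63.B0a

/-!
Small conductors: the smooth sums are small if there is no zero close to `1`; there is at most one
exceptional primitive character of small conductor.
-/

namespace Pool.Agent.LibPL63

open Filter Topology Complex DirichletCharacter Finset
open scoped ComplexConjugate ArithmeticFunction.vonMangoldt
open Pool.Agent.LibMaier

theorem rpow_bound {a b ε : ℝ} (hab : a < b) (hε : 0 < ε) : ∀ᶠ x : ℝ in atTop, x ^ a ≤ ε * x ^ b := by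
  have h := (tendsto_rpow_atTop (y := b - a) (by linarith)).eventually_ge_atTop (1 / ε)
  filter_upwards [h, eventually_gt_atTop (0 : ℝ)] with x hx hx0
  have hxa : 0 < x ^ a := Real.rpow_pos_of_pos hx0 a
  have h1 : x ^ b = x ^ (b - a) * x ^ a := by
    rw [← Real.rpow_add hx0]
    congr 1
    ring
  rw [div_le_iff₀ hε] at hx
  rw [h1]
  nlinarith

/-- growth facts -/
theorem eventually_growth {c a b : ℝ} (hc : 0 < c) (ha : 0 < a) (hb : 0 < b) (hab : a + b < 1) :
    ∀ᶠ x : ℝ in atTop, 3 ≤ x ∧ c / x ^ a ≤ 1 / 4 ∧ Real.exp (x ^ (1 / 3 : ℝ)) * (x + 3) ≤ Real.exp x ∧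
      20 * (x + 3) * (x ^ a) ^ 2 / c ^ 2 ≤ x ^ 4 ∧ c / 4 * x ^ (1 - a) ≤ (x - 2) ^ 2 / 4 ∧
      x + 8 * Real.log (108 * x ^ 2) ≤ x ^ 2 ∧
      13 * x ^ 5 ≤ Real.exp (c / 4 * x ^ (1 - a) - x ^ b) := by
  have hlog : (fun x : ℝ => Real.log x) =o[atTop] (fun x : ℝ => x ^ (1 - a)) :=
    isLittleO_log_rpow_atTop (by linarith)
  have h1 := hlog.bound (c := c / 80) (by positivity)
  have h2 := rpow_bound (a := b) (b := 1 - a) (ε := c / 16) (by linarith) (by positivity)
  have h3 : Tendsto (fun x : ℝ => x ^ (1 - a)) atTop atTop := tendsto_rpow_atTop (by linarith)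
  have h4 : Tendsto (fun x : ℝ => x ^ a) atTop atTop := tendsto_rpow_atTop ha
  have h5 := h3.eventually_ge_atTop (16 * Real.log 13 / c)
  have h6 := h4.eventually_ge_atTop (4 * c)
  have hlog1 : (fun x : ℝ => Real.log x) =o[atTop] (fun x : ℝ => x) := Real.isLittleO_log_id_atTop
  have h7 := hlog1.bound (c := 1 / 32) (by norm_num)
  have h8 := rpow_bound (a := 1 / 3) (b := 1) (ε := 1 / 4) (by norm_num) (by norm_num)
  have h9 := rpow_bound (a := 1 - a) (b := 1) (ε := 1 / c) (by linarith) (by positivity)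
  filter_upwards [h1, h2, h5, h6, h7, h8, h9, eventually_ge_atTop (100 : ℝ),
    eventually_ge_atTop (100 / c ^ 2), eventually_ge_atTop (Real.log 108)] with x h1 h2 h5 h6 h7 h8 h9 hx100 hxc hx108
  have hx0 : 0 < x := by linarith
  have hxa : 0 < x ^ a := Real.rpow_pos_of_pos hx0 a
  have hx1a : 0 < x ^ (1 - a) := Real.rpow_pos_of_pos hx0 _
  have hxb : 0 < x ^ b := Real.rpow_pos_of_pos hx0 b
  have hx3 : 0 < x ^ (1 / 3 : ℝ) := Real.rpow_pos_of_pos hx0 _
  have hlog0 : 0 ≤ Real.log x := Real.log_nonneg (by linarith)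
  rw [Real.norm_of_nonneg hlog0, Real.norm_of_nonneg hx1a.le] at h1
  rw [Real.norm_of_nonneg hlog0, Real.norm_of_nonneg hx0.le] at h7
  rw [Real.rpow_one] at h8 h9
  refine ⟨by linarith, ?_, ?_, ?_, ?_, ?_, ?_⟩
  · rw [div_le_iff₀ hxa]
    linarith
  · have e1 : x + 3 ≤ Real.exp (x / 2) := by
      have := Real.quadratic_le_exp_of_nonneg (x := x / 2) (by linarith)
      nlinarith
    calc Real.exp (x ^ (1 / 3 : ℝ)) * (x + 3) ≤ Real.exp (x / 4) * Real.exp (x / 2) := by
          apply mul_le_mul _ e1 (by linarith) (Real.exp_pos _).le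
          apply Real.exp_le_exp.2
          linarith
      _ = Real.exp (3 * x / 4) := by rw [← Real.exp_add]; ring_nf
      _ ≤ Real.exp x := Real.exp_le_exp.2 (by linarith)
  · have e1 : x ^ a ≤ x := by
      calc x ^ a ≤ x ^ (1 : ℝ) := Real.rpow_le_rpow_of_exponent_le (by linarith) (by linarith)
        _ = x := Real.rpow_one x
    have e2 : 100 ≤ c ^ 2 * x := by
      rw [div_le_iff₀ (by positivity)] at hxc
      linarith
    rw [div_le_iff₀ (by positivity)]
    calc 20 * (x + 3) * (x ^ a) ^ 2 ≤ 20 * (x + 3) * x ^ 2 := by gcongr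
      _ ≤ 100 * x ^ 3 := by nlinarith [pow_pos hx0 2, pow_pos hx0 3]
      _ ≤ (c ^ 2 * x) * x ^ 3 := by
          apply mul_le_mul_of_nonneg_right e2 (by positivity)
      _ = x ^ 4 * c ^ 2 := by ring
  · have e1 : c / 4 * x ^ (1 - a) ≤ x / 4 := by
      have : c * x ^ (1 - a) ≤ x := by
        rw [one_div, ← div_eq_inv_mul, le_div_iff₀ hc] at h9
        linarith
      linarith
    refine e1.trans ?_
    nlinarith
  · rw [Real.log_mul (by norm_num) (by positivity), Real.log_pow]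
    push_cast
    nlinarith
  · have e1 : Real.log (13 * x ^ 5) ≤ c / 4 * x ^ (1 - a) - x ^ b := by
      rw [Real.log_mul (by norm_num) (by positivity), Real.log_pow]
      push_cast
      rw [div_le_iff₀ hc] at h5
      nlinarith
    calc 13 * x ^ 5 = Real.exp (Real.log (13 * x ^ 5)) := by rw [Real.exp_log (by positivity)]
      _ ≤ _ := Real.exp_le_exp.2 e1

/-- **small sums from a zero-free region** -/
theorem small_char {c a b : ℝ} (hc : 0 < c) (ha : 0 < a) (hb : 0 < b) (hab : a + b < 1) :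
    ∀ᶠ x : ℝ in atTop, ∀ (q : ℕ) [NeZero q], (q : ℝ) ≤ Real.exp (x ^ (1 / 3 : ℝ)) →
      ∀ χ : DirichletCharacter ℂ q, χ ≠ 1 →
      (∀ ρ : ℂ, LFunction χ ρ = 0 → |ρ.im| ≤ x → ρ.re ≤ 1 - c / x ^ a) →
      ‖SS χ x‖ ≤ Real.exp (-(x ^ b)) := by
  filter_upwards [eventually_growth hc ha hb hab] with x hx
  obtain ⟨hx3, g1, g2, g3, g4, g5, g6⟩ := hx
  intro q _ hq χ hχ hz
  have hx0 : 0 < x := by linarith
  have hxa : 0 < x ^ a := Real.rpow_pos_of_pos hx0 a
  have hα0 : 0 < c / x ^ a := by positivity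
  have hq1 : (1 : ℝ) ≤ q := by exact_mod_cast Nat.one_le_iff_ne_zero.2 (NeZero.ne q)
  have hmain := norm_SS_le hχ hα0 g1 hz (by linarith) (x := x) (by linarith)
  have hLL : LL q x ≤ x := by
    unfold LL
    rw [Real.log_le_iff_le_exp (by positivity)]
    calc (q : ℝ) * (x + 3) ≤ Real.exp (x ^ (1 / 3 : ℝ)) * (x + 3) := by gcongr
      _ ≤ Real.exp x := g2
  set E := Real.exp (-(c / 4 * x ^ (1 - a))) with hE
  have hE0 : 0 < E := Real.exp_pos _
  have e1 : Real.exp (-(c / x ^ a * x / 4)) = E := by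
    rw [hE]
    congr 1
    rw [Real.rpow_sub hx0, Real.rpow_one]
    ring
  have e2 : Real.exp (-(x - 2) ^ 2 / 4) ≤ E := by
    rw [hE]
    apply Real.exp_le_exp.2
    linarith
  have e3 : Real.exp (-(x - 2) ^ 2 / 2) ≤ E := by
    refine le_trans (Real.exp_le_exp.2 ?_) e2
    nlinarith [sq_nonneg (x - 2)]
  have e4 : 20 * (LL q x + 3) / (c / x ^ a) ^ 2 ≤ x ^ 4 := by
    refine le_trans (le_of_eq_of_le ?_ (div_le_div_of_nonneg_right
      (mul_le_mul_of_nonneg_right (mul_le_mul_of_nonneg_left (add_le_add_left hLL 3) (by norm_num : (0:ℝ) ≤ 20))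
        (sq_nonneg (x ^ a))) (sq_nonneg c))) g3
    field_simp
  have e5 : LS (1 / x) ≤ x ^ 2 := by
    have h := LS_le (σ := 1 / x) (by positivity) (by rw [div_le_one hx0]; linarith)
    refine h.trans (le_trans (le_of_eq ?_) g5)
    have : (108 : ℝ) / (1 / x) ^ 2 = 108 * x ^ 2 := by field_simp
    rw [this]
    field_simp
  have hLL0 : 0 ≤ LL q x := by
    unfold LL
    apply Real.log_nonneg
    nlinarith
  have hLS := LS_nonneg (1 / x)
  have e40 : 0 ≤ 20 * (LL q x + 3) / (c / x ^ a) ^ 2 := by positivity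
  rw [e1] at hmain
  calc ‖SS χ x‖ ≤ _ := hmain
    _ ≤ (x * E + 6 * E) * x ^ 4 + 6 * x ^ 2 * E := by
        apply add_le_add
        · apply mul_le_mul _ e4 e40 (by positivity)
          linarith
        · apply mul_le_mul _ e2 (Real.exp_pos _).le (by positivity)
          linarith
    _ ≤ 13 * x ^ 5 * E := by
        have p1 : x ^ 4 ≤ x ^ 5 := by
          calc x ^ 4 = x ^ 4 * 1 := by ring
            _ ≤ x ^ 4 * x := by gcongr; linarith
            _ = x ^ 5 := by ring
        have p2 : x ^ 2 ≤ x ^ 5 := by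
          calc x ^ 2 = x ^ 2 * 1 := by ring
            _ ≤ x ^ 2 * x ^ 3 := by gcongr; exact one_le_pow₀ (by linarith)
            _ = x ^ 5 := by ring
        nlinarith [mul_le_mul_of_nonneg_right p1 hE0.le, mul_le_mul_of_nonneg_right p2 hE0.le]
    _ ≤ Real.exp (c / 4 * x ^ (1 - a) - x ^ b) * E := by gcongr
    _ = Real.exp (-(x ^ b)) := by
        rw [hE, ← Real.exp_add]
        congr 1
        ring

end Pool.Agent.LibPL63
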