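import Pool.Agent.LibPL63.B1
import Pool.Agent.LibMaier.ZeroFree

/-!
At most one exceptional primitive character of small conductor.
-/

namespace Pool.Agent.LibPL63

open Filter Topology Complex DirichletCharacter Finset
open scoped ComplexConjugate ArithmeticFunction.vonMangoldt
open Pool.Agent.LibMaier

theorem primitive_ne_one {d : ℕ} (hd : 2 ≤ d) {χ : DirichletCharacter ℂ d} (hχ : χ.IsPrimitive) :
    χ ≠ 1 := by
  have : NeZero d := ⟨by omega⟩
  intro h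
  have h1 := (isPrimitive_def χ).1 hχ
  rw [eq_one_iff_conductor_eq_one.1 h] at h1
  omega

/-- growth facts, second part -/
theorem eventually_growth2 (L₀ : ℝ) : ∀ᶠ x : ℝ in atTop, 1 ≤ x ∧ L₀ ≤ Real.log (2 * x + 3) ∧
    Real.log (2 * x + 3) ≤ 2 * x ^ (1 / 3 : ℝ) := by
  have h1 : Tendsto (fun x : ℝ => Real.log (2 * x + 3)) atTop atTop := by
    apply Real.tendsto_log_atTop.comp
    exact Filter.tendsto_atTop_add_const_right _ _ (Filter.Tendsto.const_mul_atTop (by norm_num) tendsto_id)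
  have hlog : (fun x : ℝ => Real.log x) =o[atTop] (fun x : ℝ => x ^ (1 / 3 : ℝ)) :=
    isLittleO_log_rpow_atTop (by norm_num)
  have h2 := hlog.bound (c := 1) (by norm_num)
  have h3 := (tendsto_rpow_atTop (y := (1 / 3 : ℝ)) (by norm_num)).eventually_ge_atTop (Real.log 5)
  filter_upwards [h1.eventually_ge_atTop L₀, h2, h3, eventually_ge_atTop (1 : ℝ)] with x hx1 hx2 hx3 hx4
  refine ⟨hx4, hx1, ?_⟩
  have hx0 : 0 < x := by linarith
  rw [Real.norm_of_nonneg (Real.log_nonneg hx4), Real.norm_of_nonneg (by positivity), one_mul] at hx2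
  calc Real.log (2 * x + 3) ≤ Real.log (5 * x) := by
        apply Real.log_le_log (by positivity)
        linarith
    _ = Real.log 5 + Real.log x := Real.log_mul (by norm_num) hx0.ne'
    _ ≤ 2 * x ^ (1 / 3 : ℝ) := by linarith

/-- `r` has a zero close to `1` -/
def Bad (x : ℝ) (r : PC) : Prop :=
  2 ≤ r.1 ∧ r.2.IsPrimitive ∧ (r.1 : ℝ) ≤ Real.exp (x ^ (1 / 3 : ℝ)) ∧
    ∃ (_ : NeZero r.1) (ρ : ℂ), LFunction r.2 ρ = 0 ∧ |ρ.im| ≤ x ∧ 1 - kk / 4 / x ^ (1 / 3 : ℝ) < ρ.re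

theorem bad_unique : ∀ᶠ x : ℝ in atTop, ∀ r s : PC, Bad x r → Bad x s → r = s := by
  obtain ⟨L₁, hL1, hzf⟩ := zero_free
  obtain ⟨L₂, hL2, heu⟩ := exceptional_unique
  filter_upwards [eventually_growth2 (max L₁ L₂)] with x hx
  obtain ⟨hx1, hx2, hx3⟩ := hx
  have hx0 : 0 < x := by linarith
  have hx30 : 0 < x ^ (1 / 3 : ℝ) := Real.rpow_pos_of_pos hx0 _
  have hkk : 0 < kk := by unfold kk; norm_num
  have hlog0 : 0 < Real.log (2 * x + 3) := Real.log_pos (by linarith)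
  -- the level
  have hLL : ∀ q : ℕ, 1 ≤ q → LL q (2 * x) = Real.log q + Real.log (2 * x + 3) := by
    intro q hq
    unfold LL
    have : (q : ℝ) ≠ 0 := by exact_mod_cast (by omega : q ≠ 0)
    rw [Real.log_mul this (by positivity)]
  have hlow : ∀ q : ℕ, 1 ≤ q → max L₁ L₂ ≤ LL q (2 * x) := by
    intro q hq
    rw [hLL q hq]
    have : 0 ≤ Real.log (q : ℝ) := Real.log_natCast_nonneg q
    linarith
  have hup : ∀ q : ℕ, 1 ≤ q → Real.log q ≤ 2 * x ^ (1 / 3 : ℝ) →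
      kk / 4 / x ^ (1 / 3 : ℝ) ≤ kk / LL q (2 * x) := by
    intro q hq hlq
    rw [hLL q hq, div_div]
    apply div_le_div_of_nonneg_left hkk.le
    · have : 0 ≤ Real.log (q : ℝ) := Real.log_natCast_nonneg q
      linarith
    · linarith
  -- a bad character is real with a real zero
  have hreal : ∀ r : PC, Bad x r → ∃ (_ : NeZero r.1), r.2 ^ 2 = 1 ∧
      ∃ β : ℝ, LFunction r.2 β = 0 ∧ 1 - kk / 4 / x ^ (1 / 3 : ℝ) < β := by
    intro r hr
    obtain ⟨h2, hp, hle, hne, ρ, hρ, him, hre⟩ := hr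
    have hr1 : (0 : ℝ) < r.1 := by exact_mod_cast (by omega : 0 < r.1)
    have hlq : Real.log (r.1 : ℝ) ≤ x ^ (1 / 3 : ℝ) := (Real.log_le_iff_le_exp hr1).2 hle
    have hzero : ¬ (ρ.im ≠ 0 ∨ r.2 ^ 2 ≠ 1) := by
      intro hcase
      have h3 := hzf r.1 (2 * x) (by linarith) ((le_max_left _ _).trans (hlow r.1 (by omega))) r.2
        (primitive_ne_one h2 hp) ρ hρ (by linarith) hcase
      have h4 := hup r.1 (by omega) (by linarith)
      linarith
    push Not at hzero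
    refine ⟨hne, hzero.2, ρ.re, ?_, hre⟩
    have : ((ρ.re : ℝ) : ℂ) = ρ := by
      apply Complex.ext
      · simp
      · simp [hzero.1]
    rw [this]
    exact hρ
  intro r s hr hs
  obtain ⟨hnr, hr2, β₁, hβ₁, hb₁⟩ := hreal r hr
  obtain ⟨hns, hs2, β₂, hβ₂, hb₂⟩ := hreal s hs
  have hr1 : (0 : ℝ) < r.1 := by exact_mod_cast (by have := hr.1; omega : 0 < r.1)
  have hs1 : (0 : ℝ) < s.1 := by exact_mod_cast (by have := hs.1; omega : 0 < s.1)
  have hlr : Real.log (r.1 : ℝ) ≤ x ^ (1 / 3 : ℝ) := (Real.log_le_iff_le_exp hr1).2 hr.2.2.1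
  have hls : Real.log (s.1 : ℝ) ≤ x ^ (1 / 3 : ℝ) := (Real.log_le_iff_le_exp hs1).2 hs.2.2.1
  have hne_r := primitive_ne_one hr.1 hr.2.1
  have hne_s := primitive_ne_one hs.1 hs.2.1
  have : NeZero (r.1 * s.1) := ⟨Nat.mul_ne_zero (NeZero.ne _) (NeZero.ne _)⟩
  have hm1 : 1 ≤ r.1 * s.1 := Nat.one_le_iff_ne_zero.2 (NeZero.ne _)
  have hlm : Real.log ((r.1 * s.1 : ℕ) : ℝ) ≤ 2 * x ^ (1 / 3 : ℝ) := by
    push_cast
    rw [Real.log_mul hr1.ne' hs1.ne']
    linarith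
  have h4 := hup (r.1 * s.1) hm1 hlm
  have hz1 : LFunction (changeLevel (Nat.dvd_mul_right r.1 s.1) r.2) (β₁ : ℂ) = 0 := by
    rw [LFunction_changeLevel _ _ (Or.inl hne_r), hβ₁, zero_mul]
  have hz2 : LFunction (changeLevel (Nat.dvd_mul_left s.1 r.1) s.2) (β₂ : ℂ) = 0 := by
    rw [LFunction_changeLevel _ _ (Or.inl hne_s), hβ₂, zero_mul]
  have hcr : changeLevel (Nat.dvd_mul_right r.1 s.1) r.2 ≠ 1 := fun h =>
    hne_r ((changeLevel_eq_one_iff _).1 h)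
  have hcs : changeLevel (Nat.dvd_mul_left s.1 r.1) s.2 ≠ 1 := fun h =>
    hne_s ((changeLevel_eq_one_iff _).1 h)
  have h5 := heu (r.1 * s.1) (2 * x) (by linarith) ((le_max_right _ _).trans (hlow _ hm1)) _ _ hcr hcs
    (by rw [← map_pow, hr2, map_one]) (by rw [← map_pow, hs2, map_one]) β₁ β₂ hz1 hz2
    (by linarith) (by linarith)
  have h6 : changeLevel (Nat.dvd_mul_right r.1 s.1) r.2 *
      changeLevel (Nat.dvd_mul_left s.1 r.1) s.2⁻¹ = 1 := by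
    rw [map_inv, mul_inv_eq_one]
    exact h5.1
  exact primitive_ne hr.2.1 hs.2.1 h6

/-- **small conductors** -/
theorem small_conductors : ∀ᶠ x : ℝ in atTop, ∃ r₀ : PC, ∀ r : PC, 2 ≤ r.1 → r.2.IsPrimitive →
    (r.1 : ℝ) ≤ Real.exp (x ^ (1 / 3 : ℝ)) → r ≠ r₀ → ‖SS r.2 x‖ ≤ Real.exp (-(x ^ (1 / 2 : ℝ))) := by
  have hkk : 0 < kk := by unfold kk; norm_num
  filter_upwards [bad_unique, small_char (c := kk / 4) (a := 1 / 3) (b := 1 / 2) (by positivity)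
    (by norm_num) (by norm_num) (by norm_num)] with x hu hs
  have hgood : ∀ r : PC, 2 ≤ r.1 → r.2.IsPrimitive → (r.1 : ℝ) ≤ Real.exp (x ^ (1 / 3 : ℝ)) →
      ¬ Bad x r → ‖SS r.2 x‖ ≤ Real.exp (-(x ^ (1 / 2 : ℝ))) := by
    intro r h2 hp hle hb
    have hne : NeZero r.1 := ⟨by omega⟩
    apply hs r.1 hle r.2 (primitive_ne_one h2 hp)
    intro ρ hρ him
    by_contra hcon
    push Not at hcon
    exact hb ⟨h2, hp, hle, hne, ρ, hρ, him, hcon⟩
  by_cases h : ∃ r, Bad x r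
  · obtain ⟨r₀, hr₀⟩ := h
    refine ⟨r₀, fun r h2 hp hle hne => hgood r h2 hp hle fun hb => hne (hu r r₀ hb hr₀)⟩
  · push Not at h
    exact ⟨⟨1, 1⟩, fun r h2 hp hle _ => hgood r h2 hp hle (h r)⟩

end Pool.Agent.LibPL63
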