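import Pool.Agent.LibPL63.B0a
import Pool.Agent.LibPL63.B0b
import Pool.Agent.LibPL63.B0c
import Pool.Agent.LibMaier.Density

/-!
From all characters to primitive characters, and the sum over the moduli.
-/

namespace Pool.Agent.LibPL63

open Filter Topology Complex DirichletCharacter Finset
open scoped ComplexConjugate ArithmeticFunction.vonMangoldt
open Pool.Agent.LibMaier

open scoped Classical in
/-- the sum over the non-principal characters -/
noncomputable def csum (x : ℝ) (q : ℕ) : ℝ :=
  if h : q = 0 then 0 else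
    haveI : NeZero q := ⟨h⟩
    ∑ χ ∈ (Finset.univ : Finset (DirichletCharacter ℂ q)).erase 1, ‖SS χ x‖

open scoped Classical in
/-- the primitive characters of level `d` -/
noncomputable def primd (d : ℕ) : Finset (DirichletCharacter ℂ d) :=
  if h : d = 0 then ∅ else
    haveI : NeZero d := ⟨h⟩
    (Finset.univ : Finset (DirichletCharacter ℂ d)).filter fun χ => χ.IsPrimitive

/-- the primitive characters of level in `[2, Q]` -/
noncomputable def prims (Q : ℕ) : Finset PC := (Icc 2 Q).sigma primd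

theorem mem_prims {Q : ℕ} {r : PC} : r ∈ prims Q ↔ 2 ≤ r.1 ∧ r.1 ≤ Q ∧ r.2.IsPrimitive := by
  classical
  unfold prims
  rw [Finset.mem_sigma, Finset.mem_Icc]
  constructor
  · rintro ⟨⟨h1, h2⟩, h3⟩
    unfold primd at h3
    rw [dif_neg (by omega)] at h3
    rw [Finset.mem_filter] at h3
    exact ⟨h1, h2, h3.2⟩
  · rintro ⟨h1, h2, h3⟩
    refine ⟨⟨h1, h2⟩, ?_⟩
    unfold primd
    rw [dif_neg (by omega), Finset.mem_filter]
    exact ⟨Finset.mem_univ _, h3⟩

theorem card_prims (Q : ℕ) : (prims Q).card ≤ Q ^ 2 := by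
  unfold prims
  rw [Finset.card_sigma]
  calc ∑ d ∈ Icc 2 Q, (primd d).card ≤ ∑ d ∈ Icc 2 Q, Q := by
        refine Finset.sum_le_sum fun d hd => ?_
        rw [Finset.mem_Icc] at hd
        have : NeZero d := ⟨by omega⟩
        exact (card_chars_le d (primd d)).trans hd.2
    _ = (Icc 2 Q).card * Q := by rw [Finset.sum_const, smul_eq_mul]
    _ ≤ Q * Q := by
        apply Nat.mul_le_mul_right
        rw [Nat.card_Icc]
        omega
    _ = Q ^ 2 := by ring

/-- all characters modulo `q` by primitive ones -/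
theorem csum_le (x : ℝ) {q : ℕ} (hq : 1 ≤ q) :
    csum x q ≤ ∑ r ∈ (prims q).filter (fun r => r.1 ∣ q),
      (‖SS r.2 x‖ + 4 * q.primeFactors.card * Real.exp (-x / 4)) := by
  classical
  have hne : NeZero q := ⟨by omega⟩
  unfold csum
  rw [dif_neg (by omega)]
  set i : DirichletCharacter ℂ q → PC := fun χ => ⟨χ.conductor, χ.primitiveCharacter⟩ with hi
  have hinj : Function.Injective i := by
    intro χ ψ h
    have hgen : ∀ (r : PC) (hr : r.1 ∣ q) (s : PC) (hs : s.1 ∣ q), r = s →
        changeLevel hr r.2 = changeLevel hs s.2 := by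
      rintro r hr s hs rfl
      rfl
    have h1 := hgen (i χ) χ.conductor_dvd_level (i ψ) ψ.conductor_dvd_level h
    have h2 : changeLevel χ.conductor_dvd_level χ.primitiveCharacter =
        changeLevel ψ.conductor_dvd_level ψ.primitiveCharacter := h1
    rw [changeLevel_primitiveCharacter, changeLevel_primitiveCharacter] at h2
    exact h2
  have hmap : ∀ χ ∈ (Finset.univ : Finset (DirichletCharacter ℂ q)).erase 1,
      i χ ∈ (prims q).filter (fun r => r.1 ∣ q) := by
    intro χ hχ
    have hχ1 : χ ≠ 1 := Finset.ne_of_mem_erase hχ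
    rw [Finset.mem_filter, mem_prims]
    have hd : χ.conductor ∣ q := χ.conductor_dvd_level
    have hc1 : χ.conductor ≠ 1 := fun h => hχ1 (eq_one_iff_conductor_eq_one.2 h)
    have hc0 : χ.conductor ≠ 0 := conductor_ne_zero χ
    refine ⟨⟨?_, Nat.le_of_dvd (by omega) hd, primitiveCharacter_isPrimitive χ⟩, hd⟩
    show 2 ≤ χ.conductor
    omega
  calc ∑ χ ∈ (Finset.univ : Finset (DirichletCharacter ℂ q)).erase 1, ‖SS χ x‖
      ≤ ∑ χ ∈ (Finset.univ : Finset (DirichletCharacter ℂ q)).erase 1,
          (‖SS (i χ).2 x‖ + 4 * q.primeFactors.card * Real.exp (-x / 4)) := by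
        refine Finset.sum_le_sum fun χ _ => ?_
        have h := norm_SS_sub_primitive χ x
        have h2 : ‖SS χ x‖ ≤ ‖SS χ x - SS χ.primitiveCharacter x‖ + ‖SS χ.primitiveCharacter x‖ := by
          have := norm_add_le (SS χ x - SS χ.primitiveCharacter x) (SS χ.primitiveCharacter x)
          rwa [sub_add_cancel] at this
        show ‖SS χ x‖ ≤ ‖SS χ.primitiveCharacter x‖ + 4 * q.primeFactors.card * Real.exp (-x / 4)
        linarith
    _ = ∑ r ∈ ((Finset.univ : Finset (DirichletCharacter ℂ q)).erase 1).image i,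
          (‖SS r.2 x‖ + 4 * q.primeFactors.card * Real.exp (-x / 4)) := by
        rw [Finset.sum_image fun a _ b _ h => hinj h]
    _ ≤ _ := by
        apply Finset.sum_le_sum_of_subset_of_nonneg
        · intro r hr
          rw [Finset.mem_image] at hr
          obtain ⟨χ, hχ, rfl⟩ := hr
          exact hmap χ hχ
        · intro r _ _
          positivity

open scoped Classical in
/-- **the sum over the moduli** -/
theorem reorganize : ∃ K : ℝ, 0 < K ∧ ∀ C Q p : ℕ, 1 ≤ C → 2 ≤ Q → ∀ f : PC → ℝ, (∀ r, 0 ≤ f r) →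
    ∑ q ∈ (Icc 1 Q).filter (fun q => Squarefree q ∧ ¬ p ∣ q), (C : ℝ) ^ q.primeFactors.card / (q.totient : ℝ) *
        ∑ r ∈ (prims q).filter (fun r => r.1 ∣ q), f r ≤
      (K * Real.log Q) ^ C * ∑ r ∈ (prims Q).filter (fun r => Squarefree r.1 ∧ ¬ p ∣ r.1),
        (C : ℝ) ^ r.1.primeFactors.card / (r.1.totient : ℝ) * f r := by
  obtain ⟨K, hK, h⟩ := sum_wt_dvd_le
  refine ⟨K, hK, fun C Q p hC hQ f hf => ?_⟩
  set w : ℕ → ℝ := fun q => (C : ℝ) ^ q.primeFactors.card / (q.totient : ℝ) with hw
  have hw0 : ∀ q, 0 ≤ w q := fun q => by positivity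
  set A := (Icc 1 Q).filter (fun q => Squarefree q ∧ ¬ p ∣ q) with hA
  set P := (prims Q).filter (fun r => Squarefree r.1 ∧ ¬ p ∣ r.1) with hP
  have h1 : ∀ q ∈ A, ∑ r ∈ (prims q).filter (fun r => r.1 ∣ q), f r ≤
      ∑ r ∈ P, if r.1 ∣ q then f r else 0 := by
    intro q hq
    rw [hA, Finset.mem_filter, Finset.mem_Icc] at hq
    rw [← Finset.sum_filter]
    apply Finset.sum_le_sum_of_subset_of_nonneg
    · intro r hr
      rw [Finset.mem_filter, mem_prims] at hr
      rw [Finset.mem_filter, hP, Finset.mem_filter, mem_prims]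
      refine ⟨⟨⟨hr.1.1, hr.1.2.1.trans hq.1.2, hr.1.2.2⟩, hq.2.1.squarefree_of_dvd hr.2, ?_⟩, hr.2⟩
      intro hp
      exact hq.2.2 (hp.trans hr.2)
    · intro r _ _
      exact hf r
  calc ∑ q ∈ A, w q * ∑ r ∈ (prims q).filter (fun r => r.1 ∣ q), f r
      ≤ ∑ q ∈ A, w q * ∑ r ∈ P, (if r.1 ∣ q then f r else 0) :=
        Finset.sum_le_sum fun q hq => mul_le_mul_of_nonneg_left (h1 q hq) (hw0 q)
    _ = ∑ r ∈ P, ∑ q ∈ A, w q * (if r.1 ∣ q then f r else 0) := by
        simp_rw [Finset.mul_sum]
        rw [Finset.sum_comm]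
    _ ≤ ∑ r ∈ P, (w r.1 * (K * Real.log Q) ^ C) * f r := by
        refine Finset.sum_le_sum fun r hr => ?_
        rw [hP, Finset.mem_filter, mem_prims] at hr
        have h2 := h C Q r.1 hC hQ (by omega)
        calc ∑ q ∈ A, w q * (if r.1 ∣ q then f r else 0)
            = ∑ q ∈ A, (if r.1 ∣ q then w q else 0) * f r := by
              refine Finset.sum_congr rfl fun q _ => ?_
              split_ifs <;> ring
          _ = (∑ q ∈ A.filter (fun q => r.1 ∣ q), w q) * f r := by
              rw [← Finset.sum_mul, ← Finset.sum_filter]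
          _ ≤ (∑ q ∈ (Icc 1 Q).filter (fun q => Squarefree q ∧ r.1 ∣ q), w q) * f r := by
              apply mul_le_mul_of_nonneg_right _ (hf r)
              apply Finset.sum_le_sum_of_subset_of_nonneg
              · intro q hq
                rw [Finset.mem_filter, hA, Finset.mem_filter] at hq
                rw [Finset.mem_filter]
                exact ⟨hq.1.1, hq.1.2.1, hq.2⟩
              · intro q _ _
                exact hw0 q
          _ ≤ _ := mul_le_mul_of_nonneg_right h2 (hf r)
    _ = (K * Real.log Q) ^ C * ∑ r ∈ P, w r.1 * f r := by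
        rw [Finset.mul_sum]
        refine Finset.sum_congr rfl fun r _ => ?_
        ring

end Pool.Agent.LibPL63
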