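import Pool.Agent.LibPL63.B0b

/-!
Prime powers are negligible.
-/

namespace Pool.Agent.LibPL63

open Filter Topology Complex DirichletCharacter
open scoped ComplexConjugate ArithmeticFunction.vonMangoldt
open Pool.Agent.LibMaier

open scoped Classical in
/-- the prime powers which are not primes -/
noncomputable def gpp (n : ℕ) : ℝ := if n.Prime then 0 else Λ n * (n : ℝ) ^ (-(3 / 4 : ℝ))

theorem gpp_nonneg (n : ℕ) : 0 ≤ gpp n := by
  unfold gpp
  split_ifs
  · exact le_rfl
  · exact mul_nonneg ArithmeticFunction.vonMangoldt_nonneg (by positivity)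

theorem summable_log_rpow : Summable fun n : ℕ => Real.log n * (n : ℝ) ^ (-(3 / 2 : ℝ)) := by
  have h : Summable fun n : ℕ => 4 * (n : ℝ) ^ (-(5 / 4 : ℝ)) :=
    (Real.summable_nat_rpow.2 (by norm_num)).mul_left 4
  refine Summable.of_nonneg_of_le (fun n => mul_nonneg (Real.log_natCast_nonneg n) (by positivity))
    (fun n => ?_) h
  rcases Nat.eq_zero_or_pos n with hn | hn
  · subst hn
    simp
  · have hn0 : (0 : ℝ) < n := by exact_mod_cast hn
    have h1 : Real.log n ≤ (n : ℝ) ^ (1 / 4 : ℝ) / (1 / 4) := Real.log_le_rpow_div hn0.le (by norm_num)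
    calc Real.log n * (n : ℝ) ^ (-(3 / 2 : ℝ))
        ≤ ((n : ℝ) ^ (1 / 4 : ℝ) / (1 / 4)) * (n : ℝ) ^ (-(3 / 2 : ℝ)) :=
          mul_le_mul_of_nonneg_right h1 (by positivity)
      _ = 4 * ((n : ℝ) ^ (1 / 4 : ℝ) * (n : ℝ) ^ (-(3 / 2 : ℝ))) := by ring
      _ = 4 * (n : ℝ) ^ (-(5 / 4 : ℝ)) := by
          rw [← Real.rpow_add hn0]
          norm_num

theorem summable_gpp : Summable gpp := by
  set i : Nat.Primes × ℕ → ℕ := fun a => (a.1 : ℕ) ^ (a.2 + 2) with hi
  have hinj : Function.Injective i := by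
    rintro ⟨p, k⟩ ⟨q, l⟩ h
    simp only [hi] at h
    have h1 : (p : ℕ) = q := by
      have h2 := congrArg Nat.minFac h
      rwa [p.2.pow_minFac (by omega), q.2.pow_minFac (by omega)] at h2
    have h3 : p = q := Subtype.ext h1
    subst h3
    have h4 := Nat.pow_right_injective p.2.two_le h
    have h5 : k = l := by omega
    rw [h5]
  rw [← hinj.summable_iff (f := gpp)]
  · have hval : ∀ a : Nat.Primes × ℕ, (gpp ∘ i) a =
        Real.log (a.1 : ℕ) * ((a.1 : ℕ) : ℝ) ^ (-(3 / 2 : ℝ)) * (((a.1 : ℕ) : ℝ) ^ (-(3 / 4 : ℝ))) ^ a.2 := by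
      rintro ⟨p, k⟩
      have hp0 : (0 : ℝ) < (p : ℕ) := by exact_mod_cast p.2.pos
      simp only [Function.comp, hi, gpp]
      rw [if_neg (Nat.Prime.not_prime_pow (by omega)), ArithmeticFunction.vonMangoldt_apply_pow (by omega),
        ArithmeticFunction.vonMangoldt_apply_prime p.2, mul_assoc]
      congr 1
      push_cast
      rw [← Real.rpow_natCast, ← Real.rpow_mul hp0.le, ← Real.rpow_natCast, ← Real.rpow_mul hp0.le,
        ← Real.rpow_add hp0]
      congr 1
      push_cast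
      ring
    rw [summable_congr hval]
    have hr : ∀ p : Nat.Primes, 0 ≤ ((p : ℕ) : ℝ) ^ (-(3 / 4 : ℝ)) ∧
        ((p : ℕ) : ℝ) ^ (-(3 / 4 : ℝ)) ≤ 3 / 5 := by
      intro p
      refine ⟨by positivity, ?_⟩
      have hp2 : (2 : ℝ) ≤ (p : ℕ) := by exact_mod_cast p.2.two_le
      have h1 : ((p : ℕ) : ℝ) ^ (-(3 / 4 : ℝ)) ≤ (2 : ℝ) ^ (-(3 / 4 : ℝ)) :=
        Real.rpow_le_rpow_of_nonpos (by norm_num) hp2 (by norm_num)
      refine h1.trans ?_
      have h2 : ((2 : ℝ) ^ (-(3 / 4 : ℝ))) ^ (4 : ℕ) = 1 / 8 := by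
        rw [← Real.rpow_natCast, ← Real.rpow_mul (by norm_num)]
        norm_num
      by_contra hcon
      push Not at hcon
      have h3 : (3 / 5 : ℝ) ^ (4 : ℕ) < ((2 : ℝ) ^ (-(3 / 4 : ℝ))) ^ (4 : ℕ) :=
        pow_lt_pow_left₀ hcon (by norm_num) (by norm_num)
      rw [h2] at h3
      norm_num at h3
    have hs2 : Summable fun a : Nat.Primes × ℕ =>
        (Real.log (a.1 : ℕ) * ((a.1 : ℕ) : ℝ) ^ (-(3 / 2 : ℝ))) * (3 / 5 : ℝ) ^ a.2 := by
      apply Summable.mul_of_nonneg (f := fun p : Nat.Primes => Real.log (p : ℕ) * ((p : ℕ) : ℝ) ^ (-(3 / 2 : ℝ)))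
        (g := fun k : ℕ => (3 / 5 : ℝ) ^ k)
      · exact summable_log_rpow.comp_injective Nat.Primes.coe_nat_injective
      · exact summable_geometric_of_lt_one (by norm_num) (by norm_num)
      · intro p
        exact mul_nonneg (Real.log_natCast_nonneg _) (by positivity)
      · intro k
        positivity
    refine Summable.of_nonneg_of_le (fun a => ?_) (fun a => ?_) hs2
    · exact mul_nonneg (mul_nonneg (Real.log_natCast_nonneg _) (by positivity)) (by positivity)
    · apply mul_le_mul_of_nonneg_left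
      · exact pow_le_pow_left₀ (hr a.1).1 (hr a.1).2 a.2
      · exact mul_nonneg (Real.log_natCast_nonneg _) (by positivity)
  · intro n hn
    unfold gpp
    split_ifs with hpr
    · rfl
    · by_cases hΛ : Λ n = 0
      · rw [hΛ, zero_mul]
      · exfalso
        apply hn
        obtain ⟨p, k, hpp, hk, hpk⟩ := (ArithmeticFunction.vonMangoldt_ne_zero_iff.1 hΛ)
        have hpp' : p.Prime := hpp.nat_prime
        have hk1 : k ≠ 1 := by
          intro h
          rw [h, pow_one] at hpk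
          exact hpr (hpk ▸ hpp')
        refine ⟨(⟨p, hpp'⟩, k - 2), ?_⟩
        simp only [hi]
        rw [show k - 2 + 2 = k by omega, hpk]

/-- the constant -/
noncomputable def Kpp : ℝ := ∑' n, gpp n

theorem Kpp_nonneg : 0 ≤ Kpp := tsum_nonneg gpp_nonneg

open scoped Classical in
/-- the weights of the prime powers -/
theorem wn_sub_prime_le (x : ℝ) (n : ℕ) :
    wn x n - (if n.Prime then wn x n else 0) ≤ Real.exp (-x / 4) * gpp n := by
  unfold gpp
  split_ifs with h
  · simp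
  · rw [sub_zero]
    exact wn_le n

end Pool.Agent.LibPL63
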