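import Pool.Agent.LibPL63.Defs
import Pool.Agent.LibPL63.B2
import Pool.Agent.LibPL63.B3
import Pool.Agent.LibPL63.B4

/-!
Bombieri-Vinogradov with a Gaussian weight: assembly.
-/

namespace Pool.Agent.LibPL63

open Filter Topology Complex DirichletCharacter Finset
open scoped ComplexConjugate ArithmeticFunction.vonMangoldt
open Pool.Agent.LibMaier

/-- the estimate for the whole family of primitive characters -/
def LargeFamily : Prop := ∃ K : ℕ, ∃ x0 : ℝ, ∀ x : ℝ, x0 ≤ x → ∀ Q : ℕ, (Q : ℝ) ≤ Real.exp (x / 24) →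
  ∀ F : Finset PC, (∀ r ∈ F, 2 ≤ r.1 ∧ r.1 ≤ Q ∧ r.2.IsPrimitive) → ∑ r ∈ F, ‖SS r.2 x‖ ≤ x ^ K

/-- the error term -/
noncomputable def erB (x : ℝ) (q : ℕ) : ℝ :=
  (1 / (q.totient : ℝ)) * (4 * q.primeFactors.card * Real.exp (-x / 4) + csum x q) +
    (4 * q.primeFactors.card + Kpp) * Real.exp (-x / 4)

theorem csum_nonneg (x : ℝ) (q : ℕ) : 0 ≤ csum x q := by
  classical
  unfold csum
  split_ifs
  · exact le_rfl
  · exact Finset.sum_nonneg fun _ _ => norm_nonneg _

theorem erB_nonneg (x : ℝ) (q : ℕ) : 0 ≤ erB x q := by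
  unfold erB
  have := csum_nonneg x q
  have := Kpp_nonneg
  positivity

theorem wp_eq (x : ℝ) (n : ℕ) : wp x n = if n.Prime then wn x n else 0 := by
  unfold wp wn
  split_ifs with h
  · rw [ArithmeticFunction.vonMangoldt_apply_prime h, mul_div_assoc]
  · rfl

theorem wp_nonneg' (x : ℝ) (n : ℕ) : 0 ≤ wp x n := by
  rw [wp_eq]
  split_ifs
  · exact wn_nonneg x n
  · exact le_rfl

theorem wp_le_wn (x : ℝ) (n : ℕ) : wp x n ≤ wn x n := by
  rw [wp_eq]
  split_ifs
  · exact le_rfl
  · exact wn_nonneg x n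

theorem summable_ite_wn (x : ℝ) (P : ℕ → Prop) [DecidablePred P] : Summable fun n : ℕ => if P n then wn x n else 0 := by
  refine Summable.of_nonneg_of_le (fun n => ?_) (fun n => ?_) (summable_wn x)
  · split_ifs
    · exact wn_nonneg x n
    · exact le_rfl
  · split_ifs
    · exact le_rfl
    · exact wn_nonneg x n

theorem erB_unit (x : ℝ) (q a : ℕ) (hq : 1 ≤ q) (ha : a.Coprime q) :
    |(∑' n : ℕ, if n ≡ a [MOD q] then wp x n else 0) - S0 x / (q.totient : ℝ)| ≤ erB x q := by
  classical
  have : NeZero q := ⟨by omega⟩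
  have hu : IsUnit (a : ZMod q) := (ZMod.isUnit_iff_coprime _ _).2 ha
  have h1 := ap_sum_abs_le hu x
  set T := ∑' n : ℕ, (if (n : ZMod q) = (a : ZMod q) then wn x n else 0) with hT
  set T' := (∑' n : ℕ, if n ≡ a [MOD q] then wp x n else 0) with hT'
  have hs1 : Summable fun n : ℕ => (if (n : ZMod q) = (a : ZMod q) then wn x n else 0) :=
    summable_ite_wn x fun n : ℕ => (n : ZMod q) = (a : ZMod q)
  have hs2 : Summable fun n : ℕ => (if n ≡ a [MOD q] then wp x n else 0) := by
    refine Summable.of_nonneg_of_le (fun n => ?_) (fun n => ?_) (summable_wn x)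
    · split_ifs
      · exact wp_nonneg' x n
      · exact le_rfl
    · split_ifs
      · exact wp_le_wn x n
      · exact wn_nonneg x n
  have hdiff : T - T' = ∑' n : ℕ, (if n ≡ a [MOD q] then wn x n - wp x n else 0) := by
    rw [hT, hT', ← hs1.tsum_sub hs2]
    apply tsum_congr
    intro n
    by_cases h : n ≡ a [MOD q]
    · rw [if_pos ((ZMod.natCast_eq_natCast_iff _ _ _).2 h), if_pos h, if_pos h]
    · rw [if_neg (fun h' => h ((ZMod.natCast_eq_natCast_iff _ _ _).1 h')), if_neg h, if_neg h, sub_zero]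
  have hge : ∀ n : ℕ, 0 ≤ (if n ≡ a [MOD q] then wn x n - wp x n else 0) := by
    intro n
    split_ifs
    · linarith [wp_le_wn x n]
    · exact le_rfl
  have hle : ∀ n : ℕ, (if n ≡ a [MOD q] then wn x n - wp x n else 0) ≤ Real.exp (-x / 4) * gpp n := by
    intro n
    split_ifs
    · rw [wp_eq]
      exact wn_sub_prime_le x n
    · exact mul_nonneg (Real.exp_pos _).le (gpp_nonneg n)
  have h2 : 0 ≤ T - T' := by
    rw [hdiff]
    exact tsum_nonneg hge
  have h3 : T - T' ≤ Real.exp (-x / 4) * Kpp := by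
    rw [hdiff]
    calc ∑' n : ℕ, (if n ≡ a [MOD q] then wn x n - wp x n else 0)
        ≤ ∑' n : ℕ, Real.exp (-x / 4) * gpp n :=
          (Summable.of_nonneg_of_le hge hle (summable_gpp.mul_left _)).tsum_le_tsum hle
            (summable_gpp.mul_left _)
      _ = Real.exp (-x / 4) * Kpp := by rw [tsum_mul_left]; rfl
  have h4 : csum x q = ∑ χ ∈ (Finset.univ : Finset (DirichletCharacter ℂ q)).erase 1, ‖SS χ x‖ := by
    unfold csum
    rw [dif_neg (by omega)]
  rw [← h4] at h1
  rw [abs_le] at h1 ⊢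
  unfold erB
  have h5 : 0 ≤ 4 * (q.primeFactors.card : ℝ) * Real.exp (-x / 4) := by positivity
  constructor
  · linarith [h1.1]
  · linarith [h1.2, mul_nonneg Kpp_nonneg (Real.exp_pos (-x / 4)).le]

theorem erB_nonunit (x : ℝ) (q a : ℕ) (hq : 1 ≤ q) (ha : ¬ a.Coprime q) :
    (∑' n : ℕ, if n ≡ a [MOD q] then wp x n else 0) ≤ erB x q := by
  classical
  have h1 := tsum_not_coprime_le (q := q) (by omega) x
  have hs2 : Summable fun n : ℕ => (if n ≡ a [MOD q] then wp x n else 0) := by
    refine Summable.of_nonneg_of_le (fun n => ?_) (fun n => ?_) (summable_wn x)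
    · split_ifs
      · exact wp_nonneg' x n
      · exact le_rfl
    · split_ifs
      · exact wp_le_wn x n
      · exact wn_nonneg x n
  have hs3 : Summable fun n : ℕ => (if n.Coprime q then 0 else wn x n) := by
    refine Summable.of_nonneg_of_le (fun n => ?_) (fun n => ?_) (summable_wn x)
    · split_ifs
      · exact le_rfl
      · exact wn_nonneg x n
    · split_ifs
      · exact wn_nonneg x n
      · exact le_rfl
  have h2 : (∑' n : ℕ, if n ≡ a [MOD q] then wp x n else 0) ≤
      ∑' n : ℕ, (if n.Coprime q then 0 else wn x n) := by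
    refine hs2.tsum_le_tsum (fun n => ?_) hs3
    by_cases h : n ≡ a [MOD q]
    · have hc : ¬ n.Coprime q := by
        intro hc
        apply ha
        unfold Nat.Coprime at hc ⊢
        rw [← hc]
        exact (Nat.ModEq.gcd_eq h).symm
      rw [if_pos h, if_neg hc]
      exact wp_le_wn x n
    · rw [if_neg h]
      split_ifs
      · exact le_rfl
      · exact wn_nonneg x n
  refine (h2.trans h1).trans ?_
  unfold erB
  have h3 := csum_nonneg x q
  have h4 := Kpp_nonneg
  have h5 : 0 ≤ (1 / (q.totient : ℝ)) * (4 * q.primeFactors.card * Real.exp (-x / 4) + csum x q) := by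
    positivity
  nlinarith [mul_nonneg h4 (Real.exp_pos (-x / 4)).le]

end Pool.Agent.LibPL63
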