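import Pool.Agent.LibPL63.B5

/-!
Bombieri-Vinogradov with a Gaussian weight: the sum over the moduli.
-/

namespace Pool.Agent.LibPL63

open Filter Topology Complex DirichletCharacter Finset
open scoped ComplexConjugate ArithmeticFunction.vonMangoldt
open Pool.Agent.LibMaier

/-- the prime attached to a conductor -/
noncomputable def exP (r : PC) : ℕ := if r.1 = 1 then 2 else r.1.minFac

theorem exP_prime (r : PC) : (exP r).Prime := by
  unfold exP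
  split_ifs with h
  · exact Nat.prime_two
  · exact Nat.minFac_prime h

theorem ne_of_not_dvd {r r₀ : PC} (h2 : 2 ≤ r.1) (h : ¬ exP r₀ ∣ r.1) : r ≠ r₀ := by
  rintro rfl
  apply h
  unfold exP
  rw [if_neg (by omega)]
  exact Nat.minFac_dvd _

/-- the final growth facts -/
theorem eventually_growth3 (A : ℝ) (N : ℕ) : ∀ᶠ x : ℝ in atTop, 100 ≤ x ∧
    A * x ^ N ≤ Real.exp (x ^ (1 / 4 : ℝ)) ∧
    2 * x ^ (1 / 4 : ℝ) ≤ x ^ (1 / 3 : ℝ) / 2 ∧ 4 * x ^ (1 / 3 : ℝ) ≤ x ^ (1 / 2 : ℝ) ∧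
    x ^ (1 / 3 : ℝ) ≤ x / 24 := by
  have h1 := rpow_bound (a := 1 / 4) (b := 1 / 3) (ε := 1 / 4) (by norm_num) (by norm_num)
  have h2 := rpow_bound (a := 1 / 3) (b := 1 / 2) (ε := 1 / 4) (by norm_num) (by norm_num)
  have h3 := rpow_bound (a := 1 / 3) (b := 1) (ε := 1 / 24) (by norm_num) (by norm_num)
  have h4 : ∀ᶠ y : ℝ in atTop, |A| * y ^ (4 * N) ≤ Real.exp y := by
    have h5 := (Real.isLittleO_pow_exp_atTop (n := 4 * N)).bound (c := 1 / (|A| + 1)) (by positivity)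
    filter_upwards [h5, eventually_ge_atTop (0 : ℝ)] with y hy hy0
    rw [Real.norm_of_nonneg (by positivity), Real.norm_of_nonneg (Real.exp_pos y).le] at hy
    have hA : 0 < |A| + 1 := by positivity
    rw [one_div, ← div_eq_inv_mul, le_div_iff₀ hA] at hy
    nlinarith [pow_nonneg hy0 (4 * N)]
  have h5 := (tendsto_rpow_atTop (y := (1 / 4 : ℝ)) (by norm_num)).eventually h4
  filter_upwards [h1, h2, h3, h5, eventually_ge_atTop (100 : ℝ)] with x h1 h2 h3 h5 hx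
  have hx0 : 0 ≤ x := by linarith
  rw [Real.rpow_one] at h3
  refine ⟨hx, ?_, by linarith, by linarith, by linarith⟩
  have h6 : (x ^ (1 / 4 : ℝ)) ^ (4 * N) = x ^ N := by
    rw [← Real.rpow_natCast, ← Real.rpow_mul hx0, ← Real.rpow_natCast]
    congr 1
    push_cast
    ring
  rw [h6] at h5
  refine le_trans ?_ h5
  exact mul_le_mul_of_nonneg_right (le_abs_self A) (by positivity)

open scoped Classical in
/-- the primitive characters of all conductors, weighted -/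
theorem weighted_family (hLF : LargeFamily) (C : ℕ) (hC : 1 ≤ C) : ∃ (A : ℝ) (N : ℕ), 0 < A ∧
    ∀ᶠ x : ℝ in atTop, ∃ r₀ : PC, ∀ Q : ℕ, (Q : ℝ) ≤ Real.exp (x / 24) →
      ∑ r ∈ (prims Q).filter (fun r => Squarefree r.1 ∧ ¬ exP r₀ ∣ r.1),
        (C : ℝ) ^ r.1.primeFactors.card / (r.1.totient : ℝ) * ‖SS r.2 x‖ ≤
      A * x ^ N * Real.exp (-(x ^ (1 / 3 : ℝ) / 2)) := by
  obtain ⟨K, hK0, hK⟩ := wt_le_rpow C hC
  obtain ⟨K2, x0, hLF⟩ := hLF
  refine ⟨2 * K, K2, by positivity, ?_⟩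
  filter_upwards [small_conductors, eventually_growth3 1 0, eventually_ge_atTop x0] with x hs hg hx0
  obtain ⟨r₀, hr₀⟩ := hs
  obtain ⟨hx1, -, g2, g3, g4⟩ := hg
  refine ⟨r₀, fun Q hQ => ?_⟩
  have hxpos : 0 < x := by linarith
  set w : ℕ → ℝ := fun d => (C : ℝ) ^ d.primeFactors.card / (d.totient : ℝ) with hw
  have hw0 : ∀ d, 0 ≤ w d := fun d => by positivity
  set S := (prims Q).filter (fun r => Squarefree r.1 ∧ ¬ exP r₀ ∣ r.1) with hS
  set E := Real.exp (x ^ (1 / 3 : ℝ)) with hE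
  have hE0 : 0 < E := Real.exp_pos _
  have hE1 : 1 ≤ E := Real.one_le_exp (by positivity)
  rw [← Finset.sum_filter_add_sum_filter_not S (fun r => (r.1 : ℝ) ≤ E)]
  -- small conductors
  have hsmall : ∑ r ∈ S.filter (fun r => (r.1 : ℝ) ≤ E), w r.1 * ‖SS r.2 x‖ ≤
      K * Real.exp (-(x ^ (1 / 3 : ℝ) / 2)) := by
    have h1 : ∀ r ∈ S.filter (fun r => (r.1 : ℝ) ≤ E), w r.1 * ‖SS r.2 x‖ ≤
        K * Real.exp (-(x ^ (1 / 2 : ℝ))) := by
      intro r hr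
      rw [Finset.mem_filter, hS, Finset.mem_filter, mem_prims] at hr
      obtain ⟨⟨⟨h2, h3, h4⟩, h5, h6⟩, h7⟩ := hr
      have h8 := hr₀ r h2 h4 h7 (ne_of_not_dvd h2 h6)
      have h9 : w r.1 ≤ K := by
        refine (hK r.1 h5).trans ?_
        have h10 : (1 : ℝ) ≤ r.1 := by exact_mod_cast (by omega : 1 ≤ r.1)
        have h11 : (r.1 : ℝ) ^ (-(1 / 2 : ℝ)) ≤ 1 :=
          Real.rpow_le_one_of_one_le_of_nonpos h10 (by norm_num)
        nlinarith
      exact mul_le_mul h9 h8 (norm_nonneg _) hK0.le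
    have h2 : ((S.filter (fun r => (r.1 : ℝ) ≤ E)).card : ℝ) ≤ E ^ 2 := by
      have h3 : S.filter (fun r => (r.1 : ℝ) ≤ E) ⊆ prims ⌊E⌋₊ := by
        intro r hr
        rw [Finset.mem_filter, hS, Finset.mem_filter, mem_prims] at hr
        rw [mem_prims]
        exact ⟨hr.1.1.1, Nat.le_floor hr.2, hr.1.1.2.2⟩
      calc ((S.filter (fun r => (r.1 : ℝ) ≤ E)).card : ℝ) ≤ ((prims ⌊E⌋₊).card : ℝ) := by
            exact_mod_cast Finset.card_le_card h3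
        _ ≤ ((⌊E⌋₊ ^ 2 : ℕ) : ℝ) := by exact_mod_cast card_prims _
        _ ≤ E ^ 2 := by
            push_cast
            exact pow_le_pow_left₀ (Nat.cast_nonneg _) (Nat.floor_le hE0.le) 2
    calc ∑ r ∈ S.filter (fun r => (r.1 : ℝ) ≤ E), w r.1 * ‖SS r.2 x‖
        ≤ ∑ r ∈ S.filter (fun r => (r.1 : ℝ) ≤ E), K * Real.exp (-(x ^ (1 / 2 : ℝ))) :=
          Finset.sum_le_sum h1
      _ = ((S.filter (fun r => (r.1 : ℝ) ≤ E)).card : ℝ) * (K * Real.exp (-(x ^ (1 / 2 : ℝ)))) := by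
          rw [Finset.sum_const, nsmul_eq_mul]
      _ ≤ E ^ 2 * (K * Real.exp (-(x ^ (1 / 2 : ℝ)))) :=
          mul_le_mul_of_nonneg_right h2 (by positivity)
      _ = K * Real.exp (2 * x ^ (1 / 3 : ℝ) - x ^ (1 / 2 : ℝ)) := by
          rw [hE, ← Real.exp_nat_mul, Real.exp_sub, Real.exp_neg]
          push_cast
          ring
      _ ≤ K * Real.exp (-(x ^ (1 / 3 : ℝ) / 2)) := by
          apply mul_le_mul_of_nonneg_left _ hK0.le
          apply Real.exp_le_exp.2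
          have : 0 ≤ x ^ (1 / 3 : ℝ) := by positivity
          linarith
  -- large conductors
  have hlarge : ∑ r ∈ S.filter (fun r => ¬ (r.1 : ℝ) ≤ E), w r.1 * ‖SS r.2 x‖ ≤
      K * Real.exp (-(x ^ (1 / 3 : ℝ) / 2)) * x ^ K2 := by
    have h1 : ∀ r ∈ S.filter (fun r => ¬ (r.1 : ℝ) ≤ E), w r.1 * ‖SS r.2 x‖ ≤
        K * Real.exp (-(x ^ (1 / 3 : ℝ) / 2)) * ‖SS r.2 x‖ := by
      intro r hr
      rw [Finset.mem_filter, hS, Finset.mem_filter, mem_prims] at hr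
      obtain ⟨⟨⟨h2, h3, h4⟩, h5, h6⟩, h7⟩ := hr
      push Not at h7
      apply mul_le_mul_of_nonneg_right _ (norm_nonneg _)
      refine (hK r.1 h5).trans ?_
      apply mul_le_mul_of_nonneg_left _ hK0.le
      calc (r.1 : ℝ) ^ (-(1 / 2 : ℝ)) ≤ E ^ (-(1 / 2 : ℝ)) :=
            Real.rpow_le_rpow_of_nonpos hE0 h7.le (by norm_num)
        _ = Real.exp (-(x ^ (1 / 3 : ℝ) / 2)) := by
            rw [hE, ← Real.exp_mul]
            congr 1
            ring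
    calc ∑ r ∈ S.filter (fun r => ¬ (r.1 : ℝ) ≤ E), w r.1 * ‖SS r.2 x‖
        ≤ ∑ r ∈ S.filter (fun r => ¬ (r.1 : ℝ) ≤ E), K * Real.exp (-(x ^ (1 / 3 : ℝ) / 2)) * ‖SS r.2 x‖ :=
          Finset.sum_le_sum h1
      _ = K * Real.exp (-(x ^ (1 / 3 : ℝ) / 2)) *
          ∑ r ∈ S.filter (fun r => ¬ (r.1 : ℝ) ≤ E), ‖SS r.2 x‖ := by rw [Finset.mul_sum]
      _ ≤ K * Real.exp (-(x ^ (1 / 3 : ℝ) / 2)) * x ^ K2 := by
          apply mul_le_mul_of_nonneg_left _ (by positivity)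
          apply hLF x hx0 Q hQ
          intro r hr
          rw [Finset.mem_filter, hS, Finset.mem_filter, mem_prims] at hr
          exact hr.1.1
  have hpow : (1 : ℝ) ≤ x ^ K2 := one_le_pow₀ (by linarith)
  have hX : 0 ≤ K * Real.exp (-(x ^ (1 / 3 : ℝ) / 2)) := by positivity
  calc _ ≤ K * Real.exp (-(x ^ (1 / 3 : ℝ) / 2)) + K * Real.exp (-(x ^ (1 / 3 : ℝ) / 2)) * x ^ K2 :=
        add_le_add hsmall hlarge
    _ ≤ K * Real.exp (-(x ^ (1 / 3 : ℝ) / 2)) * x ^ K2 +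
        K * Real.exp (-(x ^ (1 / 3 : ℝ) / 2)) * x ^ K2 := by nlinarith
    _ = 2 * K * x ^ K2 * Real.exp (-(x ^ (1 / 3 : ℝ) / 2)) := by ring

end Pool.Agent.LibPL63
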