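import Pool.Agent.LibPL63.B6

/-!
Bombieri-Vinogradov with a Gaussian weight: `BVprop`.
-/

namespace Pool.Agent.LibPL63

open Filter Topology Complex DirichletCharacter Finset
open scoped ComplexConjugate ArithmeticFunction.vonMangoldt
open Pool.Agent.LibMaier

theorem pow_omega_le' (C : ℕ) (hC : 1 ≤ C) : ∃ K : ℝ, 0 < K ∧ ∀ d : ℕ, Squarefree d →
    (C : ℝ) ^ d.primeFactors.card / (d.totient : ℝ) ≤ K ∧ (C : ℝ) ^ d.primeFactors.card ≤ K * d := by
  obtain ⟨K, hK0, hK⟩ := wt_le_rpow C hC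
  refine ⟨K, hK0, fun d hd => ?_⟩
  have hd1 : 1 ≤ d := Nat.pos_of_ne_zero hd.ne_zero
  have hd1R : (1 : ℝ) ≤ d := by exact_mod_cast hd1
  have hφ : (0 : ℝ) < d.totient := by exact_mod_cast Nat.totient_pos.2 hd1
  have h1 : (d : ℝ) ^ (-(1 / 2 : ℝ)) ≤ 1 := Real.rpow_le_one_of_one_le_of_nonpos hd1R (by norm_num)
  have h2 : (C : ℝ) ^ d.primeFactors.card / (d.totient : ℝ) ≤ K := by
    refine (hK d hd).trans ?_
    nlinarith
  refine ⟨h2, ?_⟩
  rw [div_le_iff₀ hφ] at h2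
  refine h2.trans ?_
  apply mul_le_mul_of_nonneg_left _ hK0.le
  exact_mod_cast Nat.totient_le d

theorem card_pf_le (q : ℕ) : (q.primeFactors.card : ℝ) ≤ q := by
  have h1 : q.primeFactors ⊆ Icc 1 q := by
    intro p hp
    rw [Nat.mem_primeFactors] at hp
    rw [Finset.mem_Icc]
    exact ⟨hp.1.one_le, Nat.le_of_dvd (Nat.pos_of_ne_zero hp.2.2) hp.2.1⟩
  have h2 := Finset.card_le_card h1
  rw [Nat.card_Icc] at h2
  have h3 : q.primeFactors.card ≤ q := by omega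
  exact_mod_cast h3

theorem BV_main (hLF : LargeFamily) (C : ℕ) (hC : 1 ≤ C) : ∀ᶠ x : ℝ in atTop, ∃ p1 : ℕ, p1.Prime ∧
    ∑ q ∈ (Icc 1 ⌊Real.exp (x / 24)⌋₊).filter (fun q => Squarefree q ∧ ¬ p1 ∣ q),
      (C : ℝ) ^ q.primeFactors.card * erB x q ≤ Real.exp (-x ^ ((1 : ℝ) / 4)) := by
  classical
  obtain ⟨A, N, hA, hfam⟩ := weighted_family hLF C hC
  obtain ⟨K, hK0, hreo⟩ := reorganize
  obtain ⟨K1, hK10, hK1⟩ := pow_omega_le' C hC
  have hKpp := Kpp_nonneg
  filter_upwards [hfam, eventually_growth3 (K ^ C * A + 8 * K1 + K1 * (8 + Kpp)) (C + N)] with x hf hg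
  obtain ⟨r₀, hr₀⟩ := hf
  obtain ⟨hx1, g1, g2, g3, g4⟩ := hg
  refine ⟨exP r₀, exP_prime r₀, ?_⟩
  have hx0 : 0 < x := by linarith
  set Q := ⌊Real.exp (x / 24)⌋₊ with hQdef
  have hQle : (Q : ℝ) ≤ Real.exp (x / 24) := Nat.floor_le (Real.exp_pos _).le
  have hQ2 : 2 ≤ Q := by
    apply Nat.le_floor
    have := Real.add_one_le_exp (x / 24)
    push_cast
    linarith
  have hQR : (2 : ℝ) ≤ Q := by exact_mod_cast hQ2
  set T := (Icc 1 Q).filter (fun q => Squarefree q ∧ ¬ exP r₀ ∣ q) with hT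
  set e := Real.exp (-x / 4) with he
  have he0 : 0 < e := Real.exp_pos _
  set w : ℕ → ℝ := fun q => (C : ℝ) ^ q.primeFactors.card / (q.totient : ℝ) with hw
  have hw0 : ∀ d, 0 ≤ w d := fun d => by positivity
  have hTcard : (T.card : ℝ) ≤ Q := by
    have h1 : T.card ≤ (Icc 1 Q).card := Finset.card_le_card (Finset.filter_subset _ _)
    rw [Nat.card_Icc] at h1
    have h2 : T.card ≤ Q := by omega
    exact_mod_cast h2
  -- the main part
  have hlogQ : Real.log Q ≤ x := by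
    have h1 : Real.log Q ≤ x / 24 := by
      rw [Real.log_le_iff_le_exp (by linarith)]
      exact hQle
    linarith
  have hlogQ0 : 0 ≤ Real.log Q := Real.log_nonneg (by linarith)
  have hmain : ∑ q ∈ T, w q * ∑ r ∈ (prims q).filter (fun r => r.1 ∣ q), ‖SS r.2 x‖ ≤
      K ^ C * A * x ^ (C + N) * Real.exp (-(x ^ (1 / 3 : ℝ) / 2)) := by
    refine (hreo C Q (exP r₀) hC hQ2 (fun r => ‖SS r.2 x‖) fun r => norm_nonneg _).trans ?_
    have h1 : (K * Real.log Q) ^ C ≤ (K * x) ^ C := pow_le_pow_left₀ (by positivity) (by gcongr) C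
    calc (K * Real.log Q) ^ C * _ ≤ (K * x) ^ C * (A * x ^ N * Real.exp (-(x ^ (1 / 3 : ℝ) / 2))) := by
          apply mul_le_mul h1 (hr₀ Q hQle) _ (by positivity)
          exact Finset.sum_nonneg fun r _ => by positivity
      _ = _ := by
          rw [mul_pow, pow_add]
          ring
  -- `Q` powers against `e`
  have hQ4 : (Q : ℝ) ^ 4 * e ≤ Real.exp (-(x ^ (1 / 3 : ℝ) / 2)) := by
    calc (Q : ℝ) ^ 4 * e ≤ (Real.exp (x / 24)) ^ 4 * e := by gcongr
      _ = Real.exp (-(x / 12)) := by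
          rw [he, ← Real.exp_nat_mul, ← Real.exp_add]
          congr 1
          push_cast
          ring
      _ ≤ _ := by
          apply Real.exp_le_exp.2
          linarith
  have hsecond : ∑ q ∈ T, w q * ∑ r ∈ (prims q).filter (fun r => r.1 ∣ q), (4 * (q.primeFactors.card : ℝ) * e) ≤
      4 * K1 * Real.exp (-(x ^ (1 / 3 : ℝ) / 2)) := by
    have h1 : ∀ q ∈ T, w q * ∑ r ∈ (prims q).filter (fun r => r.1 ∣ q), (4 * (q.primeFactors.card : ℝ) * e) ≤
        4 * K1 * (Q : ℝ) ^ 3 * e := by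
      intro q hq
      rw [hT, Finset.mem_filter, Finset.mem_Icc] at hq
      have hqQ : (q : ℝ) ≤ Q := by exact_mod_cast hq.1.2
      rw [Finset.sum_const, nsmul_eq_mul]
      have h2 : (((prims q).filter (fun r => r.1 ∣ q)).card : ℝ) ≤ (Q : ℝ) ^ 2 := by
        have h3 := (Finset.card_filter_le (prims q) (fun r => r.1 ∣ q)).trans (card_prims q)
        have h4 : (((prims q).filter (fun r => r.1 ∣ q)).card : ℝ) ≤ ((q ^ 2 : ℕ) : ℝ) := by exact_mod_cast h3
        push_cast at h4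
        exact h4.trans (pow_le_pow_left₀ (Nat.cast_nonneg _) hqQ 2)
      have h5 : 4 * (q.primeFactors.card : ℝ) * e ≤ 4 * Q * e := by
        have := (card_pf_le q).trans hqQ
        exact mul_le_mul_of_nonneg_right (by linarith) he0.le
      calc w q * ((((prims q).filter (fun r => r.1 ∣ q)).card : ℝ) * (4 * (q.primeFactors.card : ℝ) * e))
          ≤ K1 * ((Q : ℝ) ^ 2 * (4 * Q * e)) := by
            apply mul_le_mul (hK1 q hq.2.1).1 _ (by positivity) hK10.le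
            exact mul_le_mul h2 h5 (by positivity) (by positivity)
        _ = _ := by ring
    calc _ ≤ ∑ q ∈ T, 4 * K1 * (Q : ℝ) ^ 3 * e := Finset.sum_le_sum h1
      _ = (T.card : ℝ) * (4 * K1 * (Q : ℝ) ^ 3 * e) := by rw [Finset.sum_const, nsmul_eq_mul]
      _ ≤ Q * (4 * K1 * (Q : ℝ) ^ 3 * e) := mul_le_mul_of_nonneg_right hTcard (by positivity)
      _ = 4 * K1 * ((Q : ℝ) ^ 4 * e) := by ring
      _ ≤ _ := mul_le_mul_of_nonneg_left hQ4 (by positivity)
  have hthird : ∑ q ∈ T, (C : ℝ) ^ q.primeFactors.card * ((1 / (q.totient : ℝ)) * (4 * q.primeFactors.card * e) +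
      (4 * q.primeFactors.card + Kpp) * e) ≤ K1 * (8 + Kpp) * Real.exp (-(x ^ (1 / 3 : ℝ) / 2)) := by
    have h1 : ∀ q ∈ T, (C : ℝ) ^ q.primeFactors.card * ((1 / (q.totient : ℝ)) * (4 * q.primeFactors.card * e) +
      (4 * q.primeFactors.card + Kpp) * e) ≤ K1 * (8 + Kpp) * (Q : ℝ) ^ 3 * e := by
      intro q hq
      rw [hT, Finset.mem_filter, Finset.mem_Icc] at hq
      have hqQ : (q : ℝ) ≤ Q := by exact_mod_cast hq.1.2
      have hpf := (card_pf_le q).trans hqQ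
      have hφ : (1 : ℝ) ≤ q.totient := by exact_mod_cast Nat.totient_pos.2 hq.1.1
      have h2 : 1 / (q.totient : ℝ) ≤ 1 := by
        rw [div_le_one (by linarith)]
        exact hφ
      have h3 : (1 / (q.totient : ℝ)) * (4 * q.primeFactors.card * e) ≤ 4 * Q * e := by
        calc (1 / (q.totient : ℝ)) * (4 * q.primeFactors.card * e) ≤ 1 * (4 * Q * e) := by gcongr
          _ = 4 * Q * e := one_mul _
      have h4 : (4 * (q.primeFactors.card : ℝ) + Kpp) * e ≤ (4 * Q + Kpp * Q) * e := by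
        gcongr
        nlinarith
      have h5 : (C : ℝ) ^ q.primeFactors.card ≤ K1 * Q := by
        refine (hK1 q hq.2.1).2.trans ?_
        gcongr
      calc _ ≤ (K1 * Q) * (4 * Q * e + (4 * Q + Kpp * Q) * e) := by
            apply mul_le_mul h5 (add_le_add h3 h4) (by positivity) (by positivity)
        _ = K1 * (8 + Kpp) * (Q : ℝ) ^ 2 * e := by ring
        _ ≤ K1 * (8 + Kpp) * (Q : ℝ) ^ 3 * e := by
            have : (Q : ℝ) ^ 2 ≤ (Q : ℝ) ^ 3 := pow_le_pow_right₀ (by linarith) (by norm_num)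
            gcongr
    calc _ ≤ ∑ q ∈ T, K1 * (8 + Kpp) * (Q : ℝ) ^ 3 * e := Finset.sum_le_sum h1
      _ = (T.card : ℝ) * (K1 * (8 + Kpp) * (Q : ℝ) ^ 3 * e) := by rw [Finset.sum_const, nsmul_eq_mul]
      _ ≤ Q * (K1 * (8 + Kpp) * (Q : ℝ) ^ 3 * e) := mul_le_mul_of_nonneg_right hTcard (by positivity)
      _ = K1 * (8 + Kpp) * ((Q : ℝ) ^ 4 * e) := by ring
      _ ≤ _ := mul_le_mul_of_nonneg_left hQ4 (by positivity)
  -- combine
  have hsplit : ∀ q ∈ T, (C : ℝ) ^ q.primeFactors.card * erB x q ≤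
      w q * ∑ r ∈ (prims q).filter (fun r => r.1 ∣ q), ‖SS r.2 x‖ +
      w q * ∑ r ∈ (prims q).filter (fun r => r.1 ∣ q), (4 * (q.primeFactors.card : ℝ) * e) +
      (C : ℝ) ^ q.primeFactors.card * ((1 / (q.totient : ℝ)) * (4 * q.primeFactors.card * e) +
        (4 * q.primeFactors.card + Kpp) * e) := by
    intro q hq
    rw [hT, Finset.mem_filter, Finset.mem_Icc] at hq
    have h1 := csum_le x hq.1.1
    rw [Finset.sum_add_distrib] at h1
    have h2 := mul_le_mul_of_nonneg_left h1 (hw0 q)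
    have h3 : (C : ℝ) ^ q.primeFactors.card * erB x q = w q * csum x q +
        (C : ℝ) ^ q.primeFactors.card * ((1 / (q.totient : ℝ)) * (4 * q.primeFactors.card * e) +
          (4 * q.primeFactors.card + Kpp) * e) := by
      unfold erB
      simp only [hw]
      ring
    rw [h3]
    linarith
  have hfin : K ^ C * A * x ^ (C + N) + 4 * K1 + K1 * (8 + Kpp) ≤ Real.exp (x ^ (1 / 4 : ℝ)) := by
    refine le_trans ?_ g1
    have hp : (1 : ℝ) ≤ x ^ (C + N) := one_le_pow₀ (by linarith)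
    have hKK : 0 ≤ K1 * (8 + Kpp) := by positivity
    nlinarith
  calc ∑ q ∈ T, (C : ℝ) ^ q.primeFactors.card * erB x q
      ≤ K ^ C * A * x ^ (C + N) * Real.exp (-(x ^ (1 / 3 : ℝ) / 2)) +
        4 * K1 * Real.exp (-(x ^ (1 / 3 : ℝ) / 2)) + K1 * (8 + Kpp) * Real.exp (-(x ^ (1 / 3 : ℝ) / 2)) := by
        refine (Finset.sum_le_sum hsplit).trans ?_
        rw [Finset.sum_add_distrib, Finset.sum_add_distrib]
        exact add_le_add (add_le_add hmain hsecond) hthird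
    _ = (K ^ C * A * x ^ (C + N) + 4 * K1 + K1 * (8 + Kpp)) * Real.exp (-(x ^ (1 / 3 : ℝ) / 2)) := by ring
    _ ≤ Real.exp (x ^ (1 / 4 : ℝ)) * Real.exp (-(x ^ (1 / 3 : ℝ) / 2)) := by gcongr
    _ = Real.exp (x ^ (1 / 4 : ℝ) - x ^ (1 / 3 : ℝ) / 2) := by rw [← Real.exp_add]; ring_nf
    _ ≤ Real.exp (-x ^ ((1 : ℝ) / 4)) := by
        apply Real.exp_le_exp.2
        linarith

/-- **Bombieri-Vinogradov** -/
theorem BVprop_of_LargeFamily (hLF : LargeFamily) : BVprop := by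
  intro C
  have h1 := BV_main hLF (max C 1) (le_max_right _ _)
  have h2 : ∀ᶠ x : ℝ in atTop, 9 / 10 ≤ S0 x :=
    (tendsto_S0.eventually (lt_mem_nhds (show (9 / 10 : ℝ) < 1 by norm_num))).mono fun x hx => le_of_lt hx
  obtain ⟨x0, hx0⟩ := Filter.eventually_atTop.1 (h1.and h2)
  refine ⟨x0, fun x hx => ?_⟩
  obtain ⟨⟨p1, hp1, hsum⟩, hS0⟩ := hx0 x hx
  refine ⟨p1, hp1, ⟨S0 x, erB x, erB_nonneg x, hS0, erB_unit x, erB_nonunit x⟩, le_trans ?_ hsum⟩
  apply Finset.sum_le_sum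
  intro q _
  apply mul_le_mul_of_nonneg_right _ (erB_nonneg x q)
  apply pow_le_pow_left₀ (Nat.cast_nonneg _)
  exact_mod_cast le_max_left C 1

end Pool.Agent.LibPL63
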