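import Pool.Agent.LibPL63.B7
import Pool.Agent.LibPL63.B0i

/-!
Bombieri-Vinogradov with a Gaussian weight at the level `1/24`: the theorem.
-/

namespace Pool.Agent.LibPL63

open Pool.Agent.LibMaier

theorem largeFamily : LargeFamily := by
  refine ⟨7, 10 ^ 7, fun x hx Q hQ F hF => ?_⟩
  have h := sum_SS_le (x := x) (by linarith) F fun r hr => by
    obtain ⟨h1, h2, h3⟩ := hF r hr
    refine ⟨by omega, ?_, h3⟩
    have h4 : (r.1 : ℝ) ≤ Q := by exact_mod_cast h2
    exact h4.trans hQ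
  refine h.trans ?_
  have hx0 : 0 < x := by linarith
  calc (10 : ℝ) ^ 7 * x ^ 6 ≤ x * x ^ 6 := by gcongr
    _ = x ^ 7 := by ring

/-- **Bombieri-Vinogradov** -/
theorem bv : BVprop := BVprop_of_LargeFamily largeFamily

end Pool.Agent.LibPL63
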