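import Mathlib
import Pool.Agent.LibGap5.Cor

/-! Row GAP: from `LibGap5.gaps_of_windows` (all `N`), with `N = Nat.primeCounting x`. -/

open Finset

namespace Pool.Agent.LibPL63

theorem gaps_of_one (h : ∀ l : ℝ, 0 < l → ∃ c : ℝ, 0 < c ∧ ∃ x₀ : ℕ, ∀ x : ℕ, x₀ ≤ x →
    c * x ≤ (((Icc 1 x).filter fun n : ℕ => Nat.primeCounting ⌊(n : ℝ) + l * Real.log n⌋₊ -
      Nat.primeCounting n = 1).card : ℝ)) (l : ℝ) (hl : 0 < l) :
    ∃ c : ℝ, 0 < c ∧ ∃ x₀ : ℕ, ∀ x : ℕ, x₀ ≤ x →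
      c * Nat.primeCounting x ≤ (((range (Nat.primeCounting x)).filter fun k : ℕ =>
        l * Real.log (Nat.nth Nat.Prime k) ≤
          (Nat.nth Nat.Prime (k + 1) : ℝ) - Nat.nth Nat.Prime k).card : ℝ) := by
  obtain ⟨c, hc, N₀, hN⟩ := Pool.Agent.LibGap5.gaps_of_windows h l hl
  refine ⟨c, hc, Nat.nth Nat.Prime N₀, fun x hx => hN _ ?_⟩
  have h1 : N₀ < Nat.count Nat.Prime (x + 1) := by
    rw [Nat.lt_nth_iff_count_lt Nat.infinite_setOfPred_prime]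
    exact Nat.lt_succ_of_le hx
  exact h1.le

end Pool.Agent.LibPL63
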