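import Pool.Agent.LibPL63.V0
import Pool.Agent.LibPL63.M1
import Pool.Agent.LibLG5.NT
import Pool.Agent.LibRG87.R0

/-!
Row M2 (the sums). Let `P = PL z k1 p1`, `k1 = q0 a^I`, `H u = ∑_{A ⊆ P, rr A ≤ z^u} 1/ph A` for natural `1 ≤ u ≤ k1`. Then `c0 u ≤ H u ≤ C0 u` for large `z`, uniformly in `p1`:
lower bound `NT_G_lower` (with `k = u`, `t = 1`, `T = PP z (z^u) ∩ {p1}`; the subsets of `PP z (z^u) \ {p1}` are subsets of `P`); upper bound: `A ⊆ PP z (z^u)`, so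
`H u ≤ ∏_{PP z (z^u)} (1 + 1/(p-1)) ≤ C0 u` (`Finset.prod_one_add`-type expansion = `nt_sum_powerset`; `NT_S_upper`). On the block `B_i = {z^(q0 a^(i-1)) < rr A ≤ z^(q0 a^i)}`
(`1 ≤ i ≤ I`) `g1 = a^-i`, and `g1 = 1` if `rr A ≤ z^q0`. With `a ≥ 2 C0/c0`:
`G1 ≥ ∑_i a^-i (c0 q0 a^i - C0 q0 a^(i-1)) ≥ I q0 c0/2`, `G1 ≤ C0 q0 + ∑_i a^-i C0 q0 a^i`, `c0 q0 ≤ H q0 ≤ G2 ≤ C0 q0 + ∑ a^(-2i) C0 q0 a^i ≤ 2 C0 q0`,
`L2 ≤ q0 log z C0 q0 + ∑ a^(-2i) q0 a^i log z C0 q0 a^i = C0 q0² log z (1 + I)`.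
Only finitely many `u` (`q0 a^i`, `i ≤ I`) are used, so eventually is fine.
-/

open Finset Filter

namespace Pool.Agent.LibPL63

open Pool.Agent.LibRG87 Pool.Agent.LibLG5

/-- the sums have the right size -/
def SumsP (a C : ℕ) (c : ℝ) : Prop :=
  2 ≤ a ∧ 1 ≤ C ∧ 0 < c ∧ c ≤ 1 ∧ ∀ I q0 : ℕ, 1 ≤ I → 1 ≤ q0 → ∀ᶠ z : ℕ in atTop, ∀ p1 : ℕ,
    c * I * q0 ≤ G1s (PL z (q0 * a ^ I) p1) z q0 a I ∧
    G1s (PL z (q0 * a ^ I) p1) z q0 a I ≤ C * (I + 1) * q0 ∧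
    c * q0 ≤ G2s (PL z (q0 * a ^ I) p1) z q0 a I ∧
    G2s (PL z (q0 * a ^ I) p1) z q0 a I ≤ C * q0 ∧
    L2s (PL z (q0 * a ^ I) p1) z q0 a I ≤ C * (I + 1) * q0 ^ 2 * Real.log z

open scoped Classical in
/-- the partial sums -/
private noncomputable def M2_H (P : Finset ℕ) (z u : ℕ) : ℝ :=
  ∑ A ∈ P.powerset with rr A ≤ (z : ℝ) ^ u, 1 / ph A

private theorem M2_lower : ∃ c : ℝ, 0 < c ∧ ∀ z k u p1 : ℕ, 2 ≤ z → u ≤ k →
    c * u ≤ M2_H (PL z k p1) z u := by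
  obtain ⟨c, hc, h⟩ := nt_lower
  refine ⟨c, hc, fun z k u p1 hz hu => ?_⟩
  have h1 := h z u k hz hu {p1} (by rw [Finset.card_singleton]; omega)
  rw [Finset.sdiff_singleton_eq_erase] at h1
  refine h1.trans (le_of_eq ?_)
  unfold M2_H PL
  apply Finset.sum_congr _ (fun _ _ => rfl)
  ext A
  simp only [Finset.mem_filter]
  push_cast
  rfl

private theorem M2_prime {z k p1 : ℕ} : ∀ p ∈ PL z k p1, p.Prime := fun _ hp => (mem_PL.1 hp).2.1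

private theorem M2_upper : ∃ C : ℝ, 0 < C ∧ ∀ z k u p1 : ℕ, 2 ≤ z → 1 ≤ u →
    M2_H (PL z k p1) z u ≤ C * u := by
  obtain ⟨C, hC, h⟩ := nt_upper
  refine ⟨C, hC, fun z k u p1 hz hu => le_trans ?_ (h z u hz hu)⟩
  unfold M2_H
  apply Finset.sum_le_sum_of_subset_of_nonneg
  · intro A hA
    rw [Finset.mem_filter, Finset.mem_powerset] at hA
    rw [Finset.mem_powerset]
    intro p hp
    have h1 := mem_PL.1 (hA.1 hp)
    rw [nt_mem]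
    refine ⟨h1.2.2.1, ?_, h1.2.1⟩
    have h2 : (p : ℝ) ≤ rr A := by
      unfold rr
      rw [← Nat.cast_prod]
      exact_mod_cast Nat.le_of_dvd
        (Finset.prod_pos fun q hq => (M2_prime q (hA.1 hq)).pos) (Finset.dvd_prod_of_mem _ hp)
    have h3 : (p : ℝ) ≤ ((z ^ u : ℕ) : ℝ) := by
      push_cast
      exact h2.trans hA.2
    exact_mod_cast h3
  · intro A hA _
    rw [Finset.mem_powerset] at hA
    exact div_nonneg zero_le_one (ph_pos (PP z (z ^ u)) (fun p hp => (nt_mem.1 hp).2.2) hA).le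

private theorem M2_abel (t : ℕ → ℝ) (ht : Monotone t) (x r : ℝ) (I : ℕ) (h : r ≤ t I) :
    x ^ ((range I).filter (fun i => t i < r)).card =
      x ^ I + ∑ i ∈ range I, (x ^ i - x ^ (i + 1)) * (if r ≤ t i then 1 else 0) := by
  induction I with
  | zero => simp
  | succ I ih =>
    rw [Finset.sum_range_succ, Finset.range_add_one, Finset.filter_insert]
    by_cases h1 : r ≤ t I
    · rw [if_neg (not_lt.2 h1), if_pos h1, ih h1]
      ring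
    · have h2 : t I < r := not_le.1 h1
      have h3 : (range I).filter (fun i => t i < r) = range I := by
        apply Finset.filter_true_of_mem
        intro i hi
        exact lt_of_le_of_lt (ht (Finset.mem_range.1 hi).le) h2
      have h4 : ∑ i ∈ range I, (x ^ i - x ^ (i + 1)) * (if r ≤ t i then (1 : ℝ) else 0) = 0 := by
        apply Finset.sum_eq_zero
        intro i hi
        rw [if_neg, mul_zero]
        exact not_le.2 (lt_of_le_of_lt (ht (Finset.mem_range.1 hi).le) h2)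
      rw [if_pos h2, if_neg h1, h3, h4, Finset.card_insert_of_notMem Finset.notMem_range_self,
        Finset.card_range]
      ring

private theorem M2_lev (t : ℕ → ℝ) (ht : Monotone t) (r : ℝ) (I : ℕ) (h : r ≤ t I) :
    r ≤ t ((range I).filter (fun i => t i < r)).card := by
  by_contra hn
  push Not at hn
  set l := ((range I).filter (fun i => t i < r)).card with hl
  have hlI : l ≤ I := by
    have := Finset.card_filter_le (range I) (fun i => t i < r)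
    rwa [Finset.card_range] at this
  have hlt : l < I := by
    rcases hlI.lt_or_eq with h1 | h1
    · exact h1
    · rw [h1] at hn
      exact absurd h (not_le.2 hn)
  have hsub : range (l + 1) ⊆ (range I).filter (fun i => t i < r) := by
    intro i hi
    rw [Finset.mem_range] at hi
    rw [Finset.mem_filter, Finset.mem_range]
    exact ⟨by omega, lt_of_le_of_lt (ht (by omega)) hn⟩
  have h2 := Finset.card_le_card hsub
  rw [Finset.card_range] at h2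
  omega

private theorem M2_mono {z q0 a : ℕ} (hz : 1 ≤ z) (ha : 1 ≤ a) :
    Monotone fun i => (z : ℝ) ^ (q0 * a ^ i) := by
  intro i j hij
  exact pow_le_pow_right₀ (by exact_mod_cast hz)
    (Nat.mul_le_mul_left _ (Nat.pow_le_pow_right ha hij))

open scoped Classical in
private theorem M2_sum (P : Finset ℕ) {z q0 a : ℕ} (I : ℕ) (hz : 1 ≤ z) (ha : 1 ≤ a) (x : ℝ) :
    ∑ A ∈ P.powerset, (if rr A ≤ (z : ℝ) ^ (q0 * a ^ I) then x ^ lev z q0 a I A else 0) / ph A =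
      x ^ I * M2_H P z (q0 * a ^ I) +
        ∑ i ∈ range I, (x ^ i - x ^ (i + 1)) * M2_H P z (q0 * a ^ i) := by
  have hH : ∀ u, M2_H P z u = ∑ A ∈ P.powerset, (if rr A ≤ (z : ℝ) ^ u then 1 / ph A else 0) := by
    intro u
    unfold M2_H
    rw [Finset.sum_filter]
  simp only [hH, Finset.mul_sum]
  rw [Finset.sum_comm, ← Finset.sum_add_distrib]
  refine Finset.sum_congr rfl fun A _ => ?_
  have hmono := M2_mono (q0 := q0) hz ha
  by_cases h : rr A ≤ (z : ℝ) ^ (q0 * a ^ I)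
  · rw [if_pos h, if_pos h]
    have h1 := M2_abel (fun i => (z : ℝ) ^ (q0 * a ^ i)) hmono x (rr A) I h
    have h2 : x ^ lev z q0 a I A =
        x ^ I + ∑ i ∈ range I, (x ^ i - x ^ (i + 1)) *
          (if rr A ≤ (z : ℝ) ^ (q0 * a ^ i) then 1 else 0) := by
      rw [← h1]
      unfold lev
      congr 2
    rw [h2, add_div, Finset.sum_div]
    congr 1
    · ring
    · refine Finset.sum_congr rfl fun i _ => ?_
      split_ifs <;> ring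
  · rw [if_neg h, if_neg h, zero_div, mul_zero, zero_add]
    symm
    apply Finset.sum_eq_zero
    intro i hi
    rw [if_neg, mul_zero]
    exact fun h1 => h (h1.trans (hmono (Finset.mem_range.1 hi).le))

private theorem M2_g1 (P : Finset ℕ) {z q0 a : ℕ} (I : ℕ) (hz : 1 ≤ z) (ha : 1 ≤ a) :
    G1s P z q0 a I = ((a : ℝ)⁻¹) ^ I * M2_H P z (q0 * a ^ I) +
        ∑ i ∈ range I, (((a : ℝ)⁻¹) ^ i - ((a : ℝ)⁻¹) ^ (i + 1)) * M2_H P z (q0 * a ^ i) := by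
  rw [← M2_sum P I hz ha]
  rfl

private theorem M2_g2 (P : Finset ℕ) {z q0 a : ℕ} (I : ℕ) (hz : 1 ≤ z) (ha : 1 ≤ a) :
    G2s P z q0 a I = (((a : ℝ)⁻¹) ^ 2) ^ I * M2_H P z (q0 * a ^ I) +
        ∑ i ∈ range I, ((((a : ℝ)⁻¹) ^ 2) ^ i - (((a : ℝ)⁻¹) ^ 2) ^ (i + 1)) *
          M2_H P z (q0 * a ^ i) := by
  rw [← M2_sum P I hz ha]
  unfold G2s
  refine Finset.sum_congr rfl fun A _ => ?_
  unfold g1
  split_ifs
  · rw [← pow_mul, ← pow_mul, mul_comm]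
  · rw [zero_pow two_ne_zero]

private theorem M2_l2 (P : Finset ℕ) (hP : ∀ p ∈ P, p.Prime) {z q0 : ℕ} (I : ℕ) (hz : 1 ≤ z) :
    L2s P z q0 2 I ≤ q0 * Real.log z * G1s P z q0 2 I := by
  unfold L2s G1s
  rw [Finset.mul_sum]
  refine Finset.sum_le_sum fun A hA => ?_
  rw [Finset.mem_powerset] at hA
  have hph := ph_pos P hP hA
  have hrr := rr_pos P hP hA
  have hz0 : (0 : ℝ) < z := by exact_mod_cast hz
  unfold g1
  split_ifs with h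
  · have h1 := M2_lev _ (M2_mono (q0 := q0) hz (show 1 ≤ 2 by norm_num)) (rr A) I h
    have h2 : rr A ≤ (z : ℝ) ^ (q0 * 2 ^ lev z q0 2 I A) := by
      refine h1.trans (le_of_eq ?_)
      unfold lev
      congr 2
    have h3 : Real.log (rr A) ≤ (q0 * 2 ^ lev z q0 2 I A : ℕ) * Real.log z := by
      rw [← Real.log_pow]
      exact Real.log_le_log hrr h2
    set l := lev z q0 2 I A with hl
    push_cast at h3 ⊢
    have e1 : (2 : ℝ)⁻¹ ^ l * 2 ^ l = 1 := by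
      rw [← mul_pow]
      norm_num
    have h4 : (0 : ℝ) ≤ (2 : ℝ)⁻¹ ^ l := by positivity
    have h5 : (2 : ℝ)⁻¹ ^ l * Real.log (rr A) ≤ q0 * Real.log z := by
      calc (2 : ℝ)⁻¹ ^ l * Real.log (rr A) ≤ (2 : ℝ)⁻¹ ^ l * (q0 * 2 ^ l * Real.log z) :=
            mul_le_mul_of_nonneg_left h3 h4
        _ = q0 * Real.log z * ((2 : ℝ)⁻¹ ^ l * 2 ^ l) := by ring
        _ = q0 * Real.log z := by rw [e1, mul_one]
    calc ((2 : ℝ)⁻¹ ^ l) ^ 2 / ph A * Real.log (rr A)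
        = ((2 : ℝ)⁻¹ ^ l / ph A) * ((2 : ℝ)⁻¹ ^ l * Real.log (rr A)) := by ring
      _ ≤ ((2 : ℝ)⁻¹ ^ l / ph A) * (q0 * Real.log z) :=
          mul_le_mul_of_nonneg_left h5 (div_nonneg h4 hph.le)
      _ = _ := by ring
  · simp

theorem sums : ∃ (a C : ℕ) (c : ℝ), SumsP a C c := by
  obtain ⟨c0, hc0, hlow⟩ := M2_lower
  obtain ⟨C0, hC0, hup⟩ := M2_upper
  obtain ⟨C, hC⟩ := exists_nat_gt (3 * C0 + 1)
  have hC1 : (1 : ℝ) ≤ C := by linarith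
  refine ⟨2, C, min (c0 / 2) 1, le_rfl, by exact_mod_cast hC1, lt_min (by positivity) one_pos,
    min_le_right _ _, fun I q0 hI hq0 => ?_⟩
  filter_upwards [eventually_ge_atTop 2] with z hz p1
  set P := PL z (q0 * 2 ^ I) p1 with hPdef
  have hP : ∀ p ∈ P, p.Prime := M2_prime
  have hz1 : 1 ≤ z := by omega
  have hz1' : (1 : ℝ) ≤ z := by exact_mod_cast hz1
  have hlz : 0 ≤ Real.log z := Real.log_nonneg hz1'
  have hq : (1 : ℝ) ≤ q0 := by exact_mod_cast hq0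
  have hcm : min (c0 / 2) 1 ≤ c0 / 2 := min_le_left _ _
  have hlo : ∀ i ≤ I, c0 * (q0 * 2 ^ i) ≤ M2_H P z (q0 * 2 ^ i) := by
    intro i hi
    have := hlow z (q0 * 2 ^ I) (q0 * 2 ^ i) p1 hz
      (Nat.mul_le_mul_left _ (Nat.pow_le_pow_right (by norm_num) hi))
    push_cast at this
    exact this
  have hhi : ∀ i ≤ I, M2_H P z (q0 * 2 ^ i) ≤ C0 * (q0 * 2 ^ i) := by
    intro i _
    have := hup z (q0 * 2 ^ I) (q0 * 2 ^ i) p1 hz (Nat.mul_pos (by omega) (by positivity))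
    push_cast at this
    exact this
  have hI1 : (1 : ℝ) ≤ I := by exact_mod_cast hI
  have e1 : ∀ i : ℕ, (((2 : ℕ) : ℝ)⁻¹) ^ i - (((2 : ℕ) : ℝ)⁻¹) ^ (i + 1) =
      (2 : ℝ)⁻¹ * (2 : ℝ)⁻¹ ^ i := by
    intro i
    push_cast
    rw [pow_succ]
    ring
  have e2 : ∀ i : ℕ, ((((2 : ℕ) : ℝ)⁻¹) ^ 2) ^ i - ((((2 : ℕ) : ℝ)⁻¹) ^ 2) ^ (i + 1) =
      3 / 4 * ((2 : ℝ)⁻¹ ^ i * (2 : ℝ)⁻¹ ^ i) := by
    intro i
    push_cast
    rw [pow_succ, ← mul_pow, ← sq]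
    ring
  have e3 : ∀ i : ℕ, (2 : ℝ)⁻¹ ^ i * 2 ^ i = 1 := by
    intro i
    rw [← mul_pow]
    norm_num
  have hp : ∀ i : ℕ, (0 : ℝ) < (2 : ℝ)⁻¹ ^ i := fun i => by positivity
  have hp1 : ∀ i : ℕ, (2 : ℝ)⁻¹ ^ i ≤ 1 := fun i => pow_le_one₀ (by norm_num) (by norm_num)
  -- the first sum
  have G1up : G1s P z q0 2 I ≤ C0 * (I + 1) * q0 := by
    rw [M2_g1 P I hz1 (by norm_num)]
    have k1 : (((2 : ℕ) : ℝ)⁻¹) ^ I * M2_H P z (q0 * 2 ^ I) ≤ C0 * q0 := by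
      push_cast
      calc (2 : ℝ)⁻¹ ^ I * M2_H P z (q0 * 2 ^ I) ≤ (2 : ℝ)⁻¹ ^ I * (C0 * (q0 * 2 ^ I)) :=
            mul_le_mul_of_nonneg_left (hhi I le_rfl) (hp I).le
        _ = C0 * q0 * ((2 : ℝ)⁻¹ ^ I * 2 ^ I) := by ring
        _ = C0 * q0 := by rw [e3, mul_one]
    have k2 : ∑ i ∈ range I, ((((2 : ℕ) : ℝ)⁻¹) ^ i - (((2 : ℕ) : ℝ)⁻¹) ^ (i + 1)) *
        M2_H P z (q0 * 2 ^ i) ≤ ∑ i ∈ range I, C0 * q0 := by
      refine Finset.sum_le_sum fun i hi => ?_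
      rw [e1]
      calc (2 : ℝ)⁻¹ * (2 : ℝ)⁻¹ ^ i * M2_H P z (q0 * 2 ^ i)
          ≤ (2 : ℝ)⁻¹ * (2 : ℝ)⁻¹ ^ i * (C0 * (q0 * 2 ^ i)) :=
            mul_le_mul_of_nonneg_left (hhi i (Finset.mem_range.1 hi).le) (by positivity)
        _ = (2 : ℝ)⁻¹ * (C0 * q0) * ((2 : ℝ)⁻¹ ^ i * 2 ^ i) := by ring
        _ = (2 : ℝ)⁻¹ * (C0 * q0) := by rw [e3, mul_one]
        _ ≤ C0 * q0 := by nlinarith [mul_pos hC0 (lt_of_lt_of_le one_pos hq)]
    rw [Finset.sum_const, Finset.card_range, nsmul_eq_mul] at k2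
    calc _ ≤ C0 * q0 + I * (C0 * q0) := add_le_add k1 k2
      _ = C0 * (I + 1) * q0 := by ring
  have hH0 : ∀ i ≤ I, 0 ≤ M2_H P z (q0 * 2 ^ i) := fun i hi =>
    le_trans (by positivity) (hlo i hi)
  have G1lo : c0 / 2 * I * q0 ≤ G1s P z q0 2 I := by
    rw [M2_g1 P I hz1 (by norm_num)]
    have k1 : 0 ≤ (((2 : ℕ) : ℝ)⁻¹) ^ I * M2_H P z (q0 * 2 ^ I) :=
      mul_nonneg (by positivity) (hH0 I le_rfl)
    have k2 : ∑ i ∈ range I, c0 / 2 * q0 ≤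
        ∑ i ∈ range I, ((((2 : ℕ) : ℝ)⁻¹) ^ i - (((2 : ℕ) : ℝ)⁻¹) ^ (i + 1)) *
        M2_H P z (q0 * 2 ^ i) := by
      refine Finset.sum_le_sum fun i hi => ?_
      rw [e1]
      calc c0 / 2 * q0 = (2 : ℝ)⁻¹ * (c0 * q0) * ((2 : ℝ)⁻¹ ^ i * 2 ^ i) := by
            rw [e3]
            ring
        _ = (2 : ℝ)⁻¹ * (2 : ℝ)⁻¹ ^ i * (c0 * (q0 * 2 ^ i)) := by ring
        _ ≤ _ := mul_le_mul_of_nonneg_left (hlo i (Finset.mem_range.1 hi).le) (by positivity)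
    rw [Finset.sum_const, Finset.card_range, nsmul_eq_mul] at k2
    calc c0 / 2 * I * q0 = 0 + I * (c0 / 2 * q0) := by ring
      _ ≤ _ := add_le_add k1 k2
  have G2up : G2s P z q0 2 I ≤ 3 * C0 * q0 := by
    rw [M2_g2 P I hz1 (by norm_num)]
    have k1 : ((((2 : ℕ) : ℝ)⁻¹) ^ 2) ^ I * M2_H P z (q0 * 2 ^ I) ≤ C0 * q0 := by
      have e4 : ((((2 : ℕ) : ℝ)⁻¹) ^ 2) ^ I = (2 : ℝ)⁻¹ ^ I * (2 : ℝ)⁻¹ ^ I := by
        push_cast
        rw [← mul_pow, ← sq]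
      rw [e4]
      calc (2 : ℝ)⁻¹ ^ I * (2 : ℝ)⁻¹ ^ I * M2_H P z (q0 * 2 ^ I)
          ≤ (2 : ℝ)⁻¹ ^ I * (2 : ℝ)⁻¹ ^ I * (C0 * (q0 * 2 ^ I)) :=
            mul_le_mul_of_nonneg_left (hhi I le_rfl) (by positivity)
        _ = C0 * q0 * (2 : ℝ)⁻¹ ^ I * ((2 : ℝ)⁻¹ ^ I * 2 ^ I) := by ring
        _ = C0 * q0 * (2 : ℝ)⁻¹ ^ I := by rw [e3, mul_one]
        _ ≤ C0 * q0 * 1 := mul_le_mul_of_nonneg_left (hp1 I) (by positivity)
        _ = C0 * q0 := mul_one _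
    have k2 : ∑ i ∈ range I, (((((2 : ℕ) : ℝ)⁻¹) ^ 2) ^ i - ((((2 : ℕ) : ℝ)⁻¹) ^ 2) ^ (i + 1)) *
        M2_H P z (q0 * 2 ^ i) ≤ ∑ i ∈ range I, C0 * q0 * (1 / 2) ^ i := by
      refine Finset.sum_le_sum fun i hi => ?_
      rw [e2]
      calc 3 / 4 * ((2 : ℝ)⁻¹ ^ i * (2 : ℝ)⁻¹ ^ i) * M2_H P z (q0 * 2 ^ i)
          ≤ 3 / 4 * ((2 : ℝ)⁻¹ ^ i * (2 : ℝ)⁻¹ ^ i) * (C0 * (q0 * 2 ^ i)) :=
            mul_le_mul_of_nonneg_left (hhi i (Finset.mem_range.1 hi).le) (by positivity)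
        _ = 3 / 4 * (C0 * q0 * (2 : ℝ)⁻¹ ^ i) * ((2 : ℝ)⁻¹ ^ i * 2 ^ i) := by ring
        _ = 3 / 4 * (C0 * q0 * (2 : ℝ)⁻¹ ^ i) := by rw [e3, mul_one]
        _ ≤ C0 * q0 * (2 : ℝ)⁻¹ ^ i := by
            have : 0 < C0 * q0 * (2 : ℝ)⁻¹ ^ i := by positivity
            linarith
        _ = C0 * q0 * (1 / 2) ^ i := by rw [one_div]
    rw [← Finset.mul_sum] at k2
    have k3 := mul_le_mul_of_nonneg_left (sum_geometric_two_le I)
      (show 0 ≤ C0 * q0 by positivity)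
    calc _ ≤ C0 * q0 + C0 * q0 * 2 := add_le_add k1 (k2.trans k3)
      _ = 3 * C0 * q0 := by ring
  have G2lo : c0 / 2 * q0 ≤ G2s P z q0 2 I := by
    rw [M2_g2 P I hz1 (by norm_num)]
    have k1 : 0 ≤ ((((2 : ℕ) : ℝ)⁻¹) ^ 2) ^ I * M2_H P z (q0 * 2 ^ I) :=
      mul_nonneg (by positivity) (hH0 I le_rfl)
    have k2 : (((((2 : ℕ) : ℝ)⁻¹) ^ 2) ^ 0 - ((((2 : ℕ) : ℝ)⁻¹) ^ 2) ^ (0 + 1)) *
        M2_H P z (q0 * 2 ^ 0) ≤
        ∑ i ∈ range I, (((((2 : ℕ) : ℝ)⁻¹) ^ 2) ^ i - ((((2 : ℕ) : ℝ)⁻¹) ^ 2) ^ (i + 1)) *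
        M2_H P z (q0 * 2 ^ i) := by
      apply Finset.single_le_sum (f := fun i =>
        (((((2 : ℕ) : ℝ)⁻¹) ^ 2) ^ i - ((((2 : ℕ) : ℝ)⁻¹) ^ 2) ^ (i + 1)) *
        M2_H P z (q0 * 2 ^ i))
      · intro i hi
        show 0 ≤ _ * _
        rw [e2]
        exact mul_nonneg (by positivity) (hH0 i (Finset.mem_range.1 hi).le)
      · exact Finset.mem_range.2 (by omega)
    rw [e2, pow_zero, one_mul, mul_one] at k2
    have k3 := hlo 0 (Nat.zero_le _)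
    rw [pow_zero, mul_one] at k3
    have k5 : 0 < c0 * q0 := by positivity
    have k4 : c0 / 2 * q0 ≤ 3 / 4 * M2_H P z (q0 * 2 ^ 0) := by
      calc c0 / 2 * q0 = 1 / 2 * (c0 * q0) := by ring
        _ ≤ 3 / 4 * (c0 * q0) := by linarith
        _ ≤ _ := mul_le_mul_of_nonneg_left k3 (by norm_num)
    calc c0 / 2 * q0 ≤ 3 / 4 * M2_H P z (q0 * 2 ^ 0) := k4
      _ ≤ _ := k2
      _ ≤ _ := le_add_of_nonneg_left k1
  have hq0' : (0 : ℝ) ≤ q0 := by linarith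
  refine ⟨?_, ?_, ?_, ?_, ?_⟩
  · refine le_trans ?_ G1lo
    exact mul_le_mul_of_nonneg_right (mul_le_mul_of_nonneg_right hcm (by linarith)) hq0'
  · refine G1up.trans ?_
    exact mul_le_mul_of_nonneg_right (mul_le_mul_of_nonneg_right (by linarith) (by linarith)) hq0'
  · exact le_trans (mul_le_mul_of_nonneg_right hcm hq0') G2lo
  · exact G2up.trans (mul_le_mul_of_nonneg_right (by linarith) hq0')
  · refine (M2_l2 P hP I hz1).trans ?_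
    calc (q0 : ℝ) * Real.log z * G1s P z q0 2 I
        ≤ q0 * Real.log z * (C0 * (I + 1) * q0) :=
          mul_le_mul_of_nonneg_left G1up (mul_nonneg hq0' hlz)
      _ = C0 * ((I + 1) * q0 ^ 2 * Real.log z) := by ring
      _ ≤ C * ((I + 1) * q0 ^ 2 * Real.log z) :=
          mul_le_mul_of_nonneg_right (by linarith) (by positivity)
      _ = _ := by ring

end Pool.Agent.LibPL63
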