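import Pool.Agent.LibPL63.M1
import Pool.Agent.LibRG87.R10

/-!
Row M6 (collapse). Same proof as `LibRG87.collapse` (row R10, use its lemmas `R10_rem`, `R10_ins`, `R10_prod`, `R10_ee`, …) with `g1` in place of `ff` (`g1_empty`).
-/

open Finset Filter

namespace Pool.Agent.LibPL63

open Pool.Agent.LibRG87 Pool.Agent.LibLG5

/-- one term -/
private theorem M6_term {ι : Type} [Fintype ι] [DecidableEq ι] (P : Finset ℕ)
    {z : ℕ} (hz : 1 ≤ z) (q0 a I L : ℕ) (b : ι → ℕ) (i₀ : ι) (n : ℕ)
    (hn : ∀ p ∈ P, ¬ p ∣ n + b i₀)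
    (β β' : P → Option ι) (h : R10_rem P i₀ β = β') :
    yM P z q0 a I L β * ee P b β n =
      (if rr (fb P β i₀) * rr (sp P β') ≤ (z : ℝ) ^ L then
        g1 z q0 a I (fb P β i₀) / ph (fb P β i₀) else 0) *
          ((∏ i, g1 z q0 a I (fb P β' i)) * ee P b β' n) := by
  have h1 : rr (sp P β) = rr (fb P β i₀) * rr (sp P β') := by
    rw [rr_sp, rr_sp, R10_prod P rr R10_rr_empty i₀ β, h]
  have h2 : ∏ i, g1 z q0 a I (fb P β i) =
      g1 z q0 a I (fb P β i₀) * ∏ i, g1 z q0 a I (fb P β' i) := by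
    rw [R10_prod P (g1 z q0 a I) (g1_empty hz) i₀ β, h]
  have h3 := R10_ee P b i₀ n hn β
  rw [h] at h3
  unfold yM
  rw [h1, h2, h3]
  by_cases h4 : rr (fb P β i₀) * rr (sp P β') ≤ (z : ℝ) ^ L
  · rw [if_pos h4, if_pos h4]
    ring
  · rw [if_neg h4, if_neg h4]
    ring

theorem collapseM {ι : Type} [Fintype ι] [DecidableEq ι] (P : Finset ℕ) (hP : ∀ p ∈ P, p.Prime)
    {z : ℕ} (hz : 1 ≤ z) (q0 a I L : ℕ) (b : ι → ℕ) (i0 : ι) (n : ℕ)
    (hn : ∀ p ∈ P, ¬ p ∣ n + b i0) :
    PhiF P b (yM P z q0 a I L) n = PhiF P b (yC P z q0 a I L i0) n := by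
  classical
  unfold PhiF
  rw [← Finset.sum_fiberwise univ (R10_rem P i0) (fun β => yM P z q0 a I L β * ee P b β n)]
  refine Finset.sum_congr rfl fun β' _ => ?_
  by_cases hβ' : ∀ p, β' p ≠ some i0
  · have h1 : yC P z q0 a I L i0 β' = (∏ i, g1 z q0 a I (fb P β' i)) *
        ∑ A ∈ (P \ sp P β').powerset with rr A * rr (sp P β') ≤ (z : ℝ) ^ L,
          g1 z q0 a I A / ph A := by
      unfold yC
      rw [if_pos hβ']
    rw [h1]
    have h2 : ∑ β ∈ univ with R10_rem P i0 β = β', yM P z q0 a I L β * ee P b β n =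
        ∑ A ∈ (P \ sp P β').powerset,
          (if rr A * rr (sp P β') ≤ (z : ℝ) ^ L then g1 z q0 a I A / ph A else 0) *
          ((∏ i, g1 z q0 a I (fb P β' i)) * ee P b β' n) := by
      refine Finset.sum_nbij' (fun β => fb P β i0) (fun A => R10_ins P i0 A β') ?_ ?_ ?_ ?_ ?_
      · intro β hβ
        have hβ2 := (Finset.mem_filter.1 hβ).2
        rw [Finset.mem_powerset]
        intro q hq
        obtain ⟨hqP, h3⟩ := (mem_fb P).1 hq
        rw [Finset.mem_sdiff]
        refine ⟨hqP, fun h4 => ?_⟩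
        obtain ⟨_, h5⟩ := (mem_sp P).1 h4
        apply h5
        rw [← hβ2]
        unfold R10_rem
        rw [if_pos h3]
      · intro A hA
        rw [Finset.mem_powerset] at hA
        rw [Finset.mem_filter]
        refine ⟨mem_univ _, ?_⟩
        funext p
        unfold R10_rem R10_ins
        by_cases hp : (p : ℕ) ∈ A
        · rw [if_pos hp, if_pos rfl]
          have h3 := (Finset.mem_sdiff.1 (hA hp)).2
          rw [mem_sp] at h3
          by_contra h4
          exact h3 ⟨p.2, fun h5 => h4 h5.symm⟩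
        · rw [if_neg hp, if_neg (hβ' p)]
      · intro β hβ
        have hβ2 := (Finset.mem_filter.1 hβ).2
        funext p
        unfold R10_ins
        by_cases hp : β p = some i0
        · rw [if_pos ((mem_fb P).2 ⟨p.2, hp⟩), hp]
        · have h3 : (p : ℕ) ∉ fb P β i0 := by
            intro h4
            obtain ⟨_, h5⟩ := (mem_fb P).1 h4
            exact hp h5
          rw [if_neg h3, ← hβ2]
          unfold R10_rem
          rw [if_neg hp]
      · intro A hA
        rw [Finset.mem_powerset] at hA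
        ext q
        rw [mem_fb]
        constructor
        · rintro ⟨hq, h3⟩
          unfold R10_ins at h3
          by_contra h4
          rw [if_neg h4] at h3
          exact hβ' _ h3
        · intro hq
          refine ⟨(Finset.mem_sdiff.1 (hA hq)).1, ?_⟩
          unfold R10_ins
          rw [if_pos hq]
      · intro β hβ
        have hβ2 := (Finset.mem_filter.1 hβ).2
        exact M6_term P hz q0 a I L b i0 n hn β β' hβ2
    rw [h2, Finset.sum_filter, ← Finset.sum_mul]
    ring
  · have h1 : yC P z q0 a I L i0 β' = 0 := by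
      unfold yC
      rw [if_neg hβ']
    rw [h1, zero_mul]
    push Not at hβ'
    obtain ⟨p, hp⟩ := hβ'
    refine Finset.sum_eq_zero fun β hβ => ?_
    have hβ2 := (Finset.mem_filter.1 hβ).2
    exfalso
    rw [← hβ2] at hp
    exact R10_rem_ne P i0 β p hp

end Pool.Agent.LibPL63
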