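import Pool.Agent.LibPL63.Defs
import Pool.Agent.LibRG87.R0
import Pool.Agent.LibRG87.R8b

/-!
Row M7 (pointwise bound). `|PhiF| ≤ ∑_β |ee β n| = ∏_{p:P} (1 + ∑_i |psi p (n + b i)|)` (`Finset.prod_univ_sum`, `Fintype.piFinset_univ`, sum over `Option ι`). A prime `p > z` divides at most one of the
`n + b i` (distinct `b i < z`): the factor is `≤ 2 + (k-1)/(p-1) ≤ 2 (1 + 1/(p-1))^k`; if it divides none, the factor is `1 + k/(p-1) ≤ (1 + 1/(p-1))^k`. At most `t` primes
`> z ≥ 2` divide `n + b i ∈ (0, z^t]`, so at most `k t` primes of `P` are of the first kind. (Compare LibLG5.M9.)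
-/

open Finset Filter

namespace Pool.Agent.LibPL63

open Pool.Agent.LibRG87 Pool.Agent.LibLG5

private theorem M7_div (P : Finset ℕ) (z t N : ℕ) (hz : 2 ≤ z) (hP : ∀ p ∈ P, p.Prime ∧ z < p)
    (hN : 0 < N) (hNt : N ≤ z ^ t) : (P.filter (fun p => p ∣ N)).card ≤ t := by
  set S := P.filter (fun p => p ∣ N) with hS
  have hdvd : ∏ p ∈ S, p ∣ N := by
    apply Finset.prod_primes_dvd
    · exact fun p hp => (hP p (mem_filter.mp hp).1).1.prime
    · exact fun p hp => (mem_filter.mp hp).2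
  have h1 : z ^ S.card ≤ ∏ p ∈ S, p := by
    apply Finset.pow_card_le_prod
    intro p hp
    exact (hP p (mem_filter.mp hp).1).2.le
  have h2 : z ^ S.card ≤ z ^ t := h1.trans ((Nat.le_of_dvd hN hdvd).trans hNt)
  exact (Nat.pow_le_pow_iff_right hz).mp h2

private theorem M7_one (P : Finset ℕ) (z t N : ℕ) (hz : 2 ≤ z) (hP : ∀ p ∈ P, p.Prime ∧ z < p)
    (hN : 0 < N) (hNt : N ≤ z ^ t) :
    ∏ p ∈ P, (1 + |psi p N|) ≤ 2 ^ t * ∏ p ∈ P, (1 + 1 / ((p : ℝ) - 1)) := by
  classical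
  have hp2 : ∀ p ∈ P, (2 : ℝ) ≤ p := fun p hp => by exact_mod_cast (hP p hp).1.two_le
  have hpos : ∀ p ∈ P, (0 : ℝ) ≤ 1 / ((p : ℝ) - 1) := by
    intro p hp
    have := hp2 p hp
    apply div_nonneg zero_le_one
    linarith
  have h1 : ∀ p ∈ P, (1 + |psi p N|) ≤
      (if p ∣ N then (2 : ℝ) else 1) * (1 + 1 / ((p : ℝ) - 1)) := by
    intro p hp
    have h0 := hpos p hp
    unfold psi
    split_ifs with h
    · rw [abs_neg, abs_one]
      nlinarith
    · rw [abs_of_nonneg h0, one_mul]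
  calc ∏ p ∈ P, (1 + |psi p N|)
      ≤ ∏ p ∈ P, ((if p ∣ N then (2 : ℝ) else 1) * (1 + 1 / ((p : ℝ) - 1))) :=
        Finset.prod_le_prod (fun p _ => by positivity) h1
    _ = (∏ p ∈ P, (if p ∣ N then (2 : ℝ) else 1)) *
        ∏ p ∈ P, (1 + 1 / ((p : ℝ) - 1)) := Finset.prod_mul_distrib
    _ ≤ _ := by
        apply mul_le_mul_of_nonneg_right
        · rw [Finset.prod_ite, Finset.prod_const, Finset.prod_const_one, mul_one]
          exact pow_le_pow_right₀ (by norm_num) (M7_div P z t N hz hP hN hNt)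
        · apply Finset.prod_nonneg
          intro p hp
          have := hpos p hp
          linarith

private theorem M7_bern {ι : Type} [DecidableEq ι] (f : ι → ℝ) (hf : ∀ i, 0 ≤ f i) (B : Finset ι) :
    1 + ∑ i ∈ B, f i ≤ ∏ i ∈ B, (1 + f i) := by
  induction B using Finset.induction_on with
  | empty => simp
  | insert i B hi ih =>
    rw [Finset.sum_insert hi, Finset.prod_insert hi]
    have h3 : (1 : ℝ) ≤ ∏ i ∈ B, (1 + f i) := by
      apply Finset.one_le_prod
      intro j _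
      linarith [hf j]
    nlinarith [hf i]

theorem PhiF_le {ι : Type} [Fintype ι] [DecidableEq ι] (P : Finset ℕ) (z t : ℕ) (hz : 2 ≤ z)
    (hP : ∀ p ∈ P, p.Prime ∧ z < p) (b : ι → ℕ) (hb : Function.Injective b) (hbz : ∀ i, b i < z)
    (y : (P → Option ι) → ℝ) (hy : ∀ β, |y β| ≤ 1) (n : ℕ)
    (hn : ∀ i, 0 < n + b i ∧ n + b i ≤ z ^ t) :
    |PhiF P b y n| ≤ 2 ^ (Fintype.card ι * t) *
      (∏ p ∈ P, (1 + 1 / ((p : ℝ) - 1))) ^ Fintype.card ι := by
  classical
  have h1 : |PhiF P b y n| ≤ ∑ β : P → Option ι, |ee P b β n| := by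
    unfold PhiF
    refine (Finset.abs_sum_le_sum_abs _ _).trans (Finset.sum_le_sum fun β _ => ?_)
    rw [abs_mul]
    exact mul_le_of_le_one_left (abs_nonneg _) (hy β)
  have h2 : ∑ β : P → Option ι, |ee P b β n| = ∏ p : P, ∑ o : Option ι, |loc b (p : ℕ) o n| := by
    rw [Finset.prod_univ_sum, Fintype.piFinset_univ]
    apply Finset.sum_congr rfl
    intro β _
    rw [ee, Finset.abs_prod]
  have h3 : ∏ p : P, ∑ o : Option ι, |loc b (p : ℕ) o n| ≤
      ∏ p : P, ∏ i : ι, (1 + |psi (p : ℕ) (n + b i)|) := by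
    apply Finset.prod_le_prod
    · intro p _
      exact Finset.sum_nonneg fun o _ => abs_nonneg _
    · intro p _
      have h4 : ∑ o : Option ι, |loc b (p : ℕ) o n| = 1 + ∑ i : ι, |psi p (n + b i)| := by
        rw [Fintype.sum_option]
        simp [loc]
      rw [h4]
      exact M7_bern (fun i => |psi p (n + b i)|) (fun i => abs_nonneg _) _
  have h5 : ∏ p : P, ∏ i : ι, (1 + |psi (p : ℕ) (n + b i)|) =
      ∏ i : ι, ∏ p ∈ P, (1 + |psi p (n + b i)|) := by
    rw [Finset.prod_comm]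
    refine Finset.prod_congr rfl fun i _ => ?_
    exact Finset.prod_coe_sort P (fun p => 1 + |psi p (n + b i)|)
  have h6 : ∏ i : ι, ∏ p ∈ P, (1 + |psi p (n + b i)|) ≤
      ∏ _i : ι, (2 ^ t * ∏ p ∈ P, (1 + 1 / ((p : ℝ) - 1))) := by
    apply Finset.prod_le_prod
    · intro i _
      exact Finset.prod_nonneg fun p _ => by positivity
    · intro i _
      exact M7_one P z t (n + b i) hz hP (hn i).1 (hn i).2
  rw [Finset.prod_const, Finset.card_univ, mul_pow, ← pow_mul, mul_comm t] at h6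
  rw [h2] at h1
  exact h1.trans (h3.trans (h5.le.trans h6))

end Pool.Agent.LibPL63
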