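import Pool.Agent.LibPL63.Defs

/-!
Row Q1 (off-diagonal sum). With `e p o o' = A.Ep p (loc b p o * loc b p o')` and `d p o o' = 1` if both are `none`, `1/(p-1)` if `o = o' = some i`, `0`
otherwise: `EPA β β' = ∏_p e`, `Dd β β' = ∏_p d` (`ph (sp β) = ∏_{p ∈ sp β} (p-1)`). Telescoping: `|∏ e - ∏ d| ≤ ∑_{p0} |e_{p0} - d_{p0}| ∏_{p ≠ p0} max |e_p| |d_p|`
(prove it for finite products by induction). Sum over `β, β'` with values in `insertNone J`: for each `p0` the sum factorizes (`Finset.prod_univ_sum` over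
`Fintype.piFinset` of `insertNone J ×ˢ insertNone J`), and with `k = card ι`
`∑_{o,o'} |e_p - d_p| ≤ (2k + k + 2k^2)/(p-1)^2 ≤ 8 k^2/(p-1)^2`, `∑_{o,o'} max ≤ 1 + k/(p-1) + 8k^2/(p-1)^2` (`LocOK`: `Ep 1 = 1` by `lp_sum`).
If `card ι = 0` both sides are `0`.
-/

open Finset

namespace Pool.Agent.LibPL63

open Pool.Agent.LibRG87 Pool.Agent.LibLG5

variable {ι : Type} [Fintype ι] [DecidableEq ι] (P : Finset ℕ)

private theorem Q1_tel {α : Type} [DecidableEq α] (s : Finset α) (e d : α → ℝ) :
    |∏ a ∈ s, e a - ∏ a ∈ s, d a| ≤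
      ∑ a0 ∈ s, ∏ a ∈ s, (if a = a0 then |e a - d a| else |d a| + |e a - d a|) := by
  induction s using Finset.induction_on with
  | empty => simp
  | insert a s ha ih =>
    rw [Finset.prod_insert ha, Finset.prod_insert ha, Finset.sum_insert ha]
    have h1 : ∏ x ∈ insert a s, (if x = a then |e x - d x| else |d x| + |e x - d x|) =
        |e a - d a| * ∏ x ∈ s, (|d x| + |e x - d x|) := by
      rw [Finset.prod_insert ha, if_pos rfl]
      congr 1
      refine Finset.prod_congr rfl fun x hx => ?_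
      rw [if_neg]
      intro h
      exact ha (h ▸ hx)
    have h2 : ∀ a0 ∈ s, ∏ x ∈ insert a s, (if x = a0 then |e x - d x| else |d x| + |e x - d x|) =
        (|d a| + |e a - d a|) * ∏ x ∈ s, (if x = a0 then |e x - d x| else |d x| + |e x - d x|) := by
      intro a0 ha0
      rw [Finset.prod_insert ha, if_neg]
      intro h
      exact ha (h ▸ ha0)
    rw [h1, Finset.sum_congr rfl h2, ← Finset.mul_sum]
    have h3 : e a * ∏ a ∈ s, e a - d a * ∏ a ∈ s, d a =
        (e a - d a) * ∏ a ∈ s, e a + d a * (∏ a ∈ s, e a - ∏ a ∈ s, d a) := by ring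
    have h4 : |∏ a ∈ s, e a| ≤ ∏ x ∈ s, (|d x| + |e x - d x|) := by
      rw [Finset.abs_prod]
      refine Finset.prod_le_prod (fun x _ => abs_nonneg _) fun x _ => ?_
      have := abs_add_le (d x) (e x - d x)
      rwa [add_sub_cancel] at this
    rw [h3]
    refine (abs_add_le _ _).trans (add_le_add ?_ ?_)
    · rw [abs_mul]
      exact mul_le_mul_of_nonneg_left h4 (abs_nonneg _)
    · rw [abs_mul]
      refine mul_le_mul ?_ ih (abs_nonneg _) (by positivity)
      exact le_add_of_nonneg_right (abs_nonneg _)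

/-- the diagonal local matrix -/
private noncomputable def Q1_d (p : ℕ) (o o' : Option ι) : ℝ :=
  if o = o' then (if o = none then 1 else 1 / ((p : ℝ) - 1)) else 0

private theorem Q1_Dd (β β' : P → Option ι) :
    Dd P β β' = ∏ p : P, Q1_d (p : ℕ) (β p) (β' p) := by
  unfold Dd Q1_d
  by_cases h : β = β'
  · subst h
    rw [if_pos rfl]
    simp only [if_true]
    unfold ph sp
    rw [Finset.prod_image (fun a _ b _ hab => Subtype.ext hab), one_div, ← Finset.prod_inv_distrib,
      Finset.prod_filter]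
    refine Finset.prod_congr rfl fun p _ => ?_
    by_cases hp : β p = none
    · rw [if_neg (not_not.2 hp), if_pos hp]
    · rw [if_pos hp, if_neg hp, one_div]
  · rw [if_neg h]
    obtain ⟨p, hp⟩ := Function.ne_iff.1 h
    refine (Finset.prod_eq_zero (Finset.mem_univ p) ?_).symm
    rw [if_neg hp]

private theorem Q1_fac (g : P → Option ι → Option ι → ℝ) :
    ∑ β : P → Option ι, ∑ β' : P → Option ι, ∏ p : P, g p (β p) (β' p) =
      ∏ p : P, ∑ o, ∑ o', g p o o' := by
  have h1 : ∀ f : P → Option ι → ℝ, ∑ β : P → Option ι, ∏ p : P, f p (β p) = ∏ p : P, ∑ o, f p o := by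
    intro f
    have := Finset.prod_univ_sum (fun _ : P => (Finset.univ : Finset (Option ι))) f
    rw [this, Fintype.piFinset_univ]
  rw [← h1 (fun p o => ∑ o', g p o o')]
  refine Finset.sum_congr rfl fun β _ => ?_
  exact h1 (fun p o' => g p (β p) o')

open scoped Classical in
private theorem Q1_fac2 (J : Finset ι) (g : P → Option ι → Option ι → ℝ) :
    ∑ β : P → Option ι, ∑ β' : P → Option ι,
        (if alw P J β ∧ alw P J β' then ∏ p : P, g p (β p) (β' p) else 0) =
      ∏ p : P, ∑ o, ∑ o', (if (∀ i, o = some i → i ∈ J) ∧ (∀ i, o' = some i → i ∈ J) then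
        g p o o' else 0) := by
  rw [← Q1_fac]
  refine Finset.sum_congr rfl fun β _ => Finset.sum_congr rfl fun β' _ => ?_
  by_cases h : alw P J β ∧ alw P J β'
  · rw [if_pos h]
    refine Finset.prod_congr rfl fun p _ => ?_
    rw [if_pos ⟨fun i hi => h.1 p i hi, fun i hi => h.2 p i hi⟩]
  · rw [if_neg h]
    have : ∃ p : P, ¬ ((∀ i, β p = some i → i ∈ J) ∧ (∀ i, β' p = some i → i ∈ J)) := by
      by_contra hc
      push Not at hc
      exact h ⟨fun p i hi => (hc p).1 i hi, fun p i hi => (hc p).2 i hi⟩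
    obtain ⟨p, hp⟩ := this
    refine (Finset.prod_eq_zero (Finset.mem_univ p) ?_).symm
    rw [if_neg hp]

open scoped Classical in
theorem off_sum (A : Average) (b : ι → ℕ) (J : Finset ι) (hL : LocOK P A b J) :
    ∑ β : P → Option ι, ∑ β' : P → Option ι,
        (if alw P J β ∧ alw P J β' then |EPA P A b β β' - Dd P β β'| else 0) ≤
      8 * (Fintype.card ι : ℝ) ^ 2 * (∑ p ∈ P, 1 / ((p : ℝ) - 1) ^ 2) *
        ∏ p ∈ P, (1 + (Fintype.card ι : ℝ) / ((p : ℝ) - 1) +
          8 * (Fintype.card ι : ℝ) ^ 2 / ((p : ℝ) - 1) ^ 2) := by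
  set k : ℝ := (Fintype.card ι : ℝ) with hk
  have hk0 : 0 ≤ k := Nat.cast_nonneg _
  have hkk : k ≤ k ^ 2 := by
    rw [hk]
    have : Fintype.card ι ≤ (Fintype.card ι) ^ 2 := Nat.le_self_pow (by norm_num) _
    exact_mod_cast this
  set e : P → Option ι → Option ι → ℝ :=
    fun p o o' => A.Ep (p : ℕ) (fun n => loc b p o n * loc b p o' n) with he
  set d : P → Option ι → Option ι → ℝ := fun p o o' => Q1_d (p : ℕ) o o' with hd
  have hp1 : ∀ p : P, (1 : ℝ) ≤ ((p : ℕ) : ℝ) - 1 := by
    intro p
    have h3 := hL.three p p.2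
    have : (3 : ℝ) ≤ ((p : ℕ) : ℝ) := by exact_mod_cast h3
    linarith
  -- pointwise bounds
  have hnn : ∀ p : P, e p none none = 1 := by
    intro p
    have h1 := A.lp_sum p (hL.good p p.2)
    rw [he]
    simp only [Average.Ep, loc, mul_one]
    exact h1
  have hns : ∀ (p : P) (i : ι), i ∈ J → |e p none (some i)| ≤ 1 / (((p : ℕ) : ℝ) - 1) ^ 2 := by
    intro p i hi
    have h1 := hL.m1 p p.2 i hi
    rw [he]
    simp only [loc, one_mul]
    exact h1
  have hsn : ∀ (p : P) (i : ι), i ∈ J → |e p (some i) none| ≤ 1 / (((p : ℕ) : ℝ) - 1) ^ 2 := by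
    intro p i hi
    have h1 := hL.m1 p p.2 i hi
    rw [he]
    simp only [loc, mul_one]
    exact h1
  have hss : ∀ (p : P) (i : ι), i ∈ J →
      |e p (some i) (some i) - 1 / (((p : ℕ) : ℝ) - 1)| ≤ 1 / (((p : ℕ) : ℝ) - 1) ^ 2 := by
    intro p i hi
    have h1 := hL.m2 p p.2 i hi
    rw [he]
    simp only [loc]
    exact h1
  have hst : ∀ (p : P) (i j : ι), i ∈ J → j ∈ J → i ≠ j →
      |e p (some i) (some j)| ≤ 2 / (((p : ℕ) : ℝ) - 1) ^ 2 := by
    intro p i j hi hj hij
    have h1 := hL.m3 p p.2 i hi j hj hij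
    rw [he]
    simp only [loc]
    exact h1
  -- the sum of the differences
  have hdiff : ∀ p : P, ∑ o, ∑ o', (if (∀ i, o = some i → i ∈ J) ∧ (∀ i, o' = some i → i ∈ J) then
        |e p o o' - d p o o'| else 0) ≤ 8 * k ^ 2 / (((p : ℕ) : ℝ) - 1) ^ 2 := by
    intro p
    set u : ℝ := 1 / (((p : ℕ) : ℝ) - 1) ^ 2 with hu
    have hu0 : 0 ≤ u := by positivity
    have b1 : (if (∀ i, (none : Option ι) = some i → i ∈ J) ∧ (∀ i, (none : Option ι) = some i → i ∈ J)
        then |e p none none - d p none none| else 0) ≤ 0 := by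
      rw [hnn p, hd]
      simp [Q1_d]
    have b2 : ∀ j : ι, (if (∀ i, (none : Option ι) = some i → i ∈ J) ∧
        (∀ i, (some j : Option ι) = some i → i ∈ J)
        then |e p none (some j) - d p none (some j)| else 0) ≤ u := by
      intro j
      by_cases h : (∀ i, (none : Option ι) = some i → i ∈ J) ∧ (∀ i, (some j : Option ι) = some i → i ∈ J)
      · rw [if_pos h]
        have hj := h.2 j rfl
        have : d p none (some j) = 0 := by
          rw [hd]; simp [Q1_d]
        rw [this, sub_zero]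
        exact hns p j hj
      · rw [if_neg h]
        exact hu0
    have b3 : ∀ j : ι, (if (∀ i, (some j : Option ι) = some i → i ∈ J) ∧
        (∀ i, (none : Option ι) = some i → i ∈ J)
        then |e p (some j) none - d p (some j) none| else 0) ≤ u := by
      intro j
      by_cases h : (∀ i, (some j : Option ι) = some i → i ∈ J) ∧ (∀ i, (none : Option ι) = some i → i ∈ J)
      · rw [if_pos h]
        have hj := h.1 j rfl
        have : d p (some j) none = 0 := by
          rw [hd]; simp [Q1_d]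
        rw [this, sub_zero]
        exact hsn p j hj
      · rw [if_neg h]
        exact hu0
    have b4 : ∀ j l : ι, (if (∀ i, (some j : Option ι) = some i → i ∈ J) ∧
        (∀ i, (some l : Option ι) = some i → i ∈ J)
        then |e p (some j) (some l) - d p (some j) (some l)| else 0) ≤ 2 * u := by
      intro j l
      split_ifs with h
      · have hj := h.1 j rfl
        have hl := h.2 l rfl
        by_cases hjl : j = l
        · subst hjl
          have : d p (some j) (some j) = 1 / (((p : ℕ) : ℝ) - 1) := by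
            rw [hd]; simp [Q1_d]
          rw [this]
          have := hss p j hj
          linarith
        · have : d p (some j) (some l) = 0 := by
            rw [hd]; simp [Q1_d, hjl]
          rw [this, sub_zero]
          have := hst p j l hj hl hjl
          rw [hu]
          calc _ ≤ _ := this
            _ = _ := by ring
      · linarith
    have key : ∑ o, ∑ o', (if (∀ i, o = some i → i ∈ J) ∧ (∀ i, o' = some i → i ∈ J) then
        |e p o o' - d p o o'| else 0) ≤ (0 + ∑ _j : ι, u) + ∑ _j : ι, (u + ∑ _l : ι, 2 * u) := by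
      rw [Fintype.sum_option]
      refine add_le_add ?_ (Finset.sum_le_sum fun j _ => ?_)
      · rw [Fintype.sum_option]
        exact add_le_add b1 (Finset.sum_le_sum fun j _ => b2 j)
      · rw [Fintype.sum_option]
        exact add_le_add (b3 j) (Finset.sum_le_sum fun l _ => b4 j l)
    refine key.trans ?_
    simp only [Finset.sum_const, Finset.card_univ, nsmul_eq_mul]
    rw [← hk]
    have e1 : 8 * k ^ 2 / (((p : ℕ) : ℝ) - 1) ^ 2 = 8 * k ^ 2 * u := by rw [hu]; ring
    rw [e1]
    nlinarith [mul_nonneg hk0 hu0, mul_nonneg (sub_nonneg.2 hkk) hu0, mul_nonneg (sq_nonneg k) hu0]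
  have hdiag : ∀ p : P, ∑ o, ∑ o', |d p o o'| ≤ 1 + k / (((p : ℕ) : ℝ) - 1) := by
    intro p
    have hp := hp1 p
    have hinv : 0 ≤ 1 / (((p : ℕ) : ℝ) - 1) := by positivity
    rw [Fintype.sum_option]
    refine add_le_add ?_ ?_
    · rw [Fintype.sum_option, hd]
      simp [Q1_d]
    · have : ∀ i : ι, ∑ o', |d p (some i) o'| = 1 / (((p : ℕ) : ℝ) - 1) := by
        intro i
        rw [Fintype.sum_option, hd]
        simp only [Q1_d]
        have h0 : ¬ ((some i : Option ι) = none) := by simp
        rw [if_neg h0, abs_zero, zero_add]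
        rw [Finset.sum_eq_single i]
        · rw [if_pos rfl, if_neg h0, abs_of_nonneg hinv]
        · intro j _ hj
          have : ¬ ((some i : Option ι) = some j) := fun h => hj (Option.some.inj h).symm
          rw [if_neg this, abs_zero]
        · intro h
          exact absurd (Finset.mem_univ _) h
      rw [Finset.sum_congr rfl fun i _ => this i]
      simp only [Finset.sum_const, Finset.card_univ, nsmul_eq_mul]
      rw [← hk]
      exact le_of_eq (by ring)
  have hmax : ∀ p : P, ∑ o, ∑ o', (if (∀ i, o = some i → i ∈ J) ∧ (∀ i, o' = some i → i ∈ J) then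
        (|d p o o'| + |e p o o' - d p o o'|) else 0) ≤
        1 + k / (((p : ℕ) : ℝ) - 1) + 8 * k ^ 2 / (((p : ℕ) : ℝ) - 1) ^ 2 := by
    intro p
    refine le_trans ?_ (add_le_add (hdiag p) (hdiff p))
    rw [← Finset.sum_add_distrib]
    refine Finset.sum_le_sum fun o _ => ?_
    rw [← Finset.sum_add_distrib]
    refine Finset.sum_le_sum fun o' _ => ?_
    split_ifs
    · exact le_refl _
    · have := abs_nonneg (d p o o')
      linarith
  -- telescoping
  have htel : ∀ β β' : P → Option ι, (if alw P J β ∧ alw P J β' then |EPA P A b β β' - Dd P β β'| else 0) ≤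
      ∑ p0 : P, (if alw P J β ∧ alw P J β' then ∏ p : P,
        (if p = p0 then |e p (β p) (β' p) - d p (β p) (β' p)| else
          |d p (β p) (β' p)| + |e p (β p) (β' p) - d p (β p) (β' p)|) else 0) := by
    intro β β'
    by_cases h : alw P J β ∧ alw P J β'
    · simp only [if_pos h]
      rw [Q1_Dd]
      exact Q1_tel Finset.univ (fun p : P => e p (β p) (β' p)) (fun p : P => d p (β p) (β' p))
    · simp only [if_neg h, Finset.sum_const_zero]
      exact le_refl _
  have hM0 : ∀ p ∈ P, 0 ≤ 1 + k / ((p : ℝ) - 1) + 8 * k ^ 2 / ((p : ℝ) - 1) ^ 2 := by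
    intro p hp
    have h3 := hp1 ⟨p, hp⟩
    simp only at h3
    positivity
  have hM1 : ∀ p ∈ P, 1 ≤ 1 + k / ((p : ℝ) - 1) + 8 * k ^ 2 / ((p : ℝ) - 1) ^ 2 := by
    intro p hp
    have h3 := hp1 ⟨p, hp⟩
    simp only at h3
    have h4 : 0 ≤ k / ((p : ℝ) - 1) := by positivity
    have h5 : 0 ≤ 8 * k ^ 2 / ((p : ℝ) - 1) ^ 2 := by positivity
    linarith
  calc ∑ β : P → Option ι, ∑ β' : P → Option ι,
        (if alw P J β ∧ alw P J β' then |EPA P A b β β' - Dd P β β'| else 0)
      ≤ ∑ β : P → Option ι, ∑ β' : P → Option ι, ∑ p0 : P, (if alw P J β ∧ alw P J β' then ∏ p : P,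
        (if p = p0 then |e p (β p) (β' p) - d p (β p) (β' p)| else
          |d p (β p) (β' p)| + |e p (β p) (β' p) - d p (β p) (β' p)|) else 0) :=
        Finset.sum_le_sum fun β _ => Finset.sum_le_sum fun β' _ => htel β β'
    _ = ∑ p0 : P, ∑ β : P → Option ι, ∑ β' : P → Option ι, (if alw P J β ∧ alw P J β' then ∏ p : P,
        (if p = p0 then |e p (β p) (β' p) - d p (β p) (β' p)| else
          |d p (β p) (β' p)| + |e p (β p) (β' p) - d p (β p) (β' p)|) else 0) := by
        exact (Finset.sum_congr rfl fun β _ => Finset.sum_comm).trans Finset.sum_comm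
    _ ≤ ∑ p0 : P, 8 * k ^ 2 / (((p0 : ℕ) : ℝ) - 1) ^ 2 *
        ∏ p ∈ P, (1 + k / ((p : ℝ) - 1) + 8 * k ^ 2 / ((p : ℝ) - 1) ^ 2) := by
        refine Finset.sum_le_sum fun p0 _ => ?_
        rw [Q1_fac2 P J (fun p o o' => if p = p0 then |e p o o' - d p o o'| else
          |d p o o'| + |e p o o' - d p o o'|)]
        set M : P → ℝ := fun p => 1 + k / (((p : ℕ) : ℝ) - 1) + 8 * k ^ 2 / (((p : ℕ) : ℝ) - 1) ^ 2
          with hM
        have hM0' : ∀ p : P, 0 ≤ M p := fun p => hM0 p p.2
        have hM1' : ∀ p : P, 1 ≤ M p := fun p => hM1 p p.2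
        have hc0 : ∀ p : P, 0 ≤ 8 * k ^ 2 / (((p : ℕ) : ℝ) - 1) ^ 2 := fun p => by positivity
        have hle : ∀ p : P, ∑ o, ∑ o', (if (∀ i, o = some i → i ∈ J) ∧ (∀ i, o' = some i → i ∈ J) then
            (if p = p0 then |e p o o' - d p o o'| else |d p o o'| + |e p o o' - d p o o'|) else 0) ≤
            (if p = p0 then 8 * k ^ 2 / (((p : ℕ) : ℝ) - 1) ^ 2 else 1) * M p := by
          intro p
          by_cases hp : p = p0
          · simp only [if_pos hp]
            exact (hdiff p).trans (le_mul_of_one_le_right (hc0 p) (hM1' p))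
          · simp only [if_neg hp, one_mul]
            exact hmax p
        refine (Finset.prod_le_prod (fun p _ => ?_) fun p _ => hle p).trans (le_of_eq ?_)
        · refine Finset.sum_nonneg fun o _ => Finset.sum_nonneg fun o' _ => ?_
          split_ifs
          · exact abs_nonneg _
          · positivity
          · exact le_refl _
        · rw [Finset.prod_mul_distrib, Finset.prod_ite_eq', if_pos (Finset.mem_univ _)]
          congr 1
          exact Finset.prod_coe_sort P (fun p : ℕ => 1 + k / ((p : ℝ) - 1) + 8 * k ^ 2 / ((p : ℝ) - 1) ^ 2)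
    _ = _ := by
        rw [← Finset.sum_mul]
        congr 1
        rw [Finset.mul_sum, ← Finset.sum_coe_sort P]
        refine Finset.sum_congr rfl fun p _ => ?_
        ring

end Pool.Agent.LibPL63
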