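import Pool.Agent.LibPL63.Defs
import Pool.Agent.LibLG5.Q1
import Pool.Agent.LibRG87.R0

/-!
Row Q2 (absolute mass). For `(o,o') ≠ (none,none)`: `A.Ep p |loc o * loc o'| ≤ (1/(p-1)) ∑_{y<p} |loc o y * loc o' y| ≤ 2/(p-1)` (`LocOK.lp_le`,
`LibLG5.tot_le`); for `(none,none)` it is `1` (`lp_sum`). The number of pairs is `(card ι + 1)^2`. The sum over all `β, β'` is
`∏_{p:P} ∑_{o,o'} …` (`Finset.prod_univ_sum`, all terms are nonnegative, so the condition `alw` can be dropped).
-/

open Finset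

namespace Pool.Agent.LibPL63

open Pool.Agent.LibRG87 Pool.Agent.LibLG5

variable {ι : Type} [Fintype ι] [DecidableEq ι] (P : Finset ℕ)

theorem AMA_nonneg (A : Average) (b : ι → ℕ) (hP : ∀ p ∈ P, p ∈ A.good) (β β' : P → Option ι) :
    0 ≤ AMA P A b β β' := by
  unfold AMA
  exact Finset.prod_nonneg fun p _ => A.Ep_nonneg (hP p p.2) fun _ => abs_nonneg _

private theorem Q2_sum_prod (f : P → Option ι → ℝ) :
    ∑ β : P → Option ι, ∏ p : P, f p (β p) = ∏ p : P, ∑ o : Option ι, f p o := by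
  classical
  rw [Finset.prod_univ_sum, Fintype.piFinset_univ]

private theorem Q2_none (A : Average) (b : ι → ℕ) {p : ℕ} (hp : p ∈ A.good) :
    A.Ep p (fun n => |loc b p (none : Option ι) n * loc b p (none : Option ι) n|) = 1 := by
  unfold Average.Ep
  simp only [loc, mul_one, abs_one]
  exact A.lp_sum p hp

private theorem Q2_le (A : Average) (b : ι → ℕ) {p : ℕ} (hp : p ∈ A.good)
    (hlp : ∀ y < p, A.lp p y ≤ 1 / ((p : ℝ) - 1)) (o o' : Option ι)
    (h : ¬(o = none ∧ o' = none)) :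
    A.Ep p (fun n => |loc b p o n * loc b p o' n|) ≤ 2 / ((p : ℝ) - 1) := by
  have hpp := A.good_prime p hp
  have h1 := Q1_pm hpp
  unfold Average.Ep
  calc ∑ x ∈ range p, A.lp p x * |loc b p o x * loc b p o' x|
      ≤ ∑ x ∈ range p, 1 / ((p : ℝ) - 1) * |loc b p o x * loc b p o' x| :=
        Finset.sum_le_sum fun x hx =>
          mul_le_mul_of_nonneg_right (hlp x (Finset.mem_range.1 hx)) (abs_nonneg _)
    _ = 1 / ((p : ℝ) - 1) * ∑ x ∈ range p, |loc b p o x * loc b p o' x| := by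
        rw [Finset.mul_sum]
    _ ≤ 1 / ((p : ℝ) - 1) * 2 :=
        mul_le_mul_of_nonneg_left (tot_le b hpp o o' h) (by positivity)
    _ = 2 / ((p : ℝ) - 1) := by ring

private theorem Q2_local (A : Average) (b : ι → ℕ) {p : ℕ} (hp : p ∈ A.good)
    (hlp : ∀ y < p, A.lp p y ≤ 1 / ((p : ℝ) - 1)) :
    ∑ o : Option ι, ∑ o' : Option ι, A.Ep p (fun n => |loc b p o n * loc b p o' n|) ≤
      1 + 2 * ((Fintype.card ι : ℝ) + 1) ^ 2 / ((p : ℝ) - 1) := by
  have hpp := A.good_prime p hp
  have h1 := Q1_pm hpp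
  have h2 : (0 : ℝ) ≤ 2 / ((p : ℝ) - 1) := by positivity
  have hle : ∀ o o' : Option ι, A.Ep p (fun n => |loc b p o n * loc b p o' n|) ≤
      (if o = none then (if o' = none then (1 : ℝ) else 0) else 0) + 2 / ((p : ℝ) - 1) := by
    intro o o'
    by_cases h : o = none ∧ o' = none
    · obtain ⟨rfl, rfl⟩ := h
      rw [Q2_none A b hp, if_pos rfl, if_pos rfl]
      linarith
    · refine (Q2_le A b hp hlp o o' h).trans ?_
      have h3 : (0 : ℝ) ≤ (if o = none then (if o' = none then (1 : ℝ) else 0) else 0) := by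
        split_ifs <;> norm_num
      linarith
  refine (Finset.sum_le_sum fun o _ => Finset.sum_le_sum fun o' _ => hle o o').trans
    (le_of_eq ?_)
  simp only [Finset.sum_add_distrib, Finset.sum_const, Finset.card_univ, Fintype.card_option,
    nsmul_eq_mul, Finset.sum_ite_eq', Finset.mem_univ, if_true]
  have h4 : ∀ o : Option ι, (∑ o' : Option ι,
      if o = none then (if o' = none then (1 : ℝ) else 0) else 0) =
      if o = none then 1 else 0 := by
    intro o
    split_ifs with ho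
    · simp
    · simp
  simp only [h4, Finset.sum_ite_eq', Finset.mem_univ, if_true]
  push_cast
  ring

theorem mass_sum (A : Average) (b : ι → ℕ) (J : Finset ι) (hL : LocOK P A b J) :
    ∑ β : P → Option ι, ∑ β' : P → Option ι, AMA P A b β β' ≤
      ∏ p ∈ P, (1 + 2 * ((Fintype.card ι : ℝ) + 1) ^ 2 / ((p : ℝ) - 1)) := by
  classical
  have h1 : ∀ β : P → Option ι, ∑ β' : P → Option ι, AMA P A b β β' =
      ∏ p : P, ∑ o' : Option ι,
        A.Ep (p : ℕ) (fun n => |loc b p (β p) n * loc b p o' n|) := by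
    intro β
    unfold AMA
    exact Q2_sum_prod P fun p o' => A.Ep (p : ℕ) (fun n => |loc b p (β p) n * loc b p o' n|)
  simp only [h1]
  have h2 := Q2_sum_prod (ι := ι) P fun p o => ∑ o' : Option ι,
    A.Ep (p : ℕ) (fun n => |loc b p o n * loc b p o' n|)
  rw [h2, ← Finset.prod_coe_sort P]
  refine Finset.prod_le_prod (fun p _ => ?_) fun p _ => ?_
  · exact Finset.sum_nonneg fun o _ => Finset.sum_nonneg fun o' _ =>
      A.Ep_nonneg (hL.good p p.2) fun _ => abs_nonneg _
  · exact Q2_local A b (hL.good p p.2) (hL.lp_le p p.2)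

end Pool.Agent.LibPL63
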