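import Pool.Agent.LibPL63.V0
import Pool.Agent.LibPL63.SA2
import Pool.Agent.LibLG5.Q1
import Pool.Agent.LibRG87.R0
import Pool.Agent.LibRG87.R8b

/-!
Row Q3 (pair lemma). Apply `lemmaSA` with `k := 2 k`, `b := b0`, `x p := xB B p`, `T = sp β ∪ sp β'` and `g p n = loc b p (β p) n * loc b p (β' p) n`
(extended by `1` outside `P`): `∏_{p ∈ Pr} (1 - xB B p n) = rhoP Pr B n` (`one_sub_xB`), `ee β n * ee β' n = ∏_{p ∈ T} g p n`; the primes of `P` outside `T`
contribute `Ep 1 = 1` to `EPA` and `AMA`; `tot p (g p) ≤ 2` (`LibLG5.tot_le`). Conditions of `lemmaSA` at `p ∈ Pr`: `tot p (xB B p) ≤ |B| ≤ k`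
(for each `a ∈ B` exactly one `y < p` with `p ∣ y + a`), `Ep p (xB B p) ≤ k/(p-1) ≤ 2k/p ≤ 1/2` by `SmallOK` (`4k + 4 ≤ p`). Compare LibLG5.Q2 (finished, same proof for
the uniform average) and LibRG87.R8c.
-/

open Finset Filter

namespace Pool.Agent.LibPL63

open Pool.Agent.LibRG87 Pool.Agent.LibLG5

/-- the pair lemma with the constant `C` -/
def PairA (C : ℕ) : Prop :=
  ∀ k b0 : ℕ, Even b0 → eps0 C (2 * k) b0 ≤ 1 → ∀ (A : Average) (z : ℕ) (Pr P : Finset ℕ), 1 ≤ z →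
    SmallOK A Pr z k → (∀ p ∈ P, p ∈ A.good ∧ z < p) →
    ∀ (ι : Type) [Fintype ι] [DecidableEq ι] (b : ι → ℕ) (B : Finset ℕ) (β β' : P → Option ι),
      B.card ≤ k →
      |∑ n ∈ A.s, A.om n * (rhoP Pr B n * (ee P b β n * ee P b β' n)) -
          A.X * VA A Pr B * EPA P A b β β'| ≤
        eps0 C (2 * k) b0 * (A.X * VA A Pr B * AMA P A b β β') +
          (∑ D ∈ Pr.powerset with ∏ p ∈ D, p ≤ z ^ (2 * b0 + 6),
            ((2 * k : ℕ) : ℝ) ^ D.card * A.Er ((∏ p ∈ D, p) * ∏ p ∈ sp P β ∪ sp P β', p)) *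
            2 ^ (sp P β ∪ sp P β').card

theorem Q3_xB (B : Finset ℕ) (p n : ℕ) : xB B p n = xp B p n := rfl

theorem Q3_xB_bd (B : Finset ℕ) (p n : ℕ) : 0 ≤ xB B p n ∧ xB B p n ≤ 1 := xp_bd B p n

theorem Q3_xB_per (B : Finset ℕ) (p : ℕ) : Function.Periodic (xB B p) p := xp_periodic B p

theorem Q3_tot (B : Finset ℕ) {p : ℕ} (hp : 0 < p) : tot p (xB B p) ≤ B.card := by
  have h1 : tot p (xB B p) = nuP B p := tot_xp B p hp
  rw [h1]
  exact_mod_cast (Finset.card_image_le : nuP B p ≤ B.card)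

theorem Q3_Ep_nonneg (A : Average) {p : ℕ} (hp : p ∈ A.good) (B : Finset ℕ) :
    0 ≤ A.Ep p (xB B p) := A.Ep_nonneg hp fun x => (Q3_xB_bd B p x).1

theorem Q3_Ep_le_one (A : Average) {p : ℕ} (hp : p ∈ A.good) (B : Finset ℕ) :
    A.Ep p (xB B p) ≤ 1 := by
  unfold Average.Ep
  rw [← A.lp_sum p hp]
  exact Finset.sum_le_sum fun x _ =>
    mul_le_of_le_one_right (A.lp_nonneg p hp x) (Q3_xB_bd B p x).2

theorem Q3_VA_nonneg (A : Average) (Pr B : Finset ℕ) (hPr : ∀ p ∈ Pr, p ∈ A.good) :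
    0 ≤ VA A Pr B :=
  Finset.prod_nonneg fun p hp => sub_nonneg.mpr (Q3_Ep_le_one A (hPr p hp) B)

theorem Q3_Ep_le (A : Average) {p : ℕ} (hp : 0 < p) (B : Finset ℕ)
    (hlp : ∀ y < p, A.lp p y ≤ 1 / ((p : ℝ) - 1)) :
    A.Ep p (xB B p) ≤ 1 / ((p : ℝ) - 1) * tot p (xB B p) := by
  unfold Average.Ep tot
  rw [Finset.mul_sum]
  refine Finset.sum_le_sum fun x hx => ?_
  rw [abs_of_nonneg (Q3_xB_bd B p x).1]
  exact mul_le_mul_of_nonneg_right (hlp x (Finset.mem_range.1 hx)) (Q3_xB_bd B p x).1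

/-- the conditions of `lemmaSA` at the sieving primes -/
theorem Q3_small (A : Average) (k z : ℕ) (Pr B : Finset ℕ) (hS : SmallOK A Pr z k)
    (hB : B.card ≤ k) {p : ℕ} (hp : p ∈ Pr) :
    A.Ep p (xB B p) ≤ 1 / 2 ∧ A.Ep p (xB B p) ≤ ((2 * k : ℕ) : ℝ) / p ∧
      tot p (xB B p) ≤ ((2 * k : ℕ) : ℝ) := by
  have hbig : (4 * (k : ℝ) + 4) ≤ p := by exact_mod_cast hS.big p hp
  have hk0 : (0 : ℝ) ≤ k := Nat.cast_nonneg k
  have hp0 : 0 < p := (A.good_prime p (hS.good p hp)).pos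
  have hpR : (0 : ℝ) < p := by exact_mod_cast hp0
  have hBk : (B.card : ℝ) ≤ k := by exact_mod_cast hB
  have ht : tot p (xB B p) ≤ k := (Q3_tot B hp0).trans hBk
  have hp1 : (0 : ℝ) < (p : ℝ) - 1 := by linarith
  have h1 := Q3_Ep_le A hp0 B (hS.lp_le p hp)
  have h2 : 1 / ((p : ℝ) - 1) * tot p (xB B p) ≤ 1 / ((p : ℝ) - 1) * k :=
    mul_le_mul_of_nonneg_left ht (by positivity)
  have h3 : 1 / ((p : ℝ) - 1) * k ≤ 2 * k / p := by
    rw [div_mul_eq_mul_div, one_mul, div_le_div_iff₀ hp1 hpR]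
    nlinarith
  have h4 : 2 * (k : ℝ) / p ≤ 1 / 2 := by
    rw [div_le_div_iff₀ hpR (by norm_num)]
    linarith
  push_cast
  exact ⟨h1.trans (h2.trans (h3.trans h4)), h1.trans (h2.trans h3), by linarith⟩

section

variable {ι : Type} [Fintype ι] [DecidableEq ι] (P : Finset ℕ)

/-- a local function extended by `1` -/
noncomputable def Q3_G (h : ℕ → Option ι → Option ι → ℝ) (β β' : P → Option ι) (p : ℕ) : ℝ :=
  if hp : p ∈ P then h p (β ⟨p, hp⟩) (β' ⟨p, hp⟩) else 1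

theorem Q3_prod (h : ℕ → Option ι → Option ι → ℝ) (h0 : ∀ p ∈ P, h p none none = 1)
    (β β' : P → Option ι) :
    ∏ p : P, h (p : ℕ) (β p) (β' p) = ∏ p ∈ sp P β ∪ sp P β', Q3_G P h β β' p := by
  have h1 : ∏ p : P, h (p : ℕ) (β p) (β' p) = ∏ p : P, Q3_G P h β β' (p : ℕ) := by
    refine Finset.prod_congr rfl fun p _ => ?_
    rw [Q3_G, dif_pos p.2]
  rw [h1, Finset.prod_coe_sort P (fun p => Q3_G P h β β' p)]
  symm
  refine Finset.prod_subset (Finset.union_subset (sp_subset P β) (sp_subset P β')) ?_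
  intro p hp hn
  rw [Finset.mem_union, not_or, mem_sp, mem_sp] at hn
  have e1 : β ⟨p, hp⟩ = none := by
    by_contra hc
    exact hn.1 ⟨hp, hc⟩
  have e2 : β' ⟨p, hp⟩ = none := by
    by_contra hc
    exact hn.2 ⟨hp, hc⟩
  rw [Q3_G, dif_pos hp, e1, e2, h0 p hp]

end

theorem Q3_AMA_nonneg {ι : Type} [Fintype ι] [DecidableEq ι] (P : Finset ℕ) (A : Average)
    (b : ι → ℕ) (hP : ∀ p ∈ P, p ∈ A.good) (β β' : P → Option ι) : 0 ≤ AMA P A b β β' :=
  Finset.prod_nonneg fun p _ => A.Ep_nonneg (hP p p.2) fun _ => abs_nonneg _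

theorem pairA : ∃ C : ℕ, 1 ≤ C ∧ PairA C := by
  obtain ⟨C, hC1, hC⟩ := lemmaSA
  refine ⟨C, hC1, ?_⟩
  intro k b0 hb0 he A z Pr P hz hS hP ι _ _ b B β β' hB
  set T := sp P β ∪ sp P β' with hT
  have hTP : ∀ p ∈ T, p ∈ P := fun p hp =>
    Finset.union_subset (sp_subset P β) (sp_subset P β') hp
  have hgood : ∀ p ∈ T, p ∈ A.good := fun p hp => (hP p (hTP p hp)).1
  have hdis : Disjoint T Pr := by
    rw [Finset.disjoint_left]
    intro p hp hp'
    exact absurd (hS.le p hp') (not_le.2 (hP p (hTP p hp)).2)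
  have key := hC (2 * k) b0 hb0 he A z hz Pr (fun p hp => ⟨hS.good p hp, hS.le p hp⟩) (xB B)
    (fun p _ => Q3_xB_per B p) (fun p _ n => Q3_xB_bd B p n)
    (fun p hp => Q3_small A k z Pr B hS hB hp) T
    (fun p n => Q3_G P (fun p o o' => loc b p o n * loc b p o' n) β β' p) hgood hdis (by
      intro p hp n
      simp only [Q3_G, dif_pos (hTP p hp), loc_per])
  have e0 : ∀ n, ∏ p ∈ Pr, (1 - xB B p n) = rhoP Pr B n := fun n => one_sub_xB Pr B n
  have e1 : ∀ n, ∏ p ∈ T, Q3_G P (fun p o o' => loc b p o n * loc b p o' n) β β' p =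
      ee P b β n * ee P b β' n := by
    intro n
    rw [hT, ← Q3_prod P (fun p o o' => loc b p o n * loc b p o' n)
      (fun p _ => by simp [loc]) β β', ee, ee, Finset.prod_mul_distrib]
  have e2 : ∏ p ∈ T, A.Ep p
      (fun n => Q3_G P (fun p o o' => loc b p o n * loc b p o' n) β β' p) = EPA P A b β β' := by
    rw [EPA, Q3_prod P (fun p o o' => A.Ep p (fun n => loc b p o n * loc b p o' n)) (by
      intro p hp
      simp only [loc, mul_one, Average.Ep]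
      exact A.lp_sum p (hP p hp).1) β β', ← hT]
    refine Finset.prod_congr rfl fun p hp => ?_
    simp only [Q3_G, dif_pos (hTP p hp)]
  have e3 : ∏ p ∈ T, A.Ep p
      (fun n => |Q3_G P (fun p o o' => loc b p o n * loc b p o' n) β β' p|) = AMA P A b β β' := by
    rw [AMA, Q3_prod P (fun p o o' => A.Ep p (fun n => |loc b p o n * loc b p o' n|)) (by
      intro p hp
      simp only [loc, mul_one, abs_one, Average.Ep]
      exact A.lp_sum p (hP p hp).1) β β', ← hT]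
    refine Finset.prod_congr rfl fun p hp => ?_
    simp only [Q3_G, dif_pos (hTP p hp)]
  have e4 : ∏ p ∈ T, tot p
      (fun n => Q3_G P (fun p o o' => loc b p o n * loc b p o' n) β β' p) ≤ 2 ^ T.card := by
    have h1 : ∏ p ∈ T, tot p
        (fun n => Q3_G P (fun p o o' => loc b p o n * loc b p o' n) β β' p) ≤
        ∏ p ∈ T, (2 : ℝ) := by
      refine Finset.prod_le_prod (fun p _ => tot_nonneg p _) ?_
      intro p hp
      simp only [tot, Q3_G, dif_pos (hTP p hp)]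
      refine tot_le b (A.good_prime p (hgood p hp)) _ _ ?_
      rintro ⟨h2, h3⟩
      rw [hT, Finset.mem_union, mem_sp, mem_sp] at hp
      rcases hp with ⟨h4, h5⟩ | ⟨h4, h5⟩
      · exact h5 h2
      · exact h5 h3
    refine h1.trans ?_
    rw [Finset.prod_const]
  simp only [e0, e1, e2, e3] at key
  have e5 : ∏ p ∈ Pr, (1 - A.Ep p (xB B p)) = VA A Pr B := rfl
  rw [e5] at key
  have e6 : A.X * VA A Pr B * EPA P A b β β' = A.X * (VA A Pr B * EPA P A b β β') := by ring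
  have e7 : A.X * VA A Pr B * AMA P A b β β' = A.X * (VA A Pr B * AMA P A b β β') := by ring
  rw [e6, e7]
  refine key.trans (add_le_add le_rfl (mul_le_mul_of_nonneg_left e4 ?_))
  exact Finset.sum_nonneg fun D _ => mul_nonneg (by positivity) (A.Er_nonneg _)

theorem Q3_eps0_mono {C C' : ℕ} (h : C ≤ C') (k b0 : ℕ) :
    eps0 (C : ℝ) k b0 ≤ eps0 (C' : ℝ) k b0 := by
  have hR : (C : ℝ) ≤ C' := by exact_mod_cast h
  unfold eps0
  gcongr

theorem pairA_mono {C C' : ℕ} (h : C ≤ C') (hC : PairA C) : PairA C' := by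
  intro k b0 hb0 he A z Pr P hz hS hP ι _ _ b B β β' hB
  have hm := Q3_eps0_mono h (2 * k) b0
  refine (hC k b0 hb0 (hm.trans he) A z Pr P hz hS hP ι b B β β' hB).trans ?_
  refine add_le_add (mul_le_mul_of_nonneg_right hm ?_) le_rfl
  exact mul_nonneg (mul_nonneg A.X_nonneg (Q3_VA_nonneg A Pr B hS.good))
    (Q3_AMA_nonneg P A b (fun p hp => (hP p hp).1) β β')

end Pool.Agent.LibPL63
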