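import Pool.Agent.LibPL63.Defs
import Pool.Agent.LibRG87.R0

/-!
Row Q4 (the remainder). For `T = sp β ∪ sp β'` and `D ⊆ Pr`: `F = D ∪ T ⊆ Pr ∪ P`, `∏ F = ∏ D * ∏ T` (disjoint: the primes of `Pr` are `≤ z`, those of `P` are `> z`),
`∏ T ≤ rr (sp β) * rr (sp β') ≤ z^(2L)`, so `∏ F ≤ z^(2L+2b0+6)`. `F` determines `D = F ∩ Pr` and `T = F ∩ P`; the number of pairs `(β, β')` with
`sp β ∪ sp β' = T` is at most `((card ι + 1)^2)^|T|` (`β, β'` are `none` outside `T`), and `(2k)^|D| * 2^|T| * ((k+1)^2)^|T| ≤ (2 (k+1)^2)^|F|`.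
-/

open Finset Filter

namespace Pool.Agent.LibPL63

open Pool.Agent.LibRG87 Pool.Agent.LibLG5

theorem Q4_card {ι : Type} [Fintype ι] [DecidableEq ι] (P T : Finset ℕ) :
    ((Finset.univ : Finset (P → Option ι)).filter fun β => sp P β ⊆ T).card ≤
      (Fintype.card ι + 1) ^ (T ∩ P).card := by
  classical
  have h1 : ((Finset.univ : Finset (P → Option ι)).filter fun β => sp P β ⊆ T) ⊆
      Fintype.piFinset (fun p : P => if (p : ℕ) ∈ T then (Finset.univ : Finset (Option ι)) else {none}) := by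
    intro β hβ
    rw [Finset.mem_filter] at hβ
    rw [Fintype.mem_piFinset]
    intro p
    by_cases hp : (p : ℕ) ∈ T
    · rw [if_pos hp]; exact Finset.mem_univ _
    · rw [if_neg hp, Finset.mem_singleton]
      by_contra hne
      exact hp (hβ.2 ((mem_sp P).2 ⟨p.2, hne⟩))
  refine (Finset.card_le_card h1).trans ?_
  rw [Fintype.card_piFinset]
  have h2 : ∀ p : P, (if (p : ℕ) ∈ T then (Finset.univ : Finset (Option ι)) else {none}).card =
      if (p : ℕ) ∈ T then Fintype.card ι + 1 else 1 := by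
    intro p
    by_cases hp : (p : ℕ) ∈ T
    · rw [if_pos hp, if_pos hp, Finset.card_univ, Fintype.card_option]
    · rw [if_neg hp, if_neg hp, Finset.card_singleton]
  rw [Finset.prod_congr rfl (fun p _ => h2 p)]
  have h3 : ∏ p : P, (if (p : ℕ) ∈ T then Fintype.card ι + 1 else 1) =
      ∏ p ∈ P, (if p ∈ T then Fintype.card ι + 1 else 1) :=
    Finset.prod_coe_sort P (fun p => if p ∈ T then Fintype.card ι + 1 else 1)
  rw [h3, Finset.prod_ite, Finset.prod_const, Finset.prod_const_one, mul_one]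
  have h4 : (P.filter fun p => p ∈ T) = T ∩ P := by
    ext p
    rw [Finset.mem_filter, Finset.mem_inter]
    exact And.comm
  rw [h4]

open scoped Classical in
theorem rem_sum (Er : ℕ → ℝ) (hEr : ∀ q, 0 ≤ Er q) (k z L b0 : ℕ) (Pr P : Finset ℕ)
    (hPr : ∀ p ∈ Pr, p.Prime ∧ p ≤ z) (hP : ∀ p ∈ P, p.Prime ∧ z < p)
    (ι : Type) [Fintype ι] [DecidableEq ι] (hk : Fintype.card ι ≤ k) :
    ∑ β : P → Option ι, ∑ β' : P → Option ι,
        (if rr (sp P β) ≤ (z : ℝ) ^ L ∧ rr (sp P β') ≤ (z : ℝ) ^ L then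
          (∑ D ∈ Pr.powerset with ∏ p ∈ D, p ≤ z ^ (2 * b0 + 6),
            ((2 * k : ℕ) : ℝ) ^ D.card * Er ((∏ p ∈ D, p) * ∏ p ∈ sp P β ∪ sp P β', p)) *
            2 ^ (sp P β ∪ sp P β').card else 0) ≤
      RemA Er (Pr ∪ P) (2 * (k + 1) ^ 2) (z ^ (2 * L + 2 * b0 + 6)) := by
  have hdisj : Disjoint Pr P := by
    rw [Finset.disjoint_left]
    intro p h1 h2
    exact absurd (hPr p h1).2 (not_le.2 (hP p h2).2)
  -- the index set
  set S : Finset (((P → Option ι) × (P → Option ι)) × Finset ℕ) :=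
    ((Finset.univ ×ˢ Finset.univ) ×ˢ Pr.powerset).filter fun s =>
      (rr (sp P s.1.1) ≤ (z : ℝ) ^ L ∧ rr (sp P s.1.2) ≤ (z : ℝ) ^ L) ∧
        ∏ p ∈ s.2, p ≤ z ^ (2 * b0 + 6) with hS
  set f : (((P → Option ι) × (P → Option ι)) × Finset ℕ) → ℝ := fun s =>
    ((2 * k : ℕ) : ℝ) ^ s.2.card * Er ((∏ p ∈ s.2, p) * ∏ p ∈ sp P s.1.1 ∪ sp P s.1.2, p) *
      2 ^ (sp P s.1.1 ∪ sp P s.1.2).card with hf
  have hL : ∑ β : P → Option ι, ∑ β' : P → Option ι,
        (if rr (sp P β) ≤ (z : ℝ) ^ L ∧ rr (sp P β') ≤ (z : ℝ) ^ L then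
          (∑ D ∈ Pr.powerset with ∏ p ∈ D, p ≤ z ^ (2 * b0 + 6),
            ((2 * k : ℕ) : ℝ) ^ D.card * Er ((∏ p ∈ D, p) * ∏ p ∈ sp P β ∪ sp P β', p)) *
            2 ^ (sp P β ∪ sp P β').card else 0) = ∑ s ∈ S, f s := by
    rw [hS, Finset.sum_filter, Finset.sum_product, Finset.sum_product]
    refine Finset.sum_congr rfl fun β _ => Finset.sum_congr rfl fun β' _ => ?_
    by_cases hc : rr (sp P β) ≤ (z : ℝ) ^ L ∧ rr (sp P β') ≤ (z : ℝ) ^ L
    · rw [if_pos hc, Finset.sum_mul, Finset.sum_filter]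
      refine Finset.sum_congr rfl fun D _ => ?_
      by_cases hD : ∏ p ∈ D, p ≤ z ^ (2 * b0 + 6)
      · rw [if_pos hD, if_pos ⟨hc, hD⟩]
      · rw [if_neg hD, if_neg (fun h => hD h.2)]
    · rw [if_neg hc]
      symm
      refine Finset.sum_eq_zero fun D _ => ?_
      rw [if_neg (fun h => hc h.1)]
  rw [hL]
  set Φ : (((P → Option ι) × (P → Option ι)) × Finset ℕ) → Finset ℕ := fun s =>
    s.2 ∪ (sp P s.1.1 ∪ sp P s.1.2) with hΦ
  have hTP : ∀ β β' : P → Option ι, sp P β ∪ sp P β' ⊆ P := fun β β' =>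
    Finset.union_subset (sp_subset P β) (sp_subset P β')
  have hprod : ∀ s ∈ S, ∏ p ∈ Φ s, p = (∏ p ∈ s.2, p) * ∏ p ∈ sp P s.1.1 ∪ sp P s.1.2, p := by
    intro s hs
    rw [hS, Finset.mem_filter, Finset.mem_product, Finset.mem_powerset] at hs
    exact Finset.prod_union (Disjoint.mono hs.1.2 (hTP _ _) hdisj)
  have hmaps : ∀ s ∈ S, Φ s ∈ ((Pr ∪ P).powerset.filter fun F => ∏ p ∈ F, p ≤ z ^ (2 * L + 2 * b0 + 6)) := by
    intro s hs
    have hs' := hs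
    rw [hS, Finset.mem_filter, Finset.mem_product, Finset.mem_powerset] at hs'
    rw [Finset.mem_filter, Finset.mem_powerset]
    refine ⟨Finset.union_subset_union hs'.1.2 (hTP _ _), ?_⟩
    rw [hprod s hs]
    have h1 : (∏ p ∈ sp P s.1.1 ∪ sp P s.1.2, p) ≤ (∏ p ∈ sp P s.1.1, p) * ∏ p ∈ sp P s.1.2, p := by
      have h2 := Finset.prod_union_inter (s₁ := sp P s.1.1) (s₂ := sp P s.1.2) (f := fun p => p)
      have h3 : 1 ≤ ∏ p ∈ sp P s.1.1 ∩ sp P s.1.2, p := by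
        refine Nat.succ_le_of_lt (Finset.prod_pos fun p hp => ?_)
        exact (hP p (sp_subset P _ (Finset.mem_inter.1 hp).1)).1.pos
      calc (∏ p ∈ sp P s.1.1 ∪ sp P s.1.2, p) = (∏ p ∈ sp P s.1.1 ∪ sp P s.1.2, p) * 1 := (mul_one _).symm
        _ ≤ (∏ p ∈ sp P s.1.1 ∪ sp P s.1.2, p) * ∏ p ∈ sp P s.1.1 ∩ sp P s.1.2, p := Nat.mul_le_mul_left _ h3
        _ = _ := h2
    have hr : ∀ β : P → Option ι, rr (sp P β) ≤ (z : ℝ) ^ L → (∏ p ∈ sp P β, p) ≤ z ^ L := by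
      intro β h
      unfold rr at h
      have : ((∏ p ∈ sp P β, p : ℕ) : ℝ) ≤ ((z ^ L : ℕ) : ℝ) := by push_cast; exact h
      exact_mod_cast this
    calc (∏ p ∈ s.2, p) * ∏ p ∈ sp P s.1.1 ∪ sp P s.1.2, p
        ≤ z ^ (2 * b0 + 6) * ((∏ p ∈ sp P s.1.1, p) * ∏ p ∈ sp P s.1.2, p) := Nat.mul_le_mul hs'.2.2 h1
      _ ≤ z ^ (2 * b0 + 6) * (z ^ L * z ^ L) :=
          Nat.mul_le_mul_left _ (Nat.mul_le_mul (hr _ hs'.2.1.1) (hr _ hs'.2.1.2))
      _ = z ^ (2 * L + 2 * b0 + 6) := by ring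
  rw [← Finset.sum_fiberwise_of_maps_to hmaps]
  unfold RemA
  refine Finset.sum_le_sum fun F hF => ?_
  rw [Finset.mem_filter, Finset.mem_powerset] at hF
  -- on the fibre
  have hfib : ∀ s ∈ S.filter (fun s => Φ s = F), s.2 = F ∩ Pr ∧ sp P s.1.1 ∪ sp P s.1.2 = F ∩ P := by
    intro s hs
    rw [Finset.mem_filter] at hs
    obtain ⟨hs1, hs2⟩ := hs
    rw [hS, Finset.mem_filter, Finset.mem_product, Finset.mem_powerset] at hs1
    have hd1 : Disjoint (sp P s.1.1 ∪ sp P s.1.2) Pr := Disjoint.mono_left (hTP _ _) hdisj.symm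
    have hd2 : Disjoint s.2 P := Disjoint.mono_left hs1.1.2 hdisj
    rw [← hs2, hΦ]
    constructor
    · change s.2 = (s.2 ∪ (sp P s.1.1 ∪ sp P s.1.2)) ∩ Pr
      rw [Finset.union_inter_distrib_right, Finset.disjoint_iff_inter_eq_empty.1 hd1, Finset.union_empty]
      exact (Finset.inter_eq_left.2 hs1.1.2).symm
    · change sp P s.1.1 ∪ sp P s.1.2 = (s.2 ∪ (sp P s.1.1 ∪ sp P s.1.2)) ∩ P
      rw [Finset.union_inter_distrib_right, Finset.disjoint_iff_inter_eq_empty.1 hd2, Finset.empty_union]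
      exact (Finset.inter_eq_left.2 (hTP _ _)).symm
  have hval : ∀ s ∈ S.filter (fun s => Φ s = F), f s =
      ((2 * k : ℕ) : ℝ) ^ (F ∩ Pr).card * Er (∏ p ∈ F, p) * 2 ^ (F ∩ P).card := by
    intro s hs
    obtain ⟨h1, h2⟩ := hfib s hs
    rw [Finset.mem_filter] at hs
    have h3 := hprod s hs.1
    rw [hs.2] at h3
    rw [hf]
    change ((2 * k : ℕ) : ℝ) ^ s.2.card * Er ((∏ p ∈ s.2, p) * ∏ p ∈ sp P s.1.1 ∪ sp P s.1.2, p) *
      2 ^ (sp P s.1.1 ∪ sp P s.1.2).card = _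
    rw [← h3, h1, h2]
  have hcard : (S.filter (fun s => Φ s = F)).card ≤ ((Fintype.card ι + 1) ^ (F ∩ P).card) ^ 2 := by
    have hinj : (S.filter (fun s => Φ s = F)).card ≤
        (((Finset.univ : Finset (P → Option ι)).filter fun β => sp P β ⊆ F ∩ P) ×ˢ
          ((Finset.univ : Finset (P → Option ι)).filter fun β => sp P β ⊆ F ∩ P)).card := by
      refine Finset.card_le_card_of_injOn (fun s => s.1) ?_ ?_
      · intro s hs
        obtain ⟨_, h2⟩ := hfib s hs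
        rw [Finset.mem_coe, Finset.mem_product, Finset.mem_filter, Finset.mem_filter, ← h2]
        exact ⟨⟨Finset.mem_univ _, Finset.subset_union_left⟩, ⟨Finset.mem_univ _, Finset.subset_union_right⟩⟩
      · intro s hs t ht hst
        have h1 := (hfib s hs).1
        have h2 := (hfib t ht).1
        exact Prod.ext hst (h1.trans h2.symm)
    refine hinj.trans ?_
    rw [Finset.card_product, sq]
    have h := Q4_card (ι := ι) P (F ∩ P)
    rw [Finset.inter_assoc, Finset.inter_self] at h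
    exact Nat.mul_le_mul h h
  rw [Finset.sum_congr rfl hval, Finset.sum_const, nsmul_eq_mul]
  have hFc : F.card = (F ∩ Pr).card + (F ∩ P).card := by
    have h1 : F = (F ∩ Pr) ∪ (F ∩ P) := by
      rw [← Finset.inter_union_distrib_left]
      exact (Finset.inter_eq_left.2 hF.1).symm
    conv_lhs => rw [h1]
    exact Finset.card_union_of_disjoint (Disjoint.mono Finset.inter_subset_right Finset.inter_subset_right hdisj)
  set a := (F ∩ Pr).card with ha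
  set t := (F ∩ P).card with ht
  have hE := hEr (∏ p ∈ F, p)
  have hk' : ((Fintype.card ι : ℝ)) ≤ k := by exact_mod_cast hk
  have hk0 : (0 : ℝ) ≤ k := Nat.cast_nonneg k
  have c1 : (((S.filter (fun s => Φ s = F)).card : ℕ) : ℝ) ≤ (((k : ℝ) + 1) ^ 2) ^ t := by
    have h1 : (((S.filter (fun s => Φ s = F)).card : ℕ) : ℝ) ≤ ((Fintype.card ι : ℝ) + 1) ^ t ^ 1 * ((Fintype.card ι : ℝ) + 1) ^ t := by
      rw [pow_one, ← sq]
      exact_mod_cast hcard
    have h2 : ((Fintype.card ι : ℝ) + 1) ^ t ≤ ((k : ℝ) + 1) ^ t :=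
      pow_le_pow_left₀ (by positivity) (by linarith) t
    rw [pow_one] at h1
    calc _ ≤ ((Fintype.card ι : ℝ) + 1) ^ t * ((Fintype.card ι : ℝ) + 1) ^ t := h1
      _ ≤ ((k : ℝ) + 1) ^ t * ((k : ℝ) + 1) ^ t := mul_le_mul h2 h2 (by positivity) (by positivity)
      _ = (((k : ℝ) + 1) ^ 2) ^ t := by rw [← mul_pow]; congr 1; ring
  have c2 : ((2 * k : ℕ) : ℝ) ^ a ≤ (2 * ((k : ℝ) + 1) ^ 2) ^ a := by
    refine pow_le_pow_left₀ (by positivity) ?_ a
    push_cast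
    nlinarith
  have c3 : (((S.filter (fun s => Φ s = F)).card : ℕ) : ℝ) *
      (((2 * k : ℕ) : ℝ) ^ a * Er (∏ p ∈ F, p) * 2 ^ t) ≤
      (((k : ℝ) + 1) ^ 2) ^ t * ((2 * ((k : ℝ) + 1) ^ 2) ^ a * Er (∏ p ∈ F, p) * 2 ^ t) := by
    refine mul_le_mul c1 ?_ (by positivity) (by positivity)
    exact mul_le_mul_of_nonneg_right (mul_le_mul_of_nonneg_right c2 hE) (by positivity)
  refine c3.trans (le_of_eq ?_)
  rw [hFc]
  push_cast
  rw [pow_add]
  have c4 : (2 * ((k : ℝ) + 1) ^ 2) ^ t = 2 ^ t * (((k : ℝ) + 1) ^ 2) ^ t := mul_pow _ _ _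
  rw [c4]
  ring

end Pool.Agent.LibPL63
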