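import Pool.Agent.LibPL63.Q1
import Pool.Agent.LibPL63.Q2
import Pool.Agent.LibPL63.Q3
import Pool.Agent.LibPL63.Q4

/-!
Row Q5 (the quadratic form). Expand the square, exchange the sums; for each pair `β, β'` with `y β y β' ≠ 0` use `PairA`; sum: main terms
`∑ y y' EPA = DD + ∑ y y' (EPA - Dd)` (`∑ y y' Dd = DD`), `off_sum`, `mass_sum`, `rem_sum`. `|y β y β'| ≤ 1`. `VA ≥ 0`: `Ep p (xB B p) ≤ 1` by
`xB ≤ 1`, `lp_sum`.
-/

open Finset Filter

namespace Pool.Agent.LibPL63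

open Pool.Agent.LibRG87 Pool.Agent.LibLG5

theorem VA_nonneg (A : Average) (Pr B : Finset ℕ) (hPr : ∀ p ∈ Pr, p ∈ A.good) : 0 ≤ VA A Pr B := by
  refine Finset.prod_nonneg fun p hp => ?_
  rw [sub_nonneg, Average.Ep, ← A.lp_sum p (hPr p hp)]
  refine Finset.sum_le_sum fun x _ => mul_le_of_le_one_right (A.lp_nonneg p (hPr p hp) x) ?_
  unfold xB
  split_ifs <;> norm_num

section

variable {ι : Type} [Fintype ι] [DecidableEq ι] (P : Finset ℕ)

theorem Q5_sq (b : ι → ℕ) (y : (P → Option ι) → ℝ) (n : ℕ) :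
    PhiF P b y n ^ 2 = ∑ β, ∑ β', y β * y β' * (ee P b β n * ee P b β' n) := by
  rw [PhiF, sq, Finset.sum_mul_sum]
  exact Finset.sum_congr rfl fun β _ => Finset.sum_congr rfl fun β' _ => by ring

theorem Q5_main (A : Average) (Pr B : Finset ℕ) (b : ι → ℕ) (y : (P → Option ι) → ℝ) :
    ∑ n ∈ A.s, A.om n * (rhoP Pr B n * PhiF P b y n ^ 2) = ∑ β, ∑ β', y β * y β' *
      ∑ n ∈ A.s, A.om n * (rhoP Pr B n * (ee P b β n * ee P b β' n)) := by
  simp only [Q5_sq, Finset.mul_sum]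
  rw [Finset.sum_comm]
  refine Finset.sum_congr rfl fun β _ => ?_
  rw [Finset.sum_comm]
  exact Finset.sum_congr rfl fun β' _ => Finset.sum_congr rfl fun n _ => by ring

theorem Q5_DD (y : (P → Option ι) → ℝ) : DD P y = ∑ β, ∑ β', y β * y β' * Dd P β β' := by
  unfold DD
  refine Finset.sum_congr rfl fun β _ => ?_
  rw [Finset.sum_eq_single β]
  · rw [Dd, if_pos rfl]
    ring
  · intro β' _ h
    rw [Dd, if_neg (Ne.symm h), mul_zero]
  · intro h
    exact absurd (Finset.mem_univ _) h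

open scoped Classical in
/-- one pair of configurations -/
theorem Q5_pair (C : ℕ) (hC : PairA C) (k b0 : ℕ) (hb : Even b0) (he : eps0 C (2 * k) b0 ≤ 1)
    (A : Average) (z L : ℕ) (Pr : Finset ℕ) (hz : 1 ≤ z) (hS : SmallOK A Pr z k)
    (hPz : ∀ p ∈ P, z < p) (b : ι → ℕ) (J : Finset ι)
    (hL : LocOK P A b J) (B : Finset ℕ) (hB : B.card ≤ k)
    (y : (P → Option ι) → ℝ) (hy : ∀ β, |y β| ≤ 1)
    (hy' : ∀ β, y β ≠ 0 → rr (sp P β) ≤ (z : ℝ) ^ L ∧ alw P J β) (β β' : P → Option ι) :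
    |y β * y β' * (∑ n ∈ A.s, A.om n * (rhoP Pr B n * (ee P b β n * ee P b β' n)) -
      A.X * VA A Pr B * Dd P β β')| ≤
      A.X * VA A Pr B * (if alw P J β ∧ alw P J β' then |EPA P A b β β' - Dd P β β'| else 0) +
      eps0 C (2 * k) b0 * (A.X * VA A Pr B) * AMA P A b β β' +
      (if rr (sp P β) ≤ (z : ℝ) ^ L ∧ rr (sp P β') ≤ (z : ℝ) ^ L then
          (∑ D ∈ Pr.powerset with ∏ p ∈ D, p ≤ z ^ (2 * b0 + 6),
            ((2 * k : ℕ) : ℝ) ^ D.card * A.Er ((∏ p ∈ D, p) * ∏ p ∈ sp P β ∪ sp P β', p)) *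
            2 ^ (sp P β ∪ sp P β').card else 0) := by
  have hXV : 0 ≤ A.X * VA A Pr B := mul_nonneg A.X_nonneg (VA_nonneg A Pr B hS.good)
  have he0 : 0 ≤ eps0 C (2 * k) b0 := by
    unfold eps0
    positivity
  have hAM : 0 ≤ AMA P A b β β' := AMA_nonneg P A b hL.good β β'
  by_cases h : y β ≠ 0 ∧ y β' ≠ 0
  · obtain ⟨h1, h2⟩ := hy' β h.1
    obtain ⟨h3, h4⟩ := hy' β' h.2
    rw [if_pos ⟨h2, h4⟩, if_pos ⟨h1, h3⟩, abs_mul]
    have hyy : |y β * y β'| ≤ 1 := by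
      rw [abs_mul]
      exact mul_le_one₀ (hy β) (abs_nonneg _) (hy β')
    have hpair := hC k b0 hb he A z Pr P hz hS (fun p hp => ⟨hL.good p hp, hPz p hp⟩) ι b B β β' hB
    refine (mul_le_of_le_one_left (abs_nonneg _) hyy).trans ?_
    have e : ∑ n ∈ A.s, A.om n * (rhoP Pr B n * (ee P b β n * ee P b β' n)) -
        A.X * VA A Pr B * Dd P β β' =
        (∑ n ∈ A.s, A.om n * (rhoP Pr B n * (ee P b β n * ee P b β' n)) -
          A.X * VA A Pr B * EPA P A b β β') +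
        A.X * VA A Pr B * (EPA P A b β β' - Dd P β β') := by ring
    rw [e]
    refine (abs_add_le _ _).trans ?_
    rw [abs_mul (A.X * VA A Pr B), abs_of_nonneg hXV]
    linarith
  · have h0 : y β * y β' = 0 := by
      rcases not_and_or.1 h with h | h
      · rw [not_not.1 h, zero_mul]
      · rw [not_not.1 h, mul_zero]
    rw [h0, zero_mul, abs_zero]
    refine add_nonneg (add_nonneg (mul_nonneg hXV ?_) (mul_nonneg (mul_nonneg he0 hXV) hAM)) ?_
    · split_ifs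
      · exact abs_nonneg _
      · exact le_rfl
    · split_ifs
      · refine mul_nonneg (Finset.sum_nonneg fun D _ => mul_nonneg (by positivity)
          (A.Er_nonneg _)) (by positivity)
      · exact le_rfl

end

theorem QFA (C : ℕ) (hC : PairA C) (k b0 : ℕ) (hb : Even b0) (he : eps0 C (2 * k) b0 ≤ 1)
    (A : Average) (z L : ℕ) (Pr P : Finset ℕ) (hz : 1 ≤ z) (hS : SmallOK A Pr z k)
    (hPz : ∀ p ∈ P, z < p) (ι : Type) [Fintype ι] [DecidableEq ι] (b : ι → ℕ) (J : Finset ι)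
    (hL : LocOK P A b J) (hk : Fintype.card ι ≤ k) (B : Finset ℕ) (hB : B.card ≤ k)
    (y : (P → Option ι) → ℝ) (hy : ∀ β, |y β| ≤ 1)
    (hy' : ∀ β, y β ≠ 0 → rr (sp P β) ≤ (z : ℝ) ^ L ∧ alw P J β) :
    |∑ n ∈ A.s, A.om n * (rhoP Pr B n * PhiF P b y n ^ 2) - A.X * VA A Pr B * DD P y| ≤
      A.X * VA A Pr B *
        (8 * (Fintype.card ι : ℝ) ^ 2 * (∑ p ∈ P, 1 / ((p : ℝ) - 1) ^ 2) *
            (∏ p ∈ P, (1 + (Fintype.card ι : ℝ) / ((p : ℝ) - 1) +
              8 * (Fintype.card ι : ℝ) ^ 2 / ((p : ℝ) - 1) ^ 2)) +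
          eps0 C (2 * k) b0 * ∏ p ∈ P, (1 + 2 * ((Fintype.card ι : ℝ) + 1) ^ 2 / ((p : ℝ) - 1))) +
        RemA A.Er (Pr ∪ P) (2 * (k + 1) ^ 2) (z ^ (2 * L + 2 * b0 + 6)) := by
  classical
  have hXV : 0 ≤ A.X * VA A Pr B := mul_nonneg A.X_nonneg (VA_nonneg A Pr B hS.good)
  have he0 : 0 ≤ eps0 C (2 * k) b0 := by
    unfold eps0
    positivity
  have e1 : ∑ n ∈ A.s, A.om n * (rhoP Pr B n * PhiF P b y n ^ 2) - A.X * VA A Pr B * DD P y =
      ∑ β, ∑ β', y β * y β' *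
        (∑ n ∈ A.s, A.om n * (rhoP Pr B n * (ee P b β n * ee P b β' n)) -
          A.X * VA A Pr B * Dd P β β') := by
    rw [Q5_main, Q5_DD, Finset.mul_sum, ← Finset.sum_sub_distrib]
    refine Finset.sum_congr rfl fun β _ => ?_
    rw [Finset.mul_sum, ← Finset.sum_sub_distrib]
    exact Finset.sum_congr rfl fun β' _ => by ring
  rw [e1]
  refine (Finset.abs_sum_le_sum_abs _ _).trans ?_
  refine (Finset.sum_le_sum fun β _ => Finset.abs_sum_le_sum_abs _ _).trans ?_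
  refine (Finset.sum_le_sum fun β _ => Finset.sum_le_sum fun β' _ =>
    Q5_pair P C hC k b0 hb he A z L Pr hz hS hPz b J hL B hB y hy hy' β β').trans ?_
  have h1 := off_sum P A b J hL
  have h2 := mass_sum P A b J hL
  have h3 := rem_sum A.Er A.Er_nonneg k z L b0 Pr P
    (fun p hp => ⟨A.good_prime p (hS.good p hp), hS.le p hp⟩)
    (fun p hp => ⟨A.good_prime p (hL.good p hp), hPz p hp⟩) ι hk
  simp only [Finset.sum_add_distrib, ← Finset.mul_sum]
  have h1' := mul_le_mul_of_nonneg_left h1 hXV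
  have h2' := mul_le_mul_of_nonneg_left h2 (mul_nonneg he0 hXV)
  refine (add_le_add (add_le_add h1' h2') h3).trans (le_of_eq ?_)
  ring

end Pool.Agent.LibPL63
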