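import Pool.Agent.LibPL63.SA5

/-!
[PL63 SA6] **Instance (P)**: the Gaussian average over the `n ≡ c (mod W)` with `n + a0` prime.
-/

set_option autoImplicit false

namespace Pool.Agent.LibPL63

open Finset Pool.Agent.LibLG5 Pool.Agent.LibMaier

theorem wp_nonneg (x : ℝ) (n : ℕ) : 0 ≤ wp x n := by
  unfold wp
  split_ifs
  · exact div_nonneg (mul_nonneg (Real.log_natCast_nonneg _) (gw_nonneg _)) (Nat.cast_nonneg _)
  · exact le_rfl

theorem gw_le_sq (x u : ℝ) : gw (u - x) ≤ Real.exp (2 * x + 2) * Real.exp (-(2 * u)) := by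
  unfold gw
  have hpi := Real.pi_gt_three
  have h2 : (1 : ℝ) ≤ Real.sqrt (2 * Real.pi) := by
    apply Real.le_sqrt_of_sq_le
    linarith
  have h1 : Real.exp (-(u - x) ^ 2 / 2) ≤ Real.exp (2 * x + 2) * Real.exp (-(2 * u)) := by
    rw [← Real.exp_add]
    apply Real.exp_le_exp.2
    nlinarith [sq_nonneg (u - x - 2)]
  refine le_trans ?_ h1
  exact div_le_self (Real.exp_pos _).le h2

theorem wp_le (x : ℝ) (n : ℕ) : wp x n ≤ Real.exp (2 * x + 2) * (1 / (n : ℝ) ^ 2) := by
  unfold wp
  split_ifs with hp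
  · have hn : (0 : ℝ) < n := by exact_mod_cast hp.pos
    have h1 := gw_le_sq x (Real.log n)
    have h2 : Real.exp (-(2 * Real.log (n : ℝ))) = 1 / (n : ℝ) ^ 2 := by
      rw [Real.exp_neg, mul_comm, Real.exp_mul, Real.exp_log hn, one_div]
      norm_cast
    rw [h2] at h1
    have h3 : Real.log n / n ≤ 1 := by
      rw [div_le_one hn]
      exact (Real.log_le_sub_one_of_pos hn).trans (by linarith)
    have h4 : 0 ≤ Real.log (n : ℝ) / n := div_nonneg (Real.log_natCast_nonneg _) hn.le
    calc Real.log n * gw (Real.log n - x) / n = Real.log n / n * gw (Real.log n - x) := by ring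
      _ ≤ 1 * gw (Real.log n - x) := mul_le_mul_of_nonneg_right h3 (gw_nonneg _)
      _ ≤ _ := by rw [one_mul]; exact h1
  · positivity

theorem wp_summable (x : ℝ) : Summable (wp x) := by
  refine Summable.of_nonneg_of_le (wp_nonneg x) (wp_le x) ?_
  exact (Real.summable_one_div_nat_pow.2 (by norm_num)).mul_left _

theorem ite_summable (x : ℝ) (P : ℕ → Prop) [DecidablePred P] :
    Summable fun n => if P n then wp x n else 0 := by
  refine Summable.of_nonneg_of_le (fun n => ?_) (fun n => ?_) (wp_summable x)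
  · split_ifs
    · exact wp_nonneg x n
    · exact le_rfl
  · split_ifs
    · exact le_rfl
    · exact wp_nonneg x n

theorem trw_nonneg (x : ℝ) (lo : ℕ) : 0 ≤ trw x lo := by
  unfold trw
  refine tsum_nonneg fun n => ?_
  split_ifs
  · exact wp_nonneg x n
  · exact le_rfl

/-- the finite sum over the shifted class against the full sum -/
theorem class_wp (x : ℝ) (W c a0 q a : ℕ) (hcop : W.Coprime q) (ha : a < q)
    (r : ℕ) (hr1 : r ≡ c + a0 [MOD W]) (hr2 : r ≡ a + a0 [MOD q]) :
    ∑ n ∈ clsU x W c with n % q = a, wp x (n + a0) ≤ (∑' n : ℕ, if n ≡ r [MOD W * q] then wp x n else 0) ∧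
    (∑' n : ℕ, if n ≡ r [MOD W * q] then wp x n else 0) - trw x a0 ≤
      ∑ n ∈ clsU x W c with n % q = a, wp x (n + a0) := by
  set S := ((clsU x W c).filter fun n => n % q = a).image fun n => n + a0 with hS
  have hsum : ∑ n ∈ clsU x W c with n % q = a, wp x (n + a0) = ∑ N ∈ S, wp x N := by
    rw [hS, Finset.sum_image]
    intro n _ m _ h
    simp only at h
    omega
  have hmem : ∀ N, N ∈ S ↔ (a0 < N ∧ N ≤ ⌊Real.exp (2 * x)⌋₊ + a0) ∧ N ≡ r [MOD W * q] := by
    intro N
    rw [hS, Finset.mem_image]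
    constructor
    · rintro ⟨n, hn, rfl⟩
      unfold clsU at hn
      rw [Finset.mem_filter, Finset.mem_filter, Finset.mem_Icc] at hn
      obtain ⟨⟨⟨h1, h2⟩, h3⟩, h4⟩ := hn
      refine ⟨⟨by omega, by omega⟩, ?_⟩
      rw [← Nat.modEq_and_modEq_iff_modEq_mul hcop]
      refine ⟨(h3.add_right a0).trans hr1.symm, ?_⟩
      have h5 : n ≡ a [MOD q] := by
        unfold Nat.ModEq
        rw [h4, Nat.mod_eq_of_lt ha]
      exact (h5.add_right a0).trans hr2.symm
    · rintro ⟨⟨h1, h2⟩, h3⟩
      rw [← Nat.modEq_and_modEq_iff_modEq_mul hcop] at h3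
      obtain ⟨n, rfl⟩ : ∃ n, N = n + a0 := ⟨N - a0, by omega⟩
      refine ⟨n, ?_, rfl⟩
      unfold clsU
      rw [Finset.mem_filter, Finset.mem_filter, Finset.mem_Icc]
      refine ⟨⟨⟨by omega, by omega⟩, ?_⟩, ?_⟩
      · exact Nat.ModEq.add_right_cancel' a0 (h3.1.trans hr1)
      · have h5 : n ≡ a [MOD q] := Nat.ModEq.add_right_cancel' a0 (h3.2.trans hr2)
        have h6 : n % q = a % q := h5
        rw [h6, Nat.mod_eq_of_lt ha]
  have hs1 := ite_summable x (fun n => n ≡ r [MOD W * q])
  have hfin : ∑ N ∈ S, wp x N = ∑ N ∈ S, (if N ≡ r [MOD W * q] then wp x N else 0) := by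
    refine Finset.sum_congr rfl fun N hN => ?_
    rw [if_pos ((hmem N).1 hN).2]
  constructor
  · rw [hsum, hfin]
    exact hs1.sum_le_tsum S (fun n _ => by
      split_ifs
      · exact wp_nonneg x n
      · exact le_rfl)
  · rw [hsum, hfin]
    have hs2 := ite_summable x (fun n => n ≤ a0 ∨ Real.exp (2 * x) < n)
    have hle : ∀ n : ℕ, (if n ≡ r [MOD W * q] then wp x n else 0) ≤
        (if n ∈ S then (if n ≡ r [MOD W * q] then wp x n else 0) else 0) +
        (if n ≤ a0 ∨ Real.exp (2 * x) < n then wp x n else 0) := by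
      intro n
      have h0 := wp_nonneg x n
      by_cases hnS : n ∈ S
      · rw [if_pos hnS]
        have : 0 ≤ (if n ≤ a0 ∨ Real.exp (2 * x) < n then wp x n else 0) := by
          split_ifs
          · exact h0
          · exact le_rfl
        linarith
      · rw [if_neg hnS, zero_add]
        by_cases hr : n ≡ r [MOD W * q]
        · rw [if_pos hr]
          have h1 : n ≤ a0 ∨ Real.exp (2 * x) < n := by
            by_contra hcon
            push Not at hcon
            apply hnS
            rw [hmem]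
            refine ⟨⟨by omega, ?_⟩, hr⟩
            have := Nat.le_floor hcon.2
            omega
          rw [if_pos h1]
        · rw [if_neg hr]
          split_ifs
          · exact h0
          · exact le_rfl
    have hs3 : Summable fun n => if n ∈ S then (if n ≡ r [MOD W * q] then wp x n else 0) else 0 :=
      summable_of_ne_finset_zero (s := S) fun n hn => if_neg hn
    have h1 := hs1.tsum_le_tsum hle (hs3.add hs2)
    rw [Summable.tsum_add hs3 hs2, tsum_eq_sum (s := S) fun n hn => if_neg hn] at h1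
    have h2 : ∑ n ∈ S, (if n ∈ S then (if n ≡ r [MOD W * q] then wp x n else 0) else 0) =
        ∑ n ∈ S, if n ≡ r [MOD W * q] then wp x n else 0 :=
      Finset.sum_congr rfl fun n hn => if_pos hn
    rw [h2] at h1
    unfold trw
    linarith

/-- the totient of a product of distinct primes -/
theorem totient_prod (T : Finset ℕ) (hTp : ∀ p ∈ T, p.Prime) :
    (((∏ p ∈ T, p : ℕ).totient : ℕ) : ℝ) = ∏ p ∈ T, ((p : ℝ) - 1) := by
  induction T using Finset.induction_on with
  | empty => simp
  | insert p T hp ih =>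
    have hTp' : ∀ p ∈ T, p.Prime := fun p' hp' => hTp p' (Finset.mem_insert_of_mem hp')
    have hpp : p.Prime := hTp p (Finset.mem_insert_self _ _)
    rw [Finset.prod_insert hp, Finset.prod_insert hp,
      Nat.totient_mul (prod_primes_coprime T hTp' p hpp hp), Nat.totient_prime hpp]
    rw [Nat.cast_mul, Nat.cast_sub hpp.one_le, Nat.cast_one, ih hTp']

/-- **instance (P)** -/
noncomputable def avgP (x : ℝ) (p1 : ℕ) (D : BVdata x p1) (W c a0 : ℕ) (hW : 0 < W)
    (hc : (c + a0).Coprime W) : Average where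
  s := clsU x W c
  om := fun n => wp x (n + a0)
  good := {p | p.Prime ∧ ¬ p ∣ W}
  lp := lpP a0
  X := D.M / (W.totient : ℝ)
  Er := fun q => D.er (W * q) + trw x a0
  om_nonneg := fun n _ => wp_nonneg x _
  X_nonneg := div_nonneg ((by norm_num : (0 : ℝ) ≤ 9 / 10).trans D.M_ge) (Nat.cast_nonneg _)
  Er_nonneg := fun q => add_nonneg (D.er_nonneg _) (trw_nonneg x a0)
  good_prime := fun p hp => hp.1
  lp_nonneg := fun p hp y => by
    have h2 : (2 : ℝ) ≤ p := by exact_mod_cast (hp.1).two_le
    unfold lpP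
    split_ifs
    · exact le_rfl
    · exact div_nonneg zero_le_one (by linarith)
  lp_sum := fun p hp => by
    have hpp : p.Prime := hp.1
    have h2 : (2 : ℝ) ≤ p := by exact_mod_cast hpp.two_le
    have h1 : ∀ y, lpP a0 p y = (1 - xp {a0} p y) * (1 / ((p : ℝ) - 1)) := by
      intro y
      unfold lpP xp
      by_cases h : p ∣ y + a0
      · rw [if_pos h, if_pos ⟨a0, by simp, h⟩]
        ring
      · rw [if_neg h, if_neg]
        · ring
        · rintro ⟨a, ha, hd⟩
          rw [Finset.mem_singleton] at ha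
          rw [ha] at hd
          exact h hd
    have h3 : ∑ y ∈ range p, lpP a0 p y = ((p : ℝ) - 1) * (1 / ((p : ℝ) - 1)) := by
      rw [Finset.sum_congr rfl fun y _ => h1 y, ← Finset.sum_mul, Finset.sum_sub_distrib,
        sum_xp {a0} p hpp.pos]
      unfold nuP
      simp
    rw [h3, mul_one_div, div_self (by linarith)]
  hp := by
    refine hp_of_classes (clsU x W c) (fun n => wp x (n + a0)) {p | p.Prime ∧ ¬ p ∣ W}
      (fun (p : ℕ) (hp : p ∈ {p : ℕ | p.Prime ∧ ¬ p ∣ W}) => hp.1)
      (lpP a0) (D.M / (W.totient : ℝ)) (fun q => D.er (W * q) + trw x a0) ?_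
    intro T hT a ha
    set q := ∏ p ∈ T, p with hq
    have hTp : ∀ p ∈ T, p.Prime := fun p hp => (hT p hp).1
    have hq0 : 0 < q := Finset.prod_pos fun p hp => (hT p hp).1.pos
    have hcop : W.Coprime q := by
      apply Nat.Coprime.prod_right
      intro p hp
      exact ((Nat.Prime.coprime_iff_not_dvd (hT p hp).1).2 (hT p hp).2).symm
    set r : ℕ := (Nat.chineseRemainder hcop (c + a0) (a + a0) : ℕ) with hr
    have hr12 := (Nat.chineseRemainder hcop (c + a0) (a + a0)).2
    obtain ⟨h1, h2⟩ := class_wp x W c a0 q a hcop ha r hr12.1 hr12.2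
    have hrW : r.Coprime W := by
      unfold Nat.Coprime
      rw [Nat.ModEq.gcd_eq hr12.1]
      exact hc
    have hWq : 1 ≤ W * q := Nat.mul_pos hW hq0
    have htr := trw_nonneg x a0
    have her := D.er_nonneg (W * q)
    have hlp : ∀ p ∈ T, lpP a0 p (a % p) = lpP a0 p a := by
      intro p hp
      unfold lpP
      have : p ∣ a % p + a0 ↔ p ∣ a + a0 := by
        have h3 : a % p + a0 ≡ a + a0 [MOD p] := (Nat.mod_modEq a p).add_right a0
        exact h3.dvd_iff dvd_rfl
      simp only [this]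
    have hprod : ∏ p ∈ T, lpP a0 p (a % p) = ∏ p ∈ T, lpP a0 p a := Finset.prod_congr rfl hlp
    rw [hprod]
    by_cases hu : ∀ p ∈ T, ¬ p ∣ a + a0
    · have hrq : r.Coprime q := by
        unfold Nat.Coprime
        rw [Nat.ModEq.gcd_eq hr12.2]
        apply Nat.Coprime.prod_right
        intro p hp
        exact ((Nat.Prime.coprime_iff_not_dvd (hTp p hp)).2 (hu p hp)).symm
      have h3 := D.unit (W * q) r hWq (Nat.Coprime.mul_right hrW hrq)
      have h4 : D.M / (W.totient : ℝ) * ∏ p ∈ T, lpP a0 p a = D.M / ((W * q).totient : ℝ) := by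
        have h5 : ∏ p ∈ T, lpP a0 p a = ∏ p ∈ T, 1 / ((p : ℝ) - 1) := by
          refine Finset.prod_congr rfl fun p hp => ?_
          unfold lpP
          rw [if_neg (hu p hp)]
        have h6 : (q.totient : ℝ) = ∏ p ∈ T, ((p : ℝ) - 1) := totient_prod T hTp
        rw [h5, Finset.prod_div_distrib, Finset.prod_const_one, Nat.totient_mul hcop, ← h6]
        push_cast
        rw [div_mul_div_comm, mul_one]
      rw [h4]
      rw [abs_le] at h3 ⊢
      constructor <;> linarith
    · push Not at hu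
      obtain ⟨p, hpT, hpd⟩ := hu
      have h3 : ∏ p ∈ T, lpP a0 p a = 0 := by
        refine Finset.prod_eq_zero hpT ?_
        unfold lpP
        rw [if_pos hpd]
      have hnc : ¬ r.Coprime (W * q) := by
        intro h4
        have h5 : p ∣ r := (hr12.2.of_dvd (Finset.dvd_prod_of_mem _ hpT)).dvd_iff dvd_rfl |>.2 hpd
        have h6 : p ∣ W * q := Dvd.dvd.mul_left (Finset.dvd_prod_of_mem _ hpT) W
        have h7 : p ∣ Nat.gcd r (W * q) := Nat.dvd_gcd h5 h6
        rw [h4] at h7
        exact (hTp p hpT).one_lt.ne' (Nat.dvd_one.1 h7)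
      have h4 := D.nonunit (W * q) r hWq hnc
      have h5 : 0 ≤ ∑ n ∈ (clsU x W c).filter (fun n => n % q = a), wp x (n + a0) :=
        Finset.sum_nonneg fun n _ => wp_nonneg x _
      rw [h3, mul_zero, sub_zero, abs_of_nonneg h5]
      linarith

end Pool.Agent.LibPL63
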