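import Pool.Agent.LibPL63.SA6

/-!
[PL63 SA7] **Instance (P) with a lower cut**, the transfer from the prime weight to the Gaussian
weight, and the size of the tail `trw`.
-/

set_option autoImplicit false

namespace Pool.Agent.LibPL63

open Finset Pool.Agent.LibLG5 Pool.Agent.LibMaier

/-- the finite sum over the shifted class against the full sum -/
theorem class_wpQ (x : ℝ) (W c a0 lo q a : ℕ) (hcop : W.Coprime q) (ha : a < q)
    (r : ℕ) (hr1 : r ≡ c + a0 [MOD W]) (hr2 : r ≡ a + a0 [MOD q]) :
    ∑ n ∈ (clsU x W c).filter (fun n => lo < n) with n % q = a, wp x (n + a0) ≤ (∑' n : ℕ, if n ≡ r [MOD W * q] then wp x n else 0) ∧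
    (∑' n : ℕ, if n ≡ r [MOD W * q] then wp x n else 0) - trw x (lo + a0) ≤
      ∑ n ∈ (clsU x W c).filter (fun n => lo < n) with n % q = a, wp x (n + a0) := by
  set S := (((clsU x W c).filter fun n => lo < n).filter fun n => n % q = a).image fun n => n + a0 with hS
  have hsum : ∑ n ∈ (clsU x W c).filter (fun n => lo < n) with n % q = a, wp x (n + a0) = ∑ N ∈ S, wp x N := by
    rw [hS, Finset.sum_image]
    intro n _ m _ h
    simp only at h
    omega
  have hmem : ∀ N, N ∈ S ↔ (lo + a0 < N ∧ N ≤ ⌊Real.exp (2 * x)⌋₊ + a0) ∧ N ≡ r [MOD W * q] := by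
    intro N
    rw [hS, Finset.mem_image]
    constructor
    · rintro ⟨n, hn, rfl⟩
      unfold clsU at hn
      rw [Finset.mem_filter, Finset.mem_filter, Finset.mem_filter, Finset.mem_Icc] at hn
      obtain ⟨⟨⟨⟨h1, h2⟩, h3⟩, h0⟩, h4⟩ := hn
      refine ⟨⟨by omega, by omega⟩, ?_⟩
      rw [← Nat.modEq_and_modEq_iff_modEq_mul hcop]
      refine ⟨(h3.add_right a0).trans hr1.symm, ?_⟩
      have h5 : n ≡ a [MOD q] := by
        unfold Nat.ModEq
        rw [h4, Nat.mod_eq_of_lt ha]
      exact (h5.add_right a0).trans hr2.symm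
    · rintro ⟨⟨h1, h2⟩, h3⟩
      rw [← Nat.modEq_and_modEq_iff_modEq_mul hcop] at h3
      obtain ⟨n, rfl⟩ : ∃ n, N = n + a0 := ⟨N - a0, by omega⟩
      refine ⟨n, ?_, rfl⟩
      unfold clsU
      rw [Finset.mem_filter, Finset.mem_filter, Finset.mem_filter, Finset.mem_Icc]
      refine ⟨⟨⟨⟨by omega, by omega⟩, ?_⟩, by omega⟩, ?_⟩
      · exact Nat.ModEq.add_right_cancel' a0 (h3.1.trans hr1)
      · have h5 : n ≡ a [MOD q] := Nat.ModEq.add_right_cancel' a0 (h3.2.trans hr2)
        have h6 : n % q = a % q := h5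
        rw [h6, Nat.mod_eq_of_lt ha]
  have hs1 := ite_summable x (fun n => n ≡ r [MOD W * q])
  have hfin : ∑ N ∈ S, wp x N = ∑ N ∈ S, (if N ≡ r [MOD W * q] then wp x N else 0) := by
    refine Finset.sum_congr rfl fun N hN => ?_
    rw [if_pos ((hmem N).1 hN).2]
  constructor
  · rw [hsum, hfin]
    exact hs1.sum_le_tsum S (fun n _ => by
      split_ifs
      · exact wp_nonneg x n
      · exact le_rfl)
  · rw [hsum, hfin]
    have hs2 := ite_summable x (fun n => n ≤ lo + a0 ∨ Real.exp (2 * x) < n)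
    have hle : ∀ n : ℕ, (if n ≡ r [MOD W * q] then wp x n else 0) ≤
        (if n ∈ S then (if n ≡ r [MOD W * q] then wp x n else 0) else 0) +
        (if n ≤ lo + a0 ∨ Real.exp (2 * x) < n then wp x n else 0) := by
      intro n
      have h0 := wp_nonneg x n
      by_cases hnS : n ∈ S
      · rw [if_pos hnS]
        have : 0 ≤ (if n ≤ lo + a0 ∨ Real.exp (2 * x) < n then wp x n else 0) := by
          split_ifs
          · exact h0
          · exact le_rfl
        linarith
      · rw [if_neg hnS, zero_add]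
        by_cases hr : n ≡ r [MOD W * q]
        · rw [if_pos hr]
          have h1 : n ≤ lo + a0 ∨ Real.exp (2 * x) < n := by
            by_contra hcon
            push Not at hcon
            apply hnS
            rw [hmem]
            refine ⟨⟨by omega, ?_⟩, hr⟩
            have := Nat.le_floor hcon.2
            omega
          rw [if_pos h1]
        · rw [if_neg hr]
          split_ifs
          · exact h0
          · exact le_rfl
    have hs3 : Summable fun n => if n ∈ S then (if n ≡ r [MOD W * q] then wp x n else 0) else 0 :=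
      summable_of_ne_finset_zero (s := S) fun n hn => if_neg hn
    have h1 := hs1.tsum_le_tsum hle (hs3.add hs2)
    rw [Summable.tsum_add hs3 hs2, tsum_eq_sum (s := S) fun n hn => if_neg hn] at h1
    have h2 : ∑ n ∈ S, (if n ∈ S then (if n ≡ r [MOD W * q] then wp x n else 0) else 0) =
        ∑ n ∈ S, if n ≡ r [MOD W * q] then wp x n else 0 :=
      Finset.sum_congr rfl fun n hn => if_pos hn
    rw [h2] at h1
    unfold trw
    linarith

/-- **instance (P)** with the lower cut `lo < n` -/
noncomputable def avgQ (x : ℝ) (p1 : ℕ) (D : BVdata x p1) (W c a0 lo : ℕ) (hW : 0 < W)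
    (hc : (c + a0).Coprime W) : Average where
  s := (clsU x W c).filter fun n => lo < n
  om := fun n => wp x (n + a0)
  good := {p | p.Prime ∧ ¬ p ∣ W}
  lp := lpP a0
  X := D.M / (W.totient : ℝ)
  Er := fun q => D.er (W * q) + trw x (lo + a0)
  om_nonneg := fun n _ => wp_nonneg x _
  X_nonneg := div_nonneg ((by norm_num : (0 : ℝ) ≤ 9 / 10).trans D.M_ge) (Nat.cast_nonneg _)
  Er_nonneg := fun q => add_nonneg (D.er_nonneg _) (trw_nonneg x (lo + a0))
  good_prime := fun p hp => hp.1
  lp_nonneg := fun p hp y => by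
    have h2 : (2 : ℝ) ≤ p := by exact_mod_cast (hp.1).two_le
    unfold lpP
    split_ifs
    · exact le_rfl
    · exact div_nonneg zero_le_one (by linarith)
  lp_sum := fun p hp => by
    have hpp : p.Prime := hp.1
    have h2 : (2 : ℝ) ≤ p := by exact_mod_cast hpp.two_le
    have h1 : ∀ y, lpP a0 p y = (1 - xp {a0} p y) * (1 / ((p : ℝ) - 1)) := by
      intro y
      unfold lpP xp
      by_cases h : p ∣ y + a0
      · rw [if_pos h, if_pos ⟨a0, by simp, h⟩]
        ring
      · rw [if_neg h, if_neg]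
        · ring
        · rintro ⟨a, ha, hd⟩
          rw [Finset.mem_singleton] at ha
          rw [ha] at hd
          exact h hd
    have h3 : ∑ y ∈ range p, lpP a0 p y = ((p : ℝ) - 1) * (1 / ((p : ℝ) - 1)) := by
      rw [Finset.sum_congr rfl fun y _ => h1 y, ← Finset.sum_mul, Finset.sum_sub_distrib,
        sum_xp {a0} p hpp.pos]
      unfold nuP
      simp
    rw [h3, mul_one_div, div_self (by linarith)]
  hp := by
    refine hp_of_classes ((clsU x W c).filter fun n => lo < n) (fun n => wp x (n + a0)) {p | p.Prime ∧ ¬ p ∣ W}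
      (fun (p : ℕ) (hp : p ∈ {p : ℕ | p.Prime ∧ ¬ p ∣ W}) => hp.1)
      (lpP a0) (D.M / (W.totient : ℝ)) (fun q => D.er (W * q) + trw x (lo + a0)) ?_
    intro T hT a ha
    set q := ∏ p ∈ T, p with hq
    have hTp : ∀ p ∈ T, p.Prime := fun p hp => (hT p hp).1
    have hq0 : 0 < q := Finset.prod_pos fun p hp => (hT p hp).1.pos
    have hcop : W.Coprime q := by
      apply Nat.Coprime.prod_right
      intro p hp
      exact ((Nat.Prime.coprime_iff_not_dvd (hT p hp).1).2 (hT p hp).2).symm
    set r : ℕ := (Nat.chineseRemainder hcop (c + a0) (a + a0) : ℕ) with hr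
    have hr12 := (Nat.chineseRemainder hcop (c + a0) (a + a0)).2
    obtain ⟨h1, h2⟩ := class_wpQ x W c a0 lo q a hcop ha r hr12.1 hr12.2
    have hrW : r.Coprime W := by
      unfold Nat.Coprime
      rw [Nat.ModEq.gcd_eq hr12.1]
      exact hc
    have hWq : 1 ≤ W * q := Nat.mul_pos hW hq0
    have htr := trw_nonneg x (lo + a0)
    have her := D.er_nonneg (W * q)
    have hlp : ∀ p ∈ T, lpP a0 p (a % p) = lpP a0 p a := by
      intro p hp
      unfold lpP
      have : p ∣ a % p + a0 ↔ p ∣ a + a0 := by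
        have h3 : a % p + a0 ≡ a + a0 [MOD p] := (Nat.mod_modEq a p).add_right a0
        exact h3.dvd_iff dvd_rfl
      simp only [this]
    have hprod : ∏ p ∈ T, lpP a0 p (a % p) = ∏ p ∈ T, lpP a0 p a := Finset.prod_congr rfl hlp
    rw [hprod]
    by_cases hu : ∀ p ∈ T, ¬ p ∣ a + a0
    · have hrq : r.Coprime q := by
        unfold Nat.Coprime
        rw [Nat.ModEq.gcd_eq hr12.2]
        apply Nat.Coprime.prod_right
        intro p hp
        exact ((Nat.Prime.coprime_iff_not_dvd (hTp p hp)).2 (hu p hp)).symm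
      have h3 := D.unit (W * q) r hWq (Nat.Coprime.mul_right hrW hrq)
      have h4 : D.M / (W.totient : ℝ) * ∏ p ∈ T, lpP a0 p a = D.M / ((W * q).totient : ℝ) := by
        have h5 : ∏ p ∈ T, lpP a0 p a = ∏ p ∈ T, 1 / ((p : ℝ) - 1) := by
          refine Finset.prod_congr rfl fun p hp => ?_
          unfold lpP
          rw [if_neg (hu p hp)]
        have h6 : (q.totient : ℝ) = ∏ p ∈ T, ((p : ℝ) - 1) := totient_prod T hTp
        rw [h5, Finset.prod_div_distrib, Finset.prod_const_one, Nat.totient_mul hcop, ← h6]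
        push_cast
        rw [div_mul_div_comm, mul_one]
      rw [h4]
      rw [abs_le] at h3 ⊢
      constructor <;> linarith
    · push Not at hu
      obtain ⟨p, hpT, hpd⟩ := hu
      have h3 : ∏ p ∈ T, lpP a0 p a = 0 := by
        refine Finset.prod_eq_zero hpT ?_
        unfold lpP
        rw [if_pos hpd]
      have hnc : ¬ r.Coprime (W * q) := by
        intro h4
        have h5 : p ∣ r := (hr12.2.of_dvd (Finset.dvd_prod_of_mem _ hpT)).dvd_iff dvd_rfl |>.2 hpd
        have h6 : p ∣ W * q := Dvd.dvd.mul_left (Finset.dvd_prod_of_mem _ hpT) W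
        have h7 : p ∣ Nat.gcd r (W * q) := Nat.dvd_gcd h5 h6
        rw [h4] at h7
        exact (hTp p hpT).one_lt.ne' (Nat.dvd_one.1 h7)
      have h4 := D.nonunit (W * q) r hWq hnc
      have h5 : 0 ≤ ∑ n ∈ ((clsU x W c).filter fun n => lo < n).filter (fun n => n % q = a), wp x (n + a0) :=
        Finset.sum_nonneg fun n _ => wp_nonneg x _
      rw [h3, mul_zero, sub_zero, abs_of_nonneg h5]
      linarith

theorem wp_transfer {x : ℝ} (hx : 1 ≤ x) {n a0 : ℕ} (hn0 : 0 < n) (h1 : x * a0 ≤ n)
    (h2 : (n : ℝ) ≤ Real.exp (2 * x)) :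
    wp x (n + a0) ≤ 9 * x * (omU x n * if (n + a0).Prime then 1 else 0) := by
  have hn : (0 : ℝ) < n := by exact_mod_cast hn0
  have hom : 0 ≤ omU x n := div_nonneg (gw_nonneg _) (Nat.cast_nonneg _)
  unfold wp
  split_ifs with hp
  · have ha : (a0 : ℝ) ≤ n := by
      have : (a0 : ℝ) ≤ x * a0 := le_mul_of_one_le_left (Nat.cast_nonneg _) hx
      linarith
    have hna : (0 : ℝ) < n + a0 := by positivity
    have hlog : Real.log ((n + a0 : ℕ) : ℝ) ≤ 3 * x := by
      have h3 : Real.log ((n + a0 : ℕ) : ℝ) ≤ Real.log (2 * Real.exp (2 * x)) := by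
        apply Real.log_le_log
        · push_cast; exact hna
        · push_cast; linarith
      rw [Real.log_mul two_ne_zero (Real.exp_pos _).ne', Real.log_exp] at h3
      have := Real.log_two_lt_d9
      linarith
    have hlog0 : 0 ≤ Real.log ((n + a0 : ℕ) : ℝ) := Real.log_natCast_nonneg _
    have hg : gw (Real.log ((n + a0 : ℕ) : ℝ) - x) ≤ 3 * gw (Real.log n - x) := by
      have hd : Real.log ((n + a0 : ℕ) : ℝ) - Real.log n ≤ a0 / n := by
        rw [← Real.log_div (by push_cast; exact hna.ne') hn.ne']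
        have h4 : ((n + a0 : ℕ) : ℝ) / n = 1 + a0 / n := by
          push_cast
          field_simp
        rw [h4]
        have h5 := Real.log_le_sub_one_of_pos (show (0 : ℝ) < 1 + a0 / n by positivity)
        linarith
      have hd0 : 0 ≤ Real.log ((n + a0 : ℕ) : ℝ) - Real.log n := by
        rw [sub_nonneg]
        apply Real.log_le_log hn
        push_cast
        linarith [(Nat.cast_nonneg a0 : (0 : ℝ) ≤ a0)]
      have hln : 0 ≤ Real.log (n : ℝ) := Real.log_natCast_nonneg _
      have hxa : x * (a0 / n) ≤ 1 := by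
        rw [mul_div_assoc', div_le_one hn]
        exact h1
      unfold gw
      have he : Real.exp (-(Real.log ((n + a0 : ℕ) : ℝ) - x) ^ 2 / 2) ≤
          3 * Real.exp (-(Real.log (n : ℝ) - x) ^ 2 / 2) := by
        have h6 : Real.exp (-(Real.log ((n + a0 : ℕ) : ℝ) - x) ^ 2 / 2) ≤
            Real.exp (1 + -(Real.log (n : ℝ) - x) ^ 2 / 2) := by
          apply Real.exp_le_exp.2
          set d := Real.log ((n + a0 : ℕ) : ℝ) - Real.log n with hdd
          have h7 : Real.log ((n + a0 : ℕ) : ℝ) = Real.log n + d := by rw [hdd]; ring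
          rw [h7]
          have h8 : x * d ≤ 1 := (mul_le_mul_of_nonneg_left hd (by linarith)).trans hxa
          nlinarith [mul_nonneg hln hd0, sq_nonneg d]
        refine h6.trans ?_
        rw [Real.exp_add]
        have h9 := Real.exp_one_lt_d9
        exact mul_le_mul_of_nonneg_right (by linarith) (Real.exp_pos _).le
      rw [mul_div_assoc']
      exact div_le_div_of_nonneg_right he (Real.sqrt_nonneg _)
    have hg0 := gw_nonneg (Real.log (n : ℝ) - x)
    have hg1 := gw_nonneg (Real.log ((n + a0 : ℕ) : ℝ) - x)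
    rw [mul_one]
    unfold omU
    calc Real.log ((n + a0 : ℕ) : ℝ) * gw (Real.log ((n + a0 : ℕ) : ℝ) - x) / ((n + a0 : ℕ) : ℝ)
        ≤ (3 * x) * (3 * gw (Real.log n - x)) / ((n + a0 : ℕ) : ℝ) := by
          apply div_le_div_of_nonneg_right _ (Nat.cast_nonneg _)
          exact mul_le_mul hlog hg hg1 (by linarith)
      _ ≤ (3 * x) * (3 * gw (Real.log n - x)) / (n : ℝ) := by
          apply div_le_div_of_nonneg_left (by positivity) hn
          push_cast
          linarith [(Nat.cast_nonneg a0 : (0 : ℝ) ≤ a0)]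
      _ = 9 * x * (gw (Real.log n - x) / n) := by ring
  · positivity

/-- lower bound of the prime part of a Gaussian sum by the prime average -/
theorem prime_part_ge {x : ℝ} (hx : 1 ≤ x) (p1 : ℕ) (D : BVdata x p1) (W c a0 lo : ℕ) (hW : 0 < W)
    (hc : (c + a0).Coprime W) (hlo : x * a0 ≤ lo) (F : ℕ → ℝ) (hF : ∀ n, 0 ≤ F n) :
    ∑ n ∈ (avgQ x p1 D W c a0 lo hW hc).s, (avgQ x p1 D W c a0 lo hW hc).om n * F n ≤
      9 * x * ∑ n ∈ clsU x W c, omU x n * (F n * if (n + a0).Prime then 1 else 0) := by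
  have h1 : ∑ n ∈ (avgQ x p1 D W c a0 lo hW hc).s, (avgQ x p1 D W c a0 lo hW hc).om n * F n ≤
      ∑ n ∈ (clsU x W c).filter (fun n => lo < n),
        9 * x * (omU x n * (F n * if (n + a0).Prime then 1 else 0)) := by
    refine Finset.sum_le_sum fun n hn => ?_
    have hn' := hn
    change n ∈ (clsU x W c).filter (fun n => lo < n) at hn'
    rw [Finset.mem_filter] at hn'
    obtain ⟨h2, h3⟩ := hn'
    unfold clsU at h2
    rw [Finset.mem_filter, Finset.mem_Icc] at h2
    have h4 : (n : ℝ) ≤ Real.exp (2 * x) := (Nat.le_floor_iff (Real.exp_pos _).le).1 h2.1.2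
    have h5 : x * a0 ≤ n := by
      have : (lo : ℝ) < n := by exact_mod_cast h3
      linarith
    have h6 := wp_transfer hx h2.1.1 h5 h4
    have h7 := mul_le_mul_of_nonneg_right h6 (hF n)
    calc wp x (n + a0) * F n ≤ _ := h7
      _ = _ := by ring
  refine h1.trans ?_
  rw [← Finset.mul_sum]
  refine mul_le_mul_of_nonneg_left ?_ (by linarith)
  refine Finset.sum_le_sum_of_subset_of_nonneg (Finset.filter_subset _ _) fun n _ _ => ?_
  refine mul_nonneg (div_nonneg (gw_nonneg _) (Nat.cast_nonneg _)) (mul_nonneg (hF n) ?_)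
  split_ifs <;> norm_num

end Pool.Agent.LibPL63
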