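import Pool.Agent.LibPL63.SA7

/-!
[PL63 SA8] The tail `trw`, and the remainders of the two averages.
-/

set_option autoImplicit false

namespace Pool.Agent.LibPL63

open Finset Pool.Agent.LibLG5 Pool.Agent.LibMaier Pool.Agent.LibRG87

theorem gw_le_exp_sq (v : ℝ) : gw v ≤ Real.exp (-v ^ 2 / 2) := by
  unfold gw
  have hpi := Real.pi_gt_three
  have h2 : (1 : ℝ) ≤ Real.sqrt (2 * Real.pi) := by
    apply Real.le_sqrt_of_sq_le
    linarith
  exact div_le_self (Real.exp_pos _).le h2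

theorem log_div_le_one (n : ℕ) : Real.log n / n ≤ 1 := by
  rcases Nat.eq_zero_or_pos n with rfl | hn
  · simp
  · have hn' : (0 : ℝ) < n := by exact_mod_cast hn
    rw [div_le_one hn']
    exact (Real.log_le_sub_one_of_pos hn').trans (by linarith)

theorem wp_le_gw (x : ℝ) (n : ℕ) : wp x n ≤ if n.Prime then gw (Real.log n - x) else 0 := by
  unfold wp
  split_ifs with hp
  · calc Real.log n * gw (Real.log n - x) / n = Real.log n / n * gw (Real.log n - x) := by ring
      _ ≤ 1 * gw (Real.log n - x) :=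
        mul_le_mul_of_nonneg_right (log_div_le_one n) (gw_nonneg _)
      _ = _ := one_mul _
  · exact le_rfl

theorem sum_inv_sq_le : ∑' n : ℕ, 1 / (n : ℝ) ^ 2 ≤ 2 := by
  rw [(hasSum_zeta_two).tsum_eq]
  have h1 := Real.pi_lt_d2
  have h2 := Real.pi_pos
  nlinarith

theorem wp_low {x : ℝ} (hx : 0 ≤ x) {n : ℕ} (hn0 : 0 < n) (h : (n : ℝ) ≤ Real.exp (x / 2)) :
    wp x n ≤ Real.exp (-x ^ 2 / 8) := by
  have hn : (0 : ℝ) < n := by exact_mod_cast hn0
  have h3 := wp_le_gw x n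
  have h4 := gw_le_exp_sq (Real.log n - x)
  have h5 : Real.exp (-(Real.log n - x) ^ 2 / 2) ≤ Real.exp (-x ^ 2 / 8) := by
    apply Real.exp_le_exp.2
    have h6 : Real.log (n : ℝ) ≤ x / 2 := by
      have : Real.log (n : ℝ) ≤ Real.log (Real.exp (x / 2)) := Real.log_le_log hn h
      rwa [Real.log_exp] at this
    nlinarith
  have h7 : (if n.Prime then gw (Real.log n - x) else 0) ≤ gw (Real.log n - x) := by
    split_ifs
    · exact le_rfl
    · exact gw_nonneg _
  linarith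

theorem wp_high {x : ℝ} (hx : 0 ≤ x) {n : ℕ} (h : Real.exp (2 * x) < n) :
    wp x n ≤ Real.exp (4 + 2 * x - x ^ 2 / 4) * (1 / (n : ℝ) ^ 2) := by
  have hn : (0 : ℝ) < n := (Real.exp_pos _).trans h
  have h3 := wp_le_gw x n
  have h4 := gw_le_exp_sq (Real.log n - x)
  have h6 : 2 * x ≤ Real.log (n : ℝ) := by
    have : Real.log (Real.exp (2 * x)) ≤ Real.log (n : ℝ) := Real.log_le_log (Real.exp_pos _) h.le
    rwa [Real.log_exp] at this
  have h5 : Real.exp (-(Real.log n - x) ^ 2 / 2) ≤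
      Real.exp (4 + 2 * x - x ^ 2 / 4 + -(2 * Real.log n)) := by
    apply Real.exp_le_exp.2
    nlinarith [sq_nonneg (Real.log (n : ℝ) - x - 4)]
  have h8 : Real.exp (-(2 * Real.log (n : ℝ))) = 1 / (n : ℝ) ^ 2 := by
    rw [Real.exp_neg, mul_comm, Real.exp_mul, Real.exp_log hn, one_div]
    norm_cast
  rw [Real.exp_add, h8] at h5
  have h7 : (if n.Prime then gw (Real.log n - x) else 0) ≤ gw (Real.log n - x) := by
    split_ifs
    · exact le_rfl
    · exact gw_nonneg _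
  linarith

theorem trw_le {x : ℝ} (hx : 0 ≤ x) (lo : ℕ) (hlo : (lo : ℝ) ≤ Real.exp (x / 2)) :
    trw x lo ≤ Real.exp (x / 2 - x ^ 2 / 8) + 2 * Real.exp (4 + 2 * x - x ^ 2 / 4) := by
  unfold trw
  have h1 : ∀ n : ℕ, (if n ≤ lo ∨ Real.exp (2 * x) < n then wp x n else 0) ≤
      (if n ∈ Icc 1 lo then Real.exp (-x ^ 2 / 8) else 0) +
        Real.exp (4 + 2 * x - x ^ 2 / 4) * (1 / (n : ℝ) ^ 2) := by
    intro n
    have hz : 0 ≤ (if n ∈ Icc 1 lo then Real.exp (-x ^ 2 / 8) else 0) := by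
      split_ifs <;> positivity
    have hz2 : 0 ≤ Real.exp (4 + 2 * x - x ^ 2 / 4) * (1 / (n : ℝ) ^ 2) := by positivity
    by_cases hn0 : n = 0
    · subst hn0
      have : wp x 0 = 0 := by
        unfold wp
        rw [if_neg Nat.not_prime_zero]
      rw [this, ite_self]
      exact add_nonneg hz hz2
    by_cases h : n ≤ lo ∨ Real.exp (2 * x) < n
    · rw [if_pos h]
      rcases h with h | h
      · have h2 : n ∈ Icc 1 lo := Finset.mem_Icc.2 ⟨by omega, h⟩
        rw [if_pos h2]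
        have h3 : (n : ℝ) ≤ lo := by exact_mod_cast h
        have := wp_low hx (Nat.pos_of_ne_zero hn0) (h3.trans hlo)
        linarith
      · have := wp_high hx h
        linarith
    · rw [if_neg h]
      exact add_nonneg hz hz2
  have hs1 : Summable fun n : ℕ => if n ∈ Icc 1 lo then Real.exp (-x ^ 2 / 8) else 0 :=
    summable_of_ne_finset_zero (s := Icc 1 lo) fun n hn => if_neg hn
  have hs2 : Summable fun n : ℕ => Real.exp (4 + 2 * x - x ^ 2 / 4) * (1 / (n : ℝ) ^ 2) :=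
    (Real.summable_one_div_nat_pow.2 (by norm_num)).mul_left _
  have h2 := (ite_summable x fun n => n ≤ lo ∨ Real.exp (2 * x) < n).tsum_le_tsum h1 (hs1.add hs2)
  rw [Summable.tsum_add hs1 hs2, tsum_mul_left] at h2
  rw [tsum_eq_sum (s := Icc 1 lo) fun n hn => if_neg hn] at h2
  have h3 : ∑ n ∈ Icc 1 lo, (if n ∈ Icc 1 lo then Real.exp (-x ^ 2 / 8) else 0) =
      lo * Real.exp (-x ^ 2 / 8) := by
    rw [Finset.sum_congr rfl fun n hn => if_pos hn, Finset.sum_const, Nat.card_Icc, nsmul_eq_mul]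
    norm_num
  rw [h3] at h2
  have h4 : (lo : ℝ) * Real.exp (-x ^ 2 / 8) ≤ Real.exp (x / 2 - x ^ 2 / 8) := by
    have : x / 2 - x ^ 2 / 8 = x / 2 + -x ^ 2 / 8 := by ring
    rw [this, Real.exp_add]
    exact mul_le_mul_of_nonneg_right hlo (Real.exp_pos _).le
  have h5 := mul_le_mul_of_nonneg_left sum_inv_sq_le (Real.exp_pos (4 + 2 * x - x ^ 2 / 4)).le
  linarith

/-- the tail is `≤ exp (-x^2/16)` -/
theorem trw_le' {x : ℝ} (hx : 40 ≤ x) (lo : ℕ) (hlo : (lo : ℝ) ≤ Real.exp (x / 2)) :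
    trw x lo ≤ Real.exp (-(x ^ 2 / 16)) := by
  refine (trw_le (by linarith) lo hlo).trans ?_
  have h1 : Real.exp (x / 2 - x ^ 2 / 8) ≤ Real.exp (-2 + -(x ^ 2 / 16)) := by
    apply Real.exp_le_exp.2
    nlinarith
  have h2 : Real.exp (4 + 2 * x - x ^ 2 / 4) ≤ Real.exp (-2 + -(x ^ 2 / 16)) := by
    apply Real.exp_le_exp.2
    nlinarith
  rw [Real.exp_add] at h1 h2
  have h3 : Real.exp (-2) ≤ 1 / 3 := by
    have h4 : Real.exp (-2) = 1 / (Real.exp 1 * Real.exp 1) := by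
      rw [← Real.exp_add, Real.exp_neg, one_div]
      norm_num
    rw [h4]
    have h5 := Real.exp_one_gt_d9
    apply one_div_le_one_div_of_le (by norm_num)
    nlinarith
  have h6 := Real.exp_pos (-(x ^ 2 / 16))
  nlinarith

end Pool.Agent.LibPL63
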