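import Pool.Agent.LibPL63.Defs
import Pool.Agent.LibGP53.Defs

/-! Part UN: definitions. -/

open Finset Filter

namespace Pool.Agent.LibPL63

open Pool.Agent.LibRG87 Pool.Agent.LibLG5

/-- the number of `k`-subsets of `H` with all `n + a` rough -/
noncomputable def QRp (Pr H : Finset ℕ) (k n : ℕ) : ℝ := ∑ h ∈ powersetCard k H, rhoP Pr h n

end Pool.Agent.LibPL63
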