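import Pool.Agent.LibPL63.UN5
import Pool.Agent.LibGP53.Fin

/-! The complete law from its inputs. -/

open Finset

namespace Pool.Agent.LibPL63

theorem law (hMain : ∀ l : ℝ, 0 < l → ∀ e : ℝ, 0 < e → e < 1 → GP.Main l e) (hP : GP.Pairs) (hMT : ∀ m : ℕ, MTg m)
    (m : ℕ) (l : ℝ) (hl : 0 < l) : ∃ c : ℝ, 0 < c ∧ ∃ x₀ : ℕ, ∀ x : ℕ, x₀ ≤ x →
    c * x ≤ (((Icc 1 x).filter fun n : ℕ => Nat.primeCounting ⌊(n : ℝ) + l * Real.log n⌋₊ -
      Nat.primeCounting n = m).card : ℝ) := by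
  have hA : GP.AllBut := GP.allbut hMain
  rcases Nat.eq_zero_or_pos m with h0 | h0
  · obtain ⟨c, hc, x₀, h⟩ := GP.zero_case hA l hl
    rw [h0]
    exact GP.Fin_conv 0 l hc h
  · obtain ⟨c, hc, x₀, h⟩ := GP.pos_case hA hP m h0 l hl (many_all hMT m l hl)
    exact GP.Fin_conv m l hc h

end Pool.Agent.LibPL63
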