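import Pool.Agent.LibPL63.UDefs
import Pool.Agent.LibPL63.V0
import Pool.Agent.LibPL63.SA5
import Pool.Agent.LibPL63.SA2

/-! Row UN1 (45 min): the sieve upper bound for the uniform Gaussian average. `lemmaSA` gives `C`; `b0` even with `eps0 C K b0 ≤ 1` (the factorial wins, see
GP.pair_ap in LibGP53/P1a.lean where the same is done), `b = 4 * b0 + 16`. Apply it to `A = avgU x (Wp z p1) c`, `Pr = P0 z p1` (primes in `(wf z, z]`, so they do not divide `Wp z p1`, whose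
prime factors are `≤ wf z`), `x p n = xB B p n` (periodic, `0` or `1`), `T = ∅`. `one_sub_xB` (V0), `mem_P0`, `dvd_Wp`, `Wp_pos`, `Ep p (xB B p) = nuP B p / p` (`avgU_Ep`: `Ep = mean`;
compare `mean_xp`, `sum_xp`, `rho_eq` in LibLG5/S3.lean: `xB` and `xp` agree), `nuP B p ≤ K`, `p > wf z ≥ 2 K`. Main term `≤ (1 + 1) (1/W) VP`. Remainder: `∑_{D ⊆ P0, ∏ D ≤ z^(2 b0+6)} K^(card D) 6 e^(-x)`;
`K^(card D) ≤ ∏ D ≤ z^(2 b0 + 6)` (`p ≥ K`), the `D` are determined by `∏ D`, so their number is `≤ z^(2 b0+6) + 1`; total `≤ 6 z^(2b0+6) (z^(2b0+6)+1) e^(-x) ≤ z^(4 b0+16) e^(-x)`. -/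

open Finset Filter

namespace Pool.Agent.LibPL63

open Pool.Agent.LibRG87 Pool.Agent.LibLG5

private theorem UN1_eps (C : ℝ) (K : ℕ) : ∃ b0 : ℕ, Even b0 ∧ eps0 C K b0 ≤ 1 := by
  have h1 : Tendsto (fun n : ℕ => (C * K) ^ n / (n.factorial : ℝ)) atTop (nhds 0) :=
    FloorSemiring.tendsto_pow_div_factorial_atTop _
  have h2 : Tendsto (fun n : ℕ => C * Real.exp (C * K) *
      ((C * K) ^ n / (n.factorial : ℝ))) atTop (nhds 0) := by
    have h := h1.const_mul (C * Real.exp (C * K))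
    rwa [mul_zero] at h
  have h3 : ∀ᶠ n : ℕ in atTop, C * Real.exp (C * K) *
      ((C * K) ^ n / (n.factorial : ℝ)) < 1 := h2.eventually_lt_const (by norm_num)
  obtain ⟨N, hN⟩ := eventually_atTop.1 h3
  refine ⟨2 * N, even_two_mul N, ?_⟩
  have h4 := hN (2 * N + 1) (by omega)
  have h5 : eps0 C K (2 * N) = C * Real.exp (C * K) *
      ((C * K) ^ (2 * N + 1) / ((2 * N + 1).factorial : ℝ)) := by
    unfold eps0
    ring
  rw [h5]
  exact h4.le

private theorem UN1_xB (B : Finset ℕ) (p : ℕ) : xB B p = xp B p := rfl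

private theorem UN1_rem (K z M : ℕ) (hz : 1 ≤ z) (hM : 1 ≤ M) (Pr : Finset ℕ)
    (hPr : ∀ p ∈ Pr, p.Prime ∧ K ≤ p) (E : ℝ) (hE : 0 ≤ E) :
    ∑ D ∈ Pr.powerset with ∏ p ∈ D, p ≤ M, (K : ℝ) ^ D.card * E ≤ 2 * (M : ℝ) ^ 2 * E := by
  set S := Pr.powerset.filter (fun D => ∏ p ∈ D, p ≤ M) with hS
  have hM1 : (1 : ℝ) ≤ M := by exact_mod_cast hM
  have hterm : ∀ D ∈ S, (K : ℝ) ^ D.card * E ≤ M * E := by
    intro D hD
    rw [hS, Finset.mem_filter, Finset.mem_powerset] at hD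
    refine mul_le_mul_of_nonneg_right ?_ hE
    have h1 : K ^ D.card ≤ ∏ p ∈ D, p :=
      Finset.pow_card_le_prod D (fun p => p) K fun p hp => (hPr p (hD.1 hp)).2
    exact_mod_cast h1.trans hD.2
  have hcard : S.card ≤ M + 1 := by
    have h1 : S.card ≤ (Finset.range (M + 1)).card := by
      refine Finset.card_le_card_of_injOn (fun D => ∏ p ∈ D, p) ?_ ?_
      · intro D hD
        have hD' : D ∈ S := hD
        rw [hS, Finset.mem_filter] at hD'
        simp only [Finset.coe_range, Set.mem_Iio]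
        omega
      · intro D hD D' hD' h
        have h1 : D ∈ S := hD
        have h2 : D' ∈ S := hD'
        rw [hS, Finset.mem_filter, Finset.mem_powerset] at h1 h2
        have h3 := Nat.primeFactors_prod (s := D) fun p hp => (hPr p (h1.1 hp)).1
        have h4 := Nat.primeFactors_prod (s := D') fun p hp => (hPr p (h2.1 hp)).1
        rw [← h3, ← h4]
        exact congrArg Nat.primeFactors h
    rwa [Finset.card_range] at h1
  have hcR : (S.card : ℝ) ≤ M + 1 := by exact_mod_cast hcard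
  calc ∑ D ∈ S, (K : ℝ) ^ D.card * E ≤ ∑ _D ∈ S, M * E := Finset.sum_le_sum hterm
    _ = S.card * (M * E) := by rw [Finset.sum_const, nsmul_eq_mul]
    _ ≤ (2 * M) * (M * E) := mul_le_mul_of_nonneg_right (by linarith) (by positivity)
    _ = 2 * (M : ℝ) ^ 2 * E := by ring

theorem UN_sieve (K : ℕ) : ∃ b : ℕ, ∀ᶠ z : ℕ in atTop, ∀ (p1 c : ℕ) (x : ℝ) (B : Finset ℕ), B.card ≤ K →
    ∑ n ∈ clsU x (Wp z p1) c, omU x n * rhoP (P0 z p1) B n ≤
      2 * (VP (P0 z p1) B / Wp z p1) + (z : ℝ) ^ b * Real.exp (-x) := by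
  obtain ⟨C, _, hS⟩ := lemmaSA
  obtain ⟨b0, hb0, heps⟩ := UN1_eps (C : ℝ) K
  refine ⟨4 * b0 + 16, ?_⟩
  filter_upwards [wf_tendsto.eventually_ge_atTop (2 * K + 2), eventually_ge_atTop 2] with
    z hw hz p1 c x B hB
  have hW := Wp_pos z p1
  have hWR : (0 : ℝ) < Wp z p1 := by exact_mod_cast hW
  have hBk : ∀ p, (nuP B p : ℝ) ≤ K := fun p => by
    exact_mod_cast (Pool.Agent.LibLG5.nuP_le B p).trans hB
  have hEp : ∀ p ∈ P0 z p1, (avgU x (Wp z p1) c hW).Ep p (xB B p) = (nuP B p : ℝ) / p := by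
    intro p hp
    rw [avgU_Ep, UN1_xB, mean_xp B p (mem_P0.1 hp).2.1.pos]
  have h1 := hS K b0 hb0 heps (avgU x (Wp z p1) c hW) z (by omega) (P0 z p1)
    (fun p hp => by
      obtain ⟨h1, h2, h3, h4⟩ := mem_P0.1 hp
      refine ⟨⟨h2, fun hd => ?_⟩, h4⟩
      have := (dvd_Wp h2).1 hd
      omega)
    (xB B) (fun p _ => by rw [UN1_xB]; exact xp_periodic B p)
    (fun p _ n => by rw [UN1_xB]; exact xp_bd B p n)
    (fun p hp => by
      obtain ⟨h1, h2, h3, h4⟩ := mem_P0.1 hp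
      have hp0 : (0 : ℝ) < p := by exact_mod_cast h2.pos
      rw [hEp p hp, UN1_xB, tot_xp B p h2.pos]
      refine ⟨?_, div_le_div_of_nonneg_right (hBk p) hp0.le, hBk p⟩
      rw [div_le_iff₀ hp0]
      have h5 : 2 * K + 2 ≤ p := by omega
      have h6 : (2 * (K : ℝ) + 2) ≤ p := by exact_mod_cast h5
      have := hBk p
      linarith)
    ∅ (fun _ _ => 0) (by simp) (Finset.disjoint_empty_left _) (by simp)
  simp only [Finset.prod_empty, mul_one] at h1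
  have h2 := (abs_le.1 h1).2
  have e1 : ∑ n ∈ (avgU x (Wp z p1) c hW).s, (avgU x (Wp z p1) c hW).om n *
      ∏ p ∈ P0 z p1, (1 - xB B p n) =
      ∑ n ∈ clsU x (Wp z p1) c, omU x n * rhoP (P0 z p1) B n := by
    refine Finset.sum_congr rfl fun n _ => ?_
    rw [one_sub_xB]
    rfl
  have e2 : ∏ p ∈ P0 z p1, (1 - (avgU x (Wp z p1) c hW).Ep p (xB B p)) = VP (P0 z p1) B := by
    unfold VP
    exact Finset.prod_congr rfl fun p hp => by rw [hEp p hp]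
  have e3 : (avgU x (Wp z p1) c hW).X = 1 / (Wp z p1 : ℝ) := rfl
  have e4 : ∑ D ∈ (P0 z p1).powerset with ∏ p ∈ D, p ≤ z ^ (2 * b0 + 6),
      (K : ℝ) ^ D.card * (avgU x (Wp z p1) c hW).Er (∏ p ∈ D, p) =
      ∑ D ∈ (P0 z p1).powerset with ∏ p ∈ D, p ≤ z ^ (2 * b0 + 6),
        (K : ℝ) ^ D.card * (6 * Real.exp (-x)) := rfl
  rw [e1, e2, e3, e4] at h2
  have hV : 0 ≤ VP (P0 z p1) B := VP_nonneg _ (fun p hp => (mem_P0.1 hp).2.1) B
  have hVW : 0 ≤ 1 / (Wp z p1 : ℝ) * VP (P0 z p1) B := by positivity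
  have h3 := UN1_rem K z (z ^ (2 * b0 + 6)) (by omega) (Nat.one_le_pow _ _ (by omega)) (P0 z p1)
    (fun p hp => by
      obtain ⟨h1, h2, h3, h4⟩ := mem_P0.1 hp
      exact ⟨h2, by omega⟩) (6 * Real.exp (-x)) (by positivity)
  have hz2 : (2 : ℝ) ≤ z := by exact_mod_cast hz
  have h4 : 2 * (((z ^ (2 * b0 + 6) : ℕ) : ℝ)) ^ 2 * (6 * Real.exp (-x)) ≤
      (z : ℝ) ^ (4 * b0 + 16) * Real.exp (-x) := by
    have h5 : 2 * (((z ^ (2 * b0 + 6) : ℕ) : ℝ)) ^ 2 * (6 * Real.exp (-x)) =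
        12 * (z : ℝ) ^ (4 * b0 + 12) * Real.exp (-x) := by
      push_cast
      ring
    have h6 : (z : ℝ) ^ (4 * b0 + 16) = (z : ℝ) ^ 4 * (z : ℝ) ^ (4 * b0 + 12) := by ring
    rw [h5, h6]
    have h7 : (12 : ℝ) ≤ (z : ℝ) ^ 4 := by
      have : (2 : ℝ) ^ 4 ≤ (z : ℝ) ^ 4 := pow_le_pow_left₀ (by norm_num) hz2 4
      linarith
    refine mul_le_mul_of_nonneg_right ?_ (Real.exp_pos _).le
    exact mul_le_mul_of_nonneg_right h7 (by positivity)
  have h5 : eps0 C K b0 * (1 / (Wp z p1 : ℝ) * VP (P0 z p1) B) ≤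
      1 * (1 / (Wp z p1 : ℝ) * VP (P0 z p1) B) := mul_le_mul_of_nonneg_right heps hVW
  have h6 : VP (P0 z p1) B / Wp z p1 = 1 / (Wp z p1 : ℝ) * VP (P0 z p1) B := by ring
  rw [h6]
  linarith

end Pool.Agent.LibPL63
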