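import Pool.Agent.LibPL63.V1
import Pool.Agent.LibPL63.UN1
import Pool.Agent.LibGP53.U3

/-! Row UN2 (45 min): second moment of `QRp`. `b` from `UN_sieve (2k)`, `q2 = b + 2`, `D = 4 (2k+1) (4Λ)^(2k) + 1`. `QRp ^ 2 = ∑_h ∑_h' rhoP h * rhoP h' = ∑_h ∑_h' rhoP (h ∪ h')`;
sum over `n` by `UN_sieve`, `VP_le_pow (2k)` (V1.lean), `GP.pairs_sum` with `v = V1p` (`V1p_pos`). Remainder: number of pairs `≤ (card H ^ k)^2`, `card H ≤ log^2 z + 1`; `(log^2 z + 1)^(2k) z^b e^(-x) = (log^2 z+1)^(2k) z^(b-q) ≤ z^(-1) ≤ 1/Wp`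
for large `z`, `x = q log z`, `q ≥ b + 2` (`Wp_le_self`). -/

open Finset Filter

namespace Pool.Agent.LibPL63

open Pool.Agent.LibRG87 Pool.Agent.LibLG5

private theorem UN2_union (Pr h h' : Finset ℕ) (n : ℕ) :
    rhoP Pr h n * rhoP Pr h' n = rhoP Pr (h ∪ h') n := by
  unfold rhoP
  by_cases h1 : ∀ a ∈ h, ∀ p ∈ Pr, ¬ p ∣ n + a
  · by_cases h2 : ∀ a ∈ h', ∀ p ∈ Pr, ¬ p ∣ n + a
    · rw [if_pos h1, if_pos h2, if_pos, one_mul]
      intro a ha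
      rcases Finset.mem_union.1 ha with ha | ha
      · exact h1 a ha
      · exact h2 a ha
    · rw [if_pos h1, if_neg h2, if_neg, one_mul]
      intro h3
      exact h2 fun a ha => h3 a (Finset.mem_union_right _ ha)
  · rw [if_neg h1, zero_mul, if_neg]
    intro h3
    exact h1 fun a ha => h3 a (Finset.mem_union_left _ ha)

private theorem UN2_sq (Pr H : Finset ℕ) (k n : ℕ) :
    QRp Pr H k n ^ 2 =
      ∑ h ∈ powersetCard k H, ∑ h' ∈ powersetCard k H, rhoP Pr (h ∪ h') n := by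
  unfold QRp
  rw [sq, Finset.sum_mul_sum]
  exact Finset.sum_congr rfl fun h _ => Finset.sum_congr rfl fun h' _ => UN2_union Pr h h' n

private theorem UN2_logsq : ∀ᶠ z : ℕ in atTop, Real.log z ^ 2 < z := by
  have h1 : ∀ᶠ x : ℝ in atTop, Real.log x ^ 2 < x := by
    have h2 := (Real.isLittleO_pow_log_id_atTop (n := 2)).def (c := 1 / 2) (by norm_num)
    filter_upwards [h2, eventually_gt_atTop (0 : ℝ)] with x hx hx0
    rw [Real.norm_eq_abs, Real.norm_eq_abs, abs_of_nonneg (sq_nonneg _), id, abs_of_pos hx0] at hx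
    linarith
  exact tendsto_natCast_atTop_atTop.eventually h1

theorem UN_second (k : ℕ) : ∃ q2 : ℕ, ∀ Λ : ℝ, 1 ≤ Λ → ∃ D : ℝ, 0 < D ∧ ∀ q : ℕ, q2 ≤ q →
    ∀ᶠ z : ℕ in atTop, ∀ p1 : ℕ, p1.Prime → ∀ (c : ℕ) (H : Finset ℕ), (∀ a ∈ H, (a : ℝ) ≤ Real.log z ^ 2) →
      (H.card : ℝ) * V1p (P0 z p1) ≤ Λ →
      ∑ n ∈ clsU (q * Real.log z) (Wp z p1) c, omU (q * Real.log z) n * QRp (P0 z p1) H k n ^ 2 ≤
        D / Wp z p1 := by
  obtain ⟨b, hb⟩ := UN_sieve (2 * k)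
  refine ⟨b + 2 * k + 1, fun Λ hΛ => ⟨4 * ((2 * k + 1) * (4 * Λ) ^ (2 * k)) + 1, by positivity,
    fun q hq => ?_⟩⟩
  filter_upwards [hb, VP_le_pow (2 * k), UN2_logsq, eventually_ge_atTop 4] with z hz hV hlog hz4
  intro p1 hp1 c H hH hHΛ
  have hz0 : (0 : ℝ) < z := by
    have : 0 < z := by omega
    exact_mod_cast this
  have hz1 : (1 : ℝ) ≤ z := by
    have : 1 ≤ z := by omega
    exact_mod_cast this
  have hW : (0 : ℝ) < Wp z p1 := by exact_mod_cast Wp_pos z p1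
  have hWz : (Wp z p1 : ℝ) ≤ z := by exact_mod_cast Wp_le_self hz4 p1
  have hV1 : 0 < V1p (P0 z p1) := V1p_pos _ fun p hp => (mem_P0.1 hp).2.1
  have hcardH : H.card ≤ z := by
    have h1 : H ⊆ range z := by
      intro a ha
      rw [Finset.mem_range]
      have : (a : ℝ) < z := (hH a ha).trans_lt hlog
      exact_mod_cast this
    simpa using Finset.card_le_card h1
  set S := powersetCard k H with hS
  have hSmem : ∀ h ∈ S, h ⊆ H ∧ h.card = k := fun h hh => Finset.mem_powersetCard.1 hh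
  have hScard : (S.card : ℝ) ≤ (z : ℝ) ^ k := by
    have h1 : S.card ≤ z ^ k := by
      rw [hS, Finset.card_powersetCard]
      exact (Nat.choose_le_pow _ _).trans (Nat.pow_le_pow_left hcardH k)
    exact_mod_cast h1
  have hexp : Real.exp (-(q * Real.log z)) = ((z : ℝ) ^ q)⁻¹ := by
    rw [Real.exp_neg, Real.exp_nat_mul, Real.exp_log hz0]
  -- each pair
  have hpair : ∀ h ∈ S, ∀ h' ∈ S,
      ∑ n ∈ clsU (q * Real.log z) (Wp z p1) c, omU (q * Real.log z) n *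
        rhoP (P0 z p1) (h ∪ h') n ≤
      4 / Wp z p1 * V1p (P0 z p1) ^ (h ∪ h').card + (z : ℝ) ^ b * ((z : ℝ) ^ q)⁻¹ := by
    intro h hh h' hh'
    obtain ⟨a1, a2⟩ := hSmem h hh
    obtain ⟨a1', a2'⟩ := hSmem h' hh'
    have hc : (h ∪ h').card ≤ 2 * k := (Finset.card_union_le _ _).trans (by omega)
    have h1 := hz p1 c (q * Real.log z) (h ∪ h') hc
    have h2 := hV p1 hp1 (h ∪ h') hc fun a ha => hH a (Finset.union_subset a1 a1' ha)
    rw [hexp] at h1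
    refine h1.trans ?_
    have h3 : 2 * (VP (P0 z p1) (h ∪ h') / Wp z p1) ≤
        4 / Wp z p1 * V1p (P0 z p1) ^ (h ∪ h').card := by
      rw [← mul_div_assoc, div_mul_eq_mul_div]
      exact div_le_div_of_nonneg_right (by linarith) hW.le
    linarith
  have hrem : (S.card : ℝ) * ((S.card : ℝ) * ((z : ℝ) ^ b * ((z : ℝ) ^ q)⁻¹)) ≤ 1 / Wp z p1 := by
    have h1 : (S.card : ℝ) * ((S.card : ℝ) * ((z : ℝ) ^ b * ((z : ℝ) ^ q)⁻¹)) ≤
        (z : ℝ) ^ k * ((z : ℝ) ^ k * ((z : ℝ) ^ b * ((z : ℝ) ^ q)⁻¹)) := by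
      gcongr
    refine h1.trans ?_
    have h2 : (z : ℝ) ^ k * ((z : ℝ) ^ k * ((z : ℝ) ^ b * ((z : ℝ) ^ q)⁻¹)) =
        (z : ℝ) ^ (b + 2 * k) / (z : ℝ) ^ q := by
      rw [div_eq_mul_inv]
      ring
    rw [h2]
    rw [div_le_div_iff₀ (pow_pos hz0 q) hW, one_mul]
    calc (z : ℝ) ^ (b + 2 * k) * Wp z p1 ≤ (z : ℝ) ^ (b + 2 * k) * z := by gcongr
      _ = (z : ℝ) ^ (b + 2 * k + 1) := (pow_succ _ _).symm
      _ ≤ (z : ℝ) ^ q := pow_le_pow_right₀ hz1 hq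
  have hps := GP.pairs_sum H k (V1p (P0 z p1)) Λ hV1.le hΛ hHΛ
  calc ∑ n ∈ clsU (q * Real.log z) (Wp z p1) c, omU (q * Real.log z) n * QRp (P0 z p1) H k n ^ 2
      = ∑ h ∈ S, ∑ h' ∈ S, ∑ n ∈ clsU (q * Real.log z) (Wp z p1) c, omU (q * Real.log z) n *
        rhoP (P0 z p1) (h ∪ h') n := by
        rw [Finset.sum_congr rfl fun n _ => by rw [UN2_sq, Finset.mul_sum]]
        rw [Finset.sum_comm]
        refine Finset.sum_congr rfl fun h _ => ?_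
        rw [Finset.sum_congr rfl fun n _ => by rw [Finset.mul_sum]]
        rw [Finset.sum_comm]
    _ ≤ ∑ h ∈ S, ∑ h' ∈ S, (4 / Wp z p1 * V1p (P0 z p1) ^ (h ∪ h').card +
        (z : ℝ) ^ b * ((z : ℝ) ^ q)⁻¹) :=
        Finset.sum_le_sum fun h hh => Finset.sum_le_sum fun h' hh' => hpair h hh h' hh'
    _ = 4 / Wp z p1 * (∑ h ∈ S, ∑ h' ∈ S, V1p (P0 z p1) ^ (h ∪ h').card) +
        (S.card : ℝ) * ((S.card : ℝ) * ((z : ℝ) ^ b * ((z : ℝ) ^ q)⁻¹)) := by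
        rw [Finset.mul_sum]
        rw [Finset.sum_congr rfl fun h _ => by
          rw [Finset.sum_add_distrib, Finset.sum_const, nsmul_eq_mul, ← Finset.mul_sum]]
        rw [Finset.sum_add_distrib, Finset.sum_const, nsmul_eq_mul]
    _ ≤ 4 / Wp z p1 * ((2 * k + 1) * (4 * Λ) ^ (2 * k)) + 1 / Wp z p1 := by
        refine add_le_add (mul_le_mul_of_nonneg_left hps (by positivity)) hrem
    _ = (4 * ((2 * k + 1) * (4 * Λ) ^ (2 * k)) + 1) / Wp z p1 := by ring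

end Pool.Agent.LibPL63
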