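import Pool.Agent.LibPL63.V1
import Pool.Agent.LibPL63.V2
import Pool.Agent.LibPL63.UN2

/-! Row UN3 (60 min): one class. `H = {a ∈ Ioc 0 y : (c + a).Coprime W}`, `W = Wp z p1`, `W ^ 2 ≤ log z / log 2` (`Wp_le`), so `4 k W ≤ y` for large `z`; `y φ(W)/(2W) ≤ card H ≤ 2 y φ(W)/W`
(`Nat.filter_coprime_Ico_eq_totient` / `Nat.Ico_filter_coprime_le`, shift by `c`; see GP.coprime_pairs in LibGP53/P1b.lean). With `mert_lower` (constant `c0`), `mert_upper`: `c1 ≤ (card H) V1p ≤ Λ`, `c1 = lam c0/2`, `Λ = max 1 (4 Lam)`, `card H ≥ 2k`.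
Hypothesis summed over `h ∈ powersetCard k H` with `VP_ge_pow k` (V1.lean): `∑_n omU n ∑_h rhoP h n 1[m primes in n + h] ≥ κ C(card H, k) V1p^k / (2 W) ≥ κ (c1/(2k))^k / (2W)` (`C(n,k) ≥ (n/(2k))^k` for `n ≥ 2k`, `Nat.pow_le_choose`).
The inner sum is `≤ QRp n` and `0` unless `m ≤ #{a ∈ Ioc 0 y : (n+a).Prime}`. Cauchy-Schwarz (weights `omU ≥ 0`, `omU_nonneg`) with `UN_second k`: `(κ (c1/(2k))^k/(2W))^2 ≤ (∑ omU 1[...]) * D / W`. -/

open Finset Filter

namespace Pool.Agent.LibPL63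

open Pool.Agent.LibRG87 Pool.Agent.LibLG5

private theorem UN3_ico (W s j : ℕ) :
    ((Ico s (s + W * j)).filter fun x => W.Coprime x).card = W.totient * j := by
  induction j with
  | zero => simp
  | succ j ih =>
    have h0 : s + W * (j + 1) = s + W * j + W := by ring
    have h1 : Ico s (s + W * (j + 1)) = Ico s (s + W * j) ∪ Ico (s + W * j) (s + W * j + W) := by
      rw [Ico_union_Ico_eq_Ico (by omega) (by omega), h0]
    rw [h1, filter_union, card_union_of_disjoint, ih, Nat.filter_coprime_Ico_eq_totient]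
    · ring
    · apply disjoint_filter_filter
      exact Ico_disjoint_Ico_consecutive _ _ _

private theorem UN3_card (W c y : ℕ) :
    ((Ioc 0 y).filter fun a => (c + a).Coprime W).card =
      ((Ico (c + 1) (c + 1 + y)).filter fun x => W.Coprime x).card := by
  apply card_nbij' (fun a => c + a) (fun x => x - c)
  · intro a ha
    simp only [coe_filter, mem_Ioc, Set.mem_ofPred_eq, mem_Ico] at ha ⊢
    exact ⟨⟨by omega, by omega⟩, ha.2.symm⟩
  · intro x hx
    simp only [coe_filter, mem_Ioc, Set.mem_ofPred_eq, mem_Ico] at hx ⊢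
    refine ⟨⟨by omega, by omega⟩, ?_⟩
    rw [Nat.add_sub_cancel' (by omega)]
    exact hx.2.symm
  · intro a _; simp
  · intro x hx
    simp only [coe_filter, Set.mem_ofPred_eq, mem_Ico] at hx
    simp only
    omega

private theorem UN3_upper {W : ℕ} (c y : ℕ) (hW : 0 < W) (hy : W ≤ y) :
    (((Ioc 0 y).filter fun a => (c + a).Coprime W).card : ℝ) ≤ 2 * y * (W.totient / W) := by
  rw [UN3_card]
  have h1 := Nat.Ico_filter_coprime_le (c + 1) y hW.ne'
  have hW' : (0 : ℝ) < W := by exact_mod_cast hW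
  have h5 : ((y / W : ℕ) : ℝ) + 1 ≤ 2 * y / W := by
    have h6 : ((y / W : ℕ) : ℝ) ≤ (y : ℝ) / W := Nat.cast_div_le
    have h7 : (1 : ℝ) ≤ (y : ℝ) / W := by
      rw [one_le_div hW']
      exact_mod_cast hy
    have h8 : 2 * (y : ℝ) / W = (y : ℝ) / W + (y : ℝ) / W := by ring
    rw [h8]
    linarith
  calc (((Ico (c + 1) (c + 1 + y)).filter fun x => W.Coprime x).card : ℝ)
      ≤ (W.totient : ℝ) * (((y / W : ℕ) : ℝ) + 1) := by exact_mod_cast h1
    _ ≤ (W.totient : ℝ) * (2 * y / W) := by gcongr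
    _ = 2 * y * (W.totient / W) := by ring

private theorem UN3_lower {W : ℕ} (c y : ℕ) (hW : 0 < W) (hy : W ≤ y) :
    y * ((W.totient : ℝ) / W) / 2 ≤ (((Ioc 0 y).filter fun a => (c + a).Coprime W).card : ℝ) := by
  rw [UN3_card]
  have h1 : W.totient * (y / W) ≤ ((Ico (c + 1) (c + 1 + y)).filter fun x => W.Coprime x).card := by
    rw [← UN3_ico W (c + 1) (y / W)]
    apply card_le_card
    apply filter_subset_filter
    apply Ico_subset_Ico le_rfl
    have := Nat.mul_div_le y W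
    omega
  have hW' : (0 : ℝ) < W := by exact_mod_cast hW
  have h2 : (y : ℝ) / W / 2 ≤ ((y / W : ℕ) : ℝ) := by
    have h3 : y < 2 * (y / W) * W := by
      have h4 := Nat.div_add_mod y W
      have h5 := Nat.mod_lt y hW
      have h6 : 1 ≤ y / W := Nat.div_pos hy hW
      nlinarith
    have h7 : (y : ℝ) < 2 * ((y / W : ℕ) : ℝ) * W := by exact_mod_cast h3
    rw [div_div, div_le_iff₀ (by positivity)]
    linarith
  have h8 : (W.totient : ℝ) * ((y / W : ℕ) : ℝ) ≤
      (((Ico (c + 1) (c + 1 + y)).filter fun x => W.Coprime x).card : ℝ) := by exact_mod_cast h1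
  refine le_trans ?_ h8
  calc y * ((W.totient : ℝ) / W) / 2 = (W.totient : ℝ) * ((y : ℝ) / W / 2) := by ring
    _ ≤ _ := by gcongr

private theorem UN3_choose {k n : ℕ} (hk : 1 ≤ k) (hn : 2 * k ≤ n) :
    ((n : ℝ) / (2 * k)) ^ k ≤ n.choose k := by
  have h1 : ((n + 1 - k : ℕ) : ℝ) ^ k ≤ (Nat.factorial k : ℝ) * (n.choose k : ℝ) := by
    have := Nat.pow_le_choose (α := ℝ) k n
    first
      | exact_mod_cast this
      | (rw [div_le_iff₀ (by positivity)] at this; linarith)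
  have h2 : (Nat.factorial k : ℝ) ≤ (k : ℝ) ^ k := by exact_mod_cast Nat.factorial_le_pow k
  have h3 : (n : ℝ) / 2 ≤ ((n + 1 - k : ℕ) : ℝ) := by
    have h4 : n ≤ 2 * (n + 1 - k) := by omega
    have h5 : (n : ℝ) ≤ 2 * ((n + 1 - k : ℕ) : ℝ) := by exact_mod_cast h4
    linarith
  have hk' : (0 : ℝ) < k := by exact_mod_cast hk
  have h6 : ((n : ℝ) / 2) ^ k ≤ (k : ℝ) ^ k * (n.choose k : ℝ) := by
    calc ((n : ℝ) / 2) ^ k ≤ ((n + 1 - k : ℕ) : ℝ) ^ k := by gcongr
      _ ≤ (Nat.factorial k : ℝ) * (n.choose k : ℝ) := h1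
      _ ≤ (k : ℝ) ^ k * (n.choose k : ℝ) := by gcongr
  have h7 : (n : ℝ) / (2 * k) = (n : ℝ) / 2 / k := by rw [div_div]
  rw [h7, div_pow, div_le_iff₀ (by positivity)]
  linarith

/-- the average over the `k`-subsets -/
private theorem UN3_sum {Pr H : Finset ℕ} {k m y n : ℕ} (hH : H ⊆ Ioc 0 y) :
    ∑ h ∈ powersetCard k H,
      (rhoP Pr h n * if m ≤ (h.filter fun a => (n + a).Prime).card then (1 : ℝ) else 0) ≤
    QRp Pr H k n * if m ≤ ((Ioc 0 y).filter fun a => (n + a).Prime).card then 1 else 0 := by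
  unfold QRp
  rw [sum_mul]
  apply sum_le_sum
  intro h hh
  rw [mem_powersetCard] at hh
  apply mul_le_mul_of_nonneg_left _ (rhoP_nonneg Pr h n).1
  by_cases h1 : m ≤ (h.filter fun a => (n + a).Prime).card
  · have h2 : m ≤ ((Ioc 0 y).filter fun a => (n + a).Prime).card :=
      h1.trans (card_le_card (filter_subset_filter _ (hh.1.trans hH)))
    rw [if_pos h1, if_pos h2]
  · rw [if_neg h1]
    split_ifs <;> norm_num

theorem UN_class (k : ℕ) (hk : 1 ≤ k) : ∃ q2 : ℕ, ∀ q : ℕ, q2 ≤ q → ∀ κ lam Lam : ℝ, 0 < κ → 0 < lam → lam ≤ Lam →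
    ∃ κ' : ℝ, 0 < κ' ∧ ∀ᶠ z : ℕ in atTop, ∀ m p1 c y : ℕ, p1.Prime →
    lam * Real.log z ≤ y → (y : ℝ) ≤ Lam * Real.log z →
    (∀ h : Finset ℕ, h.card = k → (∀ a ∈ h, (a : ℝ) ≤ Real.log z ^ 2 ∧ (c + a).Coprime (Wp z p1)) →
      κ * (VP (P0 z p1) h / Wp z p1) ≤
        ∑ n ∈ clsU (q * Real.log z) (Wp z p1) c, omU (q * Real.log z) n *
          (rhoP (P0 z p1) h n * if m ≤ (h.filter fun a => (n + a).Prime).card then 1 else 0)) →
    κ' / Wp z p1 ≤ ∑ n ∈ clsU (q * Real.log z) (Wp z p1) c, omU (q * Real.log z) n *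
      if m ≤ ((Ioc 0 y).filter fun a => (n + a).Prime).card then 1 else 0 := by
  obtain ⟨q2, hq2⟩ := UN_second k
  refine ⟨q2, ?_⟩
  intro q hq κ lam Lam hκ hlam hLam
  obtain ⟨D, hD, hsec⟩ := hq2 (max 1 (4 * Lam)) (le_max_left _ _)
  obtain ⟨c0, hc0, hlow⟩ := mert_lower
  have hk' : (0 : ℝ) < k := by exact_mod_cast hk
  set c1 := lam * c0 / 2 with hc1
  have hc1' : 0 < c1 := by positivity
  set E := κ * (c1 / (2 * k)) ^ k / 2 with hE
  have hE' : 0 < E := by positivity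
  refine ⟨E ^ 2 / D, by positivity, ?_⟩
  have hlogt : Tendsto (fun z : ℕ => Real.log z) atTop atTop :=
    Real.tendsto_log_atTop.comp tendsto_natCast_atTop_atTop
  have hl2 : 0 < Real.log 2 := Real.log_pos (by norm_num)
  filter_upwards [hsec q hq, VP_ge_pow k, hlow, mert_upper, eventually_ge_atTop 4,
    hlogt.eventually_ge_atTop Lam, hlogt.eventually_ge_atTop (16 * k ^ 2 / (Real.log 2 * lam ^ 2)),
    hlogt.eventually_ge_atTop 1] with z hz1 hz2 hz3 hz4 hz5 hz6 hz7 hz8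
  intro m p1 c y hp1 hy1 hy2 hyp
  set W := Wp z p1 with hW
  have hW0 : 0 < W := Wp_pos z p1
  have hW0' : (0 : ℝ) < W := by exact_mod_cast hW0
  have hL0 : 0 < Real.log z := by linarith
  have hLam0 : 0 < Lam := by linarith
  -- size of `y`
  have h4kW : 4 * k * W ≤ y := by
    have h1 := Wp_le hz5 p1
    rw [← hW] at h1
    have h2 : (4 * k * W : ℝ) ^ 2 ≤ (lam * Real.log z) ^ 2 := by
      have h3 : (4 * k * W : ℝ) ^ 2 = 16 * k ^ 2 * (W : ℝ) ^ 2 := by ring
      have h4 : (16 : ℝ) * k ^ 2 * (W : ℝ) ^ 2 ≤ 16 * k ^ 2 * (Real.log z / Real.log 2) := by gcongr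
      have h5 : (16 : ℝ) * k ^ 2 ≤ Real.log z * (Real.log 2 * lam ^ 2) := by
        rwa [div_le_iff₀ (by positivity)] at hz7
      have h6 : (16 : ℝ) * k ^ 2 * (Real.log z / Real.log 2) ≤ (lam * Real.log z) ^ 2 := by
        rw [← mul_div_assoc, div_le_iff₀ hl2]
        nlinarith [mul_le_mul_of_nonneg_right h5 hL0.le]
      rw [h3]; linarith
    have h3 : (4 * k * W : ℝ) ≤ lam * Real.log z :=
      (pow_le_pow_iff_left₀ (by positivity) (by positivity) (by norm_num)).1 h2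
    have h4 : (4 * k * W : ℝ) ≤ y := h3.trans hy1
    exact_mod_cast h4
  have hWy : W ≤ y := by nlinarith
  set H := (Ioc 0 y).filter fun a => (c + a).Coprime W with hH
  have hHsub : H ⊆ Ioc 0 y := filter_subset _ _
  have hup := UN3_upper c y hW0 hWy
  have hlo := UN3_lower c y hW0 hWy
  rw [← hH] at hup hlo
  have hV : 0 < V1p (P0 z p1) := V1p_pos _ fun p hp => (mem_P0.1 hp).2.1
  have hm1 := hz3 p1 hp1
  have hm2 := hz4 p1 hp1
  rw [← hW] at hm1 hm2
  -- bounds for `card H * V1p`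
  have hHV2 : (H.card : ℝ) * V1p (P0 z p1) ≤ max 1 (4 * Lam) := by
    refine le_trans ?_ (le_max_right _ _)
    calc (H.card : ℝ) * V1p (P0 z p1) ≤ 2 * y * (W.totient / W) * V1p (P0 z p1) := by gcongr
      _ = 2 * y * (W.totient / W * V1p (P0 z p1)) := by ring
      _ ≤ 2 * (Lam * Real.log z) * (2 / Real.log z) := by gcongr
      _ = 4 * Lam := by field_simp; ring
  have hHV1 : c1 ≤ (H.card : ℝ) * V1p (P0 z p1) := by
    calc c1 = (lam * Real.log z) * (c0 / Real.log z) / 2 := by rw [hc1]; field_simp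
      _ ≤ y * (W.totient / W * V1p (P0 z p1)) / 2 := by gcongr
      _ = y * ((W.totient : ℝ) / W) / 2 * V1p (P0 z p1) := by ring
      _ ≤ _ := by gcongr
  have hHk : 2 * k ≤ H.card := by
    have h1 : (1 : ℝ) ≤ (W.totient : ℝ) := by exact_mod_cast Nat.totient_pos.2 hW0
    have h2 : (2 * k : ℝ) ≤ y * ((W.totient : ℝ) / W) / 2 := by
      have h3 : (4 * k * W : ℝ) ≤ y := by exact_mod_cast h4kW
      have h4 : y * ((W.totient : ℝ) / W) / 2 = y * (W.totient : ℝ) / (W * 2) := by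
        field_simp
      rw [h4, le_div_iff₀ (by positivity)]
      nlinarith
    have h5 : ((2 * k : ℕ) : ℝ) ≤ H.card := by push_cast; linarith
    exact_mod_cast h5
  have hHlog : ∀ a ∈ H, (a : ℝ) ≤ Real.log z ^ 2 := by
    intro a ha
    have h1 := (mem_Ioc.1 (hHsub ha)).2
    have h2 : (a : ℝ) ≤ y := by exact_mod_cast h1
    nlinarith
  -- the sum over the subsets
  set x : ℝ := q * Real.log z with hx
  set I : ℕ → ℝ := fun n => if m ≤ ((Ioc 0 y).filter fun a => (n + a).Prime).card then 1 else 0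
    with hI
  have hI01 : ∀ n, I n = 0 ∨ I n = 1 := by
    intro n
    simp only [hI]
    split_ifs
    · exact Or.inr rfl
    · exact Or.inl rfl
  have hI0 : ∀ n, 0 ≤ I n := fun n => by rcases hI01 n with h | h <;> rw [h]; norm_num
  have hmain : E / W ≤ ∑ n ∈ clsU x W c, omU x n * (QRp (P0 z p1) H k n * I n) := by
    have h1 : ∀ h ∈ powersetCard k H, κ * (V1p (P0 z p1) ^ k / 2 / W) ≤
        ∑ n ∈ clsU x W c, omU x n *
          (rhoP (P0 z p1) h n * if m ≤ (h.filter fun a => (n + a).Prime).card then 1 else 0) := by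
      intro h hh
      rw [mem_powersetCard] at hh
      have h2 := hyp h hh.2 fun a ha => ⟨hHlog a (hh.1 ha), (mem_filter.1 (hh.1 ha)).2⟩
      refine le_trans ?_ h2
      have h3 := hz2 p1 hp1 h hh.2.le
      rw [hh.2] at h3
      gcongr
    have h2 := sum_le_sum h1
    rw [sum_const, card_powersetCard, nsmul_eq_mul, sum_comm] at h2
    have h3 : E / W ≤ (H.card.choose k : ℝ) * (κ * (V1p (P0 z p1) ^ k / 2 / W)) := by
      have h4 := UN3_choose hk hHk
      have h5 : (c1 / (2 * k)) ^ k ≤ (H.card.choose k : ℝ) * V1p (P0 z p1) ^ k := by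
        calc (c1 / (2 * k)) ^ k ≤ ((H.card : ℝ) * V1p (P0 z p1) / (2 * k)) ^ k := by gcongr
          _ = ((H.card : ℝ) / (2 * k)) ^ k * V1p (P0 z p1) ^ k := by rw [← mul_pow]; congr 1; ring
          _ ≤ _ := by gcongr
      calc E / W = κ * (c1 / (2 * k)) ^ k / 2 / W := by rw [hE]
        _ ≤ κ * ((H.card.choose k : ℝ) * V1p (P0 z p1) ^ k) / 2 / W := by gcongr
        _ = _ := by ring
    refine h3.trans (h2.trans ?_)
    apply sum_le_sum
    intro n _
    rw [← mul_sum]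
    exact mul_le_mul_of_nonneg_left (UN3_sum hHsub) (omU_nonneg x n)
  -- Cauchy-Schwarz
  have hcs : (∑ n ∈ clsU x W c, omU x n * (QRp (P0 z p1) H k n * I n)) ^ 2 ≤
      (∑ n ∈ clsU x W c, omU x n * I n) * ∑ n ∈ clsU x W c, omU x n * QRp (P0 z p1) H k n ^ 2 := by
    apply sum_sq_le_sum_mul_sum_of_sq_le_mul
    · intro n _; exact mul_nonneg (omU_nonneg x n) (hI0 n)
    · intro n _; exact mul_nonneg (omU_nonneg x n) (sq_nonneg _)
    · intro n _
      apply le_of_eq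
      rcases hI01 n with h | h <;> rw [h] <;> ring
  have hsec2 := hz1 p1 hp1 c H hHlog hHV2
  have hS0 : 0 ≤ ∑ n ∈ clsU x W c, omU x n * I n :=
    sum_nonneg fun n _ => mul_nonneg (omU_nonneg x n) (hI0 n)
  have hfin : (E / W) ^ 2 ≤ (∑ n ∈ clsU x W c, omU x n * I n) * (D / W) := by
    calc (E / W) ^ 2 ≤ (∑ n ∈ clsU x W c, omU x n * (QRp (P0 z p1) H k n * I n)) ^ 2 := by
          have : 0 ≤ E / W := by positivity
          gcongr
      _ ≤ _ := hcs
      _ ≤ _ := by gcongr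
  show E ^ 2 / D / W ≤ ∑ n ∈ clsU x W c, omU x n * I n
  rw [div_div, div_le_iff₀ (by positivity)]
  have h1 : E ^ 2 = (E / W) ^ 2 * (W * W) := by field_simp
  calc E ^ 2 = (E / W) ^ 2 * (W * W) := h1
    _ ≤ (∑ n ∈ clsU x W c, omU x n * I n) * (D / W) * (W * W) := by gcongr
    _ = _ := by field_simp

end Pool.Agent.LibPL63
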