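import Pool.Agent.LibPL63.UDefs
import Pool.Agent.LibPL63.V0

/-! Row UN4 (40 min): Gaussian tail. `gw u = e^(-u^2/2)/sqrt(2π)` (`LibMaier.gw`). For real `t ≥ -1` the sum of `1/n` over the `n ≥ 1` with `t ≤ log n < t + 1` is at most `2 + e^(-t) ≤ 5` (or any absolute constant:
`∑_{A ≤ n < eA} 1/n ≤ 1/A + 1`). Split `|log n - x| > R` (R natural) into `j ≤ |log n - x| < j + 1`, `j ≥ R`: total `≤ ∑_{j ≥ R} 10 e^(-j^2/2) ≤ 40 e^(-R/2)`, which tends to `0`. Any proof is fine. -/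

open Finset Filter

namespace Pool.Agent.LibPL63

/-- the terms are at most `e^(-|log n - x|) / n` -/
private theorem UN4_term {x : ℝ} {n : ℕ} (hn : 1 ≤ n) {R : ℝ} (hR : 2 ≤ R)
    (h : R < |Real.log n - x|) : omU x n ≤ Real.exp (-|Real.log n - x|) / n := by
  have hn' : (0 : ℝ) < n := by exact_mod_cast hn
  unfold omU
  gcongr
  unfold LibMaier.gw
  have h1 : (1 : ℝ) ≤ Real.sqrt (2 * Real.pi) := by
    rw [Real.one_le_sqrt]
    have := Real.pi_gt_three
    linarith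
  refine (div_le_self (Real.exp_pos _).le h1).trans ?_
  rw [Real.exp_le_exp]
  have h2 : (Real.log n - x) ^ 2 = |Real.log n - x| ^ 2 := (sq_abs _).symm
  rw [h2]
  nlinarith [abs_nonneg (Real.log n - x)]

private theorem UN4_up (x R : ℝ) (N : ℕ) :
    ∑ n ∈ (Icc 1 N).filter (fun n : ℕ => R < Real.log n - x), Real.exp x / (n : ℝ) ^ 2 ≤
      2 * Real.exp (-R) := by
  have h1 : (Icc 1 N).filter (fun n : ℕ => R < Real.log n - x) ⊆
      Ioo ⌊Real.exp (x + R)⌋₊ (N + 1) := by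
    intro n hn
    rw [mem_filter, mem_Icc] at hn
    rw [mem_Ioo]
    refine ⟨?_, by omega⟩
    have hn' : (0 : ℝ) < n := by exact_mod_cast hn.1.1
    rw [Nat.floor_lt (Real.exp_pos _).le, ← Real.lt_log_iff_exp_lt hn']
    linarith [hn.2]
  have h2 : ∑ n ∈ Ioo ⌊Real.exp (x + R)⌋₊ (N + 1), ((n : ℝ) ^ 2)⁻¹ ≤
      2 / ((⌊Real.exp (x + R)⌋₊ : ℝ) + 1) := sum_Ioo_inv_sq_le _ _
  have h3 : Real.exp (x + R) ≤ (⌊Real.exp (x + R)⌋₊ : ℝ) + 1 := (Nat.lt_floor_add_one _).le
  calc ∑ n ∈ (Icc 1 N).filter (fun n : ℕ => R < Real.log n - x), Real.exp x / (n : ℝ) ^ 2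
      ≤ ∑ n ∈ Ioo ⌊Real.exp (x + R)⌋₊ (N + 1), Real.exp x / (n : ℝ) ^ 2 :=
        sum_le_sum_of_subset_of_nonneg h1 fun _ _ _ => by positivity
    _ = Real.exp x * ∑ n ∈ Ioo ⌊Real.exp (x + R)⌋₊ (N + 1), ((n : ℝ) ^ 2)⁻¹ := by
        rw [mul_sum]; rfl
    _ ≤ Real.exp x * (2 / ((⌊Real.exp (x + R)⌋₊ : ℝ) + 1)) := by gcongr
    _ ≤ Real.exp x * (2 / Real.exp (x + R)) := by
        have := Real.exp_pos (x + R)
        gcongr
    _ = 2 * Real.exp (-R) := by
        rw [Real.exp_add, Real.exp_neg]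
        have h4 := (Real.exp_pos x).ne'
        have h5 := (Real.exp_pos R).ne'
        field_simp

private theorem UN4_low (x R : ℝ) (N : ℕ) :
    ∑ _n ∈ (Icc 1 N).filter (fun n : ℕ => Real.log n - x < -R), Real.exp (-x) ≤
      Real.exp (-R) := by
  have h1 : (Icc 1 N).filter (fun n : ℕ => Real.log n - x < -R) ⊆
      Icc 1 ⌊Real.exp (x - R)⌋₊ := by
    intro n hn
    rw [mem_filter, mem_Icc] at hn
    rw [mem_Icc]
    refine ⟨hn.1.1, ?_⟩
    have hn' : (0 : ℝ) < n := by exact_mod_cast hn.1.1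
    rw [Nat.le_floor_iff (Real.exp_pos _).le, ← Real.log_le_iff_le_exp hn']
    linarith [hn.2]
  have h2 := card_le_card h1
  rw [Nat.card_Icc, Nat.add_sub_cancel] at h2
  have h3 : (((Icc 1 N).filter (fun n : ℕ => Real.log n - x < -R)).card : ℝ) ≤
      Real.exp (x - R) := by
    calc (((Icc 1 N).filter (fun n : ℕ => Real.log n - x < -R)).card : ℝ)
        ≤ (⌊Real.exp (x - R)⌋₊ : ℝ) := by exact_mod_cast h2
      _ ≤ Real.exp (x - R) := Nat.floor_le (Real.exp_pos _).le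
  rw [sum_const, nsmul_eq_mul]
  calc _ ≤ Real.exp (x - R) * Real.exp (-x) := by gcongr
    _ = Real.exp (-R) := by rw [← Real.exp_add]; congr 1; ring

theorem UN_tail (ε : ℝ) (hε : 0 < ε) : ∃ R : ℕ, 1 ≤ R ∧ ∀ (x : ℝ) (N : ℕ),
    ∑ n ∈ (Icc 1 N).filter (fun n : ℕ => (R : ℝ) < |Real.log n - x|), omU x n ≤ ε := by
  obtain ⟨R, hR⟩ := exists_nat_ge (max 2 (Real.log (3 / ε)))
  have hR2 : (2 : ℝ) ≤ R := (le_max_left _ _).trans hR
  have hR3 : Real.log (3 / ε) ≤ R := (le_max_right _ _).trans hR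
  refine ⟨R, by
    have : (1 : ℝ) ≤ R := by linarith
    exact_mod_cast this, ?_⟩
  intro x N
  have hexp : 3 * Real.exp (-(R : ℝ)) ≤ ε := by
    have h1 : 3 / ε ≤ Real.exp R := by
      rw [← Real.log_le_iff_le_exp (by positivity)]; exact hR3
    rw [Real.exp_neg, ← div_eq_mul_inv, div_le_iff₀ (Real.exp_pos _)]
    rw [div_le_iff₀ hε] at h1
    linarith
  have h1 : ∑ n ∈ (Icc 1 N).filter (fun n : ℕ => (R : ℝ) < |Real.log n - x|), omU x n ≤
      ∑ n ∈ (Icc 1 N).filter (fun n : ℕ => (R : ℝ) < Real.log n - x), Real.exp x / (n : ℝ) ^ 2 +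
      ∑ _n ∈ (Icc 1 N).filter (fun n : ℕ => Real.log n - x < -(R : ℝ)), Real.exp (-x) := by
    rw [sum_filter, sum_filter, sum_filter, ← sum_add_distrib]
    apply sum_le_sum
    intro n hn
    rw [mem_Icc] at hn
    have hn' : (0 : ℝ) < n := by exact_mod_cast hn.1
    by_cases h : (R : ℝ) < |Real.log n - x|
    · rw [if_pos h]
      have h2 := UN4_term hn.1 hR2 h
      rcases lt_abs.1 h with h3 | h3
      · have h4 : ¬ Real.log n - x < -(R : ℝ) := by linarith
        rw [if_pos h3, if_neg h4, add_zero]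
        rw [abs_of_pos (by linarith)] at h2
        refine h2.trans (le_of_eq ?_)
        have h5 : -(Real.log n - x) = x - Real.log n := by ring
        rw [h5, Real.exp_sub, Real.exp_log hn']
        field_simp
      · have h4 : ¬ (R : ℝ) < Real.log n - x := by linarith
        have h6 : Real.log n - x < -(R : ℝ) := by linarith
        rw [if_neg h4, if_pos h6, zero_add]
        rw [abs_of_neg (by linarith)] at h2
        refine h2.trans (le_of_eq ?_)
        have h5 : - -(Real.log n - x) = Real.log n + -x := by ring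
        rw [h5, Real.exp_add, Real.exp_log hn']
        field_simp
    · rw [if_neg h]
      have h3 : (0 : ℝ) ≤ if (R : ℝ) < Real.log n - x then Real.exp x / (n : ℝ) ^ 2 else 0 := by
        split_ifs <;> positivity
      have h4 : (0 : ℝ) ≤ if Real.log n - x < -(R : ℝ) then Real.exp (-x) else 0 := by
        split_ifs <;> positivity
      linarith
  have h2 := UN4_up x R N
  have h3 := UN4_low x R N
  linarith

end Pool.Agent.LibPL63
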