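import Pool.Agent.LibPL63.UN3
import Pool.Agent.LibPL63.UN4
import Pool.Agent.LibGP53.Conv

/-! Row UN5 (60 min): `Many` for all `m`, `l`. `k` from `hMT m`, `q2` from `UN_class k`, `q ≥ max q2 1`, `κ` from `hMT` with `q1 = max q2 1`; `x = q log z`, `y = ⌊(l/2) x⌋₊` (so `lam = l q/4`, `Lam = l q/2`). Sum of `UN_class` over `c < W = Wp z p1`
(the sets `clsU x W c`, `c < W`, partition `Icc 1 ⌊e^(2x)⌋₊`): `κ' ≤ ∑_{n ∈ Icc 1 ⌊e^(2x)⌋₊} omU n 1[m ≤ #{a ∈ Ioc 0 y : (n+a).Prime}]`. `UN_tail (κ'/2)`: `R`; so the `n` with `|log n - x| ≤ R` contribute `≥ κ'/2`, and for them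
`omU x n ≤ 1/n ≤ e^(R-x)` (`gw ≤ 1`), so their number is `≥ (κ'/2) e^(x-R)`. For such `n`: `n ≤ e^(x+R)` and `l log n ≥ l (x - R) ≥ (l/2) x ≥ y` (large `z`), hence `m ≤ FF l n` (`GP.card_primes_Ioc`, `FF`, `cnt`; monotone).
For large `X` let `z` be the largest natural number with `z^q e^R < X`; then `(z+1)^q e^R ≥ X`, so `e^x = z^q ≥ X e^(-R) / 2^q` (`(z+1)^q ≤ 2^q z^q`), and `num X (m ≤ FF l n) ≥ (κ'/2) e^(-2R) 2^(-q) X`. -/

open Finset Filter

namespace Pool.Agent.LibPL63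

open Pool.Agent.LibRG87 Pool.Agent.LibLG5

private theorem UN5_gw_le_one (v : ℝ) : LibMaier.gw v ≤ 1 := by
  unfold LibMaier.gw
  have h1 : Real.exp (-v ^ 2 / 2) ≤ 1 := by
    apply Real.exp_le_one_iff.mpr
    have := sq_nonneg v
    linarith
  have h2 : (1 : ℝ) ≤ Real.sqrt (2 * Real.pi) := by
    rw [Real.le_sqrt' (by norm_num)]
    have := Real.pi_gt_three
    linarith
  rw [div_le_one (by linarith)]
  linarith

/-- the classes partition the interval -/
private theorem UN5_partition (x : ℝ) (W : ℕ) (hW : 0 < W) (f : ℕ → ℝ) :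
    ∑ c ∈ range W, ∑ n ∈ clsU x W c, f n = ∑ n ∈ Icc 1 ⌊Real.exp (2 * x)⌋₊, f n := by
  rw [← Finset.sum_fiberwise_of_maps_to (s := Icc 1 ⌊Real.exp (2 * x)⌋₊) (t := range W)
    (g := fun n => n % W) (fun n _ => mem_range.mpr (Nat.mod_lt n hW)) f]
  refine Finset.sum_congr rfl fun c hc => ?_
  have hc' := mem_range.mp hc
  unfold clsU
  refine Finset.sum_congr ?_ fun _ _ => rfl
  ext n
  simp only [mem_filter, Nat.ModEq, Nat.mod_eq_of_lt hc']

/-- primes in the window -/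
private theorem UN5_window (l : ℝ) (m n y : ℕ) (hy : (y : ℝ) ≤ l * Real.log n)
    (hm : m ≤ ((Ioc 0 y).filter fun a => (n + a).Prime).card) : m ≤ GP.FF l n := by
  unfold GP.FF GP.cnt
  rw [← GP.card_primes_Ioc]
  refine hm.trans ?_
  have hle : n + y ≤ ⌊(n : ℝ) + l * Real.log n⌋₊ := by
    apply Nat.le_floor
    push_cast
    linarith
  refine Finset.card_le_card_of_injOn (fun a => n + a) ?_ ?_
  · intro a ha
    simp only [coe_filter, mem_Ioc, Set.mem_ofPred_eq] at ha ⊢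
    exact ⟨⟨by omega, by omega⟩, ha.2⟩
  · intro a _ b _ h
    simpa using h

/-- one `z` -/
private theorem UN5_count (m : ℕ) (l x κ' : ℝ) (R y W : ℕ) (hl : 0 < l) (hx : 2 * R ≤ x)
    (hy : (y : ℝ) ≤ l / 2 * x) (hW : 0 < W)
    (hR : ∑ n ∈ (Icc 1 ⌊Real.exp (2 * x)⌋₊).filter (fun n : ℕ => (R : ℝ) < |Real.log n - x|), omU x n ≤ κ' / 2)
    (h : ∀ c, κ' / W ≤ ∑ n ∈ clsU x W c, omU x n *
      if m ≤ ((Ioc 0 y).filter fun a => (n + a).Prime).card then 1 else 0)
    (X : ℕ) (hX : Real.exp (x + R) < X) :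
    κ' / 2 * Real.exp (x - R) ≤ (GP.num X fun n => m ≤ GP.FF l n : ℝ) := by
  classical
  have hW' : (0 : ℝ) < W := by exact_mod_cast hW
  set N := ⌊Real.exp (2 * x)⌋₊ with hN
  set Q : ℕ → Prop := fun n => m ≤ ((Ioc 0 y).filter fun a => (n + a).Prime).card with hQ
  have h1 : κ' ≤ ∑ n ∈ Icc 1 N, omU x n * (if Q n then 1 else 0) := by
    rw [hN, ← UN5_partition x W hW]
    calc κ' = ∑ c ∈ range W, κ' / W := by
          rw [Finset.sum_const, card_range, nsmul_eq_mul]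
          field_simp
      _ ≤ _ := Finset.sum_le_sum fun c _ => h c
  -- split
  have h2 : ∑ n ∈ Icc 1 N, omU x n * (if Q n then 1 else 0) ≤
      ∑ n ∈ (Icc 1 N).filter (fun n : ℕ => (R : ℝ) < |Real.log n - x|), omU x n +
      ∑ n ∈ (Icc 1 N).filter (fun n : ℕ => ¬ (R : ℝ) < |Real.log n - x| ∧ Q n), omU x n := by
    rw [← Finset.sum_filter_add_sum_filter_not (Icc 1 N) (fun n : ℕ => (R : ℝ) < |Real.log n - x|)]
    refine add_le_add ?_ ?_
    · refine Finset.sum_le_sum fun n _ => ?_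
      have := omU_nonneg x n
      split_ifs <;> simp [this]
    · rw [← Finset.filter_filter, Finset.sum_filter (p := Q)]
      refine Finset.sum_le_sum fun n _ => ?_
      split_ifs <;> simp
  have h3 : κ' / 2 ≤ ∑ n ∈ (Icc 1 N).filter (fun n : ℕ => ¬ (R : ℝ) < |Real.log n - x| ∧ Q n), omU x n := by
    linarith
  set S := (Icc 1 N).filter (fun n : ℕ => ¬ (R : ℝ) < |Real.log n - x| ∧ Q n) with hS
  have h4 : ∀ n ∈ S, omU x n ≤ Real.exp (R - x) := by
    intro n hn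
    simp only [hS, mem_filter, mem_Icc, not_lt] at hn
    obtain ⟨⟨hn1, _⟩, hn2, _⟩ := hn
    have hnpos : (0 : ℝ) < n := by exact_mod_cast hn1
    have hlog : x - R ≤ Real.log n := by
      have := (abs_le.mp hn2).1
      linarith
    have hge : Real.exp (x - R) ≤ n := by
      rw [← Real.exp_log hnpos]
      exact Real.exp_le_exp.mpr hlog
    unfold omU
    rw [div_le_iff₀ hnpos]
    have : 1 ≤ Real.exp (R - x) * n := by
      calc (1 : ℝ) = Real.exp (R - x) * Real.exp (x - R) := by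
            rw [← Real.exp_add]; simp
        _ ≤ _ := mul_le_mul_of_nonneg_left hge (Real.exp_pos _).le
    exact (UN5_gw_le_one _).trans this
  have h5 : κ' / 2 ≤ S.card * Real.exp (R - x) := by
    refine h3.trans ((Finset.sum_le_sum h4).trans ?_)
    rw [Finset.sum_const, nsmul_eq_mul]
  have h6 : κ' / 2 * Real.exp (x - R) ≤ S.card := by
    calc κ' / 2 * Real.exp (x - R) ≤ (S.card * Real.exp (R - x)) * Real.exp (x - R) :=
          mul_le_mul_of_nonneg_right h5 (Real.exp_pos _).le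
      _ = S.card := by
          rw [mul_assoc, ← Real.exp_add]; simp
  refine h6.trans ?_
  unfold GP.num
  norm_cast
  refine Finset.card_le_card ?_
  intro n hn
  simp only [hS, mem_filter, mem_Icc, not_lt] at hn
  obtain ⟨⟨hn1, _⟩, hn2, hn3⟩ := hn
  have hnpos : (0 : ℝ) < n := by exact_mod_cast hn1
  have hlo : x - R ≤ Real.log n := by
    have := (abs_le.mp hn2).1
    linarith
  have hhi : Real.log n ≤ x + R := by
    have := (abs_le.mp hn2).2
    linarith
  simp only [Finset.mem_filter, Finset.mem_range]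
  refine ⟨?_, ?_⟩
  · have : (n : ℝ) < X := by
      refine lt_of_le_of_lt ?_ hX
      rw [← Real.exp_log hnpos]
      exact Real.exp_le_exp.mpr hhi
    exact_mod_cast this
  · refine UN5_window l m n y ?_ hn3
    refine hy.trans ?_
    have : x / 2 ≤ Real.log n := by linarith
    calc l / 2 * x = l * (x / 2) := by ring
      _ ≤ l * Real.log n := mul_le_mul_of_nonneg_left this hl.le

theorem many_all (hMT : ∀ m : ℕ, MTg m) (m : ℕ) (l : ℝ) (hl : 0 < l) : GP.Many m l := by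
  obtain ⟨k, hk, hMTm⟩ := hMT m
  obtain ⟨q2, hq2⟩ := UN_class k hk
  obtain ⟨q, κ, hqq, hq1, hκ, z0, hz0⟩ := hMTm (max q2 1)
  have hqpos : (0 : ℝ) < q := by exact_mod_cast hq1
  obtain ⟨κ', hκ', hev⟩ := hq2 q (le_trans (le_max_left _ _) hqq) κ (l * q / 4) (l * q / 2) hκ
    (by positivity) (by nlinarith [mul_pos hl hqpos])
  obtain ⟨R, hR1, hR⟩ := UN_tail (κ' / 2) (by positivity)
  -- large z
  have hlog : Tendsto (fun z : ℕ => Real.log (z : ℝ)) atTop atTop :=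
    Real.tendsto_log_atTop.comp tendsto_natCast_atTop_atTop
  have ev1 : ∀ᶠ z : ℕ in atTop, (max (2 * (R : ℝ) / q) (4 / (l * q)) : ℝ) ≤ Real.log z :=
    hlog.eventually_ge_atTop _
  obtain ⟨z1, hz1⟩ := (hev.and (ev1.and ((eventually_ge_atTop z0).and (eventually_ge_atTop 1)))).exists_forall_of_atTop
  refine ⟨κ' / 2 * Real.exp (-(2 * R)) * (2 ^ q)⁻¹, by positivity, ⌈((z1 : ℝ) + 1) ^ q * Real.exp R⌉₊ + 1, ?_⟩
  intro X hX
  have hXr : ((z1 : ℝ) + 1) ^ q * Real.exp R ≤ X := by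
    have h1 := Nat.le_ceil (((z1 : ℝ) + 1) ^ q * Real.exp R)
    have h2 : ((⌈((z1 : ℝ) + 1) ^ q * Real.exp R⌉₊ : ℕ) : ℝ) ≤ X := by
      exact_mod_cast (Nat.le_succ _).trans hX
    exact h1.trans h2
  have hXpos : (0 : ℝ) < X := lt_of_lt_of_le (by positivity) hXr
  set t : ℝ := ((X : ℝ) * Real.exp (-R)) ^ ((q : ℝ)⁻¹) with ht
  have hbase : (0 : ℝ) < X * Real.exp (-R) := by positivity
  have htpos : 0 < t := Real.rpow_pos_of_pos hbase _
  have htq : t ^ q = X * Real.exp (-R) := by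
    rw [ht]
    exact Real.rpow_inv_natCast_pow hbase.le (by omega)
  have htz : (z1 : ℝ) + 1 ≤ t := by
    have : ((z1 : ℝ) + 1) ^ q ≤ t ^ q := by
      rw [htq]
      calc ((z1 : ℝ) + 1) ^ q = ((z1 : ℝ) + 1) ^ q * Real.exp R * Real.exp (-R) := by
            rw [mul_assoc, ← Real.exp_add]; simp
        _ ≤ _ := mul_le_mul_of_nonneg_right hXr (Real.exp_pos _).le
    exact le_of_pow_le_pow_left₀ (by omega) htpos.le this
  have hceil : 0 < ⌈t⌉₊ := Nat.ceil_pos.mpr htpos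
  obtain ⟨z, hz⟩ : ∃ z : ℕ, ⌈t⌉₊ = z + 1 := ⟨⌈t⌉₊ - 1, by omega⟩
  have hzt : (z : ℝ) < t := by
    apply Nat.lt_ceil.mp
    omega
  have htz' : t ≤ z + 1 := by
    have := Nat.le_ceil t
    rw [hz] at this
    exact_mod_cast this
  have hzz1 : z1 ≤ z := by
    have : (z1 : ℝ) + 1 ≤ z + 1 := htz.trans htz'
    exact_mod_cast (by linarith : (z1 : ℝ) ≤ z)
  obtain ⟨hcls, hlg, hzz0, hzpos⟩ := hz1 z hzz1
  obtain ⟨p1, hp1, hmt⟩ := hz0 z hzz0
  have hzr : (0 : ℝ) < z := by exact_mod_cast hzpos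
  have hzr1 : (1 : ℝ) ≤ z := by exact_mod_cast hzpos
  set x : ℝ := q * Real.log z with hx
  have hxexp : Real.exp x = (z : ℝ) ^ q := by
    rw [hx, Real.exp_nat_mul, Real.exp_log hzr]
  have hx2R : 2 * (R : ℝ) ≤ x := by
    have := (le_max_left _ _).trans hlg
    rw [div_le_iff₀ hqpos] at this
    rw [hx]
    linarith
  have hxpos : 0 ≤ x := by
    have : (0 : ℝ) ≤ R := Nat.cast_nonneg _
    linarith
  set y : ℕ := ⌊l / 2 * x⌋₊ with hy
  have hy1 : (y : ℝ) ≤ l / 2 * x := Nat.floor_le (by positivity)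
  have hy2 : l / 2 * x < y + 1 := Nat.lt_floor_add_one _
  have hylo : l * q / 4 * Real.log z ≤ y := by
    have h1 := (le_max_right _ _).trans hlg
    rw [div_le_iff₀ (by positivity)] at h1
    have h2 : l / 2 * x = l * q / 4 * Real.log z + l * q / 4 * Real.log z := by
      rw [hx]; ring
    have h3 : 1 ≤ l * q / 4 * Real.log z := by
      have : l * q / 4 * Real.log z = (Real.log z * (l * q)) / 4 := by ring
      rw [this]
      linarith
    linarith
  have hyhi : (y : ℝ) ≤ l * q / 2 * Real.log z := by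
    refine hy1.trans (le_of_eq ?_)
    rw [hx]; ring
  have hfin := UN5_count m l x κ' R y (Wp z p1) hl hx2R hy1 (Wp_pos z p1)
    (hR x _) (fun c => hcls m p1 c y hp1 hylo hyhi (hmt c)) X (by
      rw [Real.exp_add, hxexp]
      calc (z : ℝ) ^ q * Real.exp R < t ^ q * Real.exp R :=
            mul_lt_mul_of_pos_right (pow_lt_pow_left₀ hzt hzr.le (by omega)) (Real.exp_pos _)
        _ = X := by
            rw [htq, mul_assoc, ← Real.exp_add]; simp)
  refine le_trans ?_ hfin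
  have h7 : (X : ℝ) * Real.exp (-R) ≤ 2 ^ q * (z : ℝ) ^ q := by
    rw [← htq, ← mul_pow]
    exact pow_le_pow_left₀ htpos.le (by linarith) _
  have h8 : Real.exp (x - R) = (z : ℝ) ^ q * Real.exp (-R) := by
    rw [sub_eq_add_neg, Real.exp_add, hxexp]
  rw [h8]
  have h9 : Real.exp (-(2 * (R : ℝ))) = Real.exp (-R) * Real.exp (-R) := by
    rw [← Real.exp_add]; congr 1; ring
  rw [h9]
  have h10 : (X : ℝ) * Real.exp (-R) * (2 ^ q)⁻¹ ≤ (z : ℝ) ^ q := by
    rw [← div_eq_mul_inv, div_le_iff₀ (by positivity)]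
    linarith
  calc κ' / 2 * (Real.exp (-↑R) * Real.exp (-↑R)) * (2 ^ q)⁻¹ * (X : ℝ)
      = (κ' / 2 * Real.exp (-R)) * ((X : ℝ) * Real.exp (-R) * (2 ^ q)⁻¹) := by ring
    _ ≤ (κ' / 2 * Real.exp (-R)) * (z : ℝ) ^ q := mul_le_mul_of_nonneg_left h10 (by positivity)
    _ = _ := by ring

end Pool.Agent.LibPL63
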