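import Pool.Agent.LibPL63.Q6
import Pool.Agent.LibPL63.M2

/-!
Definitions for the W rows. `LL = D a^I (I+1) q0`, `q = 360 LL`, `k = a^I` positions, `k1 = q0 a^I`, level `z^(2 LL)`, `b0 = 2 LL`.
-/

open Finset Filter

namespace Pool.Agent.LibPL63

open Pool.Agent.LibRG87 Pool.Agent.LibLG5

/-- the level -/
def LL (D a I q0 : ℕ) : ℕ := D * a ^ I * (I + 1) * q0

/-- the exponent `q` -/
def qW (D a I q0 : ℕ) : ℕ := 360 * LL D a I q0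

/-- the conditions on the parameters -/
structure ParW (C Cq a D I q0 : ℕ) (c : ℝ) : Prop where
  sums : SumsP a C c
  qf : QFp Cq
  hCq : 1 ≤ Cq
  hD : (4 * C : ℝ) ≤ c * D
  hD1 : 1 ≤ D
  hI : 1 ≤ I
  hq0 : 1 ≤ q0
  hq : 1 ≤ c * q0
  eps1 : eps0 Cq (2 * a ^ I) (2 * LL D a I q0) ≤ 1
  eps2 : eps0 Cq (2 * a ^ I) (2 * LL D a I q0) *
    ((Cq * (q0 * a ^ I) : ℕ) : ℝ) ^ (Cq * (a ^ I + 1) ^ 2) ≤ 1 / 64

/-- the function `Φ` of the positions `h` -/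
noncomputable def PhW (z p1 q0 a I L : ℕ) (h : Finset ℕ) (n : ℕ) : ℝ :=
  PhiF (PL z (q0 * a ^ I) p1) (Subtype.val : h → ℕ) (yM (PL z (q0 * a ^ I) p1) z q0 a I L) n

end Pool.Agent.LibPL63
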