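import Pool.Agent.LibPL63.W0
import Pool.Agent.LibPL63.SA9
import Pool.Agent.LibPL63.M3
import Pool.Agent.LibPL63.V1
import Pool.Agent.LibPL63.V2

/-!
Row W1 (U side): the size of `VP / Wp`, and the upper bound for the second moment of `Φ` in the uniform average.
-/

open Finset Filter

namespace Pool.Agent.LibPL63

open Pool.Agent.LibRG87 Pool.Agent.LibLG5

/-- the size of `VP / Wp` (also used in rows W2, W3): larger than any negative power of `z` and than `exp (-(log z)^(1/5))` -/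
theorem VPW_ge (k : ℕ) (e : ℝ) (he : 0 < e) : ∀ᶠ z : ℕ in atTop, ∀ p1 : ℕ, p1.Prime →
    ∀ h : Finset ℕ, h.card = k →
      1 / (z : ℝ) ≤ e * (VP (P0 z p1) h / Wp z p1) ∧
      Real.exp (-Real.log z ^ ((1 : ℝ) / 5)) ≤ e * (VP (P0 z p1) h / Wp z p1) := by
  obtain ⟨c, hc, hV⟩ := V1p_ge
  have t1 : Tendsto (fun z : ℕ => Real.log (z : ℝ)) atTop atTop :=
    Real.tendsto_log_atTop.comp tendsto_natCast_atTop_atTop
  have t2 : Tendsto (fun z : ℕ => Real.log (z : ℝ) ^ ((1 : ℝ) / 5)) atTop atTop :=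
    (tendsto_rpow_atTop (by norm_num)).comp t1
  have t3 : Tendsto (fun u : ℝ => u ^ (5 * ((k : ℝ) + 1)) * Real.exp (-1 * u)) atTop (nhds 0) :=
    tendsto_rpow_mul_exp_neg_mul_atTop_nhds_zero _ _ one_pos
  have t4 := t3.comp t2
  have hpos : 0 < e * c ^ k / 4 := by positivity
  have e1 := t4.eventually (gt_mem_nhds hpos)
  filter_upwards [hV, VP_ge_pow k, e1, t1.eventually_ge_atTop 2, eventually_ge_atTop 4]
    with z h1 h2 h3 h4 h5 p1 hp1 h hh
  have hl0 : 0 < Real.log (z : ℝ) := by linarith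
  have hWpos : (0 : ℝ) < Wp z p1 := by exact_mod_cast Wp_pos z p1
  have hWle : (Wp z p1 : ℝ) ≤ 2 * Real.log z := by
    have h6 := Wp_le h5 p1
    have h7 : Real.log z / Real.log 2 ≤ (2 * Real.log z) ^ 2 := by
      have := Real.log_two_gt_d9
      rw [div_le_iff₀ (by linarith)]
      nlinarith
    exact le_of_sq_le_sq (h6.trans h7) (by positivity)
  have hVP : (c / Real.log z) ^ k / 2 ≤ VP (P0 z p1) h := by
    refine le_trans ?_ (h2 p1 hp1 h hh.le)
    rw [hh]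
    have := pow_le_pow_left₀ (by positivity) (h1 p1 hp1) k
    linarith
  have hmain : Real.exp (-Real.log z ^ ((1 : ℝ) / 5)) ≤ e * (VP (P0 z p1) h / Wp z p1) := by
    have h8 : (c / Real.log z) ^ k / 2 / (2 * Real.log z) ≤ VP (P0 z p1) h / Wp z p1 := by
      apply div_le_div₀ ((by positivity : (0 : ℝ) ≤ (c / Real.log z) ^ k / 2).trans hVP) hVP hWpos hWle
    have h9 : (Real.log (z : ℝ) ^ ((1 : ℝ) / 5)) ^ (5 * ((k : ℝ) + 1)) = Real.log z ^ (k + 1) := by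
      rw [← Real.rpow_mul hl0.le, ← Real.rpow_natCast]
      congr 1
      push_cast
      ring
    have h10 : Real.log z ^ (k + 1) * Real.exp (-Real.log z ^ ((1 : ℝ) / 5)) < e * c ^ k / 4 := by
      have := h3
      simp only [Function.comp, neg_mul, one_mul] at this
      rwa [h9] at this
    have h11 : e * ((c / Real.log z) ^ k / 2 / (2 * Real.log z)) = e * c ^ k / 4 / Real.log z ^ (k + 1) := by
      rw [div_pow, pow_succ]
      field_simp
      ring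
    have h12 : Real.exp (-Real.log z ^ ((1 : ℝ) / 5)) ≤ e * c ^ k / 4 / Real.log z ^ (k + 1) := by
      rw [le_div_iff₀ (by positivity)]
      linarith
    rw [← h11] at h12
    exact h12.trans (mul_le_mul_of_nonneg_left h8 he.le)
  refine ⟨le_trans ?_ hmain, hmain⟩
  have hz0 : (0 : ℝ) < z := by
    have : 0 < z := by omega
    exact_mod_cast this
  have h13 : 1 / (z : ℝ) = Real.exp (-Real.log z) := by
    rw [Real.exp_neg, Real.exp_log hz0, one_div]
  rw [h13]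
  apply Real.exp_le_exp.2
  have h14 : Real.log (z : ℝ) ^ ((1 : ℝ) / 5) ≤ Real.log z ^ (1 : ℝ) :=
    Real.rpow_le_rpow_of_exponent_le (by linarith) (by norm_num)
  rw [Real.rpow_one] at h14
  linarith

theorem sideU (C Cq a D I q0 : ℕ) (c : ℝ) (hp : ParW C Cq a D I q0 c) :
    ∀ᶠ z : ℕ in atTop, ∀ p1 : ℕ, p1.Prime → ∀ (c0 : ℕ) (h : Finset ℕ), h.card = a ^ I →
      (∀ x ∈ h, (x : ℝ) ≤ Real.log z ^ 2) →
      ∑ n ∈ clsU (qW D a I q0 * Real.log z) (Wp z p1) c0, omU (qW D a I q0 * Real.log z) n *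
          (rhoP (P0 z p1) h n * PhW z p1 q0 a I (2 * LL D a I q0) h n ^ 2) ≤
        VP (P0 z p1) h / Wp z p1 * (3 * G2s (PL z (q0 * a ^ I) p1) z q0 a I ^ a ^ I) := by
  have ha : 2 ≤ a := hp.sums.1
  have hk : 1 ≤ a ^ I := Nat.one_le_pow _ _ (by omega)
  have hk1 : 1 ≤ q0 * a ^ I := Nat.one_le_iff_ne_zero.2 (by
    have := hp.hq0
    positivity)
  set L := LL D a I q0 with hL
  have hL1 : 1 ≤ L := by
    rw [hL]; unfold LL
    have h1 := hp.hD1
    have h2 := hp.hq0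
    exact Nat.one_le_iff_ne_zero.2 (by positivity)
  have hq := hp.qf (a ^ I) (q0 * a ^ I) (2 * L) (2 * L) (1 / 64) hk hk1 (even_two_mul _) (by norm_num) hp.eps1
  have t1 : Tendsto (fun z : ℕ => Real.log (z : ℝ)) atTop atTop :=
    Real.tendsto_log_atTop.comp tendsto_natCast_atTop_atTop
  have e1 : ∀ᶠ z : ℕ in atTop, Real.log (z : ℝ) ^ 2 ≤ z := by
    have h1 : ∀ᶠ x : ℝ in atTop, ‖Real.log x ^ 2‖ ≤ 1 * ‖id x‖ :=
      (Real.isLittleO_pow_log_id_atTop (n := 2)).bound one_pos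
    filter_upwards [tendsto_natCast_atTop_atTop.eventually h1] with z h2
    simp only [id, one_mul, Real.norm_eq_abs] at h2
    rwa [abs_of_nonneg (sq_nonneg _), abs_of_nonneg (Nat.cast_nonneg z)] at h2
  filter_upwards [hq, remA_avgU (q0 * a ^ I) (2 * (a ^ I + 1) ^ 2) hk1, VPW_ge (a ^ I) 1 one_pos,
    wf_tendsto.eventually_ge_atTop (4 * a ^ I + 4), e1, eventually_ge_atTop 6]
    with z h1 h2 h3 h4 h5 h6 p1 hp1 c0 h hh hpos
  have hz0 : (0 : ℝ) < z := by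
    have : 0 < z := by omega
    exact_mod_cast this
  set x : ℝ := qW D a I q0 * Real.log z with hx
  set A := avgU x (Wp z p1) c0 (Wp_pos z p1) with hA
  have hcard : Fintype.card h ≤ a ^ I := by rw [Fintype.card_coe]; exact hh.le
  have hmain := h1 p1 A (smallOK_avgU z p1 (a ^ I) h4 x c0) h (Subtype.val) univ h
    (yM (PL z (q0 * a ^ I) p1) z q0 a I (2 * L))
    (locOK_avgU z p1 (q0 * a ^ I) (by omega) x c0 _ _
      (fun i _ => by
        have := (hpos i i.2).trans h5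
        exact_mod_cast this)
      (fun i _ j _ hij hval => hij (Subtype.ext hval)))
    hcard hh.le (fun β => yM_abs_le _ (by omega) _ β) (fun β hβ => yM_supp _ hβ)
  have hPL : ∀ p ∈ PL z (q0 * a ^ I) p1, p.Prime := fun p hp => (mem_PL.1 hp).2.1
  have hP0 : ∀ p ∈ P0 z p1, p.Prime := fun p hp => (mem_P0.1 hp).2.1
  have hVA : VA A (P0 z p1) h = VP (P0 z p1) h := VA_avgU x _ c0 _ _ hP0 h
  have hX : A.X = 1 / (Wp z p1 : ℝ) := rfl
  have hDD := DD_yM_le (ι := h) (PL z (q0 * a ^ I) p1) hPL z q0 a I (2 * L)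
  rw [Fintype.card_coe, hh] at hDD
  set G := G2s (PL z (q0 * a ^ I) p1) z q0 a I ^ a ^ I with hG
  have hG1 : 1 ≤ G := one_le_pow₀ (one_le_G2s _ hPL (by omega))
  have hrem : RemA A.Er (P0 z p1 ∪ PL z (q0 * a ^ I) p1) (2 * (a ^ I + 1) ^ 2)
      (z ^ (2 * (2 * L) + 2 * (2 * L) + 6)) ≤ 1 / z := by
    refine (h2 p1 hp1 x c0 _).trans ?_
    have h7 : Real.exp (-x) = ((z : ℝ) ^ qW D a I q0)⁻¹ := by
      rw [Real.exp_neg, hx, ← Real.log_pow, Real.exp_log (by positivity)]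
    rw [h7]
    have h8 : (qW D a I q0) = (2 * (2 * L) + 2 * (2 * L) + 6) + 3 + (qW D a I q0 - (8 * L + 9)) := by
      have : qW D a I q0 = 360 * L := rfl
      omega
    have h9 : (1 : ℝ) ≤ (z : ℝ) ^ (qW D a I q0 - (8 * L + 9)) :=
      one_le_pow₀ (by exact_mod_cast (by omega : 1 ≤ z))
    rw [h8, pow_add, pow_add]
    push_cast
    rw [show 6 * (((z : ℝ) ^ (2 * (2 * L) + 2 * (2 * L) + 6) * (z : ℝ) ^ 3 *
      (z : ℝ) ^ (qW D a I q0 - (8 * L + 9)))⁻¹) * ((z : ℝ) ^ (2 * (2 * L) + 2 * (2 * L) + 6) * z) =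
      6 / (z : ℝ) * (1 / z) * (1 / (z : ℝ) ^ (qW D a I q0 - (8 * L + 9))) by field_simp]
    have h10 : 6 / (z : ℝ) ≤ 1 := by
      rw [div_le_one hz0]
      exact_mod_cast h6
    have h11 : 1 / (z : ℝ) ^ (qW D a I q0 - (8 * L + 9)) ≤ 1 := by
      rw [div_le_one (by positivity)]
      exact h9
    calc 6 / (z : ℝ) * (1 / z) * (1 / (z : ℝ) ^ (qW D a I q0 - (8 * L + 9))) ≤
        1 * (1 / z) * 1 := by gcongr
      _ = 1 / z := by ring
  have hV0 : 0 ≤ VP (P0 z p1) h / Wp z p1 := div_nonneg (VP_nonneg _ hP0 h) (Nat.cast_nonneg _)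
  have h12 := (h3 p1 hp1 h hh).1
  rw [one_mul] at h12
  rw [hVA, hX] at hmain
  have h13 := (abs_le.1 hmain).2
  have h14 : 1 / (Wp z p1 : ℝ) * VP (P0 z p1) h = VP (P0 z p1) h / Wp z p1 := by ring
  rw [h14] at h13
  set VW := VP (P0 z p1) h / Wp z p1 with hVW
  have h15 : VW * DD (PL z (q0 * a ^ I) p1) (yM (PL z (q0 * a ^ I) p1) z q0 a I (2 * L) :
      (PL z (q0 * a ^ I) p1 → Option h) → ℝ) ≤ VW * G := mul_le_mul_of_nonneg_left hDD hV0
  have h16 : VW * (1 / 64 + eps0 Cq (2 * a ^ I) (2 * L) *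
      ((Cq * (q0 * a ^ I) : ℕ) : ℝ) ^ (Cq * (a ^ I + 1) ^ 2)) ≤ VW * (1 / 64 + 1 / 64) :=
    mul_le_mul_of_nonneg_left (by linarith [hp.eps2]) hV0
  have h17 : VW * 1 ≤ VW * G := mul_le_mul_of_nonneg_left hG1 hV0
  have h18 : ∑ n ∈ clsU x (Wp z p1) c0, omU x n *
      (rhoP (P0 z p1) h n * PhW z p1 q0 a I (2 * L) h n ^ 2) =
      ∑ n ∈ A.s, A.om n * (rhoP (P0 z p1) h n * PhiF (PL z (q0 * a ^ I) p1) (Subtype.val : h → ℕ)
        (yM (PL z (q0 * a ^ I) p1) z q0 a I (2 * L)) n ^ 2) := rfl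
  rw [h18]
  nlinarith [h13, h15, h16, h17, hrem, h12, hV0]

end Pool.Agent.LibPL63
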