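import Pool.Agent.LibPL63.W1
import Pool.Agent.LibPL63.M5
import Pool.Agent.LibPL63.M6

/-!
Row W2 (prime side): the lower bound for the second moment of `Φ` over the `n` with `n + i0` prime.
-/

open Finset Filter

namespace Pool.Agent.LibPL63

open Pool.Agent.LibRG87 Pool.Agent.LibLG5

theorem W2_PhiF_div {ι : Type} [Fintype ι] [DecidableEq ι] (P : Finset ℕ) (b : ι → ℕ)
    (y : (P → Option ι) → ℝ) (G : ℝ) (n : ℕ) :
    PhiF P b (fun β => y β / G) n = PhiF P b y n / G := by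
  unfold PhiF
  rw [Finset.sum_div]
  exact Finset.sum_congr rfl fun β _ => by ring

theorem W2_DD_div {ι : Type} [Fintype ι] [DecidableEq ι] (P : Finset ℕ)
    (y : (P → Option ι) → ℝ) (G : ℝ) :
    DD P (fun β => y β / G) = DD P y / G ^ 2 := by
  unfold DD
  rw [Finset.sum_div]
  exact Finset.sum_congr rfl fun β _ => by rw [div_pow]; ring

theorem W2_exp : ∀ᶠ z : ℕ in atTop, ∀ q : ℝ, 360 ≤ q → ∀ M : ℝ, M ≤ 2 * q →
    Real.exp (-(q * Real.log z) ^ ((1 : ℝ) / 4)) +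
      Real.exp (-((q * Real.log z) ^ 2 / 16)) * Real.exp (M * Real.log z) ≤
    Real.exp (-Real.log z ^ ((1 : ℝ) / 5)) := by
  have t1 : Tendsto (fun z : ℕ => Real.log (z : ℝ)) atTop atTop :=
    Real.tendsto_log_atTop.comp tendsto_natCast_atTop_atTop
  filter_upwards [t1.eventually_ge_atTop (2 ^ 20)] with z hz q hq M hM
  set l := Real.log (z : ℝ) with hl
  have hl1 : (1 : ℝ) ≤ l := le_trans (by norm_num) hz
  have hl0 : 0 < l := by linarith
  set u := l ^ ((1 : ℝ) / 20) with hu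
  have hu2 : 2 ≤ u := by
    have h1 : ((2 : ℝ) ^ (20 : ℕ)) ^ ((1 : ℝ) / 20) ≤ l ^ ((1 : ℝ) / 20) :=
      Real.rpow_le_rpow (by norm_num) hz (by norm_num)
    rw [← Real.rpow_natCast, ← Real.rpow_mul (by norm_num)] at h1
    norm_num at h1
    exact h1
  have h4 : l ^ ((1 : ℝ) / 5) = u ^ 4 := by
    rw [hu, ← Real.rpow_natCast, ← Real.rpow_mul hl0.le]
    norm_num
  have h5 : l ^ ((1 : ℝ) / 4) = u ^ 5 := by
    rw [hu, ← Real.rpow_natCast, ← Real.rpow_mul hl0.le]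
    norm_num
  have h6 : u ^ 4 + 1 ≤ u ^ 5 := by
    have : 1 ≤ u ^ 4 := one_le_pow₀ (by linarith)
    nlinarith
  have h7 : Real.exp (-(q * l) ^ ((1 : ℝ) / 4)) ≤ Real.exp (-(u ^ 5)) := by
    apply Real.exp_le_exp.2
    rw [← h5, neg_le_neg_iff]
    exact Real.rpow_le_rpow hl0.le (by nlinarith) (by norm_num)
  have h8 : Real.exp (-((q * l) ^ 2 / 16)) * Real.exp (M * l) ≤ Real.exp (-(u ^ 5)) := by
    rw [← Real.exp_add]
    apply Real.exp_le_exp.2
    have h9 : u ^ 5 ≤ l := by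
      rw [← h5]
      have := Real.rpow_le_rpow_of_exponent_le hl1 (by norm_num : (1 : ℝ) / 4 ≤ 1)
      rwa [Real.rpow_one] at this
    have h10 : M * l ≤ 2 * q * l := mul_le_mul_of_nonneg_right hM hl0.le
    have h11 : (q * l) ^ 2 ≥ 360 * (q * l) := by
      have : 360 ≤ q * l := by nlinarith
      nlinarith
    nlinarith
  have h12 : 2 * Real.exp (-(u ^ 5)) ≤ Real.exp (-(u ^ 4)) := by
    have h13 : Real.exp (-(u ^ 5)) * Real.exp 1 ≤ Real.exp (-(u ^ 4)) := by
      rw [← Real.exp_add]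
      apply Real.exp_le_exp.2
      linarith
    have h14 := Real.exp_one_gt_d9
    have h15 := Real.exp_pos (-(u ^ 5))
    nlinarith
  rw [h4]
  linarith

theorem sideP (C Cq a D I q0 : ℕ) (c : ℝ) (hp : ParW C Cq a D I q0 c) :
    ∀ᶠ z : ℕ in atTop, ∀ p1 : ℕ, p1.Prime → ∀ Dv : BVdata (qW D a I q0 * Real.log z) p1,
      ∑ r ∈ (Icc 1 ⌊Real.exp ((qW D a I q0 * Real.log z) / 24)⌋₊).filter
          (fun r => Squarefree r ∧ ¬ p1 ∣ r),
        ((2 * (a ^ I + 1) ^ 2 : ℕ) : ℝ) ^ r.primeFactors.card * Dv.er r ≤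
          Real.exp (-(qW D a I q0 * Real.log z) ^ ((1 : ℝ) / 4)) →
      ∀ (c0 : ℕ) (h : Finset ℕ), h.card = a ^ I →
      (∀ x ∈ h, (x : ℝ) ≤ Real.log z ^ 2 ∧ (c0 + x).Coprime (Wp z p1)) → ∀ i0 ∈ h,
      VP (P0 z p1) h / Wp z p1 * (G1s (PL z (q0 * a ^ I) p1) z q0 a I ^ 2 *
          G2s (PL z (q0 * a ^ I) p1) z q0 a I ^ (a ^ I - 1) / (250 * qW D a I q0)) ≤
        ∑ n ∈ (clsU (qW D a I q0 * Real.log z) (Wp z p1) c0).filter (fun n => (n + i0).Prime),
          omU (qW D a I q0 * Real.log z) n *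
            (rhoP (P0 z p1) h n * PhW z p1 q0 a I (2 * LL D a I q0) h n ^ 2) := by
  have ha : 2 ≤ a := hp.sums.1
  have hk : 1 ≤ a ^ I := Nat.one_le_pow _ _ (by omega)
  have hk1 : 1 ≤ q0 * a ^ I := Nat.one_le_iff_ne_zero.2 (by
    have := hp.hq0
    positivity)
  set L := LL D a I q0 with hL
  have hLk : q0 * a ^ I ≤ L := by
    rw [hL]; unfold LL
    have h1 := hp.hD1
    calc q0 * a ^ I = 1 * a ^ I * 1 * q0 := by ring
      _ ≤ D * a ^ I * (I + 1) * q0 := by gcongr; omega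
  have hL1 : 1 ≤ L := hk1.trans hLk
  have hqW : qW D a I q0 = 360 * L := rfl
  set Q : ℝ := (qW D a I q0 : ℝ) with hQ
  have hQL : Q = 360 * L := by rw [hQ, hqW]; push_cast; ring
  have hLr : (1 : ℝ) ≤ L := by exact_mod_cast hL1
  have hQ360 : 360 ≤ Q := by rw [hQL]; linarith
  have hq := hp.qf (a ^ I) (q0 * a ^ I) (2 * L) (2 * L) (1 / 64) hk hk1 (even_two_mul _) (by norm_num) hp.eps1
  have hsum := hp.sums.2.2.2.2 I q0 hp.hI hp.hq0
  have t1 : Tendsto (fun z : ℕ => Real.log (z : ℝ)) atTop atTop :=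
    Real.tendsto_log_atTop.comp tendsto_natCast_atTop_atTop
  have e1 : ∀ᶠ z : ℕ in atTop, Q * Real.log (z : ℝ) * Real.log (z : ℝ) ^ 2 ≤ z := by
    have h1 : ∀ᶠ x : ℝ in atTop, ‖Real.log x ^ 3‖ ≤ (1 / Q) * ‖id x‖ :=
      (Real.isLittleO_pow_log_id_atTop (n := 3)).bound (by positivity)
    filter_upwards [tendsto_natCast_atTop_atTop.eventually h1] with z h2
    simp only [id, Real.norm_eq_abs] at h2
    rw [abs_of_nonneg (Nat.cast_nonneg z : (0 : ℝ) ≤ (z : ℝ))] at h2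
    have h3 := (le_abs_self _).trans h2
    have hQ0 : 0 < Q := by linarith
    calc Q * Real.log (z : ℝ) * Real.log (z : ℝ) ^ 2 = Q * Real.log (z : ℝ) ^ 3 := by ring
      _ ≤ Q * (1 / Q * z) := mul_le_mul_of_nonneg_left h3 hQ0.le
      _ = z := by field_simp
  filter_upwards [hq, remA_avgQ (q0 * a ^ I) (2 * (a ^ I + 1) ^ 2) hk1 (Nat.succ_le_of_lt (by positivity)),
    VPW_ge (a ^ I) (1 / (1500 * Q)) (by positivity), wf_tendsto.eventually_ge_atTop (4 * a ^ I + 4),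
    e1, eventually_ge_atTop (4 * (a ^ I) ^ 2 + 2 * L + 6), t1.eventually_ge_atTop 1, W2_exp, hsum,
    mert_upper]
    with z h1 h2 h3 h4 h5 h6 h7 h8 h9 h10
  set x : ℝ := Q * Real.log z with hx
  intro p1 hp1 Dv hDv c0 h hh hpos i0 hi0
  have hzN : 6 ≤ z := by omega
  have hz0 : (0 : ℝ) < z := by
    have : 0 < z := by omega
    exact_mod_cast this
  have hz1 : (1 : ℝ) ≤ z := by exact_mod_cast (by omega : 1 ≤ z)
  have hlz : 0 < Real.log (z : ℝ) := by linarith
  have hx1 : 1 ≤ x := by nlinarith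
  have hx0 : 0 < x := by linarith
  have hcop : (c0 + i0).Coprime (Wp z p1) := (hpos i0 hi0).2
  set lo : ℕ := z ^ (q0 * a ^ I) with hlo
  set A := avgQ x p1 Dv (Wp z p1) c0 i0 lo (Wp_pos z p1) hcop with hA
  set P := PL z (q0 * a ^ I) p1 with hPdef
  have hPL : ∀ p ∈ P, p.Prime := fun p hp => (mem_PL.1 hp).2.1
  have hP0 : ∀ p ∈ P0 z p1, p.Prime := fun p hp => (mem_P0.1 hp).2.1
  have hWpos : (0 : ℝ) < Wp z p1 := by exact_mod_cast Wp_pos z p1
  have hposz : ∀ y ∈ h, (y : ℝ) ≤ z := fun y hy => by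
    have h11 := (hpos y hy).1
    have h12 : Real.log (z : ℝ) ^ 2 ≤ Q * Real.log (z : ℝ) * Real.log (z : ℝ) ^ 2 := by
      have h13 : 1 ≤ Q * Real.log (z : ℝ) := by nlinarith
      exact le_mul_of_one_le_left (by positivity) h13
    linarith
  -- the prime part
  set F : ℕ → ℝ := fun n => rhoP (P0 z p1) h n * PhW z p1 q0 a I (2 * L) h n ^ 2 with hF
  have hF0 : ∀ n, 0 ≤ F n := fun n => mul_nonneg (rhoP_nonneg _ _ _).1 (sq_nonneg _)
  have hxlo : x * i0 ≤ (lo : ℕ) := by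
    have h11 := (hpos i0 hi0).1
    have h12 : (z : ℝ) ≤ (lo : ℕ) := by
      rw [hlo]
      exact_mod_cast Nat.le_self_pow (by omega) z
    have h13 : x * i0 ≤ Q * Real.log (z : ℝ) * Real.log (z : ℝ) ^ 2 :=
      mul_le_mul_of_nonneg_left h11 hx0.le
    linarith
  have hpart := prime_part_ge hx1 p1 Dv (Wp z p1) c0 i0 lo (Wp_pos z p1) hcop hxlo F hF0
  have hfilt : ∑ n ∈ clsU x (Wp z p1) c0, omU x n * (F n * if (n + i0).Prime then 1 else 0) =
      ∑ n ∈ (clsU x (Wp z p1) c0).filter (fun n => (n + i0).Prime), omU x n * F n := by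
    rw [Finset.sum_filter]
    refine Finset.sum_congr rfl fun n _ => ?_
    split_ifs <;> simp
  rw [hfilt] at hpart
  -- collapse
  set iz : h := ⟨i0, hi0⟩ with hiz
  set G1 := G1s P z q0 a I with hG1
  set G2 := G2s P z q0 a I with hG2
  have hG11 : 1 ≤ G1 := one_le_G1s _ hPL (by omega)
  have hG21 : 1 ≤ G2 := one_le_G2s _ hPL (by omega)
  set yc : (P → Option h) → ℝ := yC P z q0 a I (2 * L) iz with hyc
  have hcoll : ∑ n ∈ A.s, A.om n * F n =
      ∑ n ∈ A.s, A.om n * (rhoP (P0 z p1) h n * PhiF P (Subtype.val : h → ℕ) yc n ^ 2) := by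
    refine Finset.sum_congr rfl fun n hn => ?_
    by_cases hprime : (n + i0).Prime
    · have hnlo : lo < n := by
        have hn' : n ∈ (clsU x (Wp z p1) c0).filter (fun n => lo < n) := hn
        exact (Finset.mem_filter.1 hn').2
      have hnd : ∀ p ∈ P, ¬ p ∣ n + (Subtype.val : h → ℕ) iz := by
        intro p hp' hd
        have h11 : p = n + i0 := (Nat.prime_dvd_prime_iff_eq (hPL p hp') hprime).1 hd
        have h12 : p ≤ z ^ (q0 * a ^ I) := (mem_PL.1 hp').2.2.2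
        omega
      have h13 := collapseM P hPL (by omega : 1 ≤ z) q0 a I (2 * L) (Subtype.val : h → ℕ) iz n hnd
      rw [hF]
      simp only
      unfold PhW
      rw [h13]
    · have h14 : A.om n = 0 := by
        change wp x (n + i0) = 0
        unfold wp
        rw [if_neg hprime]
      rw [h14, zero_mul, zero_mul]
  -- the quadratic form
  have hcard : Fintype.card h ≤ a ^ I := by rw [Fintype.card_coe]; exact hh.le
  have hmain := h1 p1 A (smallOK_avgQ z p1 (a ^ I) h4 x Dv c0 i0 lo hcop) h (Subtype.val)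
    (univ.erase iz) h (fun β => yc β / G1)
    (locOK_avgQ z p1 (q0 * a ^ I) (by omega) x Dv c0 i0 lo hcop _ _
      (fun i _ => by exact_mod_cast hposz i i.2) (by exact_mod_cast hposz i0 hi0)
      (fun i _ j _ hij hval => hij (Subtype.ext hval))
      (fun i hi hval => (Finset.mem_erase.1 hi).1 (Subtype.ext hval)))
    hcard hh.le
    (fun β => by
      rw [abs_div, abs_of_pos (by linarith : 0 < G1), div_le_one (by linarith)]
      exact yC_abs_le P hPL (by omega) _ iz β)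
    (fun β hβ => yC_supp P hPL (fun h0 => hβ (by
      show yc β / G1 = 0
      rw [hyc, h0, zero_div])))
  rw [W2_DD_div] at hmain
  have hPhi : ∑ n ∈ A.s, A.om n * (rhoP (P0 z p1) h n *
      PhiF P (Subtype.val : h → ℕ) (fun β => yc β / G1) n ^ 2) =
      (∑ n ∈ A.s, A.om n * F n) / G1 ^ 2 := by
    rw [hcoll, Finset.sum_div]
    refine Finset.sum_congr rfl fun n _ => ?_
    rw [W2_PhiF_div, div_pow]
    ring
  rw [hPhi] at hmain
  set R := RemA A.Er (P0 z p1 ∪ P) (2 * (a ^ I + 1) ^ 2) (z ^ (2 * (2 * L) + 2 * (2 * L) + 6)) with hR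
  have hVA : VA A (P0 z p1) h = VP (P0 z p1) h / V1p (P0 z p1) := by
    rw [hA, VA_avgQ x p1 Dv _ c0 i0 lo _ hcop _ hP0 h, Finset.insert_eq_of_mem hi0]
  have hX : A.X = Dv.M / ((Wp z p1).totient : ℝ) := rfl
  -- the remainder
  have hRle : R ≤ Real.exp (-Real.log z ^ ((1 : ℝ) / 5)) := by
    have hzp : ∀ e : ℕ, (z : ℝ) ^ e = Real.exp (e * Real.log z) := fun e => by
      rw [Real.exp_nat_mul, Real.exp_log hz0]
    have hc1 : ((Wp z p1 * z ^ (2 * (2 * L) + 2 * (2 * L) + 6) : ℕ) : ℝ) ≤ Real.exp (x / 24) := by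
      have h11 : (Wp z p1 : ℝ) ≤ z := by exact_mod_cast Wp_le_self (by omega : 4 ≤ z) p1
      push_cast
      calc (Wp z p1 : ℝ) * (z : ℝ) ^ (2 * (2 * L) + 2 * (2 * L) + 6) ≤
          z * (z : ℝ) ^ (2 * (2 * L) + 2 * (2 * L) + 6) := by gcongr
        _ = (z : ℝ) ^ (2 * (2 * L) + 2 * (2 * L) + 6 + 1) := by ring
        _ ≤ Real.exp (x / 24) := by
          rw [hzp]
          apply Real.exp_le_exp.2
          rw [hx, hQL]
          push_cast
          nlinarith
    have hc2 : ((lo + i0 : ℕ) : ℝ) ≤ Real.exp (x / 2) := by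
      push_cast
      have h11 : (i0 : ℝ) ≤ z := hposz i0 hi0
      have h12 : (lo : ℝ) ≤ (z : ℝ) ^ L := by
        rw [hlo]; push_cast
        exact pow_le_pow_right₀ hz1 hLk
      have h13 : (z : ℝ) ≤ (z : ℝ) ^ L := le_self_pow₀ hz1 (by omega)
      have h14 : (z : ℝ) ^ L + (z : ℝ) ^ L ≤ (z : ℝ) ^ (L + 1) := by
        rw [pow_succ]
        have h15 : (2 : ℝ) ≤ z := by exact_mod_cast (by omega : 2 ≤ z)
        have h16 : 0 < (z : ℝ) ^ L := by positivity
        nlinarith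
      calc (lo : ℝ) + i0 ≤ (z : ℝ) ^ (L + 1) := by linarith
        _ ≤ Real.exp (x / 2) := by
          rw [hzp]
          apply Real.exp_le_exp.2
          rw [hx, hQL]
          push_cast
          nlinarith
    have h11 := h2 p1 hp1 x (Real.exp (-x ^ ((1 : ℝ) / 4))) (by nlinarith) Dv hDv c0 i0 lo
      (z ^ (2 * (2 * L) + 2 * (2 * L) + 6)) hcop hc1 hc2
    refine h11.trans ?_
    have h12 := h8 Q hQ360 (8 * L + 7 : ℝ) (by rw [hQL]; nlinarith)
    have h13 : ((z ^ (2 * (2 * L) + 2 * (2 * L) + 6) : ℕ) : ℝ) * z =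
        Real.exp ((8 * L + 7 : ℝ) * Real.log z) := by
      push_cast
      rw [← pow_succ, hzp]
      congr 1
      push_cast
      ring
    rw [h13]
    exact h12
  have hRVP := hRle.trans (h3 p1 hp1 h hh).2
  -- the diagonal
  obtain ⟨hs1, hs2, hs3, hs4, hs5⟩ := h9 p1
  have hDD : G1 ^ 2 * G2 ^ (a ^ I - 1) / 8 ≤ DD P yc := by
    have h11 := DD_yC_ge (P := P) (ι := h) z q0 a I L (fun p hp' => ⟨(mem_PL.1 hp').2.1, (mem_PL.1 hp').2.2.1⟩)
      (by omega) iz hLk hL1 (by rw [Fintype.card_coe, hh]; omega) (by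
        rw [Fintype.card_coe, hh]
        have hLL : (L : ℝ) = D * (a ^ I : ℕ) * (I + 1) * q0 := by
          rw [hL]; unfold LL; push_cast; ring
        have h12 : 8 * ((a ^ I : ℕ) : ℝ) * L2s P z q0 a I ≤
            8 * ((a ^ I : ℕ) : ℝ) * (C * (I + 1) * q0 ^ 2 * Real.log z) :=
          mul_le_mul_of_nonneg_left hs5 (by positivity)
        have h13 : (c * q0) * (2 * (L : ℝ)) * Real.log z ≤ G2s P z q0 a I * (2 * (L : ℝ)) * Real.log z := by
          gcongr
        refine h12.trans (le_trans ?_ h13)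
        rw [hLL]
        have h14 : 4 * (C : ℝ) ≤ c * D := hp.hD
        have h15 : 0 ≤ ((a ^ I : ℕ) : ℝ) * (I + 1) * q0 ^ 2 * Real.log z * 2 := by positivity
        calc 8 * ((a ^ I : ℕ) : ℝ) * (C * (I + 1) * q0 ^ 2 * Real.log z) =
            (4 * C) * (((a ^ I : ℕ) : ℝ) * (I + 1) * q0 ^ 2 * Real.log z * 2) := by ring
          _ ≤ (c * D) * (((a ^ I : ℕ) : ℝ) * (I + 1) * q0 ^ 2 * Real.log z * 2) :=
            mul_le_mul_of_nonneg_right h14 h15
          _ = _ := by ring)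
    rw [Fintype.card_coe, hh] at h11
    exact h11
  -- assembly
  have hV1 : 0 < V1p (P0 z p1) := V1p_pos _ hP0
  have hVP0 : 0 ≤ VP (P0 z p1) h := VP_nonneg _ hP0 h
  have hφ : (0 : ℝ) < ((Wp z p1).totient : ℝ) := by
    exact_mod_cast Nat.totient_pos.2 (Wp_pos z p1)
  have hmu := h10 p1 hp1
  have hM := Dv.M_ge
  set VW := VP (P0 z p1) h / Wp z p1 with hVW
  have hVW0 : 0 ≤ VW := div_nonneg hVP0 hWpos.le
  have hXV : 9 / 20 * Real.log z * VW ≤ A.X * VA A (P0 z p1) h := by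
    rw [hX, hVA, hVW]
    have h11 : ((Wp z p1).totient : ℝ) * V1p (P0 z p1) ≤ 2 / Real.log z * Wp z p1 := by
      have h12 : ((Wp z p1).totient : ℝ) / (Wp z p1 : ℝ) * V1p (P0 z p1) * Wp z p1 =
          ((Wp z p1).totient : ℝ) * V1p (P0 z p1) := by field_simp
      rw [← h12]
      exact mul_le_mul_of_nonneg_right hmu hWpos.le
    rw [show Dv.M / ((Wp z p1).totient : ℝ) * (VP (P0 z p1) h / V1p (P0 z p1)) =
      Dv.M * VP (P0 z p1) h / (((Wp z p1).totient : ℝ) * V1p (P0 z p1)) by field_simp]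
    rw [le_div_iff₀ (by positivity)]
    have h13 : 9 / 20 * Real.log z * (VP (P0 z p1) h / Wp z p1) *
        (((Wp z p1).totient : ℝ) * V1p (P0 z p1)) ≤
        9 / 20 * Real.log z * (VP (P0 z p1) h / Wp z p1) * (2 / Real.log z * Wp z p1) :=
      mul_le_mul_of_nonneg_left h11 (by positivity)
    have h14 : 9 / 20 * Real.log z * (VP (P0 z p1) h / Wp z p1) * (2 / Real.log z * Wp z p1) =
        9 / 10 * VP (P0 z p1) h := by
      field_simp
      ring
    rw [h14] at h13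
    refine h13.trans ?_
    gcongr
  set XV := A.X * VA A (P0 z p1) h with hXVd
  have hXV0 : 0 ≤ XV := le_trans (by positivity) hXV
  have hlow := (abs_le.1 hmain).1
  have heps : XV * (1 / 64 + eps0 Cq (2 * a ^ I) (2 * L) *
      ((Cq * (q0 * a ^ I) : ℕ) : ℝ) ^ (Cq * (a ^ I + 1) ^ 2)) ≤ XV * (1 / 64 + 1 / 64) :=
    mul_le_mul_of_nonneg_left (by linarith [hp.eps2]) hXV0
  have hG1sq : 0 < G1 ^ 2 := by positivity
  have hS : XV * (DD P yc - G1 ^ 2 / 32) - G1 ^ 2 * R ≤ ∑ n ∈ A.s, A.om n * F n := by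
    have h11 : XV * (DD P yc / G1 ^ 2) - XV * (1 / 64 + 1 / 64) - R ≤
        (∑ n ∈ A.s, A.om n * F n) / G1 ^ 2 := by linarith
    rw [le_div_iff₀ hG1sq] at h11
    have h12 : (XV * (DD P yc / G1 ^ 2) - XV * (1 / 64 + 1 / 64) - R) * G1 ^ 2 =
        XV * (DD P yc - G1 ^ 2 / 32) - G1 ^ 2 * R := by
      field_simp
      ring
    linarith
  set E := G1 ^ 2 * G2 ^ (a ^ I - 1) with hE
  have hGE : G1 ^ 2 ≤ E := by
    rw [hE]
    exact le_mul_of_one_le_right hG1sq.le (one_le_pow₀ hG21)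
  have hE0 : 0 < E := lt_of_lt_of_le hG1sq hGE
  have hS2 : XV * (3 / 32 * E) - E * R ≤ ∑ n ∈ A.s, A.om n * F n := by
    refine le_trans ?_ hS
    have h11 : XV * (3 / 32 * E) ≤ XV * (DD P yc - G1 ^ 2 / 32) :=
      mul_le_mul_of_nonneg_left (by linarith) hXV0
    have hR0 : 0 ≤ R := by
      rw [hR]; unfold RemA
      exact Finset.sum_nonneg fun T _ => mul_nonneg (by positivity) (A.Er_nonneg _)
    have h12 : G1 ^ 2 * R ≤ E * R := mul_le_mul_of_nonneg_right hGE hR0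
    linarith
  have hfin : VW * (E / (250 * Q)) * (9 * x) ≤ ∑ n ∈ A.s, A.om n * F n := by
    refine le_trans ?_ hS2
    have h11 : 9 / 20 * Real.log z * VW * (3 / 32 * E) ≤ XV * (3 / 32 * E) :=
      mul_le_mul_of_nonneg_right hXV (by positivity)
    have h12 : E * R ≤ E * (1 / (1500 * Q) * VW) := mul_le_mul_of_nonneg_left hRVP hE0.le
    have h13 : VW * (E / (250 * Q)) * (9 * x) = 9 / 250 * (VW * E * Real.log z) := by
      rw [hx]
      field_simp
    have h14 : E * (1 / (1500 * Q) * VW) ≤ 1 / 540000 * (VW * E * Real.log z) := by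
      have h15 : 1 / (1500 * Q) ≤ 1 / 540000 := by
        apply one_div_le_one_div_of_le (by norm_num)
        linarith
      have h16 : VW * E ≤ VW * E * Real.log z := le_mul_of_one_le_right (by positivity) h7
      calc E * (1 / (1500 * Q) * VW) = 1 / (1500 * Q) * (VW * E) := by ring
        _ ≤ 1 / 540000 * (VW * E) := mul_le_mul_of_nonneg_right h15 (by positivity)
        _ ≤ _ := mul_le_mul_of_nonneg_left h16 (by norm_num)
    have h17 : 9 / 20 * Real.log z * VW * (3 / 32 * E) = 27 / 640 * (VW * E * Real.log z) := by ring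
    have h18 : 0 ≤ VW * E * Real.log z := by positivity
    linarith
  have h19 := hfin.trans hpart
  have h20 : 0 < 9 * x := by linarith
  have h21 : VW * (E / (250 * Q)) * (9 * x) ≤ (∑ n ∈ (clsU x (Wp z p1) c0).filter
      (fun n => (n + i0).Prime), omU x n * F n) * (9 * x) := by linarith
  exact le_of_mul_le_mul_right h21 h20

end Pool.Agent.LibPL63
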