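import Pool.Agent.LibPL63.W2
import Pool.Agent.LibPL63.M7
import Pool.Agent.LibPL63.M8

/-!
Row W3 (`MTg m` from Bombieri-Vinogradov). We may take `m ≥ 1` (`MTg 1` gives `MTg 0`: monotone). Constants: `a, C, c` from `sums`, `Cq` from `qfp`, `D ≥ 4C/c`, `I` with
`c² I² ≥ 90000 D (I+1) (3 m C + 1)`, `k = a^I`, then for given `q1` the `q0` of `params` (constants `Cq`, `e = 1/64`), `q = qW ≥ 360 q0 ≥ q1`. `BVprop` with the constant `2 (k+1)²` gives `p1`, `Dv` for large `z`.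
With `w n = om n (rho Φ²) ≥ 0` and `N n` = number of `a ∈ h` with `n + a` prime: `∑ w N = ∑_{i0 ∈ h} ∑_{n, n + i0 prime} w ≥ k (VP/Wp) G1² G2^(k-1)/(250 q)` (`sideP`), `∑ w ≤ 3 (VP/Wp) G2^k` (`sideU`);
`G1 ≥ c I q0`, `G2 ≤ C q0`, `q = 360 D k (I+1) q0`: `∑ w (N - (m-1)) ≥ (VP/Wp) G2^(k-1) q0 (c² I²/(90000 D (I+1)) - 3 m C) ≥ VP/Wp` (`G2 ≥ 1`).
`w (N - (m-1)) ≤ om rho K0² k 1[N ≥ m]`, `K0 = 2^(k (2q+1)) (C0 k1)^k`: `PhiF_le` with `t = 2q + 1` (`n + a ≤ z^(2q) + log² z ≤ z^(2q+1)`, `e^{2x} = z^(2q)`), `∏_{PL} (1 + 1/(p-1)) ≤ ∏_{PP} ≤ C0 k1`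
(`NT_S_upper`). `κ = 1/(k K0²)`.
-/

open Finset Filter

namespace Pool.Agent.LibPL63

open Pool.Agent.LibRG87 Pool.Agent.LibLG5

/-- the bound of the weight -/
private noncomputable def W3_K0 (C0 a D I q0 : ℕ) : ℝ :=
  2 ^ (a ^ I * (2 * qW D a I q0 + 1)) * ((C0 : ℝ) * ((q0 * a ^ I : ℕ) : ℝ)) ^ a ^ I

private theorem W3_ph {C0 a D I q0 : ℕ} (ha : 1 ≤ a) {z p1 c0 : ℕ} (hz : 2 ≤ z)
    (hlog : Real.log z ^ 2 < z)
    (hS : ∏ p ∈ PP z (z ^ (q0 * a ^ I)), (1 + 1 / ((p : ℝ) - 1)) ≤ C0 * ((q0 * a ^ I : ℕ) : ℝ))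
    {h : Finset ℕ} (hk : h.card = a ^ I) (hh : ∀ x ∈ h, (x : ℝ) ≤ Real.log z ^ 2)
    {n : ℕ} (hn : n ∈ clsU (qW D a I q0 * Real.log z) (Wp z p1) c0) :
    PhW z p1 q0 a I (2 * LL D a I q0) h n ^ 2 ≤ W3_K0 C0 a D I q0 ^ 2 := by
  unfold clsU at hn
  rw [Finset.mem_filter, Finset.mem_Icc] at hn
  obtain ⟨⟨hn1, hn2⟩, _⟩ := hn
  have hz2 : (2 : ℝ) ≤ (z : ℝ) := by exact_mod_cast hz
  have hz0 : (0 : ℝ) < (z : ℝ) := by linarith
  have hn3 : (n : ℝ) ≤ (z : ℝ) ^ (2 * qW D a I q0) := by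
    have h1 : (n : ℝ) ≤ Real.exp (2 * (qW D a I q0 * Real.log z)) :=
      (Nat.le_floor_iff (Real.exp_pos _).le).1 hn2
    refine h1.trans (le_of_eq ?_)
    have e : 2 * ((qW D a I q0 : ℝ) * Real.log z) = ((2 * qW D a I q0 : ℕ) : ℝ) * Real.log z := by
      push_cast
      ring
    rw [e, Real.exp_nat_mul, Real.exp_log hz0]
  have hn4 : n ≤ z ^ (2 * qW D a I q0) := by exact_mod_cast hn3
  have hq1 : 1 ≤ 2 * qW D a I q0 ∨ qW D a I q0 = 0 := by omega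
  have hxz : ∀ x ∈ h, x < z := by
    intro x hx
    have := lt_of_le_of_lt (hh x hx) hlog
    exact_mod_cast this
  have hP : ∀ p ∈ PL z (q0 * a ^ I) p1, p.Prime ∧ z < p := fun p hp =>
    ⟨(mem_PL.1 hp).2.1, (mem_PL.1 hp).2.2.1⟩
  have hPhi := PhiF_le (PL z (q0 * a ^ I) p1) z (2 * qW D a I q0 + 1) hz hP (Subtype.val : h → ℕ)
    Subtype.val_injective (fun i => hxz i i.2) (yM (PL z (q0 * a ^ I) p1) z q0 a I (2 * LL D a I q0))
    (fun β => yM_abs_le (PL z (q0 * a ^ I) p1) ha (2 * LL D a I q0) β) n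
    (fun i => by
      refine ⟨by omega, ?_⟩
      have h1 := hxz i i.2
      rcases hq1 with h2 | h2
      · have h3 : z ≤ z ^ (2 * qW D a I q0) := Nat.le_self_pow (by omega) z
        have h4 : z ^ (2 * qW D a I q0 + 1) = z ^ (2 * qW D a I q0) * z := pow_succ _ _
        have h5 : z ^ (2 * qW D a I q0) * 2 ≤ z ^ (2 * qW D a I q0) * z := Nat.mul_le_mul_left _ hz
        omega
      · rw [h2] at hn4 ⊢
        simp only [mul_zero, pow_zero, zero_add, pow_one] at hn4 ⊢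
        omega)
  rw [Fintype.card_coe, hk] at hPhi
  have hprod : ∏ p ∈ PL z (q0 * a ^ I) p1, (1 + 1 / ((p : ℝ) - 1)) ≤
      C0 * ((q0 * a ^ I : ℕ) : ℝ) := by
    refine le_trans ?_ hS
    refine Finset.prod_le_prod_of_subset_of_one_le (Finset.erase_subset _ _) ?_ ?_
    · intro p hp
      have h1 : (1 : ℝ) < (p : ℝ) := by exact_mod_cast (hP p hp).1.one_lt
      have : (0 : ℝ) ≤ 1 / ((p : ℝ) - 1) := div_nonneg zero_le_one (by linarith)
      linarith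
    · intro p hp _
      unfold PP at hp
      rw [Finset.mem_filter] at hp
      have h1 : (1 : ℝ) < (p : ℝ) := by exact_mod_cast hp.2.one_lt
      have : (0 : ℝ) ≤ 1 / ((p : ℝ) - 1) := div_nonneg zero_le_one (by linarith)
      linarith
  have hprod0 : 0 ≤ ∏ p ∈ PL z (q0 * a ^ I) p1, (1 + 1 / ((p : ℝ) - 1)) := by
    refine Finset.prod_nonneg fun p hp => ?_
    have h1 : (1 : ℝ) < (p : ℝ) := by exact_mod_cast (hP p hp).1.one_lt
    have : (0 : ℝ) ≤ 1 / ((p : ℝ) - 1) := div_nonneg zero_le_one (by linarith)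
    linarith
  have hK : |PhW z p1 q0 a I (2 * LL D a I q0) h n| ≤ W3_K0 C0 a D I q0 := by
    refine hPhi.trans ?_
    unfold W3_K0
    exact mul_le_mul_of_nonneg_left (pow_le_pow_left₀ hprod0 hprod _) (by positivity)
  have h1 := pow_le_pow_left₀ (abs_nonneg _) hK 2
  rwa [sq_abs] at h1

private theorem W3_real {V G1 G2 C D k I1 I q0 c m : ℝ} {j : ℕ} (hV : 0 ≤ V) (hG2 : 1 ≤ G2)
    (_hC : 0 ≤ C) (hD : 1 ≤ D) (hk : 1 ≤ k) (hI : 0 ≤ I) (hI1 : I1 = I + 1) (hq0 : 1 ≤ q0)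
    (hc : 0 < c) (hm : 0 ≤ m) (hG1 : c * I * q0 ≤ G1) (hG2' : G2 ≤ C * q0)
    (hbig : 90000 * D * I1 * (3 * m * C + 1) ≤ c ^ 2 * I ^ 2) :
    V ≤ k * (V * (G1 ^ 2 * G2 ^ j / (250 * (360 * (D * k * I1 * q0))))) -
      m * (V * (3 * G2 ^ (j + 1))) := by
  have hI1p : 0 < I1 := by linarith
  have hDp : 0 < D := by linarith
  have hkp : 0 < k := by linarith
  have hqp : 0 < q0 := by linarith
  have hGj : 1 ≤ G2 ^ j := one_le_pow₀ hG2
  have h0 : 0 ≤ c * I * q0 := by positivity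
  have h1 : (c * I * q0) ^ 2 ≤ G1 ^ 2 := pow_le_pow_left₀ h0 hG1 2
  have e1 : k * (G1 ^ 2 * G2 ^ j / (250 * (360 * (D * k * I1 * q0)))) =
      G1 ^ 2 * G2 ^ j / (90000 * D * I1 * q0) := by
    field_simp
    ring
  have h2 : q0 * (3 * m * C + 1) * G2 ^ j ≤ G1 ^ 2 * G2 ^ j / (90000 * D * I1 * q0) := by
    rw [le_div_iff₀ (by positivity)]
    have h3 : 90000 * D * I1 * (3 * m * C + 1) * (q0 ^ 2 * G2 ^ j) ≤
        c ^ 2 * I ^ 2 * (q0 ^ 2 * G2 ^ j) :=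
      mul_le_mul_of_nonneg_right hbig (by positivity)
    have h4 : (c * I * q0) ^ 2 * G2 ^ j ≤ G1 ^ 2 * G2 ^ j :=
      mul_le_mul_of_nonneg_right h1 (by positivity)
    calc q0 * (3 * m * C + 1) * G2 ^ j * (90000 * D * I1 * q0)
        = 90000 * D * I1 * (3 * m * C + 1) * (q0 ^ 2 * G2 ^ j) := by ring
      _ ≤ c ^ 2 * I ^ 2 * (q0 ^ 2 * G2 ^ j) := h3
      _ = (c * I * q0) ^ 2 * G2 ^ j := by ring
      _ ≤ _ := h4
  have h5 : m * (3 * G2 ^ (j + 1)) ≤ q0 * (3 * m * C) * G2 ^ j := by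
    have h6 : G2 ^ j * G2 ≤ G2 ^ j * (C * q0) := mul_le_mul_of_nonneg_left hG2' (by positivity)
    have h7 : m * (3 * (G2 ^ j * G2)) ≤ m * (3 * (G2 ^ j * (C * q0))) :=
      mul_le_mul_of_nonneg_left (mul_le_mul_of_nonneg_left h6 (by norm_num)) hm
    rw [pow_succ]
    refine h7.trans (le_of_eq ?_)
    ring
  have h8 : 1 ≤ q0 * G2 ^ j := by
    calc (1 : ℝ) = 1 * 1 := (one_mul 1).symm
      _ ≤ q0 * G2 ^ j := mul_le_mul hq0 hGj zero_le_one hqp.le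
  have h9 : 1 ≤ k * (G1 ^ 2 * G2 ^ j / (250 * (360 * (D * k * I1 * q0)))) - m * (3 * G2 ^ (j + 1)) := by
    rw [e1]
    have : q0 * (3 * m * C + 1) * G2 ^ j = q0 * (3 * m * C) * G2 ^ j + q0 * G2 ^ j := by ring
    linarith
  have h10 := mul_le_mul_of_nonneg_left h9 hV
  rw [mul_one] at h10
  refine h10.trans (le_of_eq ?_)
  ring

open scoped Classical in
private theorem W3_core {C C0 a D I q0 m : ℕ} {c : ℝ} (ha : 1 ≤ a) (hc : 0 < c)
    (hD1 : 1 ≤ D) (hq0 : 1 ≤ q0) (hC0 : 1 ≤ C0)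
    (hbig : 90000 * (D : ℝ) * ((I : ℝ) + 1) * (3 * m * C + 1) ≤ c ^ 2 * (I : ℝ) ^ 2)
    {z p1 c0 : ℕ} (hz : 2 ≤ z) (hlog : Real.log z ^ 2 < z)
    (hS : ∏ p ∈ PP z (z ^ (q0 * a ^ I)), (1 + 1 / ((p : ℝ) - 1)) ≤ C0 * ((q0 * a ^ I : ℕ) : ℝ))
    (hG1 : c * I * q0 ≤ G1s (PL z (q0 * a ^ I) p1) z q0 a I)
    (hG2 : G2s (PL z (q0 * a ^ I) p1) z q0 a I ≤ C * q0)
    {h : Finset ℕ} (hk : h.card = a ^ I) (hh : ∀ x ∈ h, (x : ℝ) ≤ Real.log z ^ 2)
    (hU : ∑ n ∈ clsU (qW D a I q0 * Real.log z) (Wp z p1) c0, omU (qW D a I q0 * Real.log z) n *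
          (rhoP (P0 z p1) h n * PhW z p1 q0 a I (2 * LL D a I q0) h n ^ 2) ≤
        VP (P0 z p1) h / Wp z p1 * (3 * G2s (PL z (q0 * a ^ I) p1) z q0 a I ^ a ^ I))
    (hPr : ∀ i0 ∈ h, VP (P0 z p1) h / Wp z p1 * (G1s (PL z (q0 * a ^ I) p1) z q0 a I ^ 2 *
          G2s (PL z (q0 * a ^ I) p1) z q0 a I ^ (a ^ I - 1) / (250 * qW D a I q0)) ≤
        ∑ n ∈ (clsU (qW D a I q0 * Real.log z) (Wp z p1) c0).filter (fun n => (n + i0).Prime),
          omU (qW D a I q0 * Real.log z) n *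
            (rhoP (P0 z p1) h n * PhW z p1 q0 a I (2 * LL D a I q0) h n ^ 2)) :
    1 / ((a ^ I : ℕ) * W3_K0 C0 a D I q0 ^ 2) * (VP (P0 z p1) h / Wp z p1) ≤
      ∑ n ∈ clsU (qW D a I q0 * Real.log z) (Wp z p1) c0, omU (qW D a I q0 * Real.log z) n *
        (rhoP (P0 z p1) h n * if m ≤ (h.filter fun a => (n + a).Prime).card then 1 else 0) := by
  have hP' : ∀ p ∈ PL z (q0 * a ^ I) p1, p.Prime := fun p hp => (mem_PL.1 hp).2.1
  have hkpos : 1 ≤ a ^ I := Nat.one_le_pow _ _ (by omega)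
  have hV : 0 ≤ VP (P0 z p1) h / Wp z p1 :=
    div_nonneg (VP_nonneg _ (fun p hp => (mem_P0.1 hp).2.1) h) (Nat.cast_nonneg _)
  have hG21 : 1 ≤ G2s (PL z (q0 * a ^ I) p1) z q0 a I := one_le_G2s _ hP' (by omega)
  set x : ℝ := qW D a I q0 * Real.log z with hx
  set V : ℝ := VP (P0 z p1) h / Wp z p1 with hVdef
  set G1 : ℝ := G1s (PL z (q0 * a ^ I) p1) z q0 a I
  set G2 : ℝ := G2s (PL z (q0 * a ^ I) p1) z q0 a I
  set w : ℕ → ℝ := fun n => omU x n *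
    (rhoP (P0 z p1) h n * PhW z p1 q0 a I (2 * LL D a I q0) h n ^ 2) with hw
  set S := clsU x (Wp z p1) c0
  have hK0 : 0 < W3_K0 C0 a D I q0 := by
    unfold W3_K0
    have h1 : (0 : ℝ) < (C0 : ℝ) := by exact_mod_cast hC0
    have h2 : (0 : ℝ) < ((q0 * a ^ I : ℕ) : ℝ) := by
      exact_mod_cast Nat.mul_pos (by omega) (by omega)
    positivity
  have hkr : (0 : ℝ) < ((a ^ I : ℕ) : ℝ) := by exact_mod_cast (by omega : 0 < a ^ I)
  -- the sum with the number of primes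
  have hN : ∑ n ∈ S, w n * ((h.filter fun a => (n + a).Prime).card : ℝ) =
      ∑ i0 ∈ h, ∑ n ∈ S.filter (fun n => (n + i0).Prime), w n := by
    have e : ∀ n, w n * ((h.filter fun a => (n + a).Prime).card : ℝ) =
        ∑ i0 ∈ h, (if (n + i0).Prime then w n else 0) := by
      intro n
      rw [← Finset.sum_filter, Finset.sum_const, nsmul_eq_mul, mul_comm]
    rw [Finset.sum_congr rfl fun n _ => e n, Finset.sum_comm]
    refine Finset.sum_congr rfl fun i0 _ => ?_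
    rw [Finset.sum_filter]
  have hlow : ((a ^ I : ℕ) : ℝ) * (V * (G1 ^ 2 * G2 ^ (a ^ I - 1) / (250 * qW D a I q0))) ≤
      ∑ n ∈ S, w n * ((h.filter fun a => (n + a).Prime).card : ℝ) := by
    rw [hN]
    have h1 := Finset.sum_le_sum hPr
    rw [Finset.sum_const, hk, nsmul_eq_mul] at h1
    exact h1
  have hreal := W3_real (V := V) (G1 := G1) (G2 := G2) (C := (C : ℝ)) (D := (D : ℝ))
    (k := ((a ^ I : ℕ) : ℝ)) (I1 := (I : ℝ) + 1) (I := (I : ℝ)) (q0 := (q0 : ℝ)) (c := c) (m := (m : ℝ))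
    (j := a ^ I - 1) hV hG21 (Nat.cast_nonneg C) (by exact_mod_cast hD1) (by exact_mod_cast hkpos)
    (Nat.cast_nonneg I) rfl (by exact_mod_cast hq0) hc (Nat.cast_nonneg m) hG1 hG2 hbig
  have hqc : ((qW D a I q0 : ℕ) : ℝ) = 360 * ((D : ℝ) * ((a ^ I : ℕ) : ℝ) * ((I : ℝ) + 1) * (q0 : ℝ)) := by
    unfold qW LL
    push_cast
    ring
  rw [← hqc, Nat.sub_add_cancel hkpos] at hreal
  have hdiff : V ≤ ∑ n ∈ S, w n * (((h.filter fun a => (n + a).Prime).card : ℝ) - m) := by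
    have e : ∑ n ∈ S, w n * (((h.filter fun a => (n + a).Prime).card : ℝ) - m) =
        ∑ n ∈ S, w n * ((h.filter fun a => (n + a).Prime).card : ℝ) - m * ∑ n ∈ S, w n := by
      rw [Finset.mul_sum, ← Finset.sum_sub_distrib]
      refine Finset.sum_congr rfl fun n _ => ?_
      ring
    rw [e]
    have h1 : (m : ℝ) * ∑ n ∈ S, w n ≤ m * (V * (3 * G2 ^ a ^ I)) :=
      mul_le_mul_of_nonneg_left hU (Nat.cast_nonneg m)
    linarith
  have hpt : ∀ n ∈ S, w n * (((h.filter fun a => (n + a).Prime).card : ℝ) - m) ≤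
      ((a ^ I : ℕ) : ℝ) * W3_K0 C0 a D I q0 ^ 2 * (omU x n *
        (rhoP (P0 z p1) h n * if m ≤ (h.filter fun a => (n + a).Prime).card then 1 else 0)) := by
    intro n hn
    have hom := omU_nonneg x n
    have hrho := (rhoP_nonneg (P0 z p1) h n).1
    have hwn : 0 ≤ w n := mul_nonneg hom (mul_nonneg hrho (sq_nonneg _))
    split_ifs with hm
    · have h1 : w n ≤ omU x n * (rhoP (P0 z p1) h n * W3_K0 C0 a D I q0 ^ 2) :=
        mul_le_mul_of_nonneg_left (mul_le_mul_of_nonneg_left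
          (W3_ph ha hz hlog hS hk hh hn) hrho) hom
      have h2 : (((h.filter fun a => (n + a).Prime).card : ℝ) - m) ≤ ((a ^ I : ℕ) : ℝ) := by
        have h3 : (h.filter fun a => (n + a).Prime).card ≤ a ^ I := by
          rw [← hk]
          exact Finset.card_filter_le _ _
        have h4 : ((h.filter fun a => (n + a).Prime).card : ℝ) ≤ ((a ^ I : ℕ) : ℝ) := by
          exact_mod_cast h3
        have h5 : (0 : ℝ) ≤ (m : ℝ) := Nat.cast_nonneg m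
        linarith
      have h6 : (0 : ℝ) ≤ (((h.filter fun a => (n + a).Prime).card : ℝ) - m) := by
        have : (m : ℝ) ≤ ((h.filter fun a => (n + a).Prime).card : ℝ) := by exact_mod_cast hm
        linarith
      calc w n * (((h.filter fun a => (n + a).Prime).card : ℝ) - m)
          ≤ (omU x n * (rhoP (P0 z p1) h n * W3_K0 C0 a D I q0 ^ 2)) * ((a ^ I : ℕ) : ℝ) :=
            mul_le_mul h1 h2 h6 (hwn.trans h1)
        _ = _ := by ring
    · have h1 : (((h.filter fun a => (n + a).Prime).card : ℝ) - m) ≤ 0 := by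
        have : ((h.filter fun a => (n + a).Prime).card : ℝ) ≤ (m : ℝ) := by
          exact_mod_cast (not_le.1 hm).le
        linarith
      have h2 := mul_nonpos_of_nonneg_of_nonpos hwn h1
      rw [mul_zero, mul_zero, mul_zero]
      exact h2
  have hfin := hdiff.trans (Finset.sum_le_sum hpt)
  rw [← Finset.mul_sum] at hfin
  have hpos : 0 < ((a ^ I : ℕ) : ℝ) * W3_K0 C0 a D I q0 ^ 2 := by positivity
  rw [one_div, inv_mul_le_iff₀ hpos]
  exact hfin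

theorem mtg (hBV : BVprop) (m : ℕ) : MTg m := by
  obtain ⟨a, C, c, hs⟩ := sums
  obtain ⟨Cq, hCq1, hQ⟩ := qfp
  obtain ⟨C0, hC01, hC0⟩ := NT_S_upper
  obtain ⟨ha, hC1, hc, hc1, hsum⟩ := id hs
  obtain ⟨D, hD⟩ := exists_nat_ge (4 * (C : ℝ) / c)
  have hD' : (4 * C : ℝ) ≤ c * D := by
    rw [div_le_iff₀ hc] at hD
    linarith
  have hD1 : 1 ≤ D := by
    rcases Nat.eq_zero_or_pos D with h0 | h0
    · exfalso
      rw [h0] at hD'
      have : (1 : ℝ) ≤ (C : ℝ) := by exact_mod_cast hC1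
      simp only [Nat.cast_zero, mul_zero] at hD'
      linarith
    · exact h0
  obtain ⟨I, hI1, hI⟩ : ∃ I : ℕ, 1 ≤ I ∧
      90000 * (D : ℝ) * ((I : ℝ) + 1) * (3 * m * C + 1) ≤ c ^ 2 * (I : ℝ) ^ 2 := by
    obtain ⟨I, hI⟩ := exists_nat_ge (180000 * (D : ℝ) * (3 * m * C + 1) / c ^ 2)
    have hc2 : 0 < c ^ 2 := by positivity
    rw [div_le_iff₀ hc2] at hI
    refine ⟨I + 1, by omega, ?_⟩
    have h1 : (0 : ℝ) ≤ 3 * m * C + 1 := by positivity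
    have h2 : (1 : ℝ) ≤ (D : ℝ) := by exact_mod_cast hD1
    have h3 : (0 : ℝ) ≤ (I : ℝ) := Nat.cast_nonneg I
    push_cast
    have h4 : 180000 * (D : ℝ) * (3 * m * C + 1) * ((I : ℝ) + 1) ≤
        ((I : ℝ) + 1) * c ^ 2 * ((I : ℝ) + 1) := by
      refine mul_le_mul_of_nonneg_right ?_ (by linarith)
      nlinarith
    have h5 : 90000 * (D : ℝ) * ((I : ℝ) + 1 + 1) * (3 * m * C + 1) ≤
        180000 * (D : ℝ) * (3 * m * C + 1) * ((I : ℝ) + 1) := by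
      have h6 : 0 ≤ (D : ℝ) * (3 * m * C + 1) := by positivity
      nlinarith
    refine h5.trans (h4.trans (le_of_eq ?_))
    ring
  refine ⟨a ^ I, Nat.one_le_pow _ _ (by omega), fun q1 => ?_⟩
  obtain ⟨q0, hq1, hq0, hcq, he1, he2⟩ := params a Cq D I c (1 / 64) ha hCq1 hD1 hI1 hc
    (by norm_num) q1
  have hp : ParW C Cq a D I q0 c :=
    { sums := hs, qf := hQ Cq le_rfl, hCq := hCq1, hD := hD', hD1 := hD1, hI := hI1, hq0 := hq0,
      hq := hcq, eps1 := he1, eps2 := he2 }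
  have hapos : 0 < a ^ I := Nat.pos_of_ne_zero (pow_ne_zero _ (by omega))
  have hqq : q0 ≤ qW D a I q0 := by
    unfold qW LL
    have h1 : 1 ≤ 360 * (D * a ^ I * (I + 1)) := by
      have : 0 < D * a ^ I * (I + 1) := Nat.mul_pos (Nat.mul_pos (by omega) hapos) (by omega)
      omega
    calc q0 = 1 * q0 := (one_mul _).symm
      _ ≤ 360 * (D * a ^ I * (I + 1)) * q0 := Nat.mul_le_mul_right _ h1
      _ = 360 * (D * a ^ I * (I + 1) * q0) := by ring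
  have hq1' : 1 ≤ qW D a I q0 := hq0.trans hqq
  have hK0 : 0 < W3_K0 C0 a D I q0 := by
    unfold W3_K0
    have h1 : (0 : ℝ) < (C0 : ℝ) := by exact_mod_cast hC01
    have h2 : (0 : ℝ) < ((q0 * a ^ I : ℕ) : ℝ) := by
      exact_mod_cast Nat.mul_pos (by omega) hapos
    positivity
  have hkr : (0 : ℝ) < ((a ^ I : ℕ) : ℝ) := by exact_mod_cast hapos
  refine ⟨qW D a I q0, 1 / ((a ^ I : ℕ) * W3_K0 C0 a D I q0 ^ 2), hq1.trans hqq, hq1', by positivity, ?_⟩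
  obtain ⟨x0, hx0⟩ := hBV (2 * (a ^ I + 1) ^ 2)
  have hk1 : 1 ≤ q0 * a ^ I := Nat.mul_pos (by omega) hapos
  have hlogtop : Tendsto (fun z : ℕ => (qW D a I q0 : ℝ) * Real.log z) atTop atTop := by
    refine Tendsto.const_mul_atTop (by exact_mod_cast hq1') ?_
    exact Real.tendsto_log_atTop.comp tendsto_natCast_atTop_atTop
  have hev : ∀ᶠ z : ℕ in atTop, Real.log z ^ 2 < z := by
    have h1 : (fun x : ℝ => Real.log x ^ 2) =o[atTop] (fun x : ℝ => x) :=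
      Real.isLittleO_pow_log_id_atTop
    have h2 := h1.bound (show (0 : ℝ) < 1 / 2 by norm_num)
    have h3 := (tendsto_natCast_atTop_atTop (R := ℝ)).eventually h2
    filter_upwards [h3, eventually_ge_atTop 1] with z hz hz1
    have hz0 : (0 : ℝ) < (z : ℝ) := by exact_mod_cast hz1
    rw [Real.norm_of_nonneg (sq_nonneg _), Real.norm_of_nonneg hz0.le] at hz
    linarith
  have hall := (sideU C Cq a D I q0 c hp).and ((sideP C Cq a D I q0 c hp).and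
    ((hsum I q0 hI1 hq0).and ((hC0 (q0 * a ^ I) hk1).and (hev.and
      ((hlogtop.eventually_ge_atTop x0).and (eventually_ge_atTop 2))))))
  obtain ⟨z0, hz0⟩ := eventually_atTop.1 hall
  refine ⟨z0, fun z hz => ?_⟩
  obtain ⟨hU, hPd, hsz, hSz, hlz, hxz, hz2⟩ := hz0 z hz
  obtain ⟨p1, hp1, Dv, hDv⟩ := hx0 _ hxz
  refine ⟨p1, hp1, fun c0 h hcard hh => ?_⟩
  have hs1 := hsz p1
  exact W3_core (C := C) (by omega) hc hD1 hq0 hC01 hI hz2 hlz hSz hs1.1 hs1.2.2.2.1 hcard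
    (fun x hx => (hh x hx).1) (hU p1 hp1 c0 h hcard fun x hx => (hh x hx).1)
    (fun i0 hi0 => hPd p1 hp1 Dv hDv c0 h hcard hh i0 hi0)

end Pool.Agent.LibPL63
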